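import Mathlib.MeasureTheory.Integral.Bochner.Basic
import Mathlib.MeasureTheory.Measure.Haar.OfBasis
import Mathlib.LinearAlgebra.Complex.FiniteDimensional
import Mathlib.Analysis.Calculus.ContDiff.Defs
import Mathlib.Analysis.CStarAlgebra.Classes
import Mathlib.Order.CompletePartialOrder

set_option autoImplicit false
open MeasureTheory

namespace Pool.Agent.MP_44cb5f_an

/-- The class of nonempty bounded open convex subsets of the Euclidean plane `ℂ`. -/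
def Adm (Ω : Set ℂ) : Prop :=
  Ω.Nonempty ∧ Bornology.IsBounded Ω ∧ IsOpen Ω ∧ Convex ℝ Ω

/-- First Dirichlet eigenvalue: the infimum of the Rayleigh quotient over nonzero smooth
functions with compact support in `Ω`. -/
noncomputable def lam1 (Ω : Set ℂ) : ℝ :=
  sInf {q : ℝ | ∃ u : ℂ → ℝ, ContDiff ℝ ((⊤ : ℕ∞) : WithTop ℕ∞) u ∧ HasCompactSupport u ∧
    tsupport u ⊆ Ω ∧ u ≠ 0 ∧ q = (∫ z, ‖fderiv ℝ u z‖ ^ 2) / ∫ z, u z ^ 2}

/-- Divergence of a plane vector field. -/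
noncomputable def dvg (φ : ℂ → ℂ) (z : ℂ) : ℝ :=
  (fderiv ℝ φ z 1).re + (fderiv ℝ φ z Complex.I).im

/-- Distributional (De Giorgi) perimeter, measured in the whole plane. -/
noncomputable def per (E : Set ℂ) : ENNReal :=
  ⨆ φ : {φ : ℂ → ℂ // ContDiff ℝ 1 φ ∧ HasCompactSupport φ ∧ ∀ z, ‖φ z‖ ≤ 1},
    ENNReal.ofReal (∫ z in E, dvg φ.1 z)

/-- Cheeger constant. -/
noncomputable def chee (Ω : Set ℂ) : ℝ :=
  (⨅ E : {E : Set ℂ // MeasurableSet E ∧ E ⊆ Ω ∧ 0 < volume E}, per E.1 / volume E.1).toReal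

/-- The functional of the problem. -/
noncomputable def J (Ω : Set ℂ) : ℝ := lam1 Ω / chee Ω ^ 2

/-- Minimisers of `J` in the class `Adm`. -/
def IsMin (Ω : Set ℂ) : Prop := Adm Ω ∧ ∀ Ω' : Set ℂ, Adm Ω' → J Ω ≤ J Ω'

end Pool.Agent.MP_44cb5f_an
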