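import Mathlib.Topology.Sheaves.Presheaf
import Mathlib.Tactic.Monotonicity.Lemmas
import Mathlib.RingTheory.Flat.TorsionFree
import Mathlib.Algebra.Order.Ring.Star
import Mathlib.Algebra.Order.Star.Real
import Mathlib.MeasureTheory.Integral.IntervalIntegral.Periodic
import Mathlib.MeasureTheory.Measure.Lebesgue.Complex
import Mathlib.Analysis.Calculus.BumpFunction.Normed
import Mathlib.Analysis.Calculus.Rademacher
import Mathlib.MeasureTheory.Integral.IntervalIntegral.AbsolutelyContinuousFun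
import Mathlib.Analysis.Complex.Isometry
import Mathlib.Analysis.SpecialFunctions.Integrals.Basic
import Mathlib.Combinatorics.SimpleGraph.Basic
import Mathlib.MeasureTheory.Integral.Layercake
import Mathlib.RingTheory.PiTensorProduct
import Mathlib.RingTheory.TotallySplit
import Mathlib.RingTheory.Etale.Weakly
import Mathlib.Topology.UniformSpace.Uniformizable
import Pool.Agent.MP_44cb5f_an.Defs

-- ======== part 0: formerly Pool.Agent.MP_44cb5f_an.Spec
section MrgPart0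

set_option autoImplicit false
open MeasureTheory Set Metric
open scoped Pointwise

namespace Pool.Agent.MP_44cb5f_an

/-! Auxiliary definitions and the statements of the rows of the polygon theorem. -/

/-- Lipschitz test functions. -/
def TF (Ω : Set ℂ) (u : ℂ → ℝ) : Prop :=
  (∃ C, LipschitzWith C u) ∧ HasCompactSupport u ∧ tsupport u ⊆ Ω

/-- Smooth test functions. -/
def SF (Ω : Set ℂ) (u : ℂ → ℝ) : Prop :=
  ContDiff ℝ ((⊤ : ℕ∞) : WithTop ℕ∞) u ∧ HasCompactSupport u ∧ tsupport u ⊆ Ω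

noncomputable def En (u : ℂ → ℝ) : ℝ := ∫ z, ‖fderiv ℝ u z‖ ^ 2

noncomputable def Ma (u : ℂ → ℝ) : ℝ := ∫ z, u z ^ 2

/-- The bilinear form of `En - l * Ma`. -/
noncomputable def Bq (l : ℝ) (u v : ℂ → ℝ) : ℝ :=
  (∫ z, (fderiv ℝ u z 1 * fderiv ℝ v z 1 + fderiv ℝ u z Complex.I * fderiv ℝ v z Complex.I))
    - l * ∫ z, u z * v z

def dot (a b : ℂ) : ℝ := a.re * b.re + a.im * b.im

/-- Distance to the complement. -/
noncomputable def dep (Ω : Set ℂ) (z : ℂ) : ℝ := infDist z Ωᶜ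

/-- Open inner parallel set. -/
def In (Ω : Set ℂ) (σ : ℝ) : Set ℂ := {z | σ < dep Ω z}

/-- Closed inner parallel set at distance one. -/
def Kc (Ω : Set ℂ) : Set ℂ := {z | 1 ≤ dep Ω z}

noncomputable def Ar (Ω : Set ℂ) (σ : ℝ) : ℝ := (volume (In Ω σ)).toReal

/-- The point with abscissa `s` on the line of direction `α` and offset `b`. -/
noncomputable def ln (α b s : ℝ) : ℂ :=
  ⟨s * Real.cos α - b * Real.sin α, s * Real.sin α + b * Real.cos α⟩

/-- The offset of the line of direction `α` through `z`. -/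
noncomputable def prj (α : ℝ) (z : ℂ) : ℝ := z.im * Real.cos α - z.re * Real.sin α

/-- Measure of the oriented lines meeting `F` (twice the perimeter for convex `F`). -/
noncomputable def PC (F : Set ℂ) : ENNReal :=
  ∫⁻ α in Ioo (0 : ℝ) (2 * Real.pi), volume (prj α '' F)

/-- `θ` is a unit outer normal of `K` at `k`. -/
def Nrm (K : Set ℂ) (k θ : ℂ) : Prop := k ∈ K ∧ ‖θ‖ = 1 ∧ ∀ z ∈ K, dot (z - k) θ ≤ 0

/-- `θ` is the only unit outer normal of `K` at `k`. -/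
def Sm (K : Set ℂ) (k θ : ℂ) : Prop := Nrm K k θ ∧ ∀ θ', Nrm K k θ' → θ' = θ

/-- Square of the weight centred at `z0` with scale `d`. -/
noncomputable def wt (z0 : ℂ) (d : ℝ) (z : ℂ) : ℝ := (‖z - z0‖ ^ 2 + d ^ 2) ^ (-(3 / 4 : ℝ))

noncomputable def ph (p : ℝ) : ℝ := Real.sqrt (1 + p ^ 2)

/-- The slope `p` is the only slope of a line of `F` that touches `g` at `x`. -/
def SA (F : Set (ℝ × ℝ)) (g : ℝ → ℝ) (p x : ℝ) : Prop :=
  (p, g x - p * x) ∈ F ∧ ∀ p', (p', g x - p' * x) ∈ F → p' = p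

/-- A closed family of lines `x ↦ l.1 * x + l.2`, its upper envelope `g`, the upper envelope `f`
of the lines moved down by Euclidean distance one, and choices of touching slopes. -/
structure Env where
  F : Set (ℝ × ℝ)
  g : ℝ → ℝ
  f : ℝ → ℝ
  sl : ℝ → ℝ
  sf : ℝ → ℝ
  closed : IsClosed F
  slope : ∀ l ∈ F, |l.1| ≤ 1
  g_ge : ∀ l ∈ F, ∀ x, l.1 * x + l.2 ≤ g x
  g_eq : ∀ x, (sl x, g x - sl x * x) ∈ F
  f_ge : ∀ l ∈ F, ∀ u, l.1 * u + l.2 - ph l.1 ≤ f u
  f_eq : ∀ u, (sf u, f u + ph (sf u) - sf u * u) ∈ F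
  dense : ∀ l ∈ F, ∀ ε > 0, ∃ p x, SA F g p x ∧ |p - l.1| < ε

/-- Abscissa of the contact point on the graph of `f` that belongs to `x`. -/
noncomputable def Env.ct (E : Env) (x : ℝ) : ℝ := x + E.sl x / ph (E.sl x)

/-- Value at `x` of the perturbed line with contact parameter `y`, moved up by distance one. -/
noncomputable def Env.Lam (E : Env) (q V : ℝ → ℝ) (t y x : ℝ) : ℝ :=
  E.g y + E.sl y * (x - y) + t * (V (E.ct y) + q (E.sl y) * (x - y))
    + (ph (E.sl y + t * q (E.sl y)) - ph (E.sl y) - E.sl y / ph (E.sl y) * (t * q (E.sl y)))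

/-- A profile that climbs from `0` to `1` inside `[c - d, c + d]`. -/
def Prof (V : ℝ → ℝ) (c d : ℝ) : Prop :=
  0 < d ∧ (∀ u v, |V u - V v| ≤ 2 / d * |u - v|) ∧ (∀ u, 0 ≤ V u ∧ V u ≤ 1) ∧
    (∀ u, u ≤ c - d → V u = 0) ∧ ∀ u, c + d ≤ u → V u = 1

/-- Centres of open unit discs that lie above the graph of `h` lie on or above the graph of `l`. -/
def Below (h l : ℝ → ℝ) : Prop :=
  ∀ x y, (∀ u v, (u - x) ^ 2 + (v - y) ^ 2 < 1 → h u < v) → l x ≤ y

/-! ### Row LAM -/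

def SDiv : Prop :=
  ∀ (G : ℂ → ℝ) (C : NNReal), LipschitzWith C G → HasCompactSupport G →
    ∀ v : ℂ, ∫ z, fderiv ℝ G z v = 0

def SLam : Prop := ∀ (Ω : Set ℂ) (u : ℂ → ℝ), IsOpen Ω → TF Ω u → lam1 Ω * Ma u ≤ En u

def SNear : Prop :=
  ∀ Ω : Set ℂ, IsOpen Ω → Ω.Nonempty → ∀ δ > 0, ∃ u, SF Ω u ∧ Ma u = 1 ∧ En u ≤ lam1 Ω + δ

def SCS : Prop :=
  ∀ (Ω : Set ℂ) (u v : ℂ → ℝ), IsOpen Ω → TF Ω u → TF Ω v →
    Bq (lam1 Ω) u v ^ 2 ≤ (En u - lam1 Ω * Ma u) * (En v - lam1 Ω * Ma v)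

/-! ### Rows SL, QC, CO -/

def SSL : Prop :=
  ∀ (u : ℂ → ℝ) (C : NNReal), LipschitzWith C u →
    4 * ∫⁻ z, ‖fderiv ℝ u z‖ₑ =
      ∫⁻ α in Ioo (0 : ℝ) (2 * Real.pi), ∫⁻ b : ℝ, ∫⁻ s : ℝ, ‖deriv (fun s => u (ln α b s)) s‖ₑ

def SQC : Prop :=
  ∀ (u : ℂ → ℝ) (C : NNReal), LipschitzWith C u → HasCompactSupport u → (∀ z, 0 ≤ u z) →
    (∀ τ : ℝ, Convex ℝ {z | τ < u z}) →
    2 * ∫⁻ z, ‖fderiv ℝ u z‖ₑ = ∫⁻ τ in Ioi (0 : ℝ), PC {z | τ < u z}

def SCO : Prop :=
  ∀ (u : ℂ → ℝ) (C : NNReal) (ρ : ℝ), LipschitzWith C u → HasCompactSupport u → (∀ z, 0 ≤ u z) →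
    (∀ G : Set ℂ, IsOpen G → IsPreconnected G → G ⊆ {z | 0 < u z} →
      2 * volume G ≤ ENNReal.ofReal ρ * PC G) →
    ∫⁻ z, ENNReal.ofReal (u z) ≤ ENNReal.ofReal ρ * ∫⁻ z, ‖fderiv ℝ u z‖ₑ

/-! ### Row PC -/

def SPC : Prop :=
  (∀ (F : Set ℂ) (s : ℝ), Convex ℝ F → F.Nonempty → Bornology.IsBounded F → 0 < s →
      PC (F + ball (0 : ℂ) s) = PC F + ENNReal.ofReal (4 * Real.pi * s)) ∧
  (∀ G : Set ℂ, IsPreconnected G → PC (convexHull ℝ G) = PC G) ∧
  (∀ (F : Set ℂ) (c : ℝ) (w : ℂ), 0 ≤ c →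
      PC ((fun z => (c : ℂ) * z + w) '' F) = ENNReal.ofReal c * PC F) ∧
  (∀ (F : Set ℂ) (w : ℂ) (R : ℝ), F ⊆ ball w R → PC F ≤ ENNReal.ofReal (4 * Real.pi * R))

def SSand : Prop :=
  ∀ (A B : Set ℂ) (ε : ℝ), Adm B → 0 ≤ ε → A ⊆ B + closedBall (0 : ℂ) ε →
    ∀ z, dep A z ≤ dep B z + ε

/-! ### Row ST -/

def SST : Prop :=
  ∀ (Ω : Set ℂ) (a b : ℝ), Adm Ω → 0 ≤ a → a ≤ b →
    2 * volume (In Ω a) = 2 * volume (In Ω b) + ∫⁻ s in Ioo a b, PC (In Ω s)

def SPer : Prop := ∀ C : Set ℂ, Adm C → 2 * per C ≤ PC C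

/-! ### Rows KLA, KLB -/

def SKL1 : Prop :=
  ∀ (Ω : Set ℂ) (ρ : ℝ), Adm Ω → 0 < ρ → volume (In Ω ρ) ≤ ENNReal.ofReal (Real.pi * ρ ^ 2) →
    ∀ E : Set ℂ, MeasurableSet E → E ⊆ Ω → volume E ≤ ENNReal.ofReal ρ * per E

def SK1 : Prop :=
  ∀ (Ω : Set ℂ) (ρ : ℝ), Adm Ω → 0 < ρ → Ar Ω ρ ≤ Real.pi * ρ ^ 2 → 1 / ρ ≤ chee Ω

def SK2 : Prop :=
  ∀ Ω : Set ℂ, Adm Ω → (∃ r, 0 < r ∧ Ar Ω r = Real.pi * r ^ 2) ∧
    ∀ r, 0 < r → Ar Ω r = Real.pi * r ^ 2 → chee Ω = 1 / r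

/-! ### Row RAD -/

def SRad : Prop :=
  ∀ R : ℝ, ∃ c C ε0 : ℝ, 0 < c ∧ 0 < ε0 ∧
    ∀ (Ω A B : Set ℂ) (ε G : ℝ), Adm Ω → Adm A → Adm B → Ω ⊆ ball (0 : ℂ) R →
      Ar Ω 1 = Real.pi → 0 < ε → ε ≤ ε0 →
      A ⊆ Ω + closedBall (0 : ℂ) ε → Ω ⊆ A + closedBall (0 : ℂ) ε →
      B ⊆ Ω + closedBall (0 : ℂ) ε → Ω ⊆ B + closedBall (0 : ℂ) ε →
      0 ≤ G → Ar A 1 + Ar B 1 ≤ 2 * Real.pi - G →
      ∃ ρ σ : ℝ, 0 < ρ ∧ 0 < σ ∧ Ar A ρ ≤ Real.pi * ρ ^ 2 ∧ Ar B σ ≤ Real.pi * σ ^ 2 ∧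
        ρ + σ ≤ 2 - c * G + C * ε ^ 2

/-! ### Rows HARDY, IMS -/

def SHalf : Prop :=
  ∀ (u : ℂ → ℝ) (z0 n : ℂ), ContDiff ℝ 1 u → HasCompactSupport u → ‖n‖ = 1 →
    tsupport u ⊆ {z | 0 < dot (z - z0) n} → ∫ z, u z ^ 2 / ‖z - z0‖ ^ 2 ≤ En u

def SStrip : Prop :=
  ∀ (Ω : Set ℂ) (n : ℂ) (m w : ℝ), IsOpen Ω → Ω.Nonempty → ‖n‖ = 1 → 0 < w →
    (∀ z ∈ Ω, |dot z n - m| < w / 2) → (Real.pi / w) ^ 2 ≤ lam1 Ω

def SIms : Prop :=
  ∃ C : ℝ, ∀ (Ω : Set ℂ) (z0 n : ℂ) (d : ℝ), IsOpen Ω → lam1 Ω ≤ 2 → ‖n‖ = 1 → 0 < d →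
    (∀ z ∈ Ω, 0 < dot (z - z0) n) →
    ∃ δ > 0, ∀ u, SF Ω u → Ma u = 1 → En u ≤ lam1 Ω + δ →
      ∫ z, wt z0 d z * ‖fderiv ℝ u z‖ ^ 2 ≤ C ∧ ∫ z, wt z0 d z * u z ^ 2 ≤ C

/-! ### Rows SHEAR, STRICT, SIM -/

def SShear : Prop :=
  ∀ (Ω A B : Set ℂ) (W u : ℂ → ℝ) (K : NNReal) (t : ℝ), IsOpen A → IsOpen B →
    LipschitzWith K W → 0 ≤ t → t * K ≤ 1 / 2 → SF Ω u → Ma u = 1 →
    (∀ z ∈ Ω, z + ((t * W z : ℝ) : ℂ) * Complex.I ∈ A) →
    (∀ z ∈ Ω, z - ((t * W z : ℝ) : ℂ) * Complex.I ∈ B) →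
    lam1 A * lam1 B * (1 - t ^ 2 * ∫ z, ‖fderiv ℝ W z‖ ^ 2 * u z ^ 2) ≤
      (En u + 2 * t ^ 2 * ∫ z, ‖fderiv ℝ W z‖ ^ 2 * ‖fderiv ℝ u z‖ ^ 2) ^ 2

def SStrict : Prop :=
  ∀ Ω Ω' : Set ℂ, Adm Ω → Adm Ω' → Ω ⊆ Ω' → lam1 Ω ≤ lam1 Ω' → Ω = Ω'

def SSim : Prop :=
  ∀ (Ω : Set ℂ) (c w : ℂ), c ≠ 0 →
    (∀ z, dep ((fun z => c * z + w) '' Ω) (c * z + w) = ‖c‖ * dep Ω z) ∧
    (∀ σ, Ar ((fun z => c * z + w) '' Ω) (‖c‖ * σ) = ‖c‖ ^ 2 * Ar Ω σ) ∧
    (IsMin Ω → IsMin ((fun z => c * z + w) '' Ω))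

/-! ### Rows GEO, VERT, MAX -/

def SGeo : Prop :=
  ∀ K : Set ℂ, IsCompact K → Convex ℝ K → (interior K).Nonempty →
    ∀ z, (∀ k θ, Sm K k θ → dot (z - k) θ ≤ 0) → z ∈ K

def SVert : Prop :=
  ∀ (T : Finset ℂ) (h : ℂ → ℝ), Bornology.IsBounded {z | ∀ θ ∈ T, dot z θ ≤ h θ} →
    ∃ S : Finset ℂ, S.card ≤ T.card ^ 2 ∧ {z | ∀ θ ∈ T, dot z θ ≤ h θ} = convexHull ℝ (S : Set ℂ)

def SMax : Prop :=
  ∀ Ω : Set ℂ, IsMin Ω → Ar Ω 1 = Real.pi →
    Bornology.IsBounded {z | ∀ k θ, Sm (Kc Ω) k θ → dot (z - k) θ ≤ 1} ∧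
    Ω = interior {z | ∀ k θ, Sm (Kc Ω) k θ → dot (z - k) θ ≤ 1}

/-! ### Rows DISC, ELONG -/

def SVal : Prop := ∀ Ω : Set ℂ, IsMin Ω → Ar Ω 1 = Real.pi → lam1 Ω ≤ 154 / 100

def SElong : Prop :=
  ∃ R : ℝ, ∀ Ω : Set ℂ, Adm Ω → Ar Ω 1 = Real.pi → lam1 Ω ≤ 154 / 100 → ∃ w, Ω ⊆ ball w R

/-! ### Rows OD1, OD2, OD3, OD4 -/

def SOD1 : Prop :=
  ∀ E : Env,
    Monotone E.sl ∧ Monotone E.sf ∧
    (∀ x y, |E.g x - E.g y| ≤ |x - y|) ∧ (∀ u v, |E.f u - E.f v| ≤ |u - v|) ∧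
    (∀ p x, (p, E.g x - p * x) ∈ E.F →
      E.f (x + p / ph p) = E.g x + p * (p / ph p) - ph p ∧
      (∀ u, u < x + p / ph p → E.sf u ≤ p) ∧ (∀ u, x + p / ph p < u → p ≤ E.sf u)) ∧
    (∀ (q : ℝ → ℝ) (L : NNReal) (u0 t : ℝ), LipschitzWith L q → |t| * L ≤ 1 →
      ConvexOn ℝ univ (fun u => E.f u + t * ∫ v in u0..u, q (E.sf v)) ∧
      ∀ y x v, (∀ a b, (a - x) ^ 2 + (b - v) ^ 2 < 1 →
          E.f a + t * (∫ w in u0..a, q (E.sf w)) < b) →
        E.Lam q (fun u => ∫ w in u0..u, q (E.sf w)) t y x ≤ v) ∧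
    (∀ p s : ℝ, |p| ≤ 1 → |s| ≤ 2 →
      s ^ 2 / 50 ≤ ph (p + s) - ph p - p / ph p * s ∧ ph (p + s) - ph p - p / ph p * s ≤ s ^ 2)

def SOD2 : Prop :=
  ∀ (m : ℝ → ℝ) (c0 c1 c2 u1 u2 u3 u4 : ℝ), Monotone m → c0 < c1 → c1 < c2 →
    u2 < u3 → (∀ u, c0 < m u → u1 ≤ u) → (∀ u ∈ Ioo u2 u3, c0 < m u ∧ m u ≤ c1) →
    (∀ u, m u < c2 → u ≤ u4) →
    ∃ (q : ℝ → ℝ) (L : NNReal) (a d P : ℝ), LipschitzWith L q ∧ c0 < P ∧ P ≤ c1 ∧
      (∀ p, 0 ≤ q p ∧ q p ≤ a) ∧ (∀ p, p ≤ c0 → q p = 0) ∧ (∀ p, c2 ≤ p → q p = 0) ∧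
      (∀ p ∈ Icc P c1, q p = a) ∧ 1 / d ≤ a ∧ d ≤ u4 - u1 ∧
      d / 2 ≤ (volume {u | m u ∈ Icc P c1}).toReal ∧
      ∀ u0, u0 ≤ u1 → Prof (fun u => ∫ v in u0..u, q (m v)) u2 d

def SOD3 : Prop :=
  ∃ c : ℝ, 0 < c ∧ ∀ (E : Env) (qa qb : ℝ → ℝ) (L : NNReal) (a P1 P2 u0 yL yL' yR' yR x0 : ℝ),
    LipschitzWith L qa → LipschitzWith L qb → 0 < a → (∀ p, 0 ≤ qa p ∧ qa p ≤ a) →
    (∀ p, 0 ≤ qb p) → (∀ p ∈ Icc P1 P2, qa p = a) →
    (∀ p ∈ Icc (E.sl yL) (E.sl yR), qb p = 0) → yL < yL' → yR' < yR →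
    E.sl yL' < P1 → P2 < E.sl yR' → E.sl x0 ∈ Icc P1 P2 →
    0 < (volume {u | E.sf u ∈ Icc P1 P2}).toReal →
    ∃ C t0 : ℝ, 0 < t0 ∧ ∀ t ∈ Ioc 0 t0, ∃ y : ℝ → ℝ, Measurable y ∧
      (∀ x, x ∉ Icc yL yR → y x = x) ∧ (∀ x, |y x - x| ≤ C * t) ∧
      ∀ A B, A ≤ yL → yR ≤ B →
        c * t ^ 2 * a ^ 2 * (volume {u | E.sf u ∈ Icc P1 P2}).toReal ≤
          ∫ x in A..B,
            (E.Lam (fun p => qa p - qb p) (fun u => ∫ w in u0..u, (qa (E.sf w) - qb (E.sf w)))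
                t (y x) x
              + E.Lam (fun p => qa p - qb p)
                (fun u => ∫ w in u0..u, (qa (E.sf w) - qb (E.sf w))) (-t) x x - 2 * E.g x)

def SOneD : Prop :=
  ∃ c : ℝ, 0 < c ∧ ∀ (E : Env) (y : ℕ → ℝ), (∀ i < 9, y i < y (i + 1)) →
    (∀ i < 9, E.sl (y i) < E.sl (y (i + 1))) →
    ∃ (Va Vb : ℝ → ℝ) (ca cb da db : ℝ), Prof Va ca da ∧ Prof Vb cb db ∧ da ≤ db ∧
      db ≤ E.ct (y 9) - E.ct (y 0) ∧ ca ∈ Icc (E.ct (y 0)) (E.ct (y 9)) ∧
      cb ∈ Icc (E.ct (y 0)) (E.ct (y 9)) ∧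
      ∃ C t0 : ℝ, 0 < t0 ∧ ∀ t ∈ Ioc 0 t0,
        ConvexOn ℝ univ (fun u => E.f u + t * (Va u - Vb u)) ∧
        ConvexOn ℝ univ (fun u => E.f u - t * (Va u - Vb u)) ∧
        ∃ lp lm : ℝ → ℝ, Measurable lp ∧ Measurable lm ∧
          Below (fun u => E.f u + t * (Va u - Vb u)) lp ∧
          Below (fun u => E.f u - t * (Va u - Vb u)) lm ∧
          (∀ x, x ∉ Icc (y 0) (y 9) → lp x = E.g x ∧ lm x = E.g x) ∧
          (∀ x, |lp x - E.g x| ≤ C * t ∧ |lm x - E.g x| ≤ C * t) ∧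
          c * t ^ 2 / da ≤ ∫ x in y 0..y 9, (lp x + lm x - 2 * E.g x)

/-! ### Rows W, AREA, CHART -/

def SW : Prop :=
  ∃ C : ℝ, 0 ≤ C ∧ ∀ (f Va Vb : ℝ → ℝ) (ca cb da db : ℝ), (∀ u v, |f u - f v| ≤ |u - v|) →
    Prof Va ca da → Prof Vb cb db → da ≤ db →
    ∃ (W : ℂ → ℝ) (K : NNReal), LipschitzWith K W ∧ (∀ z, |W z| ≤ 1) ∧
      (∀ z, z.im ≤ f z.re → W z = Va z.re - Vb z.re) ∧
      (∀ z, W z ≠ 0 → z.im < f z.re + 1 / 100 ∧ |z.re - ca| ≤ |ca - cb| + db + 1 / 100) ∧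
      ∀ z, f z.re ≤ z.im → ‖fderiv ℝ W z‖ ^ 2 ≤
        C * (wt ⟨ca, f ca⟩ da z / Real.sqrt da + wt ⟨cb, f cb⟩ db z / Real.sqrt db + 1)

def SArea : Prop :=
  ∀ (K K' A B : Set ℂ) (g lp lm : ℝ → ℝ) (a b η : ℝ), IsCompact K → Continuous g →
    Measurable lp → Measurable lm → a ≤ b → K = {z | g z.re ≤ z.im} ∩ K' →
    A ⊆ {z | lp z.re ≤ z.im} ∩ K' → B ⊆ {z | lm z.re ≤ z.im} ∩ K' →
    (∀ x, x ∉ Icc a b → lp x = g x ∧ lm x = g x) →
    (∀ x, |lp x - g x| ≤ η ∧ |lm x - g x| ≤ η) →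
    (∀ z : ℂ, z.re ∈ Icc a b → g z.re ≤ z.im → z.im ≤ g z.re + η → z ∈ K) →
    (volume A).toReal + (volume B).toReal ≤
      2 * (volume K).toReal - ∫ x in a..b, (lp x + lm x - 2 * g x)

def SChart : Prop :=
  ∀ (Ω K : Set ℂ) (k θ : ℕ → ℂ), IsCompact K → Convex ℝ K →
    (∀ z, (∀ k θ, Sm K k θ → dot (z - k) θ ≤ 0) → z ∈ K) →
    Ω = interior {z | ∀ k θ, Sm K k θ → dot (z - k) θ ≤ 1} →
    (∀ i ≤ 11, Sm K (k i) (θ i)) → (∀ i ≤ 11, (θ i).im < 0 ∧ |(θ i).re / (θ i).im| ≤ 1 / 10) →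
    (∀ i < 11, -((θ i).re / (θ i).im) < -((θ (i + 1)).re / (θ (i + 1)).im)) →
    ∃ (E : Env) (Ω' K' : Set ℂ), IsOpen Ω' ∧ Convex ℝ Ω' ∧
      Ω = {z | E.f z.re < z.im} ∩ Ω' ∧ K = {z | E.g z.re ≤ z.im} ∩ K' ∧
      (∀ z, ball z 1 ⊆ Ω' → z ∈ K') ∧
      (∀ i ≤ 11, E.sl (k i).re = -((θ i).re / (θ i).im) ∧ E.ct (k i).re = (k i + θ i).re) ∧
      (∀ i < 11, (k i).re < (k (i + 1)).re) ∧
      ball (⟨E.ct (k 1).re, E.f (E.ct (k 1).re)⟩ : ℂ) (1 / 10) ⊆ Ω' ∧
      ∃ η > 0, ∀ z : ℂ, z.re ∈ Icc (k 1).re (k 10).re → E.g z.re ≤ z.im →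
        z.im ≤ E.g z.re + η → z ∈ K

/-! ### Rows CORE, TOP -/

def SCore : Prop :=
  ∀ R : ℝ, ∃ δ > 0, ∀ (Ω : Set ℂ) (k θ : ℕ → ℂ), IsMin Ω → Ar Ω 1 = Real.pi →
    Ω ⊆ ball (0 : ℂ) R → (∀ i ≤ 11, Sm (Kc Ω) (k i) (θ i)) →
    (∀ i ≤ 11, (θ i).im < 0 ∧ |(θ i).re / (θ i).im| ≤ 1 / 10) →
    (∀ i < 11, -((θ i).re / (θ i).im) < -((θ (i + 1)).re / (θ (i + 1)).im)) →
    (k 10 + θ 10).re - (k 1 + θ 1).re ≤ δ → False

def STop : Prop :=
  ∃ N : ℕ, ∀ Ω : Set ℂ, IsMin Ω →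
    ∃ S : Finset ℂ, S.card ≤ N ∧ Ω = interior (convexHull ℝ (S : Set ℂ))

end Pool.Agent.MP_44cb5f_an

end MrgPart0

-- ======== part 1: formerly Pool.Agent.MP_44cb5f_an.Base
section MrgPart1

set_option autoImplicit false
open MeasureTheory Set Metric
open scoped Pointwise

namespace Pool.Agent.MP_44cb5f_an

theorem dot_eq_inner (a b : ℂ) : dot a b = inner ℝ a b := by
  simp [dot, Complex.inner, mul_comm]

theorem abs_dot_le (a b : ℂ) : |dot a b| ≤ ‖a‖ * ‖b‖ := by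
  rw [dot_eq_inner]; exact abs_real_inner_le_norm a b

theorem dot_self (a : ℂ) : dot a a = ‖a‖ ^ 2 := by
  rw [dot_eq_inner, real_inner_self_eq_norm_sq]

theorem norm_sq_eq (a : ℂ) : ‖a‖ ^ 2 = a.re ^ 2 + a.im ^ 2 := by
  rw [← dot_self]; simp [dot]; ring

theorem clm_apply (L : ℂ →L[ℝ] ℝ) (z : ℂ) : L z = dot z ⟨L 1, L Complex.I⟩ := by
  have h : z = z.re • (1 : ℂ) + z.im • Complex.I := by
    apply Complex.ext <;> simp
  conv_lhs => rw [h]
  rw [map_add, map_smul, map_smul]; simp [dot]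

theorem clm_norm (L : ℂ →L[ℝ] ℝ) : ‖L‖ = ‖(⟨L 1, L Complex.I⟩ : ℂ)‖ := by
  set a : ℂ := ⟨L 1, L Complex.I⟩ with ha
  apply le_antisymm
  · refine L.opNorm_le_bound (norm_nonneg _) fun z => ?_
    rw [clm_apply, Real.norm_eq_abs, mul_comm]; exact abs_dot_le _ _
  · have h1 : ‖a‖ ^ 2 ≤ ‖L‖ * ‖a‖ := by
      have := L.le_opNorm a
      rw [clm_apply L a, ← ha, dot_self, Real.norm_eq_abs] at this
      exact (le_abs_self _).trans this
    rcases (norm_nonneg a).eq_or_lt with h | h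
    · rw [← h]; exact norm_nonneg _
    · nlinarith

theorem clm_norm_sq (L : ℂ →L[ℝ] ℝ) : ‖L‖ ^ 2 = L 1 ^ 2 + L Complex.I ^ 2 := by
  rw [clm_norm, norm_sq_eq]

/-- Separation of a point from a nonempty open convex set by a unit vector. -/
theorem exists_unit_sep {B : Set ℂ} (hB : Convex ℝ B) (ho : IsOpen B) (hne : B.Nonempty) {w : ℂ}
    (hw : w ∉ B) : ∃ θ : ℂ, ‖θ‖ = 1 ∧ ∀ x ∈ B, dot (x - w) θ < 0 := by
  obtain ⟨L, hL⟩ := geometric_hahn_banach_open_point hB ho hw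
  set a : ℂ := ⟨L 1, L Complex.I⟩ with ha
  have h1 : ∀ x ∈ B, dot (x - w) a < 0 := fun x hx => by
    have := hL x hx
    rw [← clm_apply, map_sub]; linarith
  have h0 : a ≠ 0 := by
    obtain ⟨x, hx⟩ := hne
    intro h
    have := h1 x hx
    rw [h] at this; simp [dot] at this
  have hp : 0 < ‖a‖ := norm_pos_iff.2 h0
  refine ⟨(‖a‖⁻¹ : ℝ) • a, ?_, fun x hx => ?_⟩
  · rw [norm_smul, norm_inv, norm_norm, inv_mul_cancel₀ hp.ne']
  · have e : dot (x - w) ((‖a‖⁻¹ : ℝ) • a) = ‖a‖⁻¹ * dot (x - w) a := by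
      simp [dot]; ring
    rw [e]; exact mul_neg_of_pos_of_neg (inv_pos.2 hp) (h1 x hx)

theorem lam1_bdd (Ω : Set ℂ) : ∀ q ∈ {q : ℝ | ∃ u : ℂ → ℝ,
    ContDiff ℝ ((⊤ : ℕ∞) : WithTop ℕ∞) u ∧ HasCompactSupport u ∧
    tsupport u ⊆ Ω ∧ u ≠ 0 ∧ q = (∫ z, ‖fderiv ℝ u z‖ ^ 2) / ∫ z, u z ^ 2}, 0 ≤ q := by
  rintro q ⟨u, -, -, -, -, rfl⟩
  exact div_nonneg (integral_nonneg fun _ => sq_nonneg _) (integral_nonneg fun _ => sq_nonneg _)

theorem lam1_nonneg (Ω : Set ℂ) : 0 ≤ lam1 Ω := Real.sInf_nonneg (lam1_bdd Ω)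

theorem exists_SF {Ω : Set ℂ} (ho : IsOpen Ω) (hne : Ω.Nonempty) : ∃ u, SF Ω u ∧ u ≠ 0 := by
  obtain ⟨x, hx⟩ := hne
  obtain ⟨u, h1, h2, h3, -, h5⟩ := exists_contDiff_tsupport_subset (n := ⊤) (ho.mem_nhds hx)
  refine ⟨u, ⟨h3, h2, h1⟩, fun h => ?_⟩
  rw [h] at h5; simp at h5

theorem lam1_mono {Ω Ω' : Set ℂ} (ho : IsOpen Ω) (hne : Ω.Nonempty) (h : Ω ⊆ Ω') :
    lam1 Ω' ≤ lam1 Ω := by
  obtain ⟨u, ⟨h1, h2, h3⟩, h4⟩ := exists_SF ho hne
  refine csInf_le_csInf ⟨0, lam1_bdd Ω'⟩ ⟨_, u, h1, h2, h3, h4, rfl⟩ ?_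
  rintro q ⟨v, a, b, c, d, e⟩
  exact ⟨v, a, b, c.trans h, d, e⟩

theorem En_nonneg (u : ℂ → ℝ) : 0 ≤ En u := integral_nonneg fun _ => sq_nonneg _

theorem Ma_nonneg (u : ℂ → ℝ) : 0 ≤ Ma u := integral_nonneg fun _ => sq_nonneg _

theorem TF_of_contDiff {Ω : Set ℂ} {u : ℂ → ℝ} (h : ContDiff ℝ 1 u) (hc : HasCompactSupport u)
    (hs : tsupport u ⊆ Ω) : TF Ω u :=
  ⟨h.lipschitzWith_of_hasCompactSupport hc one_ne_zero, hc, hs⟩

theorem SF.contDiff_one {Ω : Set ℂ} {u : ℂ → ℝ} (h : SF Ω u) : ContDiff ℝ 1 u :=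
  h.1.of_le (by exact_mod_cast le_top)

theorem SF.tf {Ω : Set ℂ} {u : ℂ → ℝ} (h : SF Ω u) : TF Ω u :=
  TF_of_contDiff h.contDiff_one h.2.1 h.2.2

theorem TF.continuous {Ω : Set ℂ} {u : ℂ → ℝ} (h : TF Ω u) : Continuous u :=
  let ⟨⟨_, hC⟩, _⟩ := h; hC.continuous

/-- A bounded measurable function that vanishes outside a compact set is integrable. -/
theorem integrable_of_bdd {K : Set ℂ} (hK : IsCompact K) {F : ℂ → ℝ}
    (hm : AEStronglyMeasurable F volume) {C : ℝ} (hb : ∀ z ∈ K, |F z| ≤ C)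
    (h0 : ∀ z, z ∉ K → F z = 0) : Integrable F := by
  have h1 : IntegrableOn F K := by
    refine Measure.integrableOn_of_bounded (M := C) hK.measure_lt_top.ne hm ?_
    exact (ae_restrict_iff' hK.measurableSet).2 (Filter.Eventually.of_forall hb)
  exact (integrableOn_iff_integrable_of_support_subset (fun z hz => by
    by_contra h; exact hz (h0 z h))).1 h1

theorem TF.integrable_sq {Ω : Set ℂ} {u : ℂ → ℝ} (h : TF Ω u) :
    Integrable (fun z => u z ^ 2) := by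
  have hc : Continuous (fun z => u z ^ 2) := h.continuous.pow 2
  refine hc.integrable_of_hasCompactSupport (h.2.1.mono fun z hz h0 => hz ?_)
  simp [h0]

theorem TF.integrable_grad {Ω : Set ℂ} {u : ℂ → ℝ} (h : TF Ω u) :
    Integrable (fun z => ‖fderiv ℝ u z‖ ^ 2) := by
  obtain ⟨⟨C, hC⟩, hc, -⟩ := h
  refine integrable_of_bdd hc ((measurable_fderiv ℝ u).norm.pow_const 2).aestronglyMeasurable
    (C := (C : ℝ) ^ 2) (fun z _ => ?_) (fun z hz => ?_)
  · rw [abs_of_nonneg (sq_nonneg _)]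
    exact pow_le_pow_left₀ (norm_nonneg _) (norm_fderiv_le_of_lipschitz ℝ hC) 2
  · have : fderiv ℝ u z = 0 := by
      by_contra h
      exact hz (support_fderiv_subset ℝ h)
    simp [this]

theorem dep_nonneg (Ω : Set ℂ) (z : ℂ) : 0 ≤ dep Ω z := infDist_nonneg

theorem dep_lip (Ω : Set ℂ) : LipschitzWith 1 (dep Ω) := lipschitz_infDist_pt _

theorem dep_of_not_mem {Ω : Set ℂ} {z : ℂ} (h : z ∉ Ω) : dep Ω z = 0 := infDist_zero_of_mem h

theorem ball_dep_subset (Ω : Set ℂ) (z : ℂ) : ball z (dep Ω z) ⊆ Ω := fun y hy => by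
  by_contra h
  have := infDist_le_dist_of_mem (x := z) (show y ∈ Ωᶜ from h)
  rw [mem_ball, dist_comm] at hy
  exact absurd hy (not_lt.2 this)

theorem compl_nonempty {Ω : Set ℂ} (hb : Bornology.IsBounded Ω) : Ωᶜ.Nonempty := by
  rw [nonempty_compl]
  intro h
  rw [h] at hb
  exact NormedSpace.unbounded_univ ℝ ℂ hb

theorem le_dep {Ω : Set ℂ} (hb : Bornology.IsBounded Ω) {z : ℂ} {r : ℝ} (h : ball z r ⊆ Ω) :
    r ≤ dep Ω z := by
  refine (le_infDist (compl_nonempty hb)).2 fun y hy => ?_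
  by_contra hlt
  exact hy (h (by rw [mem_ball, dist_comm]; exact not_le.1 hlt))

theorem mem_of_dep_pos {Ω : Set ℂ} {z : ℂ} (h : 0 < dep Ω z) : z ∈ Ω :=
  ball_dep_subset Ω z (mem_ball_self h)

theorem dep_pos {Ω : Set ℂ} (h : Adm Ω) {z : ℂ} (hz : z ∈ Ω) : 0 < dep Ω z := by
  obtain ⟨r, hr, hs⟩ := Metric.isOpen_iff.1 h.2.2.1 z hz
  exact hr.trans_le (le_dep h.2.1 hs)

theorem In_zero {Ω : Set ℂ} (h : Adm Ω) : In Ω 0 = Ω :=
  Set.ext fun _ => ⟨mem_of_dep_pos, dep_pos h⟩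

theorem In_anti (Ω : Set ℂ) {a b : ℝ} (h : a ≤ b) : In Ω b ⊆ In Ω a := fun _ hz => h.trans_lt hz

theorem In_subset (Ω : Set ℂ) {a : ℝ} (h : 0 ≤ a) : In Ω a ⊆ Ω :=
  fun _ hz => mem_of_dep_pos (h.trans_lt hz)

theorem In_open (Ω : Set ℂ) (a : ℝ) : IsOpen (In Ω a) :=
  isOpen_lt continuous_const (dep_lip Ω).continuous

theorem dep_mono {Ω Ω' : Set ℂ} (hb : Bornology.IsBounded Ω') (h : Ω ⊆ Ω') (z : ℂ) :
    dep Ω z ≤ dep Ω' z := le_dep hb ((ball_dep_subset Ω z).trans h)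

theorem dep_concave {Ω : Set ℂ} (h : Adm Ω) : ConcaveOn ℝ Ω (dep Ω) := by
  refine ⟨h.2.2.2, fun x hx y hy a b ha hb hab => ?_⟩
  refine le_dep h.2.1 fun z hz => ?_
  have hx0 := dep_pos h hx
  have hy0 := dep_pos h hy
  simp only [smul_eq_mul] at hz
  set r := a * dep Ω x + b * dep Ω y with hr
  have hr0 : 0 < r := by
    rcases ha.eq_or_lt with h0 | h0
    · have : b = 1 := by linarith
      rw [hr, ← h0, this]; linarith
    · have := mul_pos h0 hx0
      have := mul_nonneg hb hy0.le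
      linarith
  set e := z - (a • x + b • y) with he
  have hen : ‖e‖ < r := by rw [he, ← dist_eq_norm]; exact hz
  have key : ∀ (p : ℂ) (d : ℝ), 0 < d → p + (d / r) • e ∈ ball p d := fun p d hd => by
    rw [mem_ball, dist_eq_norm, add_sub_cancel_left, norm_smul, Real.norm_eq_abs,
      abs_of_pos (div_pos hd hr0), div_mul_eq_mul_div, div_lt_iff₀ hr0]
    exact mul_lt_mul_of_pos_left hen hd
  have h1 := h.2.2.2 (ball_dep_subset Ω x (key x _ hx0)) (ball_dep_subset Ω y (key y _ hy0))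
    ha hb hab
  have e1 : a • (x + (dep Ω x / r) • e) + b • (y + (dep Ω y / r) • e) = z := by
    have : a * (dep Ω x / r) + b * (dep Ω y / r) = 1 := by
      field_simp; rw [hr]
    rw [smul_add, smul_add, smul_smul, smul_smul, add_add_add_comm, ← add_smul, this, one_smul, he]
    abel
  rwa [e1] at h1

theorem In_convex {Ω : Set ℂ} (h : Adm Ω) {a : ℝ} (ha : 0 ≤ a) : Convex ℝ (In Ω a) := by
  have e : In Ω a = {x | x ∈ Ω ∧ a < dep Ω x} :=
    Set.ext fun z => ⟨fun hz => ⟨In_subset Ω ha hz, hz⟩, fun hz => hz.2⟩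
  rw [e]; exact (dep_concave h).convex_gt a

theorem In_adm {Ω : Set ℂ} (h : Adm Ω) {a : ℝ} (ha : 0 ≤ a) (hne : (In Ω a).Nonempty) :
    Adm (In Ω a) :=
  ⟨hne, h.2.1.subset (In_subset Ω ha), In_open Ω a, In_convex h ha⟩

theorem In_vol_lt_top {Ω : Set ℂ} (h : Bornology.IsBounded Ω) {a : ℝ} (ha : 0 ≤ a) :
    volume (In Ω a) < ⊤ := (h.subset (In_subset Ω ha)).measure_lt_top

theorem Kc_subset (Ω : Set ℂ) : Kc Ω ⊆ Ω := fun _ hz => mem_of_dep_pos (one_pos.trans_le hz)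

theorem Kc_convex {Ω : Set ℂ} (h : Adm Ω) : Convex ℝ (Kc Ω) := by
  have e : Kc Ω = {x | x ∈ Ω ∧ 1 ≤ dep Ω x} :=
    Set.ext fun z => ⟨fun hz => ⟨Kc_subset Ω hz, hz⟩, fun hz => hz.2⟩
  rw [e]; exact (dep_concave h).convex_ge 1

theorem Kc_compact {Ω : Set ℂ} (h : Adm Ω) : IsCompact (Kc Ω) :=
  Metric.isCompact_of_isClosed_isBounded (isClosed_le continuous_const (dep_lip Ω).continuous)
    (h.2.1.subset (Kc_subset Ω))

theorem In_nonempty_of_Ar {Ω : Set ℂ} {a : ℝ} (h : 0 < Ar Ω a) : (In Ω a).Nonempty := by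
  rcases (In Ω a).eq_empty_or_nonempty with h0 | h0
  · simp [Ar, h0] at h
  · exact h0

theorem In_subset_interior_Kc (Ω : Set ℂ) : In Ω 1 ⊆ interior (Kc Ω) :=
  interior_maximal (fun z (hz : 1 < dep Ω z) => (hz.le : 1 ≤ dep Ω z)) (In_open Ω 1)

theorem PC_mono {F G : Set ℂ} (h : F ⊆ G) : PC F ≤ PC G :=
  lintegral_mono fun _ => measure_mono (image_mono h)

theorem prj_ln (α b s : ℝ) : prj α (ln α b s) = b := by
  simp only [prj, ln]
  linear_combination b * Real.sin_sq_add_cos_sq α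

theorem mem_prj_iff (α b : ℝ) (F : Set ℂ) : b ∈ prj α '' F ↔ ∃ s, ln α b s ∈ F := by
  constructor
  · rintro ⟨z, hz, rfl⟩
    refine ⟨z.re * Real.cos α + z.im * Real.sin α, ?_⟩
    convert hz using 1
    apply Complex.ext <;> simp only [prj, ln]
    · linear_combination z.re * Real.sin_sq_add_cos_sq α
    · linear_combination z.im * Real.sin_sq_add_cos_sq α
  · rintro ⟨s, hs⟩
    exact ⟨_, hs, prj_ln α b s⟩

theorem ph_pos (p : ℝ) : 0 < ph p := Real.sqrt_pos.2 (by positivity)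

theorem ph_sq (p : ℝ) : ph p ^ 2 = 1 + p ^ 2 := Real.sq_sqrt (by positivity)

theorem wt_pos (z0 : ℂ) {d : ℝ} (hd : 0 < d) (z : ℂ) : 0 < wt z0 d z :=
  Real.rpow_pos_of_pos (by positivity) _

theorem wt_continuous (z0 : ℂ) {d : ℝ} (hd : 0 < d) : Continuous (wt z0 d) :=
  Continuous.rpow_const (by fun_prop) fun _ => Or.inl (by positivity)

end Pool.Agent.MP_44cb5f_an

end MrgPart1

-- ======== part 2: formerly Pool.Agent.MP_44cb5f_an.Area
section MrgPart2

set_option autoImplicit false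
open MeasureTheory Set Metric

namespace Pool.Agent.MP_44cb5f_an

namespace Area

/-- The closed region between two graphs over `[a, b]`. -/
def Rg (u v : ℝ → ℝ) (a b : ℝ) : Set ℂ := {z | z.re ∈ Icc a b ∧ u z.re ≤ z.im ∧ z.im ≤ v z.re}

lemma meas_prod {u v : ℝ → ℝ} (hu : Measurable u) (hv : Measurable v) (a b : ℝ) :
    MeasurableSet {p : ℝ × ℝ | p.1 ∈ Icc a b ∧ u p.1 ≤ p.2 ∧ p.2 ≤ v p.1} := by
  refine (measurableSet_Icc.preimage measurable_fst).inter (MeasurableSet.inter ?_ ?_)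
  · exact measurableSet_le (hu.comp measurable_fst) measurable_snd
  · exact measurableSet_le measurable_snd (hv.comp measurable_fst)

lemma meas_Rg {u v : ℝ → ℝ} (hu : Measurable u) (hv : Measurable v) (a b : ℝ) :
    MeasurableSet (Rg u v a b) :=
  (meas_prod hu hv a b).preimage Complex.measurableEquivRealProd.measurable

lemma vol_Rg {u v : ℝ → ℝ} (hu : Measurable u) (hv : Measurable v) (a b : ℝ) :
    volume (Rg u v a b) = ∫⁻ x in Icc a b, ENNReal.ofReal (v x - u x) := by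
  have h1 : Rg u v a b = Complex.measurableEquivRealProd ⁻¹'
      {p : ℝ × ℝ | p.1 ∈ Icc a b ∧ u p.1 ≤ p.2 ∧ p.2 ≤ v p.1} := rfl
  rw [h1, Complex.volume_preserving_equiv_real_prod.measure_preimage
    (meas_prod hu hv a b).nullMeasurableSet, Measure.volume_eq_prod,
    Measure.prod_apply (meas_prod hu hv a b), ← lintegral_indicator measurableSet_Icc]
  refine lintegral_congr fun x => ?_
  by_cases hx : x ∈ Icc a b
  · rw [indicator_of_mem hx, ← Real.volume_Icc]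
    congr 1
    ext y
    simp only [mem_preimage, mem_ofPred_eq, mem_Icc] at hx ⊢
    tauto
  · rw [indicator_of_notMem hx]
    have : Prod.mk x ⁻¹' {p : ℝ × ℝ | p.1 ∈ Icc a b ∧ u p.1 ≤ p.2 ∧ p.2 ≤ v p.1} = ∅ := by
      ext y
      simp only [mem_preimage, mem_ofPred_eq, mem_empty_iff_false, iff_false]
      exact fun h => hx h.1
    rw [this, measure_empty]

lemma vol_Rg_real {u v : ℝ → ℝ} (hu : Measurable u) (hv : Measurable v) {a b : ℝ} (hab : a ≤ b)
    (hi : IntervalIntegrable (fun x => v x - u x) volume a b) (h0 : ∀ x, u x ≤ v x) :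
    volume (Rg u v a b) = ENNReal.ofReal (∫ x in a..b, (v x - u x)) := by
  rw [vol_Rg hu hv, intervalIntegral.integral_of_le hab, ← integral_Icc_eq_integral_Ioc,
    ofReal_integral_eq_lintegral_ofReal ((intervalIntegrable_iff_integrableOn_Icc_of_le hab).1 hi)
      (Filter.Eventually.of_forall fun x => sub_nonneg.2 (h0 x))]

lemma int_of_bdd {l g : ℝ → ℝ} (hl : Measurable l) (hg : Continuous g) {η : ℝ}
    (h : ∀ x, |l x - g x| ≤ η) (a b : ℝ) :
    IntervalIntegrable (fun x => l x - g x) volume a b := by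
  refine IntervalIntegrable.mono_fun' (g := fun _ => η) intervalIntegrable_const
    (hl.sub hg.measurable).aestronglyMeasurable (Filter.Eventually.of_forall fun x => ?_)
  simpa [Real.norm_eq_abs] using h x

lemma one_side {K K' A : Set ℂ} {g l : ℝ → ℝ} {a b η : ℝ} (hK : IsCompact K)
    (hg : Continuous g) (hl : Measurable l) (hab : a ≤ b) (hKe : K = {z | g z.re ≤ z.im} ∩ K')
    (hA : A ⊆ {z | l z.re ≤ z.im} ∩ K') (hout : ∀ x, x ∉ Icc a b → l x = g x)
    (hη : ∀ x, |l x - g x| ≤ η)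
    (hbox : ∀ z : ℂ, z.re ∈ Icc a b → g z.re ≤ z.im → z.im ≤ g z.re + η → z ∈ K) :
    (volume A).toReal ≤ (volume K).toReal - ∫ x in a..b, (l x - g x) := by
  have hη0 : 0 ≤ η := (abs_nonneg _).trans (hη 0)
  have hv : Measurable fun x => g x + η := hg.measurable.add_const η
  have hi := int_of_bdd hl hg hη a b
  have hBK : Rg g (fun x => g x + η) a b ⊆ K := fun z hz => hbox z hz.1 hz.2.1 hz.2.2
  have hsub : A ⊆ (K \ Rg g (fun x => g x + η) a b) ∪ Rg l (fun x => g x + η) a b := by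
    intro z hz
    obtain ⟨hz1, hz2⟩ := hA hz
    simp only [mem_ofPred_eq] at hz1
    by_cases hx : z.re ∈ Icc a b
    · by_cases hy : z.im ≤ g z.re + η
      · exact Or.inr ⟨hx, hz1, hy⟩
      · refine Or.inl ⟨?_, fun h => hy h.2.2⟩
        rw [hKe]
        refine ⟨?_, hz2⟩
        simp only [mem_ofPred_eq]
        linarith [not_le.1 hy]
    · refine Or.inl ⟨?_, fun h => hx h.1⟩
      rw [hKe]
      refine ⟨?_, hz2⟩
      simp only [mem_ofPred_eq]
      rw [← hout _ hx]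
      exact hz1
  have hKf : volume K ≠ ⊤ := hK.measure_lt_top.ne
  have hi1 : IntervalIntegrable (fun x => (g x + η) - g x) volume a b :=
    ((hg.add continuous_const).sub hg).intervalIntegrable a b
  have hi2 : IntervalIntegrable (fun x => (g x + η) - l x) volume a b := by
    have := (intervalIntegrable_const (c := η) (μ := volume) (a := a) (b := b)).sub hi
    refine this.congr_ae (Filter.Eventually.of_forall fun x => ?_)
    simp only
    ring
  have hle : ∀ x, l x ≤ g x + η := fun x => by linarith [(abs_le.1 (hη x)).2]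
  have hB := vol_Rg_real hg.measurable hv hab hi1 (fun x => by linarith)
  have hS := vol_Rg_real hl hv hab hi2 hle
  have hB0 : 0 ≤ ∫ x in a..b, ((g x + η) - g x) :=
    intervalIntegral.integral_nonneg hab fun x _ => by linarith
  have hS0 : 0 ≤ ∫ x in a..b, ((g x + η) - l x) :=
    intervalIntegral.integral_nonneg hab fun x _ => sub_nonneg.2 (hle x)
  have hBf : volume (Rg g (fun x => g x + η) a b) ≠ ⊤ := by rw [hB]; exact ENNReal.ofReal_ne_top
  have hSf : volume (Rg l (fun x => g x + η) a b) ≠ ⊤ := by rw [hS]; exact ENNReal.ofReal_ne_top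
  have hDf : volume (K \ Rg g (fun x => g x + η) a b) ≠ ⊤ :=
    ne_top_of_le_ne_top hKf (measure_mono sdiff_subset)
  have h1 : (volume A).toReal ≤ (volume (K \ Rg g (fun x => g x + η) a b)).toReal
      + (volume (Rg l (fun x => g x + η) a b)).toReal := by
    rw [← ENNReal.toReal_add hDf hSf]
    exact ENNReal.toReal_mono (ENNReal.add_ne_top.2 ⟨hDf, hSf⟩)
      ((measure_mono hsub).trans (measure_union_le _ _))
  have h2 : (volume (K \ Rg g (fun x => g x + η) a b)).toReal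
      = (volume K).toReal - (volume (Rg g (fun x => g x + η) a b)).toReal := by
    rw [measure_sdiff hBK (meas_Rg hg.measurable hv a b).nullMeasurableSet hBf,
      ENNReal.toReal_sub_of_le (measure_mono hBK) hKf]
  rw [h2, hB, hS, ENNReal.toReal_ofReal hB0, ENNReal.toReal_ofReal hS0] at h1
  have h3 : (∫ x in a..b, ((g x + η) - g x)) - (∫ x in a..b, ((g x + η) - l x))
      = ∫ x in a..b, (l x - g x) := by
    rw [← intervalIntegral.integral_sub hi1 hi2]
    refine intervalIntegral.integral_congr fun x _ => ?_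
    ring
  linarith

end Area

theorem sArea : SArea := by
  intro K K' A B g lp lm a b η hK hg hp hm hab hKe hA hB hout hη hbox
  have h1 := Area.one_side hK hg hp hab hKe hA (fun x hx => (hout x hx).1) (fun x => (hη x).1) hbox
  have h2 := Area.one_side hK hg hm hab hKe hB (fun x hx => (hout x hx).2) (fun x => (hη x).2) hbox
  have h3 : (∫ x in a..b, (lp x - g x)) + (∫ x in a..b, (lm x - g x))
      = ∫ x in a..b, (lp x + lm x - 2 * g x) := by
    rw [← intervalIntegral.integral_add (Area.int_of_bdd hp hg (fun x => (hη x).1) a b)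
      (Area.int_of_bdd hm hg (fun x => (hη x).2) a b)]
    refine intervalIntegral.integral_congr fun x _ => ?_
    ring
  linarith

end Pool.Agent.MP_44cb5f_an

end MrgPart2

-- ======== part 3: formerly Pool.Agent.MP_44cb5f_an.Co
section MrgPart3

set_option autoImplicit false
open MeasureTheory Set Metric Filter
open scoped ENNReal NNReal

namespace Pool.Agent.MP_44cb5f_an

/-! The coarea inequality with components, by counting upcrossings on grids. -/

namespace Co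

/-- The mesh of the grid number `n`. -/
noncomputable def ms (n : ℕ) : ℝ := 1 / ((n : ℝ) + 1)

theorem ms_pos (n : ℕ) : 0 < ms n := by unfold ms; positivity

/-- The number of upcrossings of the level `τ + C * ms n` on the grid number `n`. -/
noncomputable def up (v : ℝ → ℝ) (C : ℝ) (n : ℕ) (τ : ℝ) : ℝ≥0∞ :=
  ∑' i : ℤ, (Ico (v (i * ms n) - C * ms n) (v ((i + 1) * ms n) - C * ms n)).indicator 1 τ

/-- The lower limit of the numbers of upcrossings. -/
noncomputable def cnt (v : ℝ → ℝ) (C : ℝ) (τ : ℝ) : ℝ≥0∞ :=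
  liminf (fun n => up v C n τ) atTop

theorem lintegral_up (v : ℝ → ℝ) (C : ℝ) (n : ℕ) :
    ∫⁻ τ, up v C n τ = ∑' i : ℤ, ENNReal.ofReal (v ((i + 1) * ms n) - v (i * ms n)) := by
  unfold up
  rw [lintegral_tsum fun i => (measurable_one.indicator measurableSet_Ico).aemeasurable]
  refine tsum_congr fun i => ?_
  rw [lintegral_indicator_one measurableSet_Ico, Real.volume_Ico]
  congr 1; ring

theorem pos_eq_neg (a : ℤ → ℝ) (ha : ∀ i, 0 ≤ a i) (hf : ∑' i, ENNReal.ofReal (a i) ≠ ∞) :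
    ∑' i : ℤ, ENNReal.ofReal (a (i + 1) - a i) = ∑' i : ℤ, ENNReal.ofReal (a i - a (i + 1)) := by
  have h1 : ∀ i : ℤ, ENNReal.ofReal (a (i + 1) - a i) + ENNReal.ofReal (a i) =
      ENNReal.ofReal (a i - a (i + 1)) + ENNReal.ofReal (a (i + 1)) := by
    intro i
    rcases le_total (a i) (a (i + 1)) with h | h
    · rw [← ENNReal.ofReal_add (sub_nonneg.2 h) (ha i), ENNReal.ofReal_of_nonpos (sub_nonpos.2 h)]
      simp
    · rw [← ENNReal.ofReal_add (sub_nonneg.2 h) (ha _), ENNReal.ofReal_of_nonpos (sub_nonpos.2 h)]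
      simp
  have h2 : ∑' i : ℤ, ENNReal.ofReal (a (i + 1)) = ∑' i, ENNReal.ofReal (a i) :=
    (Equiv.addRight (1 : ℤ)).tsum_eq fun i => ENNReal.ofReal (a i)
  have h3 : ∑' i : ℤ, (ENNReal.ofReal (a (i + 1) - a i) + ENNReal.ofReal (a i)) =
      ∑' i : ℤ, (ENNReal.ofReal (a i - a (i + 1)) + ENNReal.ofReal (a (i + 1))) := tsum_congr h1
  rw [ENNReal.tsum_add, ENNReal.tsum_add, h2] at h3
  exact (ENNReal.add_left_inj hf).1 h3

theorem enorm_sub_le {v : ℝ → ℝ} {C : ℝ≥0} (hv : LipschitzWith C v) {a b : ℝ} (h : a ≤ b) :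
    ‖v b - v a‖ₑ ≤ ∫⁻ s in Ioc a b, ‖deriv v s‖ₑ := by
  rw [← (hv.lipschitzOnWith.absolutelyContinuousOnInterval (a := a) (b := b)).integral_deriv_eq_sub,
    intervalIntegral.integral_of_le h]
  exact enorm_integral_le_lintegral_enorm _

theorem two_up_le {v : ℝ → ℝ} {C : ℝ≥0} (hv : LipschitzWith C v) (h0 : ∀ s, 0 ≤ v s) {R : ℝ}
    (hR : ∀ s, R < |s| → v s = 0) (c : ℝ) (n : ℕ) :
    2 * ∫⁻ τ, up v c n τ ≤ ∫⁻ s, ‖deriv v s‖ₑ := by
  have hm := ms_pos n
  have hf : ∑' i : ℤ, ENNReal.ofReal (v (i * ms n)) ≠ ∞ := by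
    rw [tsum_eq_sum (s := Finset.Icc (-⌈R / ms n⌉) ⌈R / ms n⌉)]
    · exact ENNReal.sum_ne_top.2 fun _ _ => ENNReal.ofReal_ne_top
    · intro i hi
      rw [hR, ENNReal.ofReal_zero]
      rw [abs_mul, abs_of_pos hm, ← div_lt_iff₀ hm]
      refine (Int.le_ceil _).trans_lt ?_
      rw [← Int.cast_abs, Int.cast_lt]
      rw [Finset.mem_Icc, ← abs_le] at hi
      exact not_le.1 hi
  have h1 := pos_eq_neg (fun i => v (i * ms n)) (fun _ => h0 _) hf
  push_cast at h1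
  rw [lintegral_up, two_mul]
  nth_rewrite 2 [h1]
  rw [← ENNReal.tsum_add]
  have h2 : ∀ i : ℤ, ENNReal.ofReal (v ((i + 1) * ms n) - v (i * ms n)) +
      ENNReal.ofReal (v (i * ms n) - v ((i + 1) * ms n)) ≤
      ∫⁻ s in Ioc ((i : ℝ) * ms n) ((i + 1) * ms n), ‖deriv v s‖ₑ := by
    intro i
    refine le_trans (le_of_eq ?_) (enorm_sub_le hv (by nlinarith))
    rw [← neg_sub (v ((i + 1) * ms n)), Real.enorm_eq_ofReal_abs]
    rcases le_total 0 (v ((i + 1) * ms n) - v (i * ms n)) with h | h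
    · rw [ENNReal.ofReal_of_nonpos (neg_nonpos.2 h), add_zero, abs_of_nonneg h]
    · rw [ENNReal.ofReal_of_nonpos h, zero_add, abs_of_nonpos h]
  refine (ENNReal.tsum_le_tsum h2).trans ?_
  rw [← lintegral_iUnion (fun _ => measurableSet_Ioc)]
  · exact setLIntegral_le_lintegral _ _
  · intro i j hij
    simp only [Function.onFun, Ioc_disjoint_Ioc]
    rcases lt_or_gt_of_ne hij with h | h
    · have : (i : ℝ) + 1 ≤ j := by exact_mod_cast h
      exact (min_le_left _ _).trans (le_trans (by nlinarith) (le_max_right _ _))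
    · have : (j : ℝ) + 1 ≤ i := by exact_mod_cast h
      exact (min_le_right _ _).trans (le_trans (by nlinarith) (le_max_left _ _))

theorem measurable_up (v : ℝ → ℝ) (C : ℝ) (n : ℕ) : Measurable (up v C n) :=
  Measurable.tsum fun _ => measurable_one.indicator measurableSet_Ico

theorem two_cnt_le {v : ℝ → ℝ} {C : ℝ≥0} (hv : LipschitzWith C v) (h0 : ∀ s, 0 ≤ v s) {R : ℝ}
    (hR : ∀ s, R < |s| → v s = 0) (c : ℝ) :
    ∫⁻ τ, cnt v c τ ≤ 2⁻¹ * ∫⁻ s, ‖deriv v s‖ₑ := by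
  refine (lintegral_liminf_le (measurable_up v c)).trans ?_
  refine liminf_le_of_frequently_le' (Frequently.of_forall fun n => ?_)
  rw [← ENNReal.mul_le_iff_le_inv (by norm_num) (by norm_num)]
  exact two_up_le hv h0 hR c n

theorem grid_le {v : ℝ → ℝ} {C : ℝ≥0} (hv : LipschitzWith C v) (n : ℕ) (s : ℝ) :
    |v (⌊s / ms n⌋ * ms n) - v s| ≤ C * ms n := by
  have hm := ms_pos n
  refine (hv.dist_le_mul _ _).trans ?_
  gcongr
  rw [Real.dist_eq, abs_le]
  have h1 := Int.floor_le (s / ms n)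
  have h2 := Int.lt_floor_add_one (s / ms n)
  rw [le_div_iff₀ hm] at h1
  rw [div_lt_iff₀ hm] at h2
  constructor <;> nlinarith

theorem card_le_cnt {ι : Type*} {v : ℝ → ℝ} {C : ℝ≥0} (hv : LipschitzWith C v) {R : ℝ}
    (hR : ∀ s, R < |s| → v s = 0) {τ : ℝ} (hτ : 0 < τ) (T : Finset ι) (t : ι → ℝ)
    (ht : ∀ x ∈ T, τ < v (t x))
    (hsep : ∀ x ∈ T, ∀ y ∈ T, x ≠ y → t x ≤ t y → ∃ s ∈ Icc (t x) (t y), v s ≤ τ) :
    (T.card : ℝ≥0∞) ≤ cnt v C τ := by
  classical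
  have h1 : Tendsto (fun n => τ + 2 * (C * ms n)) atTop (nhds τ) := by
    have := (((tendsto_one_div_add_atTop_nhds_zero_nat (𝕜 := ℝ)).const_mul (C : ℝ)).const_mul
      2).const_add τ
    simpa [ms] using this
  have h2 : ∀ᶠ n in atTop, ∀ x ∈ T, τ + 2 * (C * ms n) < v (t x) :=
    (eventually_all_finset T).2 fun x hx => h1.eventually_lt_const (ht x hx)
  refine le_liminf_of_le (by isBoundedDefault) (h2.mono fun n hn => ?_)
  have hm := ms_pos n
  have hC : 0 ≤ (C : ℝ) * ms n := by positivity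
  have h3 : ∀ x : ι, ∃ i : ℤ, (i ≤ ⌊t x / ms n⌋ ∧ v (i * ms n) ≤ τ + C * ms n) ∧
      ∀ j : ℤ, (j ≤ ⌊t x / ms n⌋ ∧ v (j * ms n) ≤ τ + C * ms n) → j ≤ i := by
    intro x
    refine Int.exists_greatest_of_bdd ⟨_, fun z hz => hz.1⟩
      ⟨min ⌊t x / ms n⌋ (⌊-|R| / ms n⌋ - 1), min_le_left _ _, ?_⟩
    rw [hR]
    · linarith
    · have h4 : ((min ⌊t x / ms n⌋ (⌊-|R| / ms n⌋ - 1) : ℤ) : ℝ) ≤ (⌊-|R| / ms n⌋ : ℝ) - 1 := by
        exact_mod_cast min_le_right _ _
      have h5 := Int.floor_le (-|R| / ms n)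
      rw [le_div_iff₀ hm] at h5
      have h6 := le_abs_self R
      refine lt_of_lt_of_le ?_ (neg_le_abs _)
      nlinarith
  choose k hk using h3
  have h4 : ∀ x ∈ T, k x < ⌊t x / ms n⌋ := by
    intro x hx
    refine lt_of_le_of_ne (hk x).1.1 fun e => ?_
    have h5 := (hk x).1.2
    have h6 := abs_le.1 (grid_le hv n (t x))
    rw [e] at h5
    linarith [hn x hx]
  have h5 : ∀ x ∈ T, ∀ y ∈ T, x ≠ y → t x ≤ t y → k x < k y := by
    intro x hx y hy hxy hle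
    obtain ⟨s, hs, hs'⟩ := hsep x hx y hy hxy hle
    have h6 := abs_le.1 (grid_le hv n s)
    refine (h4 x hx).trans_le (le_trans (Int.floor_le_floor ?_) ((hk y).2 ⌊s / ms n⌋
      ⟨Int.floor_le_floor ?_, by linarith⟩))
    · exact div_le_div_of_nonneg_right hs.1 hm.le
    · exact div_le_div_of_nonneg_right hs.2 hm.le
  have h6 : Set.InjOn k T := by
    intro x hx y hy e
    by_contra hxy
    rcases le_total (t x) (t y) with h | h
    · exact (h5 x hx y hy hxy h).ne e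
    · exact (h5 y hy x hx (Ne.symm hxy) h).ne' e
  refine le_trans (le_of_eq ?_) (ENNReal.sum_le_tsum (T.image k))
  rw [Finset.sum_image h6, Finset.card_eq_sum_ones, Nat.cast_sum]
  refine Finset.sum_congr rfl fun x hx => ?_
  rw [indicator_of_mem]
  · simp
  · refine ⟨by linarith [(hk x).1.2], ?_⟩
    by_contra h7
    have h8 := (hk x).2 (k x + 1) ⟨h4 x hx, by push_cast; linarith [not_lt.1 h7]⟩
    omega

theorem sum_lintegral_le {ι X : Type*} [MeasurableSpace X] (μ : Measure X) (T : Finset ι)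
    (f : ι → X → ℝ≥0∞) : ∑ i ∈ T, ∫⁻ x, f i x ∂μ ≤ ∫⁻ x, ∑ i ∈ T, f i x ∂μ := by
  classical
  induction T using Finset.induction_on with
  | empty => simp
  | insert a T ha ih =>
    simp only [Finset.sum_insert ha]
    exact (add_le_add le_rfl ih).trans (le_lintegral_add _ _)

theorem continuous_ln : Continuous fun p : ℝ × ℝ × ℝ => ln p.1 p.2.1 p.2.2 := by
  have : (fun p : ℝ × ℝ × ℝ => ln p.1 p.2.1 p.2.2) = fun p =>
      ((p.2.2 * Real.cos p.1 - p.2.1 * Real.sin p.1 : ℝ) : ℂ) +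
        ((p.2.2 * Real.sin p.1 + p.2.1 * Real.cos p.1 : ℝ) : ℂ) * Complex.I := by
    funext p
    apply Complex.ext <;> simp [ln, -Complex.ofReal_cos, -Complex.ofReal_sin]
  rw [this]
  fun_prop

theorem lip_ln (α b : ℝ) : LipschitzWith 1 (ln α b) := by
  refine LipschitzWith.of_dist_le_mul fun s t => ?_
  rw [NNReal.coe_one, one_mul, Complex.dist_eq, Real.dist_eq]
  refine le_of_eq ?_
  rw [← sq_eq_sq₀ (norm_nonneg _) (abs_nonneg _), sq_abs, Complex.sq_norm, Complex.normSq_apply]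
  simp only [ln, Complex.sub_re, Complex.sub_im]
  linear_combination (s - t) ^ 2 * Real.sin_sq_add_cos_sq α

theorem lip_comp {u : ℂ → ℝ} {C : ℝ≥0} (hu : LipschitzWith C u) (α b : ℝ) :
    LipschitzWith C fun s => u (ln α b s) := by
  have := hu.comp (lip_ln α b)
  rw [mul_one] at this
  exact this

theorem abs_le_norm_ln (α b s : ℝ) : |s| ≤ ‖ln α b s‖ := by
  rw [← sq_le_sq₀ (abs_nonneg _) (norm_nonneg _), sq_abs, Complex.sq_norm, Complex.normSq_apply]
  simp only [ln]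
  nlinarith [Real.sin_sq_add_cos_sq α, sq_nonneg b,
    (by linear_combination (s ^ 2 + b ^ 2) * Real.sin_sq_add_cos_sq α :
      (s * Real.cos α - b * Real.sin α) * (s * Real.cos α - b * Real.sin α) +
        (s * Real.sin α + b * Real.cos α) * (s * Real.sin α + b * Real.cos α) = s ^ 2 + b ^ 2)]

theorem isOpen_prj (α : ℝ) {G : Set ℂ} (hG : IsOpen G) : IsOpen (prj α '' G) := by
  have : prj α '' G = ⋃ s : ℝ, (fun b => ln α b s) ⁻¹' G := by
    ext b; simp only [mem_prj_iff, mem_iUnion, mem_preimage]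
  rw [this]
  exact isOpen_iUnion fun s => hG.preimage
    (continuous_ln.comp (f := fun b : ℝ => (α, b, s)) (by fun_prop))

theorem measurable_cnt {u : ℂ → ℝ} (hu : Continuous u) (C : ℝ) :
    Measurable fun p : ℝ × ℝ × ℝ => cnt (fun s => u (ln p.1 p.2.1 s)) C p.2.2 := by
  refine Measurable.liminf fun n => Measurable.tsum fun i => ?_
  have h1 : ∀ c : ℝ, Measurable fun p : ℝ × ℝ × ℝ => u (ln p.1 p.2.1 c) - C * ms n := fun c =>
    ((hu.comp (continuous_ln.comp (f := fun p : ℝ × ℝ × ℝ => (p.1, p.2.1, c))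
      (by fun_prop))).sub continuous_const).measurable
  have h2 : MeasurableSet {p : ℝ × ℝ × ℝ | u (ln p.1 p.2.1 (i * ms n)) - C * ms n ≤ p.2.2 ∧
      p.2.2 < u (ln p.1 p.2.1 ((i + 1) * ms n)) - C * ms n} :=
    (measurableSet_le (h1 _) measurable_snd.snd).inter (measurableSet_lt measurable_snd.snd (h1 _))
  exact measurable_one.indicator h2

/-- The widths of finitely many components of a superlevel set. -/
theorem sum_PC_le {u : ℂ → ℝ} {C : ℝ≥0} (hu : LipschitzWith C u) {R : ℝ}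
    (hR : ∀ z, R < ‖z‖ → u z = 0) {τ : ℝ} (hτ : 0 < τ)
    (T : Finset (Set ℂ)) (hT : ∀ G ∈ T, ∃ x, G = connectedComponentIn {z | τ < u z} x) :
    ∑ G ∈ T, PC G ≤
      ∫⁻ α in Ioo (0 : ℝ) (2 * Real.pi), ∫⁻ b : ℝ, cnt (fun s => u (ln α b s)) C τ := by
  classical
  have hF : IsOpen {z | τ < u z} := isOpen_lt continuous_const hu.continuous
  refine (sum_lintegral_le _ T _).trans (lintegral_mono fun α => ?_)
  have h1 : ∀ G ∈ T, volume (prj α '' G) = ∫⁻ b, (prj α '' G).indicator 1 b := by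
    intro G hG
    obtain ⟨x, rfl⟩ := hT G hG
    rw [lintegral_indicator_one (isOpen_prj α hF.connectedComponentIn).measurableSet]
  rw [Finset.sum_congr rfl h1]
  refine (sum_lintegral_le _ T _).trans (lintegral_mono fun b => ?_)
  have h2 : ∀ G : Set ℂ, ∃ s, b ∈ prj α '' G → ln α b s ∈ G := fun G => by
    by_cases h : b ∈ prj α '' G
    · exact ((mem_prj_iff α b G).1 h).imp fun _ h _ => h
    · exact ⟨0, fun h' => absurd h' h⟩
  choose t ht using h2
  have h3 : ∑ G ∈ T, (prj α '' G).indicator (1 : ℝ → ℝ≥0∞) b =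
      ((T.filter fun G => b ∈ prj α '' G).card : ℝ≥0∞) := by
    rw [Finset.card_filter, Nat.cast_sum]
    refine Finset.sum_congr rfl fun G _ => ?_
    by_cases h : b ∈ prj α '' G
    · rw [indicator_of_mem h, if_pos h]; simp
    · rw [indicator_of_notMem h, if_neg h]; simp
  show ∑ G ∈ T, (prj α '' G).indicator (1 : ℝ → ℝ≥0∞) b ≤ _
  rw [h3]
  have hv := lip_comp hu α b
  refine card_le_cnt hv (fun s hs => hR _ (hs.trans_le (abs_le_norm_ln α b s))) hτ _ t ?_ ?_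
  · intro G hG
    obtain ⟨h4, h5⟩ := Finset.mem_filter.1 hG
    have h6 := ht G h5
    obtain ⟨x, e⟩ := hT G h4
    exact connectedComponentIn_subset {z | τ < u z} x (e ▸ h6)
  · intro G hG H hH hne hle
    obtain ⟨h4, h5⟩ := Finset.mem_filter.1 hG
    obtain ⟨h6, h7⟩ := Finset.mem_filter.1 hH
    by_contra hn
    push Not at hn
    have h8 : IsPreconnected (ln α b '' Icc (t G) (t H)) :=
      isPreconnected_Icc.image _ (lip_ln α b).continuous.continuousOn
    have h9 := h8.subset_connectedComponentIn (F := {z | τ < u z})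
      (mem_image_of_mem _ (left_mem_Icc.2 hle)) (by rintro _ ⟨s, hs, rfl⟩; exact hn s hs)
      (mem_image_of_mem _ (right_mem_Icc.2 hle))
    obtain ⟨x, e⟩ := hT G h4
    obtain ⟨y, e'⟩ := hT H h6
    have p1 : G = connectedComponentIn {z | τ < u z} (ln α b (t G)) :=
      e.trans (connectedComponentIn_eq (e ▸ ht G h5))
    have p2 : H = connectedComponentIn {z | τ < u z} (ln α b (t H)) :=
      e'.trans (connectedComponentIn_eq (e' ▸ ht H h7))
    exact hne (p1.trans ((connectedComponentIn_eq h9).trans p2.symm))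

theorem level_le {u : ℂ → ℝ} {C : ℝ≥0} (hu : LipschitzWith C u) {R : ℝ}
    (hR : ∀ z, R < ‖z‖ → u z = 0) {ρ : ℝ≥0∞}
    (hρ : ∀ G : Set ℂ, IsOpen G → IsPreconnected G → G ⊆ {z | 0 < u z} →
      2 * volume G ≤ ρ * PC G) {τ : ℝ} (hτ : 0 < τ) :
    2 * volume {z | τ < u z} ≤
      ρ * ∫⁻ α in Ioo (0 : ℝ) (2 * Real.pi), ∫⁻ b : ℝ, cnt (fun s => u (ln α b s)) C τ := by
  classical
  have hF : IsOpen {z | τ < u z} := isOpen_lt continuous_const hu.continuous
  set F := {z | τ < u z} with hFd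
  set S : Set (Set ℂ) := {G | ∃ x ∈ F, G = connectedComponentIn F x} with hS
  have hc : S.Countable := by
    refine Set.PairwiseDisjoint.countable_of_isOpen (s := id) ?_ ?_ ?_
    · rintro _ ⟨x, -, rfl⟩ _ ⟨y, -, rfl⟩ hne
      refine Set.disjoint_left.2 fun z h1 h2 => hne ?_
      exact (connectedComponentIn_eq h1).trans (connectedComponentIn_eq h2).symm
    · rintro _ ⟨x, -, rfl⟩; exact hF.connectedComponentIn
    · rintro _ ⟨x, hx, rfl⟩; exact ⟨x, mem_connectedComponentIn hx⟩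
  have h1 : volume F ≤ ∑' G : S, volume (G : Set ℂ) := by
    refine le_trans (measure_mono fun x hx => ?_) (measure_biUnion_le volume hc id)
    exact mem_biUnion (x := connectedComponentIn F x) ⟨x, hx, rfl⟩ (mem_connectedComponentIn hx)
  have h2 : ∑' G : S, PC G ≤
      ∫⁻ α in Ioo (0 : ℝ) (2 * Real.pi), ∫⁻ b : ℝ, cnt (fun s => u (ln α b s)) C τ := by
    rw [ENNReal.tsum_eq_iSup_sum]
    refine iSup_le fun T => le_trans (le_of_eq ?_)
      (sum_PC_le hu hR hτ (T.map (Function.Embedding.subtype _)) fun G hG => ?_)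
    · rw [Finset.sum_map]; rfl
    · obtain ⟨⟨G', x, hx, e⟩, -, rfl⟩ := Finset.mem_map.1 hG
      exact ⟨x, e⟩
  calc 2 * volume F ≤ 2 * ∑' G : S, volume (G : Set ℂ) := by gcongr
    _ = ∑' G : S, 2 * volume (G : Set ℂ) := ENNReal.tsum_mul_left.symm
    _ ≤ ∑' G : S, ρ * PC G := by
      refine ENNReal.tsum_le_tsum ?_
      rintro ⟨_, x, hx, rfl⟩
      exact hρ _ hF.connectedComponentIn isPreconnected_connectedComponentIn
        fun z hz => hτ.trans (connectedComponentIn_subset F x hz)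
    _ = ρ * ∑' G : S, PC G := ENNReal.tsum_mul_left
    _ ≤ _ := by gcongr

end Co

open Co in
theorem sCO (h : SSL) : SCO := by
  intro u C ρ hu hc h0 hρ
  obtain ⟨R, hR⟩ : ∃ R : ℝ, ∀ z, R < ‖z‖ → u z = 0 := by
    obtain ⟨R, hR⟩ := hc.isCompact.isBounded.exists_norm_le
    exact ⟨R, fun z hz => image_eq_zero_of_notMem_tsupport fun h' => (hR z h').not_gt hz⟩
  have hm := measurable_cnt hu.continuous C
  have m1 : Measurable fun q : ℝ × ℝ => ∫⁻ b : ℝ, cnt (fun s => u (ln q.2 b s)) C q.1 :=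
    (hm.comp (f := fun p : (ℝ × ℝ) × ℝ => (p.1.2, p.2, p.1.1))
      (by fun_prop)).lintegral_prod_right'
  have e1 : ∫⁻ τ, ∫⁻ α in Ioo (0 : ℝ) (2 * Real.pi), ∫⁻ b : ℝ, cnt (fun s => u (ln α b s)) C τ =
      ∫⁻ α in Ioo (0 : ℝ) (2 * Real.pi), ∫⁻ b : ℝ, ∫⁻ τ, cnt (fun s => u (ln α b s)) C τ := by
    rw [lintegral_lintegral_swap m1.aemeasurable]
    refine lintegral_congr fun α => ?_
    exact lintegral_lintegral_swap
      (hm.comp (f := fun p : ℝ × ℝ => (α, p.2, p.1)) (by fun_prop)).aemeasurable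
  have e2 : ∫⁻ α in Ioo (0 : ℝ) (2 * Real.pi), ∫⁻ b : ℝ, ∫⁻ τ, cnt (fun s => u (ln α b s)) C τ ≤
      2 * ∫⁻ z, ‖fderiv ℝ u z‖ₑ := by
    have h2 : (2⁻¹ : ℝ≥0∞) ≠ ∞ := by simp
    have h3 : (2 : ℝ≥0∞) = 2⁻¹ * 4 := by
      rw [show (4 : ℝ≥0∞) = 2 * 2 by norm_num, ← mul_assoc,
        ENNReal.inv_mul_cancel (by norm_num) (by norm_num), one_mul]
    rw [h3, mul_assoc, h u C hu, ← lintegral_const_mul' _ _ h2]
    refine lintegral_mono fun α => ?_
    show _ ≤ 2⁻¹ * _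
    rw [← lintegral_const_mul' _ _ h2]
    refine lintegral_mono fun b => ?_
    have hv := lip_comp hu α b
    exact two_cnt_le hv (fun _ => h0 _)
      (fun s hs => hR _ (hs.trans_le (abs_le_norm_ln α b s))) _
  rw [lintegral_eq_lintegral_meas_lt _ (Eventually.of_forall h0) hu.continuous.aemeasurable]
  refine (ENNReal.mul_le_mul_iff_right (a := 2) (by norm_num) (by norm_num)).1 ?_
  rw [← lintegral_const_mul' _ _ (by norm_num)]
  calc ∫⁻ τ in Ioi (0 : ℝ), 2 * volume {z | τ < u z}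
      ≤ ∫⁻ τ in Ioi (0 : ℝ), ENNReal.ofReal ρ * ∫⁻ α in Ioo (0 : ℝ) (2 * Real.pi), ∫⁻ b : ℝ,
          cnt (fun s => u (ln α b s)) C τ :=
        setLIntegral_mono' measurableSet_Ioi fun τ hτ => level_le hu hR hρ hτ
    _ ≤ ∫⁻ τ, ENNReal.ofReal ρ * ∫⁻ α in Ioo (0 : ℝ) (2 * Real.pi), ∫⁻ b : ℝ,
          cnt (fun s => u (ln α b s)) C τ := setLIntegral_le_lintegral _ _
    _ ≤ ENNReal.ofReal ρ * (2 * ∫⁻ z, ‖fderiv ℝ u z‖ₑ) := by
        rw [lintegral_const_mul' _ _ ENNReal.ofReal_ne_top, e1]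
        gcongr
    _ = _ := by ring

end Pool.Agent.MP_44cb5f_an

end MrgPart3

-- ======== part 4: formerly Pool.Agent.MP_44cb5f_an.Kla
section MrgPart4

set_option autoImplicit false
open MeasureTheory Set Metric Filter
open scoped Pointwise Convolution Topology

namespace Pool.Agent.MP_44cb5f_an

namespace Kla

/-- The isoperimetric type bound for convex sets with a small inner parallel set. -/
theorem cl (hpc : SPC) (hst : SST) {F : Set ℂ} {r : ℝ} (hF : Adm F) (hr : 0 < r)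
    (h : volume (In F r) ≤ ENNReal.ofReal (Real.pi * r ^ 2)) :
    2 * volume F ≤ ENNReal.ofReal r * PC F := by
  have e := hst F 0 r hF le_rfl hr.le
  rw [In_zero hF] at e
  have hc : ∫⁻ _ in Ioo (0 : ℝ) r, PC F = ENNReal.ofReal r * PC F := by
    rw [setLIntegral_const, Real.volume_Ioo, sub_zero, mul_comm]
  rw [e, ← hc]
  rcases (In F r).eq_empty_or_nonempty with h0 | h0
  · rw [h0, measure_empty, mul_zero, zero_add]
    exact setLIntegral_mono' measurableSet_Ioo fun s hs => PC_mono (In_subset F hs.1.le)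
  · have h1 : ∫⁻ s in Ioo (0 : ℝ) r, ENNReal.ofReal (4 * Real.pi * s) =
        2 * ENNReal.ofReal (Real.pi * r ^ 2) := by
      rw [← ofReal_integral_eq_lintegral_ofReal]
      · rw [← integral_Ioc_eq_integral_Ioo, ← intervalIntegral.integral_of_le hr.le,
          intervalIntegral.integral_const_mul, integral_id,
          show (2 : ENNReal) = ENNReal.ofReal 2 by simp, ← ENNReal.ofReal_mul (by norm_num)]
        congr 1; ring
      · exact (Continuous.integrableOn_Icc (by fun_prop)).mono_set Ioo_subset_Icc_self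
      · refine (ae_restrict_iff' measurableSet_Ioo).2 (Eventually.of_forall fun s hs => ?_)
        have := hs.1
        have := Real.pi_pos
        positivity
    calc 2 * volume (In F r) + ∫⁻ s in Ioo (0 : ℝ) r, PC (In F s)
        ≤ (∫⁻ s in Ioo (0 : ℝ) r, PC (In F s)) +
            ∫⁻ s in Ioo (0 : ℝ) r, ENNReal.ofReal (4 * Real.pi * s) := by
          rw [h1, add_comm]; gcongr
      _ = ∫⁻ s in Ioo (0 : ℝ) r, (PC (In F s) + ENNReal.ofReal (4 * Real.pi * s)) :=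
          (lintegral_add_right _ (by fun_prop)).symm
      _ ≤ _ := by
          refine setLIntegral_mono' measurableSet_Ioo fun s hs => ?_
          rw [← hpc.1 (In F s) s (In_convex hF hs.1.le) (h0.mono (In_anti F hs.2.le))
            (hF.2.1.subset (In_subset F hs.1.le)) hs.1]
          refine PC_mono ?_
          rintro _ ⟨a, ha, b, hb, rfl⟩
          refine ball_dep_subset F a ?_
          rw [mem_ball, dist_zero_right] at hb
          rw [mem_ball, dist_eq_norm, add_sub_cancel_left]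
          exact hb.trans ha

theorem adm_add {Ω : Set ℂ} (h : Adm Ω) {e : ℝ} (he : 0 < e) : Adm (Ω + ball (0 : ℂ) e) :=
  ⟨h.1.add ⟨0, mem_ball_self he⟩, h.2.1.add isBounded_ball, h.2.2.1.add_right,
    h.2.2.2.add (convex_ball _ _)⟩

/-- The bound for the components. -/
theorem comp (hpc : SPC) (hs : SSand) (hst : SST) {Ω : Set ℂ} {ρ e : ℝ} (h : Adm Ω) (hρ : 0 < ρ)
    (he : 0 < e) (hv : volume (In Ω ρ) ≤ ENNReal.ofReal (Real.pi * ρ ^ 2)) {G : Set ℂ}
    (ho : IsOpen G) (hG : IsPreconnected G) (hs' : G ⊆ Ω + ball (0 : ℂ) e) :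
    2 * volume G ≤ ENNReal.ofReal (ρ + e) * PC G := by
  rcases G.eq_empty_or_nonempty with rfl | hne
  · simp
  have hO := adm_add h he
  have h1 : convexHull ℝ G ⊆ Ω + ball (0 : ℂ) e := convexHull_min hs' hO.2.2.2
  have hF : Adm (convexHull ℝ G) :=
    ⟨hne.mono (subset_convexHull _ _), hO.2.1.subset h1, ho.convexHull, convex_convexHull _ _⟩
  rw [← hpc.2.1 G hG]
  refine le_trans (by gcongr; exact subset_convexHull _ _) (cl hpc hst hF (by positivity) ?_)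
  have h2 : In (convexHull ℝ G) (ρ + e) ⊆ In Ω ρ := fun z hz => by
    have h3 := hs _ Ω e h he.le (h1.trans (add_subset_add_left ball_subset_closedBall)) z
    have h4 : ρ + e < dep (convexHull ℝ G) z := hz
    show ρ < dep Ω z
    linarith
  refine (measure_mono h2).trans (hv.trans (ENNReal.ofReal_le_ofReal ?_))
  have := Real.pi_pos
  gcongr
  linarith

/-- The derivative of a convolution. -/
theorem fderiv_conv {F : Type} [NormedAddCommGroup F] [NormedSpace ℝ F] [CompleteSpace F]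
    {f : ℂ → F} {φ : ℂ → ℝ} (hf : LocallyIntegrable f) (hc : HasCompactSupport φ)
    (hφ : ContDiff ℝ 1 φ) (x v : ℂ) :
    fderiv ℝ (f ⋆[(ContinuousLinearMap.lsmul ℝ ℝ).flip, volume] φ) x v =
      ∫ t, fderiv ℝ φ (x - t) v • f t := by
  rw [(hc.hasFDerivAt_convolution_right _ hf hφ x).fderiv,
    convolution_precompR_apply _ hf (hc.fderiv ℝ) (hφ.continuous_fderiv one_ne_zero),
    convolution_def]
  rfl

theorem fderiv_refl {φ : ℂ → ℝ} (hφ : ContDiff ℝ 1 φ) (y : ℂ) :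
    fderiv ℝ (fun y => -φ (-y)) y = fderiv ℝ φ (-y) := by
  have h := ((hφ.differentiable one_ne_zero (-y)).hasFDerivAt.comp y (hasFDerivAt_id y).neg).neg
  refine (HasFDerivAt.fderiv h).trans ?_
  ext v; simp

/-- The total variation of a mollified indicator function is at most the perimeter. -/
theorem tv_le {E : Set ℂ} (hE : MeasurableSet E) (hb : Bornology.IsBounded E) {φ : ℂ → ℝ}
    (hc : HasCompactSupport φ) (hφ : ContDiff ℝ 1 φ) (h0 : ∀ x, 0 ≤ φ x) (h1 : ∫ x, φ x = 1) :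
    ∫⁻ z, ‖fderiv ℝ (E.indicator (fun _ => (1 : ℝ)) ⋆[(ContinuousLinearMap.lsmul ℝ ℝ).flip,
      volume] φ) z‖ₑ ≤ per E := by
  set χ : ℂ → ℝ := E.indicator fun _ => (1 : ℝ) with hχ
  set u := χ ⋆[(ContinuousLinearMap.lsmul ℝ ℝ).flip, volume] φ with hu
  have iχ : Integrable χ := (integrable_indicator_iff hE).2
    (integrableOn_const hb.measure_lt_top.ne)
  have cχ : HasCompactSupport χ := HasCompactSupport.intro hb.isCompact_closure
    fun x hx => indicator_of_notMem (fun h => hx (subset_closure h)) _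
  have cu : HasCompactSupport u := cχ.convolution _ hc
  have du : ContDiff ℝ 1 u := hc.contDiff_convolution_right (n := 1) _ iχ.locallyIntegrable hφ
  have cD : Continuous (fderiv ℝ u) := du.continuous_fderiv one_ne_zero
  have cφ : Continuous (fderiv ℝ φ) := hφ.continuous_fderiv one_ne_zero
  set a : ℂ → ℂ := fun x => ⟨fderiv ℝ u x 1, fderiv ℝ u x Complex.I⟩ with ha
  have ca : Continuous a := by
    have : a = fun x => ((fderiv ℝ u x 1 : ℝ) : ℂ) + (fderiv ℝ u x Complex.I : ℝ) * Complex.I :=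
      funext fun x => by apply Complex.ext <;> simp [ha]
    rw [this]; fun_prop
  set w : ℂ → ℂ := fun x => (‖a x‖⁻¹ : ℝ) • a x with hw
  have mw : Measurable w := (ca.norm.measurable.inv).smul ca.measurable
  have bw : ∀ x, ‖w x‖ ≤ 1 := fun x => by
    rw [hw, norm_smul, norm_inv, norm_norm]; exact inv_mul_le_one
  have cw : HasCompactSupport w := HasCompactSupport.intro (cu.fderiv ℝ) fun x hx => by
    have : fderiv ℝ u x = 0 := image_eq_zero_of_notMem_tsupport hx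
    have : a x = 0 := by apply Complex.ext <;> simp [ha, this]
    simp [hw, this]
  have iw : Integrable w := by
    refine (integrableOn_iff_integrable_of_support_subset (subset_tsupport w)).1 ?_
    exact Measure.integrableOn_of_bounded (M := 1) cw.measure_lt_top.ne mw.aestronglyMeasurable
      (Eventually.of_forall bw)
  have e1 : ∀ x, ‖fderiv ℝ u x‖ = fderiv ℝ u x (w x) := fun x => by
    rw [hw, map_smul, clm_apply _ (a x), dot_self, clm_norm, smul_eq_mul]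
    change ‖a x‖ = ‖a x‖⁻¹ * ‖a x‖ ^ 2
    rcases eq_or_ne ‖a x‖ 0 with h | h
    · simp [h]
    · field_simp
  set ψ : ℂ → ℝ := fun y => -φ (-y) with hψ
  have dψ : ContDiff ℝ 1 ψ := (hφ.comp contDiff_neg).neg
  have cψ : HasCompactSupport ψ := (hc.comp_homeomorph (Homeomorph.neg ℂ)).neg
  set Ψ := w ⋆[(ContinuousLinearMap.lsmul ℝ ℝ).flip, volume] ψ with hΨ
  have dΨ : ContDiff ℝ 1 Ψ := cψ.contDiff_convolution_right (n := 1) _ iw.locallyIntegrable dψ
  have cΨ : HasCompactSupport Ψ := cw.convolution _ cψ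
  have iφ : Integrable φ := hφ.continuous.integrable_of_hasCompactSupport hc
  have bΨ : ∀ z, ‖Ψ z‖ ≤ 1 := fun z => by
    rw [hΨ, convolution_def, ← h1, ← integral_sub_right_eq_self φ z]
    refine norm_integral_le_of_norm_le (iφ.comp_sub_right z) (Eventually.of_forall fun t => ?_)
    change ‖(-φ (-(z - t))) • w t‖ ≤ _
    rw [norm_smul, norm_neg, neg_sub, Real.norm_of_nonneg (h0 _)]
    exact mul_le_of_le_one_right (h0 _) (bw t)
  have iD : ∀ z v, Integrable fun t => fderiv ℝ φ (t - z) v • w t := fun z v => by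
    obtain ⟨C, hC⟩ := (hc.fderiv ℝ).exists_bound_of_continuous cφ
    refine iw.bdd_smul (φ := fun t => fderiv ℝ φ (t - z) v) (C * ‖v‖)
      (Continuous.aestronglyMeasurable (by fun_prop)) (Eventually.of_forall fun t => ?_)
    exact ((fderiv ℝ φ (t - z)).le_opNorm v).trans (by gcongr; exact hC _)
  have e2 : ∀ z, dvg Ψ z = ∫ t, fderiv ℝ φ (t - z) (w t) := fun z => by
    rw [dvg, hΨ, fderiv_conv iw.locallyIntegrable cψ dψ, fderiv_conv iw.locallyIntegrable cψ dψ]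
    simp only [hψ, fderiv_refl hφ, neg_sub]
    have i1 := integral_re (iD z 1)
    have i2 := integral_im (iD z Complex.I)
    simp only [RCLike.re_to_complex, RCLike.im_to_complex] at i1 i2
    rw [← i1, ← i2]
    refine (integral_add (iD z 1).re (iD z Complex.I).im).symm.trans ?_
    refine integral_congr_ae (Eventually.of_forall fun t => ?_)
    simp only [clm_apply _ (w t), dot, RCLike.re_to_complex, RCLike.im_to_complex,
      Complex.smul_re, Complex.smul_im, smul_eq_mul]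
    ring
  have i3 : Integrable (Function.uncurry fun x t => fderiv ℝ φ (x - t) (w x) • χ t)
      (volume.prod volume) := by
    have i4 := iχ.norm.convolution_integrand (ContinuousLinearMap.mul ℝ ℝ)
      (cφ.integrable_of_hasCompactSupport (μ := volume) (hc.fderiv ℝ)).norm
    refine i4.mono' ?_ (Eventually.of_forall fun p => ?_)
    · have mχ : Measurable χ := measurable_const.indicator hE
      have : (Function.uncurry fun x t => fderiv ℝ φ (x - t) (w x) • χ t) = fun p : ℂ × ℂ =>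
          ((w p.1).re * fderiv ℝ φ (p.1 - p.2) 1 + (w p.1).im * fderiv ℝ φ (p.1 - p.2) Complex.I)
            * χ p.2 := funext fun p => by
        simp only [Function.uncurry, clm_apply _ (w p.1), dot, smul_eq_mul]
      rw [this]
      have m1 : ∀ v, Measurable fun p : ℂ × ℂ => fderiv ℝ φ (p.1 - p.2) v := fun v =>
        Continuous.measurable (by fun_prop)
      exact ((((Complex.measurable_re.comp (mw.comp measurable_fst)).mul (m1 1)).add
        ((Complex.measurable_im.comp (mw.comp measurable_fst)).mul (m1 _))).mul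
        (mχ.comp measurable_snd)).aestronglyMeasurable
    · change ‖fderiv ℝ φ (p.1 - p.2) (w p.1) • χ p.2‖ ≤ ‖χ p.2‖ * ‖fderiv ℝ φ (p.1 - p.2)‖
      rw [norm_smul, mul_comm]
      gcongr
      exact ((fderiv ℝ φ _).le_opNorm _).trans (mul_le_of_le_one_right (norm_nonneg _) (bw _))
  rw [← ofReal_integral_norm_eq_lintegral_enorm (cD.integrable_of_hasCompactSupport (cu.fderiv ℝ))]
  refine le_trans (le_of_eq ?_) (le_iSup (fun φ : {φ : ℂ → ℂ // ContDiff ℝ 1 φ ∧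
    HasCompactSupport φ ∧ ∀ z, ‖φ z‖ ≤ 1} => ENNReal.ofReal (∫ z in E, dvg φ.1 z))
    ⟨Ψ, dΨ, cΨ, bΨ⟩)
  congr 1
  simp only [e1, e2]
  simp only [hu, fderiv_conv iχ.locallyIntegrable hc hφ]
  rw [integral_integral_swap i3, ← integral_indicator hE]
  refine integral_congr_ae (Eventually.of_forall fun t => ?_)
  by_cases ht : t ∈ E
  · simp [hχ, ht]
  · simp [hχ, ht]

end Kla

theorem sKL1 (_hd : SDiv) (hco : SCO) (hpc : SPC) (hs : SSand) (hst : SST) : SKL1 := by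
  intro Ω ρ h hρ hv E hE hEΩ
  have hb : Bornology.IsBounded E := h.2.1.subset hEΩ
  have key : ∀ e : ℝ, 0 < e → volume E ≤ ENNReal.ofReal (ρ + e) * per E := by
    intro e he
    let B : ContDiffBump (0 : ℂ) := ⟨e / 2, e, half_pos he, half_lt_self he⟩
    set φ := B.normed volume with hφ
    set χ : ℂ → ℝ := E.indicator fun _ => (1 : ℝ) with hχ
    set u := χ ⋆[(ContinuousLinearMap.lsmul ℝ ℝ).flip, volume] φ with hu
    have iχ : Integrable χ := (integrable_indicator_iff hE).2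
      (integrableOn_const hb.measure_lt_top.ne)
    have cχ : HasCompactSupport χ := HasCompactSupport.intro hb.isCompact_closure
      fun x hx => indicator_of_notMem (fun h => hx (subset_closure h)) _
    have hc : HasCompactSupport φ := B.hasCompactSupport_normed
    have dφ : ContDiff ℝ 1 φ := B.contDiff_normed (n := 1)
    have cu : HasCompactSupport u := cχ.convolution _ hc
    have du : ContDiff ℝ 1 u := hc.contDiff_convolution_right (n := 1) _ iχ.locallyIntegrable dφ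
    obtain ⟨C, hC⟩ := du.lipschitzWith_of_hasCompactSupport cu one_ne_zero
    have u0 : ∀ z, 0 ≤ u z := fun z => integral_nonneg fun t =>
      mul_nonneg (B.nonneg_normed _) (indicator_nonneg (fun _ _ => zero_le_one) t)
    have su : {z | 0 < u z} ⊆ Ω + ball (0 : ℂ) e := by
      refine Subset.trans (b := Function.support u) (fun z (hz : 0 < u z) => hz.ne')
        ((support_convolution_subset _).trans ?_)
      rw [hφ, B.support_normed_eq]
      exact add_subset_add_right (support_indicator_subset.trans hEΩ)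
    have h1 := hco u C (ρ + e) hC cu u0 fun G ho hG hsub =>
      Kla.comp hpc hs hst h hρ he hv ho hG (hsub.trans su)
    have h2 : ∫⁻ z, ENNReal.ofReal (u z) = volume E := by
      rw [← ofReal_integral_eq_lintegral_ofReal (du.continuous.integrable_of_hasCompactSupport cu)
        (Eventually.of_forall u0), hu, integral_convolution _ iχ B.integrable_normed,
        B.integral_normed, hχ, integral_indicator hE]
      simp [Measure.real, hb.measure_lt_top.ne]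
    rw [← h2]
    exact h1.trans (mul_le_mul_right (Kla.tv_le hE hb hc dφ B.nonneg_normed B.integral_normed) _)
  have ht : Tendsto (fun e : ℝ => ENNReal.ofReal (ρ + e) * per E) (𝓝[>] 0)
      (𝓝 (ENNReal.ofReal ρ * per E)) := by
    refine ENNReal.Tendsto.mul_const ?_ (Or.inl (by simpa using hρ))
    refine ENNReal.tendsto_ofReal (Tendsto.mono_left ?_ nhdsWithin_le_nhds)
    exact Continuous.tendsto' (by fun_prop) 0 ρ (by simp)
  exact ge_of_tendsto ht (eventually_mem_nhdsWithin.mono fun e he => key e he)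

end Pool.Agent.MP_44cb5f_an

end MrgPart4

-- ======== part 5: formerly Pool.Agent.MP_44cb5f_an.Od4
section MrgPart5

set_option autoImplicit false
open MeasureTheory Set Metric Filter Topology

namespace Pool.Agent.MP_44cb5f_an

namespace Od4

theorem one_le_ph (p : ℝ) : 1 ≤ ph p := by
  have h1 := ph_sq p
  have h2 := ph_pos p
  nlinarith [sq_nonneg p]

theorem ph_continuous : Continuous ph := by
  unfold ph; fun_prop

theorem div_ph_mono {p p' : ℝ} (h : p ≤ p') : p / ph p ≤ p' / ph p' := by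
  have a := ph_pos p
  have b := ph_pos p'
  have a2 := ph_sq p
  have b2 := ph_sq p'
  rw [div_le_div_iff₀ a b]
  by_contra hlt
  have hlt : p' * ph p < p * ph p' := not_le.1 hlt
  rcases le_total 0 p with h0 | h0
  · have h1 : 0 ≤ p' * ph p := mul_nonneg (h0.trans h) a.le
    have h2 : (p' * ph p) ^ 2 < (p * ph p') ^ 2 := by nlinarith
    rw [mul_pow, mul_pow, a2, b2] at h2
    nlinarith
  · rcases le_total 0 p' with h3 | h3
    · have h1 : 0 ≤ p' * ph p := mul_nonneg h3 a.le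
      have h4 : p * ph p' ≤ 0 := mul_nonpos_of_nonpos_of_nonneg h0 b.le
      linarith
    · have h4 : p * ph p' ≤ 0 := mul_nonpos_of_nonpos_of_nonneg h0 b.le
      have h2 : (p * ph p') ^ 2 < (p' * ph p) ^ 2 := by nlinarith
      rw [mul_pow, mul_pow, a2, b2] at h2
      nlinarith

theorem ct_le (E : Env) (hs : Monotone E.sl) {x y : ℝ} (h : x ≤ y) : E.ct x ≤ E.ct y := by
  have := div_ph_mono (hs h)
  unfold Env.ct; linarith

theorem ct_lt (E : Env) (hs : Monotone E.sl) {x y : ℝ} (h : x < y) : E.ct x < E.ct y := by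
  have := div_ph_mono (hs h.le)
  unfold Env.ct; linarith

theorem ct_measurable (E : Env) (hs : Monotone E.sl) : Measurable E.ct :=
  (show Monotone E.ct from fun _ _ h => ct_le E hs h).measurable

theorem intInt {m q : ℝ → ℝ} (hm : Monotone m) (hq : Continuous q) {M : ℝ}
    (hM : ∀ p, |q p| ≤ M) (a b : ℝ) : IntervalIntegrable (fun v => q (m v)) volume a b := by
  refine (intervalIntegrable_const (c := M)).mono_fun'
    (hq.measurable.comp hm.measurable).aestronglyMeasurable (Eventually.of_forall fun v => ?_)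
  exact hM _

theorem Lam_measurable (E : Env) (hs : Monotone E.sl) (hg : Continuous E.g) {q V y : ℝ → ℝ}
    (hq : Continuous q) (hV : Continuous V) (hy : Measurable y) (t : ℝ) :
    Measurable fun x => E.Lam q V t (y x) x := by
  have h1 : Measurable fun x => E.sl (y x) := hs.measurable.comp hy
  have h2 : Measurable fun x => E.g (y x) := hg.measurable.comp hy
  have h3 : Measurable fun x => V (E.ct (y x)) :=
    hV.measurable.comp ((ct_measurable E hs).comp hy)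
  have h4 : Measurable fun x => q (E.sl (y x)) := hq.measurable.comp h1
  have h5 : Measurable fun x => ph (E.sl (y x)) := ph_continuous.measurable.comp h1
  have h6 : Measurable fun x => ph (E.sl (y x) + t * q (E.sl (y x))) :=
    ph_continuous.measurable.comp (h1.add (h4.const_mul t))
  have h7 : Measurable fun x => x - y x := measurable_id.sub hy
  unfold Env.Lam
  exact ((h2.add (h1.mul h7)).add ((h3.add (h4.mul h7)).const_mul t)).add
    ((h6.sub h5).sub ((h1.div h5).mul (h4.const_mul t)))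

theorem Lam_bound (h1 : SOD1) (E : Env) {q V : ℝ → ℝ} {M t : ℝ} (hM : ∀ p, |q p| ≤ M)
    (hV : ∀ u, |V u| ≤ 1) (ht : |t| * M ≤ 1) (y x : ℝ) :
    |E.Lam q V t y x - E.g x| ≤ 3 * |y - x| + |t| * (1 + M) := by
  obtain ⟨-, -, hg, -, -, -, hR⟩ := h1 E
  have hp : |E.sl y| ≤ 1 := E.slope _ (E.g_eq y)
  have hs0 : |t * q (E.sl y)| ≤ |t| * M := by
    rw [abs_mul]; exact mul_le_mul_of_nonneg_left (hM _) (abs_nonneg _)
  have hs1 : |t * q (E.sl y)| ≤ 1 := hs0.trans ht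
  obtain ⟨r1, r2⟩ := hR (E.sl y) (t * q (E.sl y)) hp (by linarith)
  have r3 : (t * q (E.sl y)) ^ 2 ≤ |t| * M := by
    rw [← sq_abs]
    nlinarith [abs_nonneg (t * q (E.sl y))]
  have r4 : 0 ≤ (t * q (E.sl y)) ^ 2 / 50 := by positivity
  have a1 := abs_le.1 (hg y x)
  have a2 : |E.sl y * (x - y)| ≤ |y - x| := by
    rw [abs_mul, abs_sub_comm x y]
    exact mul_le_of_le_one_left (abs_nonneg _) hp
  have a3 : |t * V (E.ct y)| ≤ |t| := by
    rw [abs_mul]; exact mul_le_of_le_one_right (abs_nonneg _) (hV _)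
  have a4 : |t * q (E.sl y) * (x - y)| ≤ |y - x| := by
    rw [abs_mul, abs_sub_comm x y]
    exact mul_le_of_le_one_left (abs_nonneg _) hs1
  have b2 := abs_le.1 a2
  have b3 := abs_le.1 a3
  have b4 := abs_le.1 a4
  have hM0 : 0 ≤ |t| * M := (abs_nonneg _).trans hs0
  unfold Env.Lam
  rw [abs_le]
  constructor <;> nlinarith

theorem Lam_out (E : Env) {q V : ℝ → ℝ} {x : ℝ} (hq : q (E.sl x) = 0) (hV : V (E.ct x) = 0)
    (t : ℝ) : E.Lam q V t x x = E.g x := by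
  unfold Env.Lam
  rw [hq, hV]; simp

/-- The conclusion of the row, for one perturbation `q`. -/
def Concl (E : Env) (W : ℝ → ℝ) (A B : ℝ) (κ : ℝ → ℝ) : Prop :=
  ∃ C t0 : ℝ, 0 < t0 ∧ ∀ t ∈ Ioc 0 t0,
    ConvexOn ℝ univ (fun u => E.f u + t * W u) ∧
    ConvexOn ℝ univ (fun u => E.f u - t * W u) ∧
    ∃ lp lm : ℝ → ℝ, Measurable lp ∧ Measurable lm ∧
      Below (fun u => E.f u + t * W u) lp ∧
      Below (fun u => E.f u - t * W u) lm ∧
      (∀ x, x ∉ Icc A B → lp x = E.g x ∧ lm x = E.g x) ∧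
      (∀ x, |lp x - E.g x| ≤ C * t ∧ |lm x - E.g x| ≤ C * t) ∧
      κ t ≤ ∫ x in A..B, (lp x + lm x - 2 * E.g x)

theorem concl (h1 : SOD1) (E : Env) {q : ℝ → ℝ} {L : NNReal} {u0 A B yL yR M C t0 : ℝ}
    {κ : ℝ → ℝ} (hq : LipschitzWith L q) (hM : ∀ p, |q p| ≤ M)
    (hV : ∀ u, |∫ w in u0..u, q (E.sf w)| ≤ 1)
    (hout : ∀ x, x ∉ Icc A B → q (E.sl x) = 0 ∧ ∫ w in u0..E.ct x, q (E.sf w) = 0)
    (hA : A ≤ yL) (hB : yR ≤ B) (ht0 : 0 < t0)
    (h3 : ∀ t ∈ Ioc 0 t0, ∃ y : ℝ → ℝ, Measurable y ∧ (∀ x, x ∉ Icc yL yR → y x = x) ∧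
      (∀ x, |y x - x| ≤ C * t) ∧
      κ t ≤ ∫ x in A..B, (E.Lam q (fun u => ∫ w in u0..u, q (E.sf w)) t (y x) x
        + E.Lam q (fun u => ∫ w in u0..u, q (E.sf w)) (-t) x x - 2 * E.g x)) :
    Concl E (fun u => ∫ w in u0..u, q (E.sf w)) A B κ := by
  obtain ⟨hs, hf, hg, -, -, hc, -⟩ := h1 E
  have hM0 : 0 ≤ M := (abs_nonneg _).trans (hM 0)
  have hL0 : (0 : ℝ) ≤ L := L.2
  have hgc : Continuous E.g :=
    (LipschitzWith.of_dist_le' (K := 1) fun x y => by
      rw [Real.dist_eq, Real.dist_eq, one_mul]; exact hg x y).continuous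
  have hVc : Continuous fun u => ∫ w in u0..u, q (E.sf w) :=
    intervalIntegral.continuous_primitive (intInt hf hq.continuous hM) u0
  refine ⟨3 * C + 1 + M, min t0 (1 / (L + M + 1)), lt_min ht0 (by positivity), fun t ht => ?_⟩
  have htp : 0 < t := ht.1
  have ht1 : t * (L + M + 1) ≤ 1 := by
    have := ht.2.trans (min_le_right _ _)
    rwa [le_div_iff₀ (by positivity)] at this
  have hat : |t| = t := abs_of_pos htp
  have hat' : |-t| = t := by rw [abs_neg, hat]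
  have hL : t * L ≤ 1 := by nlinarith
  have hMt : t * M ≤ 1 := by nlinarith
  obtain ⟨y, hy, hyo, hyb, hint⟩ := h3 t ⟨htp, ht.2.trans (min_le_left _ _)⟩
  obtain ⟨c1, d1⟩ := hc q L u0 t hq (by rw [hat]; exact hL)
  obtain ⟨c2, d2⟩ := hc q L u0 (-t) hq (by rw [hat']; exact hL)
  have e : (fun u => E.f u - t * ∫ w in u0..u, q (E.sf w)) =
      fun u => E.f u + -t * ∫ w in u0..u, q (E.sf w) := by
    funext u; ring
  have hCt : 0 ≤ C * t := (abs_nonneg _).trans (hyb 0)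
  refine ⟨c1, by rw [e]; exact c2,
    fun x => E.Lam q (fun u => ∫ w in u0..u, q (E.sf w)) t (y x) x,
    fun x => E.Lam q (fun u => ∫ w in u0..u, q (E.sf w)) (-t) x x,
    Lam_measurable E hs hgc hq.continuous hVc hy t,
    Lam_measurable E hs hgc hq.continuous hVc measurable_id (-t),
    fun x v hv => d1 (y x) x v hv, ?_, fun x hx => ?_, fun x => ⟨?_, ?_⟩, hint⟩
  · rw [e]; exact fun x v hv => d2 x x v hv
  · have hx' : x ∉ Icc yL yR := fun h => hx ⟨hA.trans h.1, h.2.trans hB⟩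
    obtain ⟨o1, o2⟩ := hout x hx
    refine ⟨?_, Lam_out E o1 o2 _⟩
    change E.Lam q _ t (y x) x = _
    rw [hyo x hx']
    exact Lam_out E o1 o2 _
  · have := Lam_bound h1 E hM hV (t := t) (by rw [hat]; exact hMt) (y x) x
    rw [hat] at this
    have h2 := hyb x
    change |E.Lam q _ t (y x) x - E.g x| ≤ _
    nlinarith
  · have := Lam_bound h1 E hM hV (t := -t) (by rw [hat']; exact hMt) x x
    rw [hat', sub_self, abs_zero] at this
    change |E.Lam q _ (-t) x x - E.g x| ≤ _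
    nlinarith

theorem prim_left {F : ℝ → ℝ} {u0 u : ℝ} (h : ∀ w, w ≤ u0 → F w = 0) (hu : u ≤ u0) :
    ∫ w in u0..u, F w = 0 := by
  rw [intervalIntegral.integral_congr (g := fun _ => (0 : ℝ)) fun w hw => h w (by
    rw [uIcc_of_ge hu] at hw; exact hw.2)]
  simp

theorem prim_right {F : ℝ → ℝ} {u0 T c d u : ℝ} (hi : ∀ a b, IntervalIntegrable F volume a b)
    (hP : Prof (fun u => ∫ w in u0..u, F w) c d) (h : ∀ w, T ≤ w → F w = 0) (hu : T ≤ u) :
    ∫ w in u0..u, F w = 1 := by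
  have h1 : ∫ w in u0..max u (c + d), F w = 1 := hP.2.2.2.2 _ (le_max_right _ _)
  have h2 : ∫ w in u..max u (c + d), F w = 0 := by
    rw [intervalIntegral.integral_congr (g := fun _ => (0 : ℝ)) fun w hw => h w (by
      rw [uIcc_of_le (le_max_left _ _)] at hw; exact hu.trans hw.1)]
    simp
  rw [← intervalIntegral.integral_add_adjacent_intervals (hi u0 u) (hi u _), h2, add_zero] at h1
  exact h1

/-- The statement of row OD3 for a fixed constant. -/
def OD3 (c : ℝ) : Prop :=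
  ∀ (E : Env) (qa qb : ℝ → ℝ) (L : NNReal) (a P1 P2 u0 yL yL' yR' yR x0 : ℝ),
    LipschitzWith L qa → LipschitzWith L qb → 0 < a → (∀ p, 0 ≤ qa p ∧ qa p ≤ a) →
    (∀ p, 0 ≤ qb p) → (∀ p ∈ Icc P1 P2, qa p = a) →
    (∀ p ∈ Icc (E.sl yL) (E.sl yR), qb p = 0) → yL < yL' → yR' < yR →
    E.sl yL' < P1 → P2 < E.sl yR' → E.sl x0 ∈ Icc P1 P2 →
    0 < (volume {u | E.sf u ∈ Icc P1 P2}).toReal →
    ∃ C t0 : ℝ, 0 < t0 ∧ ∀ t ∈ Ioc 0 t0, ∃ y : ℝ → ℝ, Measurable y ∧
      (∀ x, x ∉ Icc yL yR → y x = x) ∧ (∀ x, |y x - x| ≤ C * t) ∧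
      ∀ A B, A ≤ yL → yR ≤ B →
        c * t ^ 2 * a ^ 2 * (volume {u | E.sf u ∈ Icc P1 P2}).toReal ≤
          ∫ x in A..B,
            (E.Lam (fun p => qa p - qb p) (fun u => ∫ w in u0..u, (qa (E.sf w) - qb (E.sf w)))
                t (y x) x
              + E.Lam (fun p => qa p - qb p)
                (fun u => ∫ w in u0..u, (qa (E.sf w) - qb (E.sf w))) (-t) x x - 2 * E.g x)

theorem two (h1 : SOD1) {c : ℝ} (hc : 0 < c) (h3 : OD3 c) (E : Env) {qa qb : ℝ → ℝ}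
    {La Lb : NNReal} {a b P1 P2 u0 yL yL' yR' yR x0 A B ca da cb db lo hi T : ℝ}
    (hqa : LipschitzWith La qa) (hqb : LipschitzWith Lb qb)
    (ha : ∀ p, 0 ≤ qa p ∧ qa p ≤ a) (hb : ∀ p, 0 ≤ qb p ∧ qb p ≤ b)
    (hP : ∀ p ∈ Icc P1 P2, qa p = a) (hz : ∀ p ∈ Icc (E.sl yL) (E.sl yR), qb p = 0)
    (k1 : yL < yL') (k2 : yR' < yR) (k3 : E.sl yL' < P1) (k4 : P2 < E.sl yR')
    (k5 : E.sl x0 ∈ Icc P1 P2) (hda : 1 / da ≤ a)
    (hvol : da / 2 ≤ (volume {u | E.sf u ∈ Icc P1 P2}).toReal)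
    (pa : Prof (fun u => ∫ w in u0..u, qa (E.sf w)) ca da)
    (pb : Prof (fun u => ∫ w in u0..u, qb (E.sf w)) cb db)
    (hA : A ≤ yL) (hB : yR ≤ B)
    (hlo : ∀ p, p ≤ lo → qa p = 0 ∧ qb p = 0) (hhi : ∀ p, hi ≤ p → qa p = 0 ∧ qb p = 0)
    (l1 : E.sl A ≤ lo) (l2 : hi ≤ E.sl B) (l3 : E.ct A ≤ u0) (l4 : T ≤ E.ct B)
    (l5 : ∀ w, w ≤ u0 → E.sf w ≤ lo) (l6 : ∀ w, T ≤ w → hi ≤ E.sf w) :
    Concl E (fun u => (∫ w in u0..u, qa (E.sf w)) - ∫ w in u0..u, qb (E.sf w)) A B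
      (fun t => c / 2 * t ^ 2 / da) := by
  obtain ⟨hs, hf, -⟩ := h1 E
  have hd : 0 < da := pa.1
  have ha0 : 0 < a := (one_div_pos.2 hd).trans_le hda
  have ba : ∀ p, |qa p| ≤ a := fun p => by rw [abs_of_nonneg (ha p).1]; exact (ha p).2
  have bb : ∀ p, |qb p| ≤ b := fun p => by rw [abs_of_nonneg (hb p).1]; exact (hb p).2
  have ia := intInt hf hqa.continuous ba
  have ib := intInt hf hqb.continuous bb
  have e : ∀ u, (∫ w in u0..u, (qa (E.sf w) - qb (E.sf w))) =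
      (∫ w in u0..u, qa (E.sf w)) - ∫ w in u0..u, qb (E.sf w) := fun u =>
    intervalIntegral.integral_sub (ia _ _) (ib _ _)
  obtain ⟨C, t0, ht0, H⟩ := h3 E qa qb (La + Lb) a P1 P2 u0 yL yL' yR' yR x0
    (hqa.weaken le_self_add) (hqb.weaken le_add_self) ha0 ha (fun p => (hb p).1) hP hz k1 k2 k3
    k4 k5 (by linarith)
  have e' : (fun u => (∫ w in u0..u, qa (E.sf w)) - ∫ w in u0..u, qb (E.sf w)) =
      fun u => ∫ w in u0..u, (fun p => qa p - qb p) (E.sf w) := funext fun u => (e u).symm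
  rw [e']
  refine concl h1 E (q := fun p => qa p - qb p) (M := a + b) (C := C) (hqa.sub hqb)
    (fun p => ?_) (fun u => ?_) (fun x hx => ?_) hA hB ht0 fun t ht => ?_
  · have := ha p
    have := hb p
    rw [abs_le]; constructor <;> linarith
  · have a1 := pa.2.2.1 u
    have a2 := pb.2.2.1 u
    change |∫ w in u0..u, (qa (E.sf w) - qb (E.sf w))| ≤ 1
    rw [e, abs_le]
    constructor <;> linarith [a1.1, a1.2, a2.1, a2.2]
  · rw [e]
    rcases lt_or_ge x A with h | h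
    · obtain ⟨z1, z2⟩ := hlo _ ((hs h.le).trans l1)
      have hu := (ct_le E hs h.le).trans l3
      rw [z1, z2, prim_left (fun w hw => (hlo _ (l5 w hw)).1) hu,
        prim_left (fun w hw => (hlo _ (l5 w hw)).2) hu]
      simp
    · have h' : B < x := not_le.1 fun h2 => hx ⟨h, h2⟩
      obtain ⟨z1, z2⟩ := hhi _ (l2.trans (hs h'.le))
      have hu := l4.trans (ct_le E hs h'.le)
      rw [z1, z2, prim_right ia pa (fun w hw => (hhi _ (l6 w hw)).1) hu,
        prim_right ib pb (fun w hw => (hhi _ (l6 w hw)).2) hu]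
      simp
  · obtain ⟨y, y1, y2, y3, y4⟩ := H t ht
    refine ⟨y, y1, y2, y3, le_trans ?_ (y4 A B hA hB)⟩
    have q1 : (1 / da) ^ 2 * (da / 2) ≤ a ^ 2 * (volume {u | E.sf u ∈ Icc P1 P2}).toReal :=
      mul_le_mul (pow_le_pow_left₀ (by positivity) hda 2) hvol (by positivity) (by positivity)
    have q2 : c / 2 * t ^ 2 / da = c * t ^ 2 * ((1 / da) ^ 2 * (da / 2)) := by
      field_simp
    change c / 2 * t ^ 2 / da ≤ _
    rw [q2, mul_assoc (c * t ^ 2)]
    exact mul_le_mul_of_nonneg_left q1 (by positivity)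

end Od4

open Od4 in
theorem sOneD (h1 : SOD1) (h2 : SOD2) (h3 : SOD3) : SOneD := by
  obtain ⟨c, hc, h3⟩ := h3
  refine ⟨c / 2, by positivity, fun E y hy hp => ?_⟩
  obtain ⟨hs, hf, -, -, hk, -⟩ := h1 E
  have kl : ∀ x u, u < E.ct x → E.sf u ≤ E.sl x := fun x => (hk _ x (E.g_eq x)).2.1
  have kr : ∀ x u, E.ct x < u → E.sl x ≤ E.sf u := fun x => (hk _ x (E.g_eq x)).2.2
  have y0 := hy 0 (by norm_num)
  have y1 := hy 1 (by norm_num)
  have y2 := hy 2 (by norm_num)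
  have y3 := hy 3 (by norm_num)
  have y4 := hy 4 (by norm_num)
  have y5 := hy 5 (by norm_num)
  have y6 := hy 6 (by norm_num)
  have y7 := hy 7 (by norm_num)
  have y8 := hy 8 (by norm_num)
  have p0 := hp 0 (by norm_num)
  have p1 := hp 1 (by norm_num)
  have p2 := hp 2 (by norm_num)
  have p3 := hp 3 (by norm_num)
  have p4 := hp 4 (by norm_num)
  have p5 := hp 5 (by norm_num)
  have p6 := hp 6 (by norm_num)
  have p7 := hp 7 (by norm_num)
  have p8 := hp 8 (by norm_num)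
  norm_num at y0 y1 y2 y3 y4 y5 y6 y7 y8 p0 p1 p2 p3 p4 p5 p6 p7 p8
  have s0 := ct_lt E hs y0
  have s1 := ct_lt E hs y1
  have s2 := ct_lt E hs y2
  have s3 := ct_lt E hs y3
  have s4 := ct_lt E hs y4
  have s5 := ct_lt E hs y5
  have s6 := ct_lt E hs y6
  have s7 := ct_lt E hs y7
  have s8 := ct_lt E hs y8
  obtain ⟨q, L, a, d, P, b1, b2, b3, b4, b5, b6, b7, b8, b9, b10, b11⟩ :=
    h2 E.sf (E.sl (y 1)) (E.sl (y 3)) (E.sl (y 4)) (E.ct (y 1)) (E.ct (y 2)) (E.ct (y 3))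
      (E.ct (y 4)) hf (by linarith) p3 s2
      (fun u hu => le_of_not_gt fun h => absurd (kl _ u h) (not_le.2 hu))
      (fun u hu => ⟨p1.trans_le (kr _ u hu.1), kl _ u hu.2⟩)
      (fun u hu => le_of_not_gt fun h => absurd (kr _ u h) (not_le.2 hu))
  obtain ⟨q', L', a', d', P', c1, c2, c3, c4, c5, c6, c7, c8, c9, c10, c11⟩ :=
    h2 E.sf (E.sl (y 5)) (E.sl (y 7)) (E.sl (y 8)) (E.ct (y 5)) (E.ct (y 6)) (E.ct (y 7))
      (E.ct (y 8)) hf (by linarith) p7 s6
      (fun u hu => le_of_not_gt fun h => absurd (kl _ u h) (not_le.2 hu))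
      (fun u hu => ⟨p5.trans_le (kr _ u hu.1), kl _ u hu.2⟩)
      (fun u hu => le_of_not_gt fun h => absurd (kr _ u h) (not_le.2 hu))
  have pa := b11 (E.ct (y 0)) s0.le
  have pb := c11 (E.ct (y 0)) (by linarith)
  have l5 : ∀ w, w ≤ E.ct (y 0) → E.sf w ≤ E.sl (y 1) := fun w hw => kl _ w (by linarith)
  have l6 : ∀ w, E.ct (y 9) ≤ w → E.sl (y 8) ≤ E.sf w := fun w hw => kr _ w (by linarith)
  rcases le_total d d' with hd | hd
  · exact ⟨_, _, _, _, d, d', pa, pb, hd, by linarith, ⟨by linarith, by linarith⟩,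
      ⟨by linarith, by linarith⟩,
      two h1 hc h3 E (yL := y 0) (yL' := y 1) (yR' := y 4) (yR := y 5) (x0 := y 3) b1 c1 b4 c4 b7
        (fun p h => c5 p h.2) y0 y4 b2 p3 ⟨b3, le_rfl⟩ b8 b10 pa pb le_rfl (by linarith)
        (fun p h => ⟨b5 p h, c5 p (by linarith)⟩) (fun p h => ⟨b6 p (by linarith), c6 p h⟩)
        p0.le p8.le le_rfl le_rfl l5 l6⟩
  · exact ⟨_, _, _, _, d', d, pb, pa, hd, by linarith, ⟨by linarith, by linarith⟩,
      ⟨by linarith, by linarith⟩,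
      two h1 hc h3 E (yL := y 4) (yL' := y 5) (yR' := y 8) (yR := y 9) (x0 := y 7) c1 b1 c4 b4 c7
        (fun p h => b6 p h.1) y4 y8 c2 p7 ⟨c3, le_rfl⟩ c8 c10 pb pa (by linarith) le_rfl
        (fun p h => ⟨c5 p (by linarith), b5 p h⟩) (fun p h => ⟨c6 p h, b6 p (by linarith)⟩)
        p0.le p8.le le_rfl le_rfl l5 l6⟩

end Pool.Agent.MP_44cb5f_an

end MrgPart5

-- ======== part 6: formerly Pool.Agent.MP_44cb5f_an.Sl
section MrgPart6

set_option autoImplicit false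
open MeasureTheory Set Metric
open scoped Pointwise

namespace Pool.Agent.MP_44cb5f_an

namespace Sl

open Real

/-- The lines of a fixed direction sweep the plane and preserve the measure. -/
theorem mp (α : ℝ) : MeasurePreserving (fun p : ℝ × ℝ => ln α p.1 p.2)
    ((volume : Measure ℝ).prod volume) volume := by
  have e : (fun p : ℝ × ℝ => ln α p.1 p.2) =
      rotation (Circle.exp α) ∘ Complex.measurableEquivRealProd.symm ∘ Prod.swap := by
    funext p
    apply Complex.ext <;>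
      simp [ln, Complex.exp_ofReal_mul_I_re, Complex.exp_ofReal_mul_I_im] <;> ring
  rw [e]
  exact (rotation (Circle.exp α)).measurePreserving.comp
    (Complex.volume_preserving_equiv_real_prod.symm.comp
      (Measure.measurePreserving_swap (μ := (volume : Measure ℝ)) (ν := (volume : Measure ℝ))))

theorem hasDerivAt_ln (α b s : ℝ) : HasDerivAt (ln α b) (⟨cos α, sin α⟩ : ℂ) s := by
  have h := ((hasDerivAt_id s).smul_const (⟨cos α, sin α⟩ : ℂ)).add_const (ln α b 0)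
  have e : ln α b = fun x => id x • (⟨cos α, sin α⟩ : ℂ) + ln α b 0 := by
    funext t
    apply Complex.ext
    · simp [ln, sub_eq_add_neg]
    · simp [ln]
  rw [one_smul, ← e] at h
  exact h

theorem meas (u : ℂ → ℝ) : Measurable fun p : ℝ × ℂ =>
    ‖cos p.1 * fderiv ℝ u p.2 1 + sin p.1 * fderiv ℝ u p.2 Complex.I‖ₑ :=
  (((measurable_cos.comp measurable_fst).mul
    ((measurable_fderiv_apply_const ℝ u 1).comp measurable_snd)).add
    ((measurable_sin.comp measurable_fst).mul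
    ((measurable_fderiv_apply_const ℝ u Complex.I).comp measurable_snd))).enorm

theorem line {u : ℂ → ℝ} {C : NNReal} (h : LipschitzWith C u) (α : ℝ) :
    ∫⁻ b : ℝ, ∫⁻ s : ℝ, ‖deriv (fun s => u (ln α b s)) s‖ₑ =
      ∫⁻ z, ‖cos α * fderiv ℝ u z 1 + sin α * fderiv ℝ u z Complex.I‖ₑ := by
  have hm : Measurable fun z => ‖cos α * fderiv ℝ u z 1 + sin α * fderiv ℝ u z Complex.I‖ₑ :=
    (((measurable_fderiv_apply_const ℝ u 1).const_mul _).add
      ((measurable_fderiv_apply_const ℝ u Complex.I).const_mul _)).enorm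
  rw [← (mp α).lintegral_comp hm]
  refine Eq.trans ?_ (lintegral_prod _ (hm.comp (mp α).measurable).aemeasurable).symm
  refine lintegral_congr_ae ?_
  filter_upwards [Measure.ae_ae_of_ae_prod
    ((mp α).quasiMeasurePreserving.ae (h.ae_differentiableAt (μ := volume)))] with b hb
  refine lintegral_congr_ae ?_
  filter_upwards [hb] with s hs
  have := (hs.hasFDerivAt.comp_hasDerivAt s (hasDerivAt_ln α b s)).deriv
  rw [clm_apply] at this
  exact congrArg _ this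

theorem int_cos (θ : ℝ) : ∫ α in (0 : ℝ)..2 * π, |cos (α - θ)| = 4 := by
  have hc : Continuous fun x => |cos x| := continuous_cos.abs
  have hp : Function.Periodic (fun x => |cos x|) (2 * π) := fun x => by simp
  rw [intervalIntegral.integral_comp_sub_right (fun x => |cos x|), zero_sub,
    show 2 * π - θ = -θ + 2 * π by ring, hp.intervalIntegral_add_eq _ (-(π / 2)),
    ← intervalIntegral.integral_add_adjacent_intervals (b := π / 2) (hc.intervalIntegrable _ _)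
      (hc.intervalIntegrable _ _),
    intervalIntegral.integral_congr (b := π / 2) (g := cos) fun x hx => ?_,
    intervalIntegral.integral_congr (a := π / 2) (g := fun x => -cos x) fun x hx => ?_,
    intervalIntegral.integral_neg, integral_cos, integral_cos,
    show -(π / 2) + 2 * π = π / 2 + π by ring, sin_add_pi, sin_neg, sin_pi_div_two]
  · norm_num
  · rw [uIcc_of_le (by linarith [pi_pos])] at hx
    exact abs_of_nonpos (cos_nonpos_of_pi_div_two_le_of_le hx.1 (by linarith [hx.2]))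
  · rw [uIcc_of_le (by linarith [pi_pos])] at hx
    exact abs_of_nonneg (cos_nonneg_of_mem_Icc hx)

theorem circle (w : ℂ) :
    ∫⁻ α in Ioo (0 : ℝ) (2 * π), ‖cos α * w.re + sin α * w.im‖ₑ = 4 * ‖w‖ₑ := by
  have e : ∀ α, ‖cos α * w.re + sin α * w.im‖ₑ = ENNReal.ofReal (‖w‖ * |cos (α - w.arg)|) :=
    fun α => by
      rw [← ofReal_norm, Real.norm_eq_abs, ← abs_norm w, ← abs_mul, cos_sub, mul_add,
        mul_left_comm, mul_left_comm _ (sin α), Complex.norm_mul_cos_arg, Complex.norm_mul_sin_arg]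
  have hc : Continuous fun α => ‖w‖ * |cos (α - w.arg)| := by fun_prop
  simp only [e]
  rw [← ofReal_integral_eq_lintegral_ofReal (hc.integrableOn_Icc.mono_set Ioo_subset_Icc_self)
      (Filter.Eventually.of_forall fun α => by positivity), ← integral_Ioc_eq_integral_Ioo,
    ← intervalIntegral.integral_of_le (by positivity), intervalIntegral.integral_const_mul,
    int_cos, mul_comm, ENNReal.ofReal_mul (by norm_num), ofReal_norm]
  simp

end Sl

theorem sSL : SSL := by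
  intro u C h
  simp only [Sl.line h]
  rw [lintegral_lintegral_swap (Sl.meas u).aemeasurable,
    ← lintegral_const_mul _ (measurable_fderiv ℝ u).enorm]
  refine lintegral_congr fun z => ?_
  rw [← ofReal_norm, clm_norm, ofReal_norm]
  exact (Sl.circle _).symm

end Pool.Agent.MP_44cb5f_an

end MrgPart6

-- ======== part 7: formerly Pool.Agent.MP_44cb5f_an.Wf
section MrgPart7

set_option autoImplicit false
open MeasureTheory Set Metric Filter Topology

namespace Pool.Agent.MP_44cb5f_an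

namespace Wf

/-- Height above the graph of `f`. -/
noncomputable def rho (f : ℝ → ℝ) (z : ℂ) : ℝ := max (z.im - f z.re) 0

/-- `x` clamped to `[-r, r]`. -/
noncomputable def cl (x r : ℝ) : ℝ := max (-r) (min x r)

/-- The profile `V` spread over the scale `d + rho`. -/
noncomputable def T (f V : ℝ → ℝ) (c d : ℝ) (z : ℂ) : ℝ :=
  V (c + d * (cl (z.re - c) (d + rho f z) / (d + rho f z)))

/-- Cut-off in the height. -/
noncomputable def chi (f : ℝ → ℝ) (z : ℂ) : ℝ := max (1 - 100 * rho f z) 0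

theorem rho_nonneg (f : ℝ → ℝ) (z : ℂ) : 0 ≤ rho f z := le_max_right _ _

theorem abs_re_sub (z w : ℂ) : |z.re - w.re| ≤ ‖z - w‖ := by
  simpa using Complex.abs_re_le_norm (z - w)

theorem abs_im_sub (z w : ℂ) : |z.im - w.im| ≤ ‖z - w‖ := by
  simpa using Complex.abs_im_le_norm (z - w)

theorem rho_lip {f : ℝ → ℝ} (hf : ∀ u v, |f u - f v| ≤ |u - v|) (z w : ℂ) :
    |rho f z - rho f w| ≤ 2 * ‖z - w‖ := by
  have h1 := abs_max_sub_max_le_abs (z.im - f z.re) (w.im - f w.re) 0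
  have h2 := hf z.re w.re
  have h3 := abs_re_sub z w
  have h4 := abs_im_sub z w
  have h5 : |z.im - f z.re - (w.im - f w.re)| ≤ |z.im - w.im| + |f z.re - f w.re| := by
    have e : z.im - f z.re - (w.im - f w.re) = (z.im - w.im) - (f z.re - f w.re) := by ring
    rw [e]; exact abs_sub _ _
  unfold rho
  linarith

theorem rho_cont {f : ℝ → ℝ} (hf : ∀ u v, |f u - f v| ≤ |u - v|) : Continuous (rho f) := by
  have : LipschitzWith 2 (rho f) := LipschitzWith.of_dist_le_mul fun z w => by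
    rw [Real.dist_eq, dist_eq_norm]; exact_mod_cast rho_lip hf z w
  exact this.continuous

theorem cl_abs {x r : ℝ} (hr : 0 ≤ r) : |cl x r| ≤ r := by
  unfold cl
  rw [abs_le]
  exact ⟨le_max_left _ _, max_le (by linarith) (min_le_right _ _)⟩

theorem cl_sub (x x' r r' : ℝ) : |cl x r - cl x' r'| ≤ |x - x'| + |r - r'| := by
  have h1 := le_abs_self (x - x')
  have h2 := neg_abs_le (x - x')
  have h3 := le_abs_self (r - r')
  have h4 := neg_abs_le (r - r')
  have h5 := abs_nonneg (x - x')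
  have h6 := abs_nonneg (r - r')
  unfold cl
  rw [abs_le]
  simp only [max_def, min_def]
  constructor <;> split_ifs <;> linarith

theorem cl_of_ge {x r : ℝ} (hr : 0 ≤ r) (h : r ≤ x) : cl x r = r := by
  unfold cl; rw [min_eq_right h, max_eq_right (by linarith)]

theorem cl_of_le {x r : ℝ} (h : x ≤ -r) : cl x r = -r := by
  unfold cl; exact max_eq_left ((min_le_left _ _).trans h)

theorem cl_of_mem {x r : ℝ} (h1 : -r ≤ x) (h2 : x ≤ r) : cl x r = x := by
  unfold cl; rw [min_eq_left h2, max_eq_right h1]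

theorem cl_div {x x' r r' : ℝ} (hr : 0 < r) (hr' : 0 < r') :
    |cl x' r' / r' - cl x r / r| ≤ (|x' - x| + 2 * |r' - r|) / r := by
  have e : cl x' r' / r' - cl x r / r
      = ((cl x' r' - cl x r) - cl x' r' / r' * (r' - r)) / r := by
    field_simp; ring
  rw [e, abs_div, abs_of_pos hr]
  refine div_le_div_of_nonneg_right ?_ hr.le
  have h1 := cl_sub x' x r' r
  have h2 : |cl x' r' / r'| ≤ 1 := by
    rw [abs_div, abs_of_pos hr', div_le_one hr']; exact cl_abs hr'.le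
  have h3 : |cl x' r' / r' * (r' - r)| ≤ |r' - r| := by
    rw [abs_mul]; exact mul_le_of_le_one_left (abs_nonneg _) h2
  have h4 := abs_sub (cl x' r' - cl x r) (cl x' r' / r' * (r' - r))
  linarith

theorem T_sub {f V : ℝ → ℝ} {c d : ℝ} (hf : ∀ u v, |f u - f v| ≤ |u - v|) (hV : Prof V c d)
    (z w : ℂ) : |T f V c d w - T f V c d z| ≤ 10 / (d + rho f z) * ‖w - z‖ := by
  have hd := hV.1
  have hz : 0 < d + rho f z := by have := rho_nonneg f z; linarith
  have hw : 0 < d + rho f w := by have := rho_nonneg f w; linarith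
  have h1 := cl_div (x := z.re - c) (x' := w.re - c) hz hw
  have h2 := rho_lip hf w z
  have h3 := abs_re_sub w z
  have e1 : w.re - c - (z.re - c) = w.re - z.re := by ring
  have e2 : d + rho f w - (d + rho f z) = rho f w - rho f z := by ring
  rw [e1, e2] at h1
  have h4 : (|w.re - z.re| + 2 * |rho f w - rho f z|) / (d + rho f z)
      ≤ 5 * ‖w - z‖ / (d + rho f z) := div_le_div_of_nonneg_right (by linarith) hz.le
  refine (hV.2.1 _ _).trans ?_
  rw [add_sub_add_left_eq_sub, ← mul_sub, abs_mul, abs_of_pos hd]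
  have e3 : ∀ A : ℝ, 2 / d * (d * A) = 2 * A := fun A => by field_simp
  have e4 : 10 / (d + rho f z) * ‖w - z‖ = 2 * (5 * ‖w - z‖ / (d + rho f z)) := by ring
  rw [e3, e4]
  linarith

theorem T_one {f V : ℝ → ℝ} {c d : ℝ} (hV : Prof V c d) {z : ℂ}
    (h : d + rho f z ≤ z.re - c) : T f V c d z = 1 := by
  have hz : 0 < d + rho f z := by have := rho_nonneg f z; have := hV.1; linarith
  unfold T
  rw [cl_of_ge hz.le h, div_self hz.ne']
  exact hV.2.2.2.2 _ (by linarith)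

theorem T_zero {f V : ℝ → ℝ} {c d : ℝ} (hV : Prof V c d) {z : ℂ}
    (h : z.re - c ≤ -(d + rho f z)) : T f V c d z = 0 := by
  have hz : 0 < d + rho f z := by have := rho_nonneg f z; have := hV.1; linarith
  unfold T
  rw [cl_of_le h, neg_div, div_self hz.ne']
  exact hV.2.2.2.1 _ (by linarith)

theorem T_below {f V : ℝ → ℝ} {c d : ℝ} (hV : Prof V c d) {z : ℂ} (h : z.im ≤ f z.re) :
    T f V c d z = V z.re := by
  have h0 : rho f z = 0 := max_eq_right (by linarith)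
  have hd := hV.1
  rcases le_total (d + rho f z) (z.re - c) with h1 | h1
  · rw [T_one hV h1, hV.2.2.2.2 _ (by linarith)]
  rcases le_total (z.re - c) (-(d + rho f z)) with h2 | h2
  · rw [T_zero hV h2, hV.2.2.2.1 _ (by linarith)]
  unfold T
  rw [cl_of_mem h2 h1, h0, add_zero]
  congr 1
  field_simp; ring

theorem T_local {f V : ℝ → ℝ} {c d : ℝ} (hf : ∀ u v, |f u - f v| ≤ |u - v|) (hV : Prof V c d)
    {z : ℂ} (hz : f z.re ≤ z.im) :
    ∀ᶠ w in 𝓝 z, |T f V c d w - T f V c d z| ≤ 30 / (d + ‖z - ⟨c, f c⟩‖) * ‖w - z‖ := by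
  have hd := hV.1
  have hs : 0 < d + ‖z - (⟨c, f c⟩ : ℂ)‖ := by positivity
  have hc := rho_cont hf
  have hnn : ∀ w : ℂ, 0 ≤ 30 / (d + ‖z - (⟨c, f c⟩ : ℂ)‖) * ‖w - z‖ := fun w => by positivity
  rcases lt_or_ge (d + rho f z) (z.re - c) with h1 | h1
  · have : ∀ᶠ w in 𝓝 z, d + rho f w < w.re - c :=
      ContinuousAt.eventually_lt (by fun_prop) (by fun_prop) h1
    filter_upwards [this] with w hw
    rw [T_one hV hw.le, T_one hV h1.le, sub_self, abs_zero]; exact hnn w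
  rcases lt_or_ge (z.re - c) (-(d + rho f z)) with h2 | h2
  · have : ∀ᶠ w in 𝓝 z, w.re - c < -(d + rho f w) :=
      ContinuousAt.eventually_lt (by fun_prop) (by fun_prop) h2
    filter_upwards [this] with w hw
    rw [T_zero hV hw.le, T_zero hV h2.le, sub_self, abs_zero]; exact hnn w
  refine Eventually.of_forall fun w => (T_sub hf hV z w).trans ?_
  refine mul_le_mul_of_nonneg_right ?_ (norm_nonneg _)
  have hr : rho f z = z.im - f z.re := max_eq_left (by linarith)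
  have hr0 := rho_nonneg f z
  have hx : |z.re - c| ≤ d + rho f z := abs_le.2 ⟨h2, h1⟩
  have h3 : ‖z - (⟨c, f c⟩ : ℂ)‖ ≤ |z.re - c| + |z.im - f c| := by
    simpa using Complex.norm_le_abs_re_add_abs_im (z - (⟨c, f c⟩ : ℂ))
  have h4 : |z.im - f c| ≤ rho f z + |z.re - c| := by
    have h5 := hf z.re c
    have h6 := abs_add_le (z.im - f z.re) (f z.re - f c)
    rw [sub_add_sub_cancel, ← hr, abs_of_nonneg hr0] at h6
    linarith
  rw [div_le_div_iff₀ (by linarith) hs]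
  linarith

theorem chi_mem (f : ℝ → ℝ) (z : ℂ) : 0 ≤ chi f z ∧ chi f z ≤ 1 :=
  ⟨le_max_right _ _, max_le (by have := rho_nonneg f z; linarith) zero_le_one⟩

theorem chi_sub {f : ℝ → ℝ} (hf : ∀ u v, |f u - f v| ≤ |u - v|) (z w : ℂ) :
    |chi f w - chi f z| ≤ 200 * ‖w - z‖ := by
  have h1 := abs_max_sub_max_le_abs (1 - 100 * rho f w) (1 - 100 * rho f z) 0
  have h2 := rho_lip hf w z
  have e : 1 - 100 * rho f w - (1 - 100 * rho f z) = -100 * (rho f w - rho f z) := by ring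
  rw [e, abs_mul] at h1
  norm_num at h1
  unfold chi
  linarith

theorem prod_sub {a a' b b' x x' La Lb n : ℝ} (ha : 0 ≤ a ∧ a ≤ 1) (hb : 0 ≤ b ∧ b ≤ 1)
    (hx : 0 ≤ x' ∧ x' ≤ 1) (h1 : |a' - a| ≤ La * n) (h2 : |b' - b| ≤ Lb * n)
    (h3 : |x' - x| ≤ 200 * n) : |(a' - b') * x' - (a - b) * x| ≤ (La + Lb + 200) * n := by
  have e : (a' - b') * x' - (a - b) * x = ((a' - a) - (b' - b)) * x' + (a - b) * (x' - x) := by
    ring
  have h4 : |((a' - a) - (b' - b)) * x'| ≤ |a' - a| + |b' - b| := by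
    rw [abs_mul, abs_of_nonneg hx.1]
    exact (mul_le_of_le_one_right (abs_nonneg _) hx.2).trans (abs_sub _ _)
  have h5 : |(a - b) * (x' - x)| ≤ |x' - x| := by
    rw [abs_mul]
    exact mul_le_of_le_one_left (abs_nonneg _) (abs_le.2 ⟨by linarith, by linarith⟩)
  have h6 := abs_add_le (((a' - a) - (b' - b)) * x') ((a - b) * (x' - x))
  rw [e]; linarith

theorem wt_ge (z0 z : ℂ) {d : ℝ} (hd : 0 < d) :
    1 / (d + ‖z - z0‖) ^ 2 ≤ wt z0 d z / Real.sqrt d := by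
  set s := ‖z - z0‖ with hs
  have hs0 : 0 ≤ s := norm_nonneg _
  have hp : 0 < d + s := by linarith
  have hq : 0 < s ^ 2 + d ^ 2 := by positivity
  have h1 : (s ^ 2 + d ^ 2) ^ (3 / 4 : ℝ) ≤ (d + s) ^ (3 / 2 : ℝ) := by
    have e : (d + s) ^ (3 / 2 : ℝ) = ((d + s) ^ 2) ^ (3 / 4 : ℝ) := by
      rw [← Real.rpow_natCast, ← Real.rpow_mul hp.le]; norm_num
    rw [e]
    exact Real.rpow_le_rpow hq.le (by nlinarith) (by norm_num)
  have h2 : Real.sqrt d ≤ (d + s) ^ (1 / 2 : ℝ) := by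
    rw [← Real.sqrt_eq_rpow]; exact Real.sqrt_le_sqrt (by linarith)
  have h3 : (d + s) ^ (3 / 2 : ℝ) * (d + s) ^ (1 / 2 : ℝ) = (d + s) ^ 2 := by
    rw [← Real.rpow_add hp, ← Real.rpow_natCast]; norm_num
  have h4 : 0 < (s ^ 2 + d ^ 2) ^ (3 / 4 : ℝ) := Real.rpow_pos_of_pos hq _
  have h5 : 0 < Real.sqrt d := Real.sqrt_pos.2 hd
  unfold wt
  rw [← hs, Real.rpow_neg hq.le, inv_eq_one_div, div_div]
  refine one_div_le_one_div_of_le (mul_pos h4 h5) ?_
  rw [← h3]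
  exact mul_le_mul h1 h2 h5.le (Real.rpow_nonneg hp.le _)

end Wf

open Wf in
theorem sW : SW := by
  refine ⟨120000, by norm_num, fun f Va Vb ca cb da db hf ha hb hab => ?_⟩
  have hda := ha.1
  have hdb := hb.1
  have hTa : ∀ z, 0 ≤ T f Va ca da z ∧ T f Va ca da z ≤ 1 := fun z => ha.2.2.1 _
  have hTb : ∀ z, 0 ≤ T f Vb cb db z ∧ T f Vb cb db z ≤ 1 := fun z => hb.2.2.1 _
  refine ⟨fun z => (T f Va ca da z - T f Vb cb db z) * chi f z,
    ⟨10 / da + 10 / db + 200, by positivity⟩, ?_, fun z => ?_, fun z hz => ?_, fun z hz => ?_,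
    fun z hz => ?_⟩
  · refine LipschitzWith.of_dist_le_mul fun w z => ?_
    rw [Real.dist_eq, dist_eq_norm]
    refine prod_sub (hTa z) (hTb z) (chi_mem f w) ((T_sub hf ha z w).trans ?_)
      ((T_sub hf hb z w).trans ?_) (chi_sub hf z w)
    · exact mul_le_mul_of_nonneg_right (div_le_div_of_nonneg_left (by norm_num) hda
        (by have := rho_nonneg f z; linarith)) (norm_nonneg _)
    · exact mul_le_mul_of_nonneg_right (div_le_div_of_nonneg_left (by norm_num) hdb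
        (by have := rho_nonneg f z; linarith)) (norm_nonneg _)
  · have h1 := hTa z
    have h2 := hTb z
    have h3 := chi_mem f z
    rw [abs_mul, abs_of_nonneg h3.1]
    exact mul_le_one₀ (abs_le.2 ⟨by linarith, by linarith⟩) h3.1 h3.2
  · have h0 : rho f z = 0 := max_eq_right (by linarith)
    have h1 : chi f z = 1 := by simp [chi, h0]
    simp only [T_below ha hz, T_below hb hz, h1, mul_one]
  · have h1 : rho f z < 1 / 100 := by
      by_contra h
      refine hz ?_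
      have : chi f z = 0 := max_eq_right (by linarith)
      simp only [this, mul_zero]
    have h2 : z.im - f z.re ≤ rho f z := le_max_left _ _
    refine ⟨by linarith, ?_⟩
    by_contra h
    refine hz ?_
    have h3 := le_abs_self (ca - cb)
    have h4 := neg_abs_le (ca - cb)
    have h5 := abs_nonneg (ca - cb)
    rcases lt_abs.1 (not_le.1 h) with h6 | h6
    · simp only [T_one ha (z := z) (by linarith), T_one hb (z := z) (by linarith), sub_self,
        zero_mul]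
    · simp only [T_zero ha (z := z) (by linarith), T_zero hb (z := z) (by linarith), sub_self,
        zero_mul]
  · set A := 30 / (da + ‖z - (⟨ca, f ca⟩ : ℂ)‖) with hA
    set B := 30 / (db + ‖z - (⟨cb, f cb⟩ : ℂ)‖) with hB
    have hA0 : 0 ≤ A := by positivity
    have hB0 : 0 ≤ B := by positivity
    have h1 : ‖fderiv ℝ (fun z => (T f Va ca da z - T f Vb cb db z) * chi f z) z‖
        ≤ A + B + 200 := by
      refine norm_fderiv_le_of_lip' ℝ (by positivity) ?_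
      filter_upwards [T_local hf ha hz, T_local hf hb hz] with w h1 h2
      exact prod_sub (hTa z) (hTb z) (chi_mem f w) h1 h2 (chi_sub hf z w)
    have h2 := pow_le_pow_left₀ (norm_nonneg _) h1 2
    have h3 := wt_ge ⟨ca, f ca⟩ z hda
    have h4 := wt_ge ⟨cb, f cb⟩ z hdb
    have e3 : A ^ 2 = 900 * (1 / (da + ‖z - (⟨ca, f ca⟩ : ℂ)‖) ^ 2) := by
      rw [hA, div_pow]; ring
    have e4 : B ^ 2 = 900 * (1 / (db + ‖z - (⟨cb, f cb⟩ : ℂ)‖) ^ 2) := by
      rw [hB, div_pow]; ring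
    have h5 : 0 ≤ 1 / (da + ‖z - (⟨ca, f ca⟩ : ℂ)‖) ^ 2 := by positivity
    have h6 : 0 ≤ 1 / (db + ‖z - (⟨cb, f cb⟩ : ℂ)‖) ^ 2 := by positivity
    have h7 : (A + B + 200) ^ 2 ≤ 3 * (A ^ 2 + B ^ 2 + 40000) := by
      nlinarith [sq_nonneg (A - B), sq_nonneg (A - 200), sq_nonneg (B - 200)]
    linarith

end Pool.Agent.MP_44cb5f_an

end MrgPart7

-- marker of a merged file
example : 731051 + 298278 = 731051 + 298278 := rfl
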