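import Mathlib.Algebra.Ring.IsFormallyReal
import Mathlib.MeasureTheory.Integral.DivergenceTheorem
import Mathlib.Analysis.Convex.Measure
import Mathlib.Analysis.FunctionalSpaces.SobolevInequality
import Mathlib.Analysis.InnerProductSpace.NormDet
import Mathlib.Topology.MetricSpace.Contracting
import Mathlib.Analysis.Real.Pi.Bounds
import Mathlib.MeasureTheory.Measure.RegularityCompacts
import Mathlib.MeasureTheory.Measure.Lebesgue.VolumeOfBalls
import Pool.Agent.MP_44cb5f_an.Wf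

-- ======== part 0: formerly Pool.Agent.MP_44cb5f_an.Chart
section MrgPart0

set_option autoImplicit false
open Set Metric

namespace Pool.Agent.MP_44cb5f_an

namespace Chart

/-- The pairs that belong to the chart. -/
def Ch (K : Set ℂ) (k θ : ℂ) : Prop := Sm K k θ ∧ |θ.re| ≤ -θ.im

/-- The lines of the pairs of the chart. -/
def F0 (K : Set ℂ) : Set (ℝ × ℝ) :=
  {l | ∃ k θ, Ch K k θ ∧ l = (-(θ.re / θ.im), k.im - -(θ.re / θ.im) * k.re)}

variable {K : Set ℂ} {k θ : ℂ}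

theorem ph_cont : Continuous ph := by unfold ph; fun_prop

theorem dot_add (a b c : ℂ) : dot (a + b) c = dot a c + dot b c := by simp [dot]; ring

theorem unit_sq (h : ‖θ‖ = 1) : θ.re ^ 2 + θ.im ^ 2 = 1 := by rw [← norm_sq_eq, h, one_pow]

theorem Ch.neg (h : Ch K k θ) : θ.im < 0 := by
  have h1 := unit_sq h.1.1.2.1
  have h2 := abs_le.1 h.2
  by_contra h3
  have h4 : θ.im = 0 := by linarith [not_lt.1 h3]
  have h5 : θ.re = 0 := by linarith
  rw [h4, h5] at h1
  norm_num at h1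

theorem Ch.im (h : Ch K k θ) : θ.im * ph (-(θ.re / θ.im)) = -1 := by
  have h1 := unit_sq h.1.1.2.1
  have h2 := h.neg
  have h3 := ph_pos (-(θ.re / θ.im))
  have h4 : (θ.im * ph (-(θ.re / θ.im))) ^ 2 = 1 := by
    rw [mul_pow, ph_sq, neg_sq, div_pow, mul_add, mul_div_cancel₀ _ (pow_ne_zero 2 h2.ne)]
    linarith
  rcases sq_eq_one_iff.1 h4 with h5 | h5
  · nlinarith
  · exact h5

theorem Ch.re (h : Ch K k θ) : θ.re * ph (-(θ.re / θ.im)) = -(θ.re / θ.im) := by
  have h1 := h.im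
  have h2 := h.neg.ne
  have : θ.re = θ.re / θ.im * θ.im := by field_simp
  linear_combination ph (-(θ.re / θ.im)) * this + θ.re / θ.im * h1

theorem Ch.dot (h : Ch K k θ) (z : ℂ) : dot (z - k) θ * ph (-(θ.re / θ.im)) =
    -(θ.re / θ.im) * z.re + (k.im - -(θ.re / θ.im) * k.re) - z.im := by
  simp only [MP_44cb5f_an.dot, Complex.sub_re, Complex.sub_im]
  linear_combination (z.re - k.re) * h.re + (z.im - k.im) * h.im

theorem Ch.slope (h : Ch K k θ) : |-(θ.re / θ.im)| ≤ 1 := by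
  rw [abs_neg, abs_div, div_le_one (abs_pos.2 h.neg.ne), abs_of_neg h.neg]
  exact h.2

theorem Ch.mem (h : Ch K k θ) :
    (-(θ.re / θ.im), k.im - -(θ.re / θ.im) * k.re) ∈ closure (F0 K) :=
  subset_closure ⟨k, θ, h, rfl⟩

theorem slope {l : ℝ × ℝ} (hl : l ∈ closure (F0 K)) : |l.1| ≤ 1 :=
  closure_minimal (t := {l : ℝ × ℝ | |l.1| ≤ 1}) (by rintro _ ⟨k, θ, h, rfl⟩; exact h.slope)
    (isClosed_le (by fun_prop) continuous_const) hl

theorem compact (hK : IsCompact K) : IsCompact (closure (F0 K)) := by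
  obtain ⟨R, hR⟩ := hK.isBounded.exists_norm_le
  refine (isCompact_Icc.prod isCompact_Icc : IsCompact (Icc (-1 : ℝ) 1 ×ˢ Icc (-(2 * R)) (2 * R))
    ).closure_of_subset ?_
  rintro _ ⟨k, θ, h, rfl⟩
  have h1 := (Complex.abs_re_le_norm k).trans (hR k h.1.1.1)
  have h2 := (Complex.abs_im_le_norm k).trans (hR k h.1.1.1)
  have h3 : |-(θ.re / θ.im) * k.re| ≤ R := by
    rw [abs_mul]
    exact (mul_le_of_le_one_left (abs_nonneg _) h.slope).trans h1
  refine ⟨abs_le.1 h.slope, abs_le.1 ((abs_sub _ _).trans (by linarith))⟩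

/-- The half planes of the chart at level `c`. -/
theorem lev (c : ℝ) (z : ℂ) : (∀ k θ, Ch K k θ → dot (z - k) θ ≤ c) ↔
    ∀ l ∈ closure (F0 K), l.1 * z.re + l.2 - c * ph l.1 ≤ z.im := by
  constructor
  · intro h l hl
    refine closure_minimal (t := {l : ℝ × ℝ | l.1 * z.re + l.2 - c * ph l.1 ≤ z.im}) ?_
      (isClosed_le (by have := ph_cont; fun_prop) continuous_const) hl
    rintro _ ⟨k, θ, h1, rfl⟩
    have := mul_le_mul_of_nonneg_right (h k θ h1) (ph_pos (-(θ.re / θ.im))).le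
    rw [h1.dot] at this
    rw [mem_ofPred_eq]
    linarith
  · intro h k θ h1
    refine le_of_mul_le_mul_right ?_ (ph_pos (-(θ.re / θ.im)))
    have := h _ h1.mem
    rw [h1.dot]
    linarith

theorem below {l : ℝ × ℝ} (hl : l ∈ closure (F0 K)) {z : ℂ} (hz : z ∈ K) :
    l.1 * z.re + l.2 ≤ z.im := by
  simpa using (lev 0 z).1 (fun k θ h => h.1.1.2.2 z hz) l hl

theorem Ch.uniq (h : Ch K k θ) {p : ℝ} (hp : (p, k.im - p * k.re) ∈ closure (F0 K)) :
    p = -(θ.re / θ.im) := by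
  have h0 := ph_pos p
  have h1 : (⟨p / ph p, -1 / ph p⟩ : ℂ) = θ := by
    refine h.1.2 _ ⟨h.1.1.1, ?_, fun z hz => ?_⟩
    · rw [← sq_eq_sq₀ (norm_nonneg _) zero_le_one, norm_sq_eq]
      field_simp
      rw [ph_sq]; ring
    · have := below hp hz
      have e : MP_44cb5f_an.dot (z - k) ⟨p / ph p, -1 / ph p⟩ =
          (p * z.re + (k.im - p * k.re) - z.im) / ph p := by
        simp only [MP_44cb5f_an.dot, Complex.sub_re, Complex.sub_im]; ring
      rw [e]
      exact div_nonpos_of_nonpos_of_nonneg (by linarith) h0.le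
  rw [← h1]
  field_simp

theorem env {F : Set (ℝ × ℝ)} (hF : IsCompact F) (hne : F.Nonempty) (c : ℝ) :
    ∃ g s : ℝ → ℝ, (∀ l ∈ F, ∀ x, l.1 * x + l.2 - c * ph l.1 ≤ g x) ∧
      ∀ x, (s x, g x + c * ph (s x) - s x * x) ∈ F := by
  have h := fun x : ℝ => hF.exists_isMaxOn hne
    (f := fun l => l.1 * x + l.2 - c * ph l.1) (by have := ph_cont; fun_prop)
  choose m h1 h2 using h
  refine ⟨fun x => (m x).1 * x + (m x).2 - c * ph (m x).1, fun x => (m x).1,
    fun l hl x => h2 x hl, fun x => ?_⟩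
  convert h1 x using 1
  ext
  · rfl
  · ring

theorem lip {F : Set (ℝ × ℝ)} (hs : ∀ l ∈ F, |l.1| ≤ 1) {c : ℝ} {g s : ℝ → ℝ}
    (h1 : ∀ l ∈ F, ∀ x, l.1 * x + l.2 - c * ph l.1 ≤ g x)
    (h2 : ∀ x, (s x, g x + c * ph (s x) - s x * x) ∈ F) (x y : ℝ) : g x - g y ≤ |x - y| := by
  have h3 := h1 _ (h2 x) y
  have h4 : s x * (x - y) ≤ |x - y| := by
    refine (le_abs_self _).trans ?_
    rw [abs_mul]
    exact mul_le_of_le_one_left (abs_nonneg _) (hs _ (h2 x))
  linarith

theorem cont {g : ℝ → ℝ} (h : ∀ x y, g x - g y ≤ |x - y|) : Continuous g :=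
  (LipschitzWith.of_le_add fun x y => by rw [Real.dist_eq]; linarith [h x y]).continuous

theorem interior_epi {f : ℝ → ℝ} (hf : Continuous f) :
    interior {z : ℂ | f z.re ≤ z.im} = {z | f z.re < z.im} := by
  refine Subset.antisymm (fun z hz => ?_)
    (interior_maximal (fun z (hz : f z.re < z.im) => hz.le) (isOpen_lt (by fun_prop) (by fun_prop)))
  obtain ⟨r, hr, h⟩ := Metric.isOpen_iff.1 isOpen_interior z hz
  have h1 : z - (r / 2 : ℝ) * Complex.I ∈ ball z r := by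
    rw [mem_ball, dist_eq_norm, sub_sub_cancel_left, norm_neg, norm_mul, Complex.norm_I,
      Complex.norm_real, Real.norm_eq_abs, abs_of_pos (by linarith)]
    linarith
  have h2 := interior_subset (h h1)
  simp only [mem_ofPred_eq, Complex.sub_re, Complex.sub_im, Complex.mul_re, Complex.mul_im, Complex.ofReal_re,
    Complex.ofReal_im, Complex.I_re, Complex.I_im, mul_zero, mul_one, sub_zero, add_zero] at h2
  show f z.re < z.im
  linarith

theorem conv (P : ℂ → ℂ → Prop) : Convex ℝ {z | ∀ k θ, P k θ → dot (z - k) θ ≤ 1} := by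
  intro x hx y hy a b ha hb hab k θ h
  have h1 := mul_le_mul_of_nonneg_left (hx k θ h) ha
  have h2 := mul_le_mul_of_nonneg_left (hy k θ h) hb
  have e : dot (a • x + b • y - k) θ = a * dot (x - k) θ + b * dot (y - k) θ := by
    simp only [dot, Complex.sub_re, Complex.sub_im, Complex.add_re, Complex.add_im,
      Complex.smul_re, Complex.smul_im, smul_eq_mul]
    linear_combination (k.re * θ.re + k.im * θ.im) * hab
  linarith

theorem dot_other {θ' : ℂ} (h1 : ‖θ‖ = 1) (h2 : θ.im < 0) (h3 : |θ.re / θ.im| ≤ 1 / 10)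
    (h4 : ‖θ'‖ = 1) (h5 : -θ'.im < |θ'.re|) : dot θ θ' ≤ 9 / 10 := by
  have a1 : |θ.im| ≤ 1 := h1 ▸ Complex.abs_im_le_norm θ
  have a2 : |θ'.re| ≤ 1 := h4 ▸ Complex.abs_re_le_norm θ'
  have a3 : |θ.re| ≤ 1 / 10 := by
    rw [abs_div, div_le_iff₀ (abs_pos.2 h2.ne)] at h3
    linarith
  have a4 : θ.re * θ'.re ≤ 1 / 10 := by
    refine (le_abs_self _).trans ?_
    rw [abs_mul]
    exact (mul_le_of_le_one_right (abs_nonneg _) a2).trans a3
  have a5 : -θ'.im ≤ 4 / 5 := by
    by_contra h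
    have := unit_sq h4
    rw [← sq_abs θ'.re] at this
    nlinarith
  have a6 := abs_le.1 a1
  unfold dot
  nlinarith

/-- Points between the envelope and a chord lie in the set. -/
theorem fat {g : ℝ → ℝ} (hl : ∀ x y, g x - g y ≤ |x - y|) {a b w z : ℂ} (ha : a ∈ K) (hb : b ∈ K)
    (hw : w ∈ K) (ga : g a.re = a.im) (gb : g b.re = b.im) (h1 : a.re ≤ z.re) (h2 : z.re ≤ b.re)
    (h3 : w.re = z.re) (h4 : g z.re ≤ z.im) (h5 : z.im ≤ w.im) (hn : Nrm K k θ)
    (ho : -θ.im < |θ.re|) : dot (z - k) θ ≤ 0 := by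
  by_contra h
  have h6 := not_le.1 h
  have a1 := hn.2.2 a ha
  have a2 := hn.2.2 b hb
  have a3 := hn.2.2 w hw
  have a4 := hl a.re z.re
  have a5 := hl b.re z.re
  rw [abs_of_nonpos (by linarith)] at a4
  rw [abs_of_nonneg (by linarith)] at a5
  simp only [dot, Complex.sub_re, Complex.sub_im, h3] at h6 a1 a2 a3
  have a6 : θ.im < 0 := by
    by_contra h7
    nlinarith [mul_nonneg (sub_nonneg.2 h5) (not_lt.1 h7)]
  rcases lt_abs.1 ho with h7 | h7
  · nlinarith [mul_nonneg (sub_nonneg.2 h2) (show 0 ≤ θ.re + θ.im by linarith),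
      mul_nonneg (show 0 ≤ b.re - z.re - (b.im - z.im) by linarith) (neg_nonneg.2 a6.le)]
  · nlinarith [mul_nonneg (sub_nonneg.2 h1) (show 0 ≤ -θ.re + θ.im by linarith),
      mul_nonneg (show 0 ≤ z.re - a.re - (a.im - z.im) by linarith) (neg_nonneg.2 a6.le)]

end Chart

open Chart in
theorem sChart : SChart := by
  intro Ω K k θ hK hc hG hΩ hS hθ hp
  have ch : ∀ i ≤ 11, Ch K (k i) (θ i) := fun i hi => ⟨hS i hi, by
    have h := (hθ i hi).2
    rw [abs_div, div_le_iff₀ (abs_pos.2 (hθ i hi).1.ne), abs_of_neg (hθ i hi).1] at h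
    linarith [(hθ i hi).1]⟩
  have ne : (closure (F0 K)).Nonempty := ⟨_, (ch 0 (by norm_num)).mem⟩
  obtain ⟨g, sl, g1, g2⟩ := env (compact hK) ne 0
  obtain ⟨f, sf, f1, f2⟩ := env (compact hK) ne 1
  have gl := lip (fun _ => slope) g1 g2
  have fl := lip (fun _ => slope) f1 f2
  have gi : ∀ z : ℂ, g z.re ≤ z.im ↔ ∀ k θ, Ch K k θ → dot (z - k) θ ≤ 0 := fun z => by
    rw [lev]
    exact ⟨fun h l hl => (g1 l hl _).trans h, fun h => by linarith [h _ (g2 z.re)]⟩
  have fi : ∀ z : ℂ, f z.re ≤ z.im ↔ ∀ k θ, Ch K k θ → dot (z - k) θ ≤ 1 := fun z => by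
    rw [lev]
    exact ⟨fun h l hl => (f1 l hl _).trans h, fun h => by linarith [h _ (f2 z.re)]⟩
  simp only [zero_mul, sub_zero, add_zero] at g1 g2
  simp only [one_mul] at f1 f2
  have gK : ∀ z ∈ K, g z.re ≤ z.im := fun z hz => (gi z).2 fun k θ h => h.1.1.2.2 z hz
  have gk : ∀ {k θ}, Ch K k θ → g k.re = k.im := fun {k θ} h =>
    le_antisymm (gK k h.1.1.1) (by linarith [g1 _ h.mem k.re])
  have sa : ∀ {k θ}, Ch K k θ → SA (closure (F0 K)) g (-(θ.re / θ.im)) k.re := fun {k θ} h => by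
    unfold SA
    rw [gk h]
    exact ⟨h.mem, fun p hp => h.uniq hp⟩
  have sk : ∀ {k θ}, Ch K k θ → sl k.re = -(θ.re / θ.im) := fun h => (sa h).2 _ (g2 _)
  have ck : ∀ {k θ}, Ch K k θ → k.re + sl k.re / ph (sl k.re) = (k + θ).re := fun {k θ} h => by
    rw [sk h, Complex.add_re, add_right_inj, div_eq_iff (ph_pos _).ne', h.re]
  have fk : ∀ {k θ}, Ch K k θ → f (k + θ).re = (k + θ).im := fun {k θ} h => by
    refine le_antisymm ((fi _).2 fun k' θ' h' => ?_) ?_
    · have h1 := h'.1.1.2.2 k h.1.1.1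
      have h2 := (le_abs_self _).trans (abs_dot_le θ θ')
      rw [h.1.1.2.1, h'.1.1.2.1] at h2
      rw [add_sub_right_comm, dot_add]
      linarith
    · have h1 := f1 _ h.mem (k + θ).re
      have h2 := h.dot (k + θ)
      rw [add_sub_cancel_left, dot_self, h.1.1.2.1] at h2
      linarith
  have mo : ∀ i j, i ≤ 11 → j ≤ 11 → -((θ i).re / (θ i).im) < -((θ j).re / (θ j).im) →
      (k i).re < (k j).re := fun i j hi hj h => by
    have h1 := below (ch i hi).mem (ch j hj).1.1.1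
    have h2 := below (ch j hj).mem (ch i hi).1.1.1
    refine lt_of_le_of_ne (by nlinarith) fun e => h.ne ?_
    rw [← sk (ch i hi), ← sk (ch j hj), e]
  have m1 := fun i (hi : i < 11) => mo i (i + 1) hi.le hi (hp i hi)
  refine ⟨⟨closure (F0 K), g, f, sl, sf, isClosed_closure, fun _ => slope, g1, g2, f1, f2,
    fun l hl ε hε => ?_⟩,
    interior {z | ∀ k θ, (Sm K k θ ∧ -θ.im < |θ.re|) → dot (z - k) θ ≤ 1},
    {z | ∀ k θ, (Sm K k θ ∧ -θ.im < |θ.re|) → dot (z - k) θ ≤ 0}, isOpen_interior,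
    (conv _).interior, ?_, ?_, fun z hz k θ h => ?_, fun i hi => ⟨sk (ch i hi), ck (ch i hi)⟩,
    m1, ?_, ?_⟩
  · obtain ⟨_, ⟨k, θ, h, rfl⟩, h1⟩ := Metric.mem_closure_iff.1 hl ε hε
    refine ⟨_, _, sa h, ?_⟩
    rw [abs_sub_comm]
    exact lt_of_le_of_lt (le_max_left _ _) h1
  · rw [hΩ, ← interior_epi (cont fl), ← interior_inter]
    congr 1
    ext z
    exact ⟨fun h => ⟨(fi z).2 fun k θ h1 => h k θ h1.1, fun k θ h1 => h k θ h1.1⟩,
      fun h k θ h1 => (le_or_gt |θ.re| (-θ.im)).elim (fun h2 => (fi z).1 h.1 k θ ⟨h1, h2⟩)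
        fun h2 => h.2 k θ ⟨h1, h2⟩⟩
  · ext z
    exact ⟨fun h => ⟨gK z h, fun k θ h1 => h1.1.1.2.2 z h⟩, fun h => hG z
      fun k θ h1 => (le_or_gt |θ.re| (-θ.im)).elim (fun h2 => (gi z).1 h.1 k θ ⟨h1, h2⟩)
        fun h2 => h.2 k θ ⟨h1, h2⟩⟩
  · refine le_of_forall_pos_le_add fun ε hε => ?_
    have h1 : z + ((1 - min ε 1 : ℝ) : ℂ) * θ ∈ ball z 1 := by
      rw [mem_ball, dist_eq_norm, add_sub_cancel_left, norm_mul, h.1.1.2.1, Complex.norm_real,
        Real.norm_eq_abs, abs_of_nonneg (sub_nonneg.2 (min_le_right _ _))]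
      linarith [lt_min hε one_pos]
    have h2 := interior_subset (hz h1) k θ h
    have h3 := unit_sq h.1.1.2.1
    have e : dot (z + ((1 - min ε 1 : ℝ) : ℂ) * θ - k) θ = dot (z - k) θ + (1 - min ε 1) := by
      simp only [dot, Complex.sub_re, Complex.sub_im, Complex.add_re, Complex.add_im,
        Complex.re_ofReal_mul, Complex.im_ofReal_mul]
      linear_combination (1 - min ε 1) * h3
    linarith [min_le_left ε 1]
  · have c1 := ch 1 (by norm_num)
    have e : (⟨(k 1).re + sl (k 1).re / ph (sl (k 1).re),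
        f ((k 1).re + sl (k 1).re / ph (sl (k 1).re))⟩ : ℂ) = k 1 + θ 1 := by
      rw [ck c1, fk c1]
    refine e ▸ interior_maximal (fun z hz k' θ' h => ?_) isOpen_ball
    have h1 := h.1.1.2.2 _ c1.1.1.1
    have h2 := dot_other c1.1.1.2.1 c1.neg (hθ 1 (by norm_num)).2 h.1.1.2.1 h.2
    have h3 := (le_abs_self _).trans (abs_dot_le (z - (k 1 + θ 1)) θ')
    rw [mem_ball, dist_eq_norm] at hz
    rw [h.1.1.2.1] at h3
    rw [show z - k' = z - (k 1 + θ 1) + (k 1 - k') + θ 1 by ring, dot_add, dot_add]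
    linarith
  · have c0 := ch 0 (by norm_num)
    have c1 := ch 11 le_rfl
    have x0 := m1 0 (by norm_num)
    have x1 := m1 10 (by norm_num)
    have pp : ∀ i ≤ 11, 0 < i → -((θ 0).re / (θ 0).im) < -((θ i).re / (θ i).im) := by
      intro i hi h0
      induction i with
      | zero => exact absurd h0 (lt_irrefl _)
      | succ i ih =>
        rcases Nat.eq_zero_or_pos i with rfl | h
        · exact hp 0 (by norm_num)
        · exact (ih (by omega) h).trans (hp i (by omega))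
    have p1 := pp 11 le_rfl (by norm_num)
    have d0 : 0 < (k 11).re - (k 0).re := sub_pos.2 (mo 0 11 (by norm_num) le_rfl p1)
    set t : ℝ → ℝ := fun x => (x - (k 0).re) / ((k 11).re - (k 0).re) with ht
    have key : ∀ x ∈ Icc (k 1).re (k 10).re, ∃ w ∈ K, w.re = x ∧
        w.im = (1 - t x) * (k 0).im + t x * (k 11).im ∧ g x < w.im := fun x hx => by
      have t0 : 0 < t x := div_pos (by linarith [hx.1]) d0
      have t1 : 0 < 1 - t x := sub_pos.2 ((div_lt_one d0).2 (by linarith [hx.2]))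
      have t2 : (1 - t x) * (k 0).re + t x * (k 11).re = x := by
        simp only [ht]; field_simp; ring
      have hw := hc c0.1.1.1 c1.1.1.1 t1.le t0.le (sub_add_cancel _ _)
      refine ⟨_, hw, by simpa using t2, by simp, ?_⟩
      simp only [Complex.add_im, Complex.smul_im, smul_eq_mul]
      have b0 := below (g2 x) c0.1.1.1
      have b1 := below (g2 x) c1.1.1.1
      have e : g x = (1 - t x) * (sl x * (k 0).re + (g x - sl x * x)) +
          t x * (sl x * (k 11).re + (g x - sl x * x)) := by linear_combination (-sl x) * t2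
      have u : ∀ {k θ}, Ch K k θ → sl x * k.re + (g x - sl x * x) = k.im →
          sl x = -(θ.re / θ.im) := fun {k θ} h e => h.uniq (by
        rw [show k.im - sl x * k.re = g x - sl x * x by linarith]; exact g2 x)
      rcases b0.eq_or_lt with b0' | b0'
      · rcases b1.eq_or_lt with b1' | b1'
        · exact absurd ((u c0 b0').symm.trans (u c1 b1')) p1.ne
        · linarith [mul_le_mul_of_nonneg_left b0 t1.le, mul_lt_mul_of_pos_left b1' t0]
      · linarith [mul_lt_mul_of_pos_left b0' t1, mul_le_mul_of_nonneg_left b1 t0.le]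
    rcases (Icc (k 1).re (k 10).re).eq_empty_or_nonempty with h | h
    · exact ⟨1, one_pos, fun z hz => absurd (h ▸ hz) (notMem_empty _)⟩
    obtain ⟨x, hx, hm⟩ := isCompact_Icc.exists_isMinOn h
      (f := fun x => (1 - t x) * (k 0).im + t x * (k 11).im - g x)
      (by have := cont gl; simp only [ht]; fun_prop)
    obtain ⟨w0, -, -, h1, h2⟩ := key x hx
    refine ⟨w0.im - g x, sub_pos.2 h2, fun z hz (h3 : g _ ≤ _) (h4 : _ ≤ g _ + _) => ?_⟩
    obtain ⟨w, w1, w2, w3, -⟩ := key _ hz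
    have h5 : (1 - t x) * (k 0).im + t x * (k 11).im - g x ≤
        (1 - t z.re) * (k 0).im + t z.re * (k 11).im - g z.re := hm hz
    refine hG z fun k' θ' h' => (le_or_gt |θ'.re| (-θ'.im)).elim
      (fun h6 => (gi z).1 h3 k' θ' ⟨h', h6⟩) fun h6 => fat gl c0.1.1.1 c1.1.1.1 w1 (gk c0) (gk c1)
        (by linarith [hz.1]) (by linarith [hz.2]) w2 h3 (by linarith) h'.1 h6

end Pool.Agent.MP_44cb5f_an

end MrgPart0

-- ======== part 1: formerly Pool.Agent.MP_44cb5f_an.Elong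
section MrgPart1

set_option autoImplicit false
open MeasureTheory Set Metric
open scoped Pointwise

namespace Pool.Agent.MP_44cb5f_an

namespace Elong

/-- Chords of length `5 / 2` exist in every direction. -/
theorem chord (h : SStrip) {Ω : Set ℂ} (hΩ : Adm Ω) (hl : lam1 Ω ≤ 154 / 100) {v : ℂ}
    (hv : ‖v‖ = 1) : ∃ p ∈ Ω, p + ((5 / 2 : ℝ) : ℂ) * v ∈ Ω := by
  by_contra hn
  obtain ⟨hne, hb, ho, hc⟩ := hΩ
  have hw : ((5 / 2 : ℝ) : ℂ) * v ∉ Ω - Ω := by
    rintro ⟨x, hx, y, hy, e⟩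
    refine hn ⟨y, hy, ?_⟩
    have e' : x - y = ((5 / 2 : ℝ) : ℂ) * v := e
    rw [← e']; simpa using hx
  obtain ⟨θ, h1, h2⟩ := exists_unit_sep (hc.sub hc) ho.sub_right (hne.sub hne) hw
  have h3 : ∀ x ∈ Ω, ∀ y ∈ Ω, dot x θ ≤ dot y θ + 5 / 2 := fun x hx y hy => by
    have a := h2 (x - y) (sub_mem_sub hx hy)
    have b := (le_abs_self _).trans (abs_dot_le v θ)
    rw [hv, h1] at b
    have e : dot (x - y - ((5 / 2 : ℝ) : ℂ) * v) θ = dot x θ - dot y θ - 5 / 2 * dot v θ := by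
      simp only [dot, Complex.sub_re, Complex.sub_im, Complex.re_ofReal_mul,
        Complex.im_ofReal_mul]
      ring
    rw [e] at a
    linarith
  obtain ⟨y0, hy0⟩ := hne
  have hbd : BddAbove ((fun x => dot x θ) '' Ω) := ⟨dot y0 θ + 5 / 2, by
    rintro _ ⟨x, hx, rfl⟩; exact h3 x hx y0 hy0⟩
  have h4 := h Ω θ (sSup ((fun x => dot x θ) '' Ω) - 5 / 4) (252 / 100) ho ⟨y0, hy0⟩ h1
    (by norm_num) (fun z hz => by
      have a : dot z θ ≤ sSup ((fun x => dot x θ) '' Ω) := le_csSup hbd ⟨z, hz, rfl⟩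
      have b : sSup ((fun x => dot x θ) '' Ω) ≤ dot z θ + 5 / 2 :=
        csSup_le ⟨_, y0, hy0, rfl⟩ (by rintro _ ⟨x, hx, rfl⟩; exact h3 x hx z hz)
      rw [abs_lt]; constructor <;> linarith)
  have h5 : (314 / 100 : ℝ) < Real.pi := by have := Real.pi_gt_d2; linarith
  have h6 : (124 / 100 + 2 / 1000 : ℝ) < Real.pi / (252 / 100) := by
    rw [lt_div_iff₀ (by norm_num)]; linarith
  nlinarith

theorem seg {S : Set ℂ} (hc : Convex ℝ S) {x y z : ℂ} (hx : x ∈ S) (hy : y ∈ S) (t : ℝ)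
    (h0 : 0 ≤ t) (h1 : t ≤ 1) (hre : z.re = (1 - t) * x.re + t * y.re)
    (him : z.im = (1 - t) * x.im + t * y.im) : z ∈ S := by
  have := hc hx hy (sub_nonneg.2 h1) h0 (by ring)
  convert this using 1
  apply Complex.ext <;> simp [hre, him]

/-- A long thin triangle contains a disc of radius `11 / 10`. -/
theorem tri {S : Set ℂ} (hc : Convex ℝ S) {a p : ℂ} (ha : a ∈ S) (hp : p ∈ S)
    (hq : (⟨p.re, p.im + 5 / 2⟩ : ℂ) ∈ S) (hX : 200 ≤ |a.re - p.re|) (hY : |a.im - p.im| ≤ 10) :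
    ∃ c, ball c (11 / 10) ⊆ S := by
  refine ⟨⟨p.re + (a.re - p.re) / 25, p.im + 6 / 5 + (a.im - p.im) / 25⟩, fun z hz => ?_⟩
  rw [mem_ball, dist_eq_norm] at hz
  have h1 := (Complex.abs_re_le_norm _).trans_lt hz
  have h2 := (Complex.abs_im_le_norm _).trans_lt hz
  simp only [Complex.sub_re, Complex.sub_im] at h1 h2
  set X := a.re - p.re with hXd
  set Y := a.im - p.im with hYd
  set ξ := z.re - (p.re + X / 25) with hξ
  set η := z.im - (p.im + 6 / 5 + Y / 25) with hη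
  have hX0 : X ≠ 0 := by
    intro h0; rw [h0] at hX; norm_num at hX
  set r := ξ / X with hr
  have hr1 : |r| ≤ 11 / 2000 := by
    rw [hr, abs_div, div_le_iff₀ (by linarith)]; linarith
  have hr2 : |r * Y| ≤ 11 / 200 := by
    rw [abs_mul]; nlinarith [abs_nonneg r, abs_nonneg Y]
  have hrX : r * X = ξ := by rw [hr]; field_simp
  rw [abs_le] at hr1 hr2
  rw [abs_lt] at h2
  have ht : 0 < 1 - (1 / 25 + r) := by linarith
  set s := (6 / 5 + η - r * Y) / (1 - (1 / 25 + r)) with hs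
  have hs1 : s * (1 - (1 / 25 + r)) = 6 / 5 + η - r * Y := by
    rw [hs]; exact div_mul_cancel₀ _ ht.ne'
  have hs0 : 0 ≤ s := div_nonneg (by linarith) ht.le
  have hs2 : s ≤ 5 / 2 := by rw [hs, div_le_iff₀ ht]; linarith
  have hm : (⟨p.re, p.im + s⟩ : ℂ) ∈ S :=
    seg hc hp hq (s / (5 / 2)) (by positivity) (by rw [div_le_one (by norm_num)]; exact hs2)
      (by simp only; ring) (by simp only; ring)
  refine seg hc hm ha (1 / 25 + r) (by linarith) (by linarith) ?_ ?_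
  · have e : a.re = p.re + X := by rw [hXd]; ring
    simp only
    rw [e]; linear_combination (-1 : ℝ) * hξ - hrX
  · have e : a.im = p.im + Y := by rw [hYd]; ring
    simp only
    rw [e]; linear_combination (-1 : ℝ) * hη - hs1

theorem norm_ball {S : Set ℂ} (hc : Convex ℝ S) {L : ℝ} (hL : 400 ≤ L) (h0 : (0 : ℂ) ∈ S)
    (h1 : (L : ℂ) ∈ S) (hd : ∀ w ∈ S, ‖w‖ ≤ L + 1 ∧ ‖w - L‖ ≤ L + 1) {p : ℂ} (hp : p ∈ S)
    (hq : (⟨p.re, p.im + 5 / 2⟩ : ℂ) ∈ S) : ∃ c, ball c (11 / 10) ⊆ S := by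
  have key : ∀ p : ℂ, p ∈ S → (⟨p.re, p.im + 5 / 2⟩ : ℂ) ∈ S → |p.im| ≤ 10 →
      ∃ c, ball c (11 / 10) ⊆ S := fun p hp hq hy => by
    rcases le_total p.re (L / 2) with h | h
    · refine tri hc h1 hp hq ?_ (by simpa using hy)
      rw [Complex.ofReal_re]; exact le_trans (by linarith) (le_abs_self _)
    · refine tri hc h0 hp hq ?_ (by simpa using hy)
      rw [Complex.zero_re]; exact le_trans (by linarith) (neg_le_abs _)
  by_cases hy : |p.im| ≤ 10
  · exact key p hp hq hy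
  have hx1 : p.re ≤ L + 1 := ((le_abs_self _).trans (Complex.abs_re_le_norm p)).trans (hd p hp).1
  have hx2 : -1 ≤ p.re := by
    have := ((neg_le_abs _).trans (Complex.abs_re_le_norm (p - L))).trans (hd p hp).2
    simp only [Complex.sub_re, Complex.ofReal_re] at this
    linarith
  have hL0 : 0 < L := by linarith
  have hax : ∀ x : ℝ, 0 ≤ x → x ≤ L → (⟨x, 0⟩ : ℂ) ∈ S := fun x a b =>
    seg hc h0 h1 (x / L) (by positivity) (by rw [div_le_one hL0]; exact b)
      (by simp only [Complex.zero_re, Complex.ofReal_re]; field_simp; ring) (by simp)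
  have hf : (⟨(L / 2 + p.re) / 2, 0⟩ : ℂ) ∈ S := hax _ (by linarith) (by linarith)
  have hm : (⟨(L / 2 + p.re) / 2, p.im / 2⟩ : ℂ) ∈ S :=
    seg hc (hax (L / 2) (by linarith) (by linarith)) hp (1 / 2) (by norm_num) (by norm_num)
      (by simp only; ring) (by simp only; ring)
  rw [not_le, lt_abs] at hy
  rcases hy with hy | hy
  · refine key _ hf ?_ (by norm_num)
    refine seg hc hf hm (5 / p.im) (by positivity) (by rw [div_le_one (by linarith)]; linarith)
      (by simp only; ring) ?_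
    have : p.im ≠ 0 := by linarith
    simp only; field_simp; ring
  · have hn : p.im ≠ 0 := by linarith
    refine key ⟨(L / 2 + p.re) / 2, -(5 / 2)⟩ ?_ (by simpa using hf) (by norm_num [abs_le])
    refine seg hc hf hm (5 / (-p.im)) (div_nonneg (by norm_num) (by linarith))
      (by rw [div_le_one (by linarith)]; linarith) (by simp only; ring) ?_
    simp only; field_simp; ring

/-- A disc of radius `11 / 10` and a far point force a large inner parallel set. -/
theorem area {Ω : Set ℂ} (hΩ : Adm Ω) {c q : ℂ} (hc : ball c (11 / 10) ⊆ Ω) (hq : q ∈ Ω)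
    (hd : 1000 ≤ ‖q - c‖) : Real.pi < Ar Ω 1 := by
  have hc0 : c ∈ Ω := hc (mem_ball_self (by norm_num))
  have hdc := le_dep hΩ.2.1 hc
  set D := ‖q - c‖ with hD
  have hD0 : 0 < D := by linarith
  set x : ℕ → ℂ := fun k => (1 - (k : ℝ) / (10 * D)) • c + ((k : ℝ) / (10 * D)) • q with hx
  have hsub : ∀ k ∈ Finset.range 401, ball (x k) (1 / 20) ⊆ In Ω 1 := fun k hk z hz => by
    have hk' : (k : ℝ) ≤ 400 := by
      have := Finset.mem_range.1 hk
      exact_mod_cast Nat.lt_succ_iff.1 this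
    have hu0 : 0 ≤ (k : ℝ) / (10 * D) := by positivity
    have hu : (k : ℝ) / (10 * D) ≤ 1 / 25 := by rw [div_le_iff₀ (by positivity)]; linarith
    have hu1 : 0 ≤ 1 - (k : ℝ) / (10 * D) := by linarith
    have h1 := (dep_concave hΩ).2 hc0 hq hu1 hu0 (by ring)
    simp only [smul_eq_mul] at h1
    have h2 := (dep_lip Ω).dist_le_mul (x k) z
    rw [mem_ball, dist_comm] at hz
    rw [Real.dist_eq] at h2
    have h3 := (le_abs_self _).trans h2
    have h4 := mul_nonneg hu0 (dep_nonneg Ω q)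
    have h5 : dep Ω (x k) ≥ (1 - (k : ℝ) / (10 * D)) * dep Ω c := by
      simp only [hx]; linarith
    show 1 < dep Ω z
    simp only [NNReal.coe_one, one_mul] at h3
    nlinarith
  have hdis : (Finset.range 401 : Set ℕ).PairwiseDisjoint fun k => ball (x k) (1 / 20) := by
    intro i _ j _ hij
    refine ball_disjoint_ball ?_
    have e : x i - x j = (((j : ℝ) - i) / (10 * D)) • (c - q) := by
      simp only [hx, smul_sub, sub_smul, sub_div]; abel
    rw [dist_eq_norm, e, norm_smul, norm_sub_rev, ← hD, Real.norm_eq_abs, abs_div,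
      abs_of_pos (by positivity : 0 < 10 * D), div_mul_eq_mul_div, le_div_iff₀ (by positivity)]
    have : (1 : ℝ) ≤ |(j : ℝ) - i| := by
      have h1 : ((j : ℤ) - i) ≠ 0 := sub_ne_zero.2 (by exact_mod_cast hij.symm)
      exact_mod_cast Int.one_le_abs h1
    nlinarith
  have h1 : volume (⋃ k ∈ Finset.range 401, ball (x k) (1 / 20)) ≤ volume (In Ω 1) :=
    measure_mono (iUnion₂_subset hsub)
  rw [measure_biUnion_finset hdis (fun _ _ => measurableSet_ball)] at h1
  have h2 := ENNReal.toReal_mono (In_vol_lt_top hΩ.2.1 zero_le_one).ne h1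
  simp only [Complex.volume_ball, Finset.sum_const, Finset.card_range, nsmul_eq_mul,
    ENNReal.toReal_mul, ENNReal.toReal_pow, ENNReal.toReal_natCast, ENNReal.coe_toReal,
    NNReal.coe_real_pi] at h2
  rw [ENNReal.toReal_ofReal (by norm_num)] at h2
  have := Real.pi_pos
  unfold Ar
  push_cast at h2
  linarith

end Elong

theorem sElong (h : SStrip) : SElong := by
  refine ⟨2002, fun Ω hΩ hA hl => ?_⟩
  obtain ⟨w, hw⟩ := hΩ.1
  refine ⟨w, fun z hz => ?_⟩
  by_contra hn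
  rw [mem_ball, not_lt] at hn
  have hD : ∀ x ∈ Ω, ∀ y ∈ Ω, dist x y ≤ diam Ω := fun x hx y hy =>
    dist_le_diam_of_mem hΩ.2.1 hx hy
  have hD1 := hn.trans (hD z hz w hw)
  obtain ⟨a, ha, b, hb, hab⟩ : ∃ a ∈ Ω, ∃ b ∈ Ω, diam Ω - 1 < dist b a := by
    by_contra hc
    push Not at hc
    have := diam_le_of_forall_dist_le (s := Ω) (C := diam Ω - 1) (by linarith)
      fun x hx y hy => hc y hy x hx
    linarith
  rw [dist_eq_norm] at hab
  set L := ‖b - a‖ with hL
  have hL0 : 0 < L := by linarith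
  have hLc : (L : ℂ) ≠ 0 := by exact_mod_cast hL0.ne'
  set e : ℂ := (b - a) / L with he
  have he1 : ‖e‖ = 1 := by
    rw [he, norm_div, ← hL, Complex.norm_real, Real.norm_of_nonneg hL0.le, div_self hL0.ne']
  have he0 : e ≠ 0 := by
    intro h0; rw [h0] at he1; simp at he1
  have hbe : a + e * L = b := by rw [he]; field_simp; ring
  have hback : ∀ z : ℂ, a + e * ((z - a) / e) = z := fun z => by field_simp; ring
  have hS : Convex ℝ {w : ℂ | a + e * w ∈ Ω} := by
    intro x hx y hy s t hs ht hst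
    have := hΩ.2.2.2 hx hy hs ht hst
    have e1 : (s : ℂ) + t = 1 := by exact_mod_cast hst
    show a + e * (s • x + t • y) ∈ Ω
    convert this using 1
    simp only [Complex.real_smul]
    linear_combination (-a) * e1
  obtain ⟨p, hp, hq⟩ := Elong.chord h hΩ hl (v := e * Complex.I) (by simp [he1])
  obtain ⟨c, hc⟩ := Elong.norm_ball hS (L := L) (by linarith) (by simpa using ha)
    (by show a + e * L ∈ Ω; rw [hbe]; exact hb) (fun w hw => by
      have h1 := hD _ hw a ha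
      have h2 := hD _ hw b hb
      rw [dist_eq_norm] at h1 h2
      have e1 : a + e * w - a = e * w := by ring
      have e2 : a + e * w - b = e * (w - L) := by rw [← hbe]; ring
      rw [e1, norm_mul, he1, one_mul] at h1
      rw [e2, norm_mul, he1, one_mul] at h2
      constructor <;> linarith) (p := (p - a) / e)
    (by show a + e * ((p - a) / e) ∈ Ω; rw [hback]; exact hp) (by
      have e1 : (⟨((p - a) / e).re, ((p - a) / e).im + 5 / 2⟩ : ℂ)
          = (p - a) / e + ((5 / 2 : ℝ) : ℂ) * Complex.I := by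
        apply Complex.ext <;> simp
      show a + e * _ ∈ Ω
      rw [e1, mul_add, ← add_assoc, hback]
      convert hq using 2
      ring)
  have hc' : ball (a + e * c) (11 / 10) ⊆ Ω := fun z hz => by
    have h1 : (z - a) / e ∈ ball c (11 / 10) := by
      rw [mem_ball, dist_eq_norm] at hz ⊢
      have e1 : z - (a + e * c) = e * ((z - a) / e - c) := by field_simp; ring
      rwa [e1, norm_mul, he1, one_mul] at hz
    have h2 : a + e * ((z - a) / e) ∈ Ω := hc h1
    rwa [hback] at h2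
  have htri : L ≤ ‖b - (a + e * c)‖ + ‖a - (a + e * c)‖ := by
    have := norm_sub_le (b - (a + e * c)) (a - (a + e * c))
    rwa [sub_sub_sub_cancel_right] at this
  rcases le_total 1000 ‖b - (a + e * c)‖ with h1 | h1
  · exact absurd hA (Elong.area hΩ hc' hb h1).ne'
  · exact absurd hA (Elong.area hΩ hc' ha (by linarith)).ne'

end Pool.Agent.MP_44cb5f_an

end MrgPart1

-- ======== part 2: formerly Pool.Agent.MP_44cb5f_an.Od1
section MrgPart2

set_option autoImplicit false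
open MeasureTheory Set Metric Filter Topology

namespace Pool.Agent.MP_44cb5f_an

namespace Od1

variable {f m : ℝ → ℝ}

theorem mono (hs : ∀ u v, f u + m u * (v - u) ≤ f v) : Monotone m := by
  intro x y hxy
  rcases hxy.eq_or_lt with h | h
  · rw [h]
  · have h1 := hs x y
    have h2 := hs y x
    by_contra hc
    have hc' : m y < m x := not_le.1 hc
    nlinarith [mul_pos (sub_pos.2 hc') (sub_pos.2 h)]

theorem lip (hs : ∀ u v, f u + m u * (v - u) ≤ f v) (hm : ∀ u, |m u| ≤ 1) (u v : ℝ) :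
    |f u - f v| ≤ |u - v| := by
  have key : ∀ a b, f a - f b ≤ |a - b| := fun a b => by
    have h1 := hs a b
    have h2 : |m a * (b - a)| ≤ |a - b| := by
      rw [abs_mul, abs_sub_comm b a]
      exact mul_le_of_le_one_left (abs_nonneg _) (hm a)
    have h3 := neg_abs_le (m a * (b - a))
    linarith
  refine abs_sub_le_iff.2 ⟨key u v, ?_⟩
  rw [abs_sub_comm]; exact key v u

theorem hasDeriv (hs : ∀ u v, f u + m u * (v - u) ≤ f v) {x : ℝ} (hx : ContinuousAt m x) :
    HasDerivAt f (m x) x := by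
  rw [hasDerivAt_iff_isLittleO, Asymptotics.isLittleO_iff]
  intro c hc
  have h1 : ∀ᶠ y in 𝓝 x, dist (m y) (m x) < c := Metric.tendsto_nhds.1 hx c hc
  filter_upwards [h1] with y hy
  rw [Real.dist_eq] at hy
  have h2 := hs x y
  have h3 := hs y x
  rw [Real.norm_eq_abs, Real.norm_eq_abs, smul_eq_mul, abs_of_nonneg (by nlinarith)]
  have h4 : (m y - m x) * (y - x) ≤ c * |y - x| := by
    refine (le_abs_self _).trans ?_
    rw [abs_mul]
    exact mul_le_mul_of_nonneg_right hy.le (abs_nonneg _)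
  nlinarith

theorem ftc (hs : ∀ u v, f u + m u * (v - u) ≤ f v) (hm : ∀ u, |m u| ≤ 1) (a b : ℝ) :
    ∫ x in a..b, m x = f b - f a := by
  have hc : Continuous f := by
    have : LipschitzWith 1 f := LipschitzWith.of_dist_le_mul fun u v => by
      simpa [Real.dist_eq] using lip hs hm u v
    exact this.continuous
  exact integral_eq_of_hasDerivAt_off_countable f m (mono hs).countable_not_continuousAt
    hc.continuousOn (fun x hx => hasDeriv hs (not_not.1 hx.2)) (mono hs).intervalIntegrable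

theorem side (hs : ∀ u v, f u + m u * (v - u) ≤ f v) {p s : ℝ}
    (hp : ∀ u, f s + p * (u - s) ≤ f u) :
    (∀ u, u < s → m u ≤ p) ∧ ∀ u, s < u → p ≤ m u := by
  constructor
  · intro u hu
    have h1 := hs u s
    have h2 := hp u
    by_contra hc
    nlinarith [mul_pos (sub_pos.2 (not_le.1 hc)) (sub_pos.2 hu)]
  · intro u hu
    have h1 := hs u s
    have h2 := hp u
    by_contra hc
    nlinarith [mul_pos (sub_pos.2 (not_le.1 hc)) (sub_pos.2 hu)]

theorem qint (hs : ∀ u v, f u + m u * (v - u) ≤ f v) (hm : ∀ u, |m u| ≤ 1) {q : ℝ → ℝ}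
    {L : NNReal} (hq : LipschitzWith L q) (a b : ℝ) :
    IntervalIntegrable (fun v => q (m v)) volume a b := by
  have hmeas : Measurable fun v => q (m v) := hq.continuous.measurable.comp (mono hs).measurable
  refine (intervalIntegrable_const (c := |q 0| + L)).mono_fun' hmeas.aestronglyMeasurable ?_
  refine Eventually.of_forall fun v => ?_
  have h1 := hq.dist_le_mul (m v) 0
  rw [Real.dist_eq, Real.dist_eq, sub_zero] at h1
  have h2 : (L : ℝ) * |m v| ≤ L := mul_le_of_le_one_right L.2 (hm v)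
  have h3 : |q (m v)| ≤ |q (m v) - q 0| + |q 0| := by
    simpa using abs_add_le (q (m v) - q 0) (q 0)
  show ‖q (m v)‖ ≤ |q 0| + L
  rw [Real.norm_eq_abs]; linarith

theorem key (hs : ∀ u v, f u + m u * (v - u) ≤ f v) (hm : ∀ u, |m u| ≤ 1) {q : ℝ → ℝ}
    {L : NNReal} (hq : LipschitzWith L q) {p s : ℝ} (hp : ∀ u, f s + p * (u - s) ≤ f u) (u : ℝ) :
    |(∫ w in s..u, q (m w)) - q p * (u - s)| ≤ L * (f u - f s - p * (u - s)) := by
  obtain ⟨h1, h2⟩ := side hs hp
  have hi := qint hs hm hq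
  have hmi : ∀ a b, IntervalIntegrable m volume a b := fun a b => (mono hs).intervalIntegrable
  have e1 : ∀ a b, (∫ w in a..b, q (m w)) - q p * (b - a) = ∫ w in a..b, (q (m w) - q p) := by
    intro a b
    rw [intervalIntegral.integral_sub (hi a b) intervalIntegrable_const,
      intervalIntegral.integral_const, smul_eq_mul, mul_comm]
  have e2 : ∀ a b, ∫ w in a..b, (L : ℝ) * (m w - p) = L * (f b - f a - p * (b - a)) := by
    intro a b
    rw [intervalIntegral.integral_const_mul,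
      intervalIntegral.integral_sub (hmi a b) intervalIntegrable_const,
      intervalIntegral.integral_const, smul_eq_mul, ftc hs hm, mul_comm (b - a)]
  have hb : ∀ w, |q (m w) - q p| ≤ L * |m w - p| := fun w => by
    simpa [Real.dist_eq] using hq.dist_le_mul (m w) p
  have hI : ∀ a b, IntervalIntegrable (fun w => (L : ℝ) * (m w - p)) volume a b := fun a b =>
    ((hmi a b).sub intervalIntegrable_const).const_mul _
  have hJ : ∀ a b, IntervalIntegrable (fun w => |q (m w) - q p|) volume a b := fun a b =>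
    ((hi a b).sub intervalIntegrable_const).abs
  rcases le_total s u with hsu | hsu
  · rw [e1, ← e2]
    refine (intervalIntegral.abs_integral_le_integral_abs hsu).trans ?_
    refine intervalIntegral.integral_mono_on_of_le_Ioo hsu (hJ s u) (hI s u) fun w hw => ?_
    have := hb w
    rwa [abs_of_nonneg (sub_nonneg.2 (h2 w hw.1))] at this
  · have e3 : (∫ w in s..u, q (m w)) - q p * (u - s)
        = -((∫ w in u..s, q (m w)) - q p * (s - u)) := by
      rw [intervalIntegral.integral_symm]; ring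
    have e4 : (L : ℝ) * (f u - f s - p * (u - s)) = ∫ w in u..s, -((L : ℝ) * (m w - p)) := by
      rw [intervalIntegral.integral_neg, e2]; ring
    rw [e3, abs_neg, e1, e4]
    refine (intervalIntegral.abs_integral_le_integral_abs hsu).trans ?_
    refine intervalIntegral.integral_mono_on_of_le_Ioo hsu (hJ u s) (hI u s).neg fun w hw => ?_
    have := hb w
    rw [abs_of_nonpos (sub_nonpos.2 (h1 w hw.2))] at this
    linarith

theorem support (hs : ∀ u v, f u + m u * (v - u) ≤ f v) (hm : ∀ u, |m u| ≤ 1) {q : ℝ → ℝ}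
    {L : NNReal} (hq : LipschitzWith L q) {t : ℝ} (ht : |t| * L ≤ 1) (u0 : ℝ) {p s : ℝ}
    (hp : ∀ u, f s + p * (u - s) ≤ f u) (u : ℝ) :
    f s + t * (∫ w in u0..s, q (m w)) + (p + t * q p) * (u - s)
      ≤ f u + t * ∫ w in u0..u, q (m w) := by
  have h1 := key hs hm hq hp u
  have h2 := intervalIntegral.integral_add_adjacent_intervals (qint hs hm hq u0 s)
    (qint hs hm hq s u)
  have h3 := hp u
  set D := f u - f s - p * (u - s) with hD
  set X := (∫ w in s..u, q (m w)) - q p * (u - s) with hX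
  have hD0 : 0 ≤ D := by rw [hD]; linarith
  have h4 : |t * X| ≤ D := by
    rw [abs_mul]
    calc |t| * |X| ≤ |t| * (L * D) := mul_le_mul_of_nonneg_left h1 (abs_nonneg _)
      _ = (|t| * L) * D := by ring
      _ ≤ D := mul_le_of_le_one_left hD0 ht
  have h5 := neg_abs_le (t * X)
  rw [← h2]
  have e : f u + t * ((∫ w in u0..s, q (m w)) + ∫ w in s..u, q (m w))
      - (f s + t * (∫ w in u0..s, q (m w)) + (p + t * q p) * (u - s)) = D + t * X := by
    rw [hD, hX]; ring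
  linarith

theorem convex_of_support {h : ℝ → ℝ} (hs : ∀ s, ∃ σ, ∀ u, h s + σ * (u - s) ≤ h u) :
    ConvexOn ℝ univ h := by
  refine ⟨convex_univ, fun x _ y _ a b ha hb hab => ?_⟩
  obtain ⟨σ, hσ⟩ := hs (a • x + b • y)
  have h1 := mul_le_mul_of_nonneg_left (hσ x) ha
  have h2 := mul_le_mul_of_nonneg_left (hσ y) hb
  simp only [smul_eq_mul] at h1 h2 ⊢
  have hb' : b = 1 - a := by linarith
  subst hb'
  nlinarith

theorem le_sq {a b : ℝ} (h : a ^ 2 ≤ b ^ 2) (hb : 0 ≤ b) : a ≤ b := (abs_le_of_sq_le_sq' h hb).2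

theorem cs (p σ : ℝ) : 1 + σ * p ≤ ph σ * ph p := by
  refine le_sq ?_ (mul_pos (ph_pos σ) (ph_pos p)).le
  rw [mul_pow, ph_sq, ph_sq]
  nlinarith [sq_nonneg (σ - p)]

theorem disc {h : ℝ → ℝ} {s σ x v : ℝ} (hs : ∀ u, h s + σ * (u - s) ≤ h u)
    (hd : ∀ a b, (a - x) ^ 2 + (b - v) ^ 2 < 1 → h a < b) :
    h s + σ * (x - s) + ph σ ≤ v := by
  have hp := ph_pos σ
  have h2 := ph_sq σ
  have h1 : ∀ r, 0 ≤ r → r < 1 → h s + σ * (x - s) + r * ph σ ≤ v := fun r hr0 hr => by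
    have e1 : (x + r * σ / ph σ - x) ^ 2 + (v - r / ph σ - v) ^ 2 = r ^ 2 := by
      field_simp
      rw [h2]; ring
    have h3 := hd (x + r * σ / ph σ) (v - r / ph σ) (by rw [e1]; nlinarith)
    have h4 := hs (x + r * σ / ph σ)
    have e2 : σ * (r * σ / ph σ) + r / ph σ = r * ph σ := by
      field_simp
      rw [h2]; ring
    nlinarith
  refine le_of_forall_pos_le_add fun ε hε => ?_
  set r := max 0 (1 - ε / ph σ) with hr
  have h3 := h1 r (le_max_left _ _) (max_lt one_pos (by linarith [div_pos hε hp]))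
  have h4 : (1 - ε / ph σ) * ph σ ≤ r * ph σ :=
    mul_le_mul_of_nonneg_right (le_max_right _ _) hp.le
  have e : (1 - ε / ph σ) * ph σ = ph σ - ε := by field_simp
  linarith

theorem one_le_ph (p : ℝ) : 1 ≤ ph p := by
  refine le_sq ?_ (ph_pos p).le
  rw [ph_sq]; nlinarith [sq_nonneg p]

theorem second (p s : ℝ) (hp : |p| ≤ 1) (hs : |s| ≤ 2) :
    s ^ 2 / 50 ≤ ph (p + s) - ph p - p / ph p * s ∧ ph (p + s) - ph p - p / ph p * s ≤ s ^ 2 := by
  have h0 := ph_pos p
  have h1 := one_le_ph p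
  have h1' := one_le_ph (p + s)
  have hp2 : p ^ 2 ≤ 1 := by rw [← sq_abs]; nlinarith [abs_nonneg p]
  have hs2 : s ^ 2 ≤ 4 := by rw [← sq_abs]; nlinarith [abs_nonneg s]
  have hps : |p * s| ≤ 2 * |p| := by rw [abs_mul]; nlinarith [abs_nonneg p]
  have hY0 : 0 ≤ 1 + (p + s) * p := by
    have := neg_abs_le (p * s)
    have e : p ^ 2 = |p| ^ 2 := (sq_abs p).symm
    nlinarith [sq_nonneg (|p| - 1)]
  have hY1 : 1 + (p + s) * p ≤ 4 := by
    have := le_abs_self (p * s)
    nlinarith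
  have hp3 : ph p ≤ 2 := by
    refine le_sq ?_ (by norm_num)
    rw [ph_sq]; nlinarith
  have hp4 : ph (p + s) ≤ 4 := by
    refine le_sq ?_ (by norm_num)
    have := le_abs_self (p * s)
    rw [ph_sq]; nlinarith
  set R := ph (p + s) - ph p - p / ph p * s with hR
  set X := ph (p + s) * ph p with hX
  set Y := 1 + (p + s) * p with hY
  have e1 : R * ph p = X - Y := by
    have := ph_sq p
    rw [hR, hX, hY]; field_simp
    linear_combination -this
  have e2 : (X - Y) * (X + Y) = s ^ 2 := by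
    have : X ^ 2 = (1 + (p + s) ^ 2) * (1 + p ^ 2) := by rw [hX, mul_pow, ph_sq, ph_sq]
    rw [hY]; linear_combination this
  have hX1 : 1 ≤ X := by rw [hX]; nlinarith
  have hX2 : X ≤ 8 := by rw [hX]; nlinarith
  have hXY : Y ≤ X := cs p (p + s)
  have hR0 : 0 ≤ R := by
    by_contra hc
    nlinarith [mul_pos (neg_pos.2 (not_le.1 hc)) h0]
  have e3 : R * (ph p * (X + Y)) = s ^ 2 := by rw [← mul_assoc, e1, e2]
  have hW1 : 1 ≤ ph p * (X + Y) := by nlinarith
  have hW2 : ph p * (X + Y) ≤ 50 := by nlinarith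
  constructor
  · nlinarith [mul_le_mul_of_nonneg_left hW2 hR0]
  · nlinarith [mul_le_mul_of_nonneg_left hW1 hR0]

theorem g_sub (E : Env) (u v : ℝ) : E.g u + E.sl u * (v - u) ≤ E.g v := by
  have := E.g_ge _ (E.g_eq u) v
  simp only at this
  linarith

theorem f_sub (E : Env) (u v : ℝ) : E.f u + E.sf u * (v - u) ≤ E.f v := by
  have := E.f_ge _ (E.f_eq u) v
  simp only at this
  linarith

theorem active (E : Env) {p x : ℝ} (h : (p, E.g x - p * x) ∈ E.F) :
    E.f (x + p / ph p) = E.g x + p * (p / ph p) - ph p ∧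
      ∀ u, E.f (x + p / ph p) + p * (u - (x + p / ph p)) ≤ E.f u := by
  have h0 := ph_pos p
  have e : E.f (x + p / ph p) = E.g x + p * (p / ph p) - ph p := by
    apply le_antisymm
    · have h1 := E.g_ge _ (E.f_eq (x + p / ph p)) x
      simp only at h1
      set σ := E.sf (x + p / ph p) with hσ
      have h2 : σ * (p / ph p) - ph σ ≤ p * (p / ph p) - ph p := by
        have h3 := cs p σ
        have h4 := ph_sq p
        have e1 : p * (p / ph p) - ph p - (σ * (p / ph p) - ph σ)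
            = (ph σ * ph p - (1 + σ * p)) / ph p := by
          field_simp
          rw [h4]; ring
        have := div_nonneg (sub_nonneg.2 h3) h0.le
        linarith
      linarith
    · have h1 := E.f_ge _ h (x + p / ph p)
      simp only at h1
      linarith
  refine ⟨e, fun u => ?_⟩
  have h1 := E.f_ge _ h u
  simp only at h1
  rw [e]; linarith

end Od1

theorem sOD1 : SOD1 := by
  intro E
  have hg := Od1.g_sub E
  have hf := Od1.f_sub E
  have hsl : ∀ u, |E.sl u| ≤ 1 := fun u => E.slope _ (E.g_eq u)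
  have hsf : ∀ u, |E.sf u| ≤ 1 := fun u => E.slope _ (E.f_eq u)
  refine ⟨Od1.mono hg, Od1.mono hf, Od1.lip hg hsl, Od1.lip hf hsf, fun p x h => ?_,
    fun q L u0 t hq ht => ⟨?_, fun y x v hd => ?_⟩, Od1.second⟩
  · obtain ⟨h1, h2⟩ := Od1.active E h
    exact ⟨h1, Od1.side hf h2⟩
  · exact Od1.convex_of_support fun s => ⟨_, Od1.support hf hsf hq ht u0 (hf s)⟩
  · obtain ⟨h1, h2⟩ := Od1.active E (E.g_eq y)
    have h3 := Od1.disc (h := fun u => E.f u + t * ∫ w in u0..u, q (E.sf w))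
      (Od1.support hf hsf hq ht u0 h2) hd
    simp only [h1] at h3
    simp only [Env.Lam, Env.ct]
    linarith

end Pool.Agent.MP_44cb5f_an

end MrgPart2

-- ======== part 3: formerly Pool.Agent.MP_44cb5f_an.Rad
section MrgPart3

set_option autoImplicit false
open MeasureTheory Set Metric
open scoped Pointwise

namespace Pool.Agent.MP_44cb5f_an

namespace Rad

/-- Twice the perimeter of the inner parallel set. -/
noncomputable def pp (X : Set ℂ) (s : ℝ) : ℝ := (PC (In X s)).toReal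

theorem pp_nonneg (X : Set ℂ) (s : ℝ) : 0 ≤ pp X s := ENNReal.toReal_nonneg

theorem PC_ne_top (hpc : SPC) {X : Set ℂ} (hX : Bornology.IsBounded X) {s : ℝ} (hs : 0 ≤ s) :
    PC (In X s) ≠ ⊤ := by
  obtain ⟨r, hr⟩ := hX.subset_ball 0
  exact ne_top_of_le_ne_top ENNReal.ofReal_ne_top
    (hpc.2.2.2 _ 0 r ((In_subset X hs).trans hr))

theorem pp_le (hpc : SPC) {X : Set ℂ} {R s : ℝ} (hR : 0 ≤ R) (hX : X ⊆ ball 0 R) (hs : 0 ≤ s) :
    pp X s ≤ 4 * Real.pi * R :=
  ENNReal.toReal_le_of_le_ofReal (by positivity) (hpc.2.2.2 _ 0 R ((In_subset X hs).trans hX))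

theorem pp_mono (hpc : SPC) {X Y : Set ℂ} (hY : Bornology.IsBounded Y) {s t : ℝ} (ht : 0 ≤ t)
    (h : In X s ⊆ In Y t) : pp X s ≤ pp Y t :=
  ENNReal.toReal_mono (PC_ne_top hpc hY ht) (PC_mono h)

theorem Ar_mono {X Y : Set ℂ} (hY : Bornology.IsBounded Y) {s t : ℝ} (ht : 0 ≤ t)
    (h : In X s ⊆ In Y t) : Ar X s ≤ Ar Y t :=
  ENNReal.toReal_mono (In_vol_lt_top hY ht).ne (measure_mono h)

theorem Ar_low (hst : SST) (hpc : SPC) {X : Set ℂ} (hX : Adm X) {a b : ℝ} (ha : 0 ≤ a)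
    (hab : a ≤ b) : 2 * Ar X b + (b - a) * pp X b ≤ 2 * Ar X a := by
  have hb := ha.trans hab
  have h1 : ENNReal.ofReal (b - a) * PC (In X b) ≤ ∫⁻ s in Ioo a b, PC (In X s) := by
    rw [← Real.volume_Ioo, mul_comm, ← setLIntegral_const]
    exact setLIntegral_mono' measurableSet_Ioo fun s hs => PC_mono (In_anti X hs.2.le)
  have h2 : 2 * volume (In X b) + ENNReal.ofReal (b - a) * PC (In X b) ≤ 2 * volume (In X a) := by
    rw [hst X a b hX ha hab]; gcongr
  have h3 := ENNReal.toReal_mono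
    (ENNReal.mul_ne_top (by simp) (In_vol_lt_top hX.2.1 ha).ne) h2
  rw [ENNReal.toReal_add (ENNReal.mul_ne_top (by simp) (In_vol_lt_top hX.2.1 hb).ne)
    (ENNReal.mul_ne_top ENNReal.ofReal_ne_top (PC_ne_top hpc hX.2.1 hb))] at h3
  simpa [ENNReal.toReal_mul, ENNReal.toReal_ofReal (sub_nonneg.2 hab), Ar, pp] using h3

theorem Ar_up (hst : SST) (hpc : SPC) {X : Set ℂ} (hX : Adm X) {a b : ℝ} (ha : 0 ≤ a)
    (hab : a ≤ b) : 2 * Ar X a ≤ 2 * Ar X b + (b - a) * pp X a := by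
  have hb := ha.trans hab
  have h1 : ∫⁻ s in Ioo a b, PC (In X s) ≤ ENNReal.ofReal (b - a) * PC (In X a) := by
    rw [← Real.volume_Ioo, mul_comm, ← setLIntegral_const]
    exact setLIntegral_mono' measurableSet_Ioo fun s hs => PC_mono (In_anti X hs.1.le)
  have h2 : 2 * volume (In X a) ≤ 2 * volume (In X b) + ENNReal.ofReal (b - a) * PC (In X a) := by
    rw [hst X a b hX ha hab]; gcongr
  have t1 := ENNReal.mul_ne_top (a := 2) (by simp) (In_vol_lt_top hX.2.1 hb).ne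
  have t2 := ENNReal.mul_ne_top (ENNReal.ofReal_ne_top (r := b - a)) (PC_ne_top hpc hX.2.1 ha)
  have h3 := ENNReal.toReal_mono (ENNReal.add_ne_top.2 ⟨t1, t2⟩) h2
  rw [ENNReal.toReal_add t1 t2] at h3
  simpa [ENNReal.toReal_mul, ENNReal.toReal_ofReal (sub_nonneg.2 hab), Ar, pp] using h3

theorem exists_deep (hst : SST) (hpc : SPC) {Ω : Set ℂ} {R : ℝ} (hR : 0 < R) (hΩ : Adm Ω)
    (hb : Ω ⊆ ball 0 R) (h1 : Ar Ω 1 = Real.pi) : ∃ z0, 1 + 1 / (4 * R) < dep Ω z0 := by
  have h4 : 0 < 1 / (4 * R) := by positivity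
  refine In_nonempty_of_Ar (Ω := Ω) (a := 1 + 1 / (4 * R)) ?_
  have h2 := Ar_up hst hpc hΩ zero_le_one (le_add_of_nonneg_right h4.le)
  have h3 := pp_le hpc hR.le hb zero_le_one
  have h5 : (1 + 1 / (4 * R) - 1) * pp Ω 1 ≤ Real.pi := by
    rw [add_sub_cancel_left, one_div, inv_mul_le_iff₀ (by positivity)]
    linarith
  linarith [Real.pi_pos]

theorem pp_lip (hst : SST) (hpc : SPC) {Ω : Set ℂ} {R : ℝ} (hR : 0 < R) (hΩ : Adm Ω)
    (hb : Ω ⊆ ball 0 R) (h1 : Ar Ω 1 = Real.pi) {s t : ℝ} (hs : 0 ≤ s) (hst' : s ≤ t)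
    (ht : t ≤ 1 + 1 / (8 * R)) : pp Ω s ≤ pp Ω t + 32 * Real.pi * R ^ 2 * (t - s) := by
  obtain ⟨z0, hz0⟩ := exists_deep hst hpc hR hΩ hb h1
  have e8 : 1 / (4 * R) = 2 * (1 / (8 * R)) := by field_simp; norm_num
  have h8 : 0 < 1 / (8 * R) := by positivity
  obtain ⟨m, hm⟩ : ∃ m, m = 1 + 1 / (4 * R) := ⟨_, rfl⟩
  rw [← hm] at hz0
  have hmt : 1 / (8 * R) ≤ m - t := by linarith
  have hms : 0 < m - s := by linarith
  obtain ⟨u, hu⟩ : ∃ u, u = (t - s) / (m - s) := ⟨_, rfl⟩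
  have hu0 : 0 ≤ u := by rw [hu]; exact div_nonneg (by linarith) hms.le
  have hu1 : u < 1 := by rw [hu, div_lt_one hms]; linarith
  have hum : u * (m - s) = t - s := by rw [hu]; field_simp
  have hz0' : z0 ∈ Ω := mem_of_dep_pos (by linarith)
  have hsub : (fun z => ((1 - u : ℝ) : ℂ) * z + (u : ℂ) * z0) '' In Ω s ⊆ In Ω t := by
    rintro _ ⟨z, hz, rfl⟩
    have h2 := (dep_concave hΩ).2 (In_subset Ω hs hz) hz0' (show 0 ≤ 1 - u by linarith) hu0
      (by ring)
    simp only [smul_eq_mul, Complex.real_smul] at h2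
    have h3 : s < dep Ω z := hz
    change t < dep Ω _
    nlinarith [mul_lt_mul_of_pos_left h3 (sub_pos.2 hu1), mul_le_mul_of_nonneg_left hz0.le hu0]
  have h4 := ENNReal.toReal_mono (PC_ne_top hpc hΩ.2.1 (hs.trans hst')) (PC_mono hsub)
  rw [hpc.2.2.1 _ _ _ (by linarith), ENNReal.toReal_mul, ENNReal.toReal_ofReal (by linarith)] at h4
  change (1 - u) * pp Ω s ≤ pp Ω t at h4
  have h5 := pp_le hpc hR.le hb hs
  have h6 : u ≤ 8 * R * (t - s) := by
    have h7 : u * (1 / (8 * R)) ≤ t - s := by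
      rw [← hum]; exact mul_le_mul_of_nonneg_left (by linarith) hu0
    rwa [mul_one_div, div_le_iff₀ (by positivity), mul_comm] at h7
  have h8 : u * pp Ω s ≤ 8 * R * (t - s) * (4 * Real.pi * R) :=
    mul_le_mul h6 h5 (pp_nonneg _ _) (hu0.trans h6)
  nlinarith

theorem one (hst : SST) (hpc : SPC) (hs : SSand) {Ω A : Set ℂ} {R ε C : ℝ} (hR : 0 < R)
    (hΩ : Adm Ω) (hA : Adm A) (hb : Ω ⊆ ball 0 R) (h1 : Ar Ω 1 = Real.pi) (hε : 0 < ε)
    (hC : C = 32 * Real.pi * R ^ 2 * ((R + 1) * (R + 2)))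
    (e1 : (R + 2) * ε ≤ 1 / (8 * R)) (e2 : (R + 2) * ε ≤ 1) (e3 : C * ε ≤ 1)
    (h2 : A ⊆ Ω + closedBall (0 : ℂ) ε) (h3 : Ω ⊆ A + closedBall (0 : ℂ) ε) {ρ : ℝ}
    (hρ : ρ = 1 + 2 * (Ar A 1 - Real.pi) / (pp Ω 1 + 4 * Real.pi) + C * ε ^ 2) :
    0 < ρ ∧ Ar A ρ ≤ Real.pi * ρ ^ 2 := by
  have hpi := Real.pi_pos
  have s1 : ∀ s, In A s ⊆ In Ω (s - ε) := fun s z (hz : s < dep A z) =>
    show s - ε < dep Ω z by linarith [hs A Ω ε hΩ hε.le h2 z]
  have s2 : ∀ s, In Ω (s + ε) ⊆ In A s := fun s z (hz : s + ε < dep Ω z) =>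
    show s < dep A z by linarith [hs Ω A ε hA hε.le h3 z]
  have hε1 : ε ≤ 1 := by nlinarith
  obtain ⟨P, hP⟩ : ∃ P, P = pp Ω 1 := ⟨_, rfl⟩
  obtain ⟨L, hL⟩ : ∃ L, L = 32 * Real.pi * R ^ 2 := ⟨_, rfl⟩
  have hL0 : 0 < L := by rw [hL]; positivity
  have hP0 : 0 ≤ P := hP ▸ pp_nonneg _ _
  have hD : 0 < P + 4 * Real.pi := by positivity
  rw [← hP] at hρ
  rw [← hL] at hC
  obtain ⟨x0, hx0⟩ : ∃ x0, x0 = 2 * (Ar A 1 - Real.pi) / (P + 4 * Real.pi) := ⟨_, rfl⟩
  rw [← hx0] at hρ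
  have hx1 : x0 * (P + 4 * Real.pi) = 2 * (Ar A 1 - Real.pi) := by rw [hx0]; field_simp
  have a1 : 2 * Ar A 1 ≤ 2 * Real.pi + ε * (4 * Real.pi * R) := by
    have b1 := Ar_mono hΩ.2.1 (sub_nonneg.2 hε1) (s1 1)
    have b2 := Ar_up hst hpc hΩ (sub_nonneg.2 hε1) (sub_le_self 1 hε.le)
    have b3 := pp_le hpc hR.le hb (sub_nonneg.2 hε1)
    rw [sub_sub_cancel, h1] at b2
    nlinarith
  have a2 : 2 * Real.pi ≤ 2 * Ar A 1 + ε * (4 * Real.pi * R) := by
    have b1 := Ar_mono hA.2.1 zero_le_one (s2 1)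
    have b2 := Ar_up hst hpc hΩ zero_le_one (le_add_of_nonneg_right hε.le)
    have b3 := pp_le hpc hR.le hb zero_le_one
    rw [add_sub_cancel_left, h1] at b2
    nlinarith
  have hRε : 0 < R * ε := by positivity
  have a3 : x0 ≤ R * ε := by
    refine le_of_mul_le_mul_right ?_ hD
    nlinarith [mul_nonneg hRε.le hP0]
  have a4 : -(R * ε) ≤ x0 := by
    refine le_of_mul_le_mul_right ?_ hD
    nlinarith [mul_nonneg hRε.le hP0]
  have hC0 : 0 < C := by rw [hC]; positivity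
  have a5 : C * ε ^ 2 ≤ ε := by nlinarith
  have a6 : 0 ≤ C * ε ^ 2 := by positivity
  obtain ⟨x, hx⟩ : ∃ x, x = x0 + C * ε ^ 2 := ⟨_, rfl⟩
  have hρx : ρ = 1 + x := by rw [hρ, hx]; ring
  have a7 : |x| ≤ (R + 1) * ε := abs_le.2 ⟨by linarith, by linarith⟩
  have a8 := abs_le.1 a7
  have key : 2 * Ar A (1 + x) ≤ 2 * Ar A 1 - x * P + |x| * (L * (|x| + ε)) := by
    rcases le_total 0 x with h0 | h0
    · rw [abs_of_nonneg h0]
      have b1 := Ar_low hst hpc hA zero_le_one (le_add_of_nonneg_right h0)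
      have b2 := pp_mono hpc hA.2.1 (by linarith : (0 : ℝ) ≤ 1 + x) (s2 (1 + x))
      have b3 := pp_lip hst hpc hR hΩ hb h1 zero_le_one (by linarith : 1 ≤ 1 + x + ε)
        (by linarith)
      rw [← hP, ← hL] at b3
      rw [add_sub_cancel_left] at b1
      have b4 : P - L * (x + ε) ≤ pp A (1 + x) := by linarith
      nlinarith [mul_le_mul_of_nonneg_left b4 h0]
    · rw [abs_of_nonpos h0]
      have b0 : (0 : ℝ) ≤ 1 + x - ε := by linarith
      have b1 := Ar_up hst hpc hA (by linarith : (0 : ℝ) ≤ 1 + x) (by linarith : 1 + x ≤ 1)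
      have b2 := pp_mono hpc hΩ.2.1 b0 (s1 (1 + x))
      have b3 := pp_lip hst hpc hR hΩ hb h1 b0 (by linarith : 1 + x - ε ≤ 1)
        (le_add_of_nonneg_right (by positivity))
      rw [← hP, ← hL] at b3
      have b4 : pp A (1 + x) ≤ P + L * (-x + ε) := by linarith
      nlinarith [mul_le_mul_of_nonneg_left b4 (neg_nonneg.2 h0)]
  have a9 : |x| * (L * (|x| + ε)) ≤ C * ε ^ 2 := by
    calc |x| * (L * (|x| + ε)) ≤ (R + 1) * ε * (L * ((R + 1) * ε + ε)) := by gcongr
      _ = C * ε ^ 2 := by rw [hC]; ring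
  refine ⟨by rw [hρx]; linarith, ?_⟩
  rw [hρx]
  have a10 : C * ε ^ 2 ≤ C * ε ^ 2 * (P + 4 * Real.pi) :=
    le_mul_of_one_le_right a6 (by linarith [Real.pi_gt_three])
  have a11 : x * (P + 4 * Real.pi) = 2 * (Ar A 1 - Real.pi) + C * ε ^ 2 * (P + 4 * Real.pi) := by
    rw [hx, add_mul, hx1]
  nlinarith [mul_nonneg hpi.le (sq_nonneg x)]

end Rad

theorem sRad (hst : SST) (hpc : SPC) (hs : SSand) : SRad := by
  intro R
  rcases le_or_gt R 0 with hR | hR
  · refine ⟨1, 0, 1, one_pos, one_pos, fun Ω A B ε G hΩ _ _ hb => ?_⟩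
    obtain ⟨z, hz⟩ := hΩ.1
    have := hb hz
    rw [ball_eq_empty.2 hR] at this
    exact this.elim
  have hpi := Real.pi_pos
  obtain ⟨C, hC⟩ : ∃ C, C = 32 * Real.pi * R ^ 2 * ((R + 1) * (R + 2)) := ⟨_, rfl⟩
  have hC0 : 0 < C := by rw [hC]; positivity
  refine ⟨1 / (2 * Real.pi * (R + 1)), 2 * C,
    min (1 / (8 * R) / (R + 2)) (min (1 / (R + 2)) (1 / C)), by positivity, by positivity,
    fun Ω A B ε G hΩ hA hB hb h1 hε hε0 h2 h3 h4 h5 hG h6 => ?_⟩
  simp only [le_min_iff] at hε0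
  obtain ⟨e1, e2, e3⟩ := hε0
  rw [le_div_iff₀ (by positivity), mul_comm] at e1 e2 e3
  obtain ⟨a1, a2⟩ := Rad.one hst hpc hs hR hΩ hA hb h1 hε hC e1 e2 e3 h2 h3 rfl
  obtain ⟨b1, b2⟩ := Rad.one hst hpc hs hR hΩ hB hb h1 hε hC e1 e2 e3 h4 h5 rfl
  refine ⟨_, _, a1, b1, a2, b2, ?_⟩
  have hP0 := Rad.pp_nonneg Ω 1
  have hP1 := Rad.pp_le hpc hR.le hb zero_le_one
  have hD : 0 < Rad.pp Ω 1 + 4 * Real.pi := by positivity
  have c1 : 2 * (Ar A 1 - Real.pi) / (Rad.pp Ω 1 + 4 * Real.pi) +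
      2 * (Ar B 1 - Real.pi) / (Rad.pp Ω 1 + 4 * Real.pi) ≤
        -(2 * G / (Rad.pp Ω 1 + 4 * Real.pi)) := by
    rw [← add_div, ← neg_div]
    exact div_le_div_of_nonneg_right (by linarith) hD.le
  have c2 : 1 / (2 * Real.pi * (R + 1)) * G ≤ 2 * G / (Rad.pp Ω 1 + 4 * Real.pi) := by
    rw [one_div_mul_eq_div, div_le_div_iff₀ (by positivity) hD]
    nlinarith
  linarith

end Pool.Agent.MP_44cb5f_an

end MrgPart3

-- ======== part 4: formerly Pool.Agent.MP_44cb5f_an.Shear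
section MrgPart4

set_option autoImplicit false
open MeasureTheory Set Metric

namespace Pool.Agent.MP_44cb5f_an

namespace Shear

/-- The vertical shear. -/
noncomputable def Ph (W : ℂ → ℝ) (s : ℝ) (z : ℂ) : ℂ := z + ((s * W z : ℝ) : ℂ) * Complex.I

/-- The derivative of the shear. -/
noncomputable def DPh (D : ℂ →L[ℝ] ℝ) (s : ℝ) : ℂ →L[ℝ] ℂ :=
  ContinuousLinearMap.id ℝ ℂ + (s • D).smulRight Complex.I

theorem DPh_one (D : ℂ →L[ℝ] ℝ) (s : ℝ) : DPh D s 1 = (1 : ℂ) + (s * D 1) • Complex.I := by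
  simp [DPh]

theorem DPh_I (D : ℂ →L[ℝ] ℝ) (s : ℝ) :
    DPh D s Complex.I = (1 + s * D Complex.I) • Complex.I := by
  simp [DPh, add_mul]

theorem DPh_det (D : ℂ →L[ℝ] ℝ) (s : ℝ) : (DPh D s).det = 1 + s * D Complex.I := by
  rw [ContinuousLinearMap.det, ← LinearMap.det_toMatrix Complex.basisOneI, Matrix.det_fin_two]
  simp [LinearMap.toMatrix_apply, DPh_one, DPh_I]

variable {W : ℂ → ℝ} {K : NNReal} {s : ℝ}

theorem hasF {z : ℂ} (h : DifferentiableAt ℝ W z) (s : ℝ) :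
    HasFDerivAt (Ph W s) (DPh (fderiv ℝ W z) s) z := by
  have h1 := (hasFDerivAt_id z).add ((h.hasFDerivAt.const_smul s).smul_const Complex.I)
  refine h1.congr_of_eventuallyEq (Filter.Eventually.of_forall fun y => ?_)
  simp [Ph]

theorem move (hW : LipschitzWith K W) (hs : |s| * K ≤ 1 / 2) (a b : ℂ) :
    ‖((s * W a : ℝ) : ℂ) * Complex.I - ((s * W b : ℝ) : ℂ) * Complex.I‖ ≤ 1 / 2 * ‖a - b‖ := by
  have h1 := hW.dist_le_mul a b
  rw [Real.dist_eq, dist_eq_norm] at h1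
  rw [← sub_mul, norm_mul, Complex.norm_I, mul_one, ← Complex.ofReal_sub, Complex.norm_real,
    Real.norm_eq_abs, ← mul_sub, abs_mul]
  calc |s| * |W a - W b| ≤ |s| * (K * ‖a - b‖) := mul_le_mul_of_nonneg_left h1 (abs_nonneg _)
    _ = |s| * K * ‖a - b‖ := by ring
    _ ≤ _ := mul_le_mul_of_nonneg_right hs (norm_nonneg _)

theorem anti (hW : LipschitzWith K W) (hs : |s| * K ≤ 1 / 2) (a b : ℂ) :
    ‖a - b‖ ≤ 2 * ‖Ph W s a - Ph W s b‖ := by
  have h1 := move hW hs a b
  have h2 : a - b = (Ph W s a - Ph W s b) -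
      (((s * W a : ℝ) : ℂ) * Complex.I - ((s * W b : ℝ) : ℂ) * Complex.I) := by
    simp only [Ph]; ring
  have h3 := norm_sub_le (Ph W s a - Ph W s b)
    (((s * W a : ℝ) : ℂ) * Complex.I - ((s * W b : ℝ) : ℂ) * Complex.I)
  rw [← h2] at h3
  linarith

theorem lip (hW : LipschitzWith K W) (hs : |s| * K ≤ 1 / 2) : LipschitzWith 2 (Ph W s) := by
  refine LipschitzWith.of_dist_le_mul fun a b => ?_
  have h1 := move hW hs a b
  have h2 : Ph W s a - Ph W s b = (a - b) +
      (((s * W a : ℝ) : ℂ) * Complex.I - ((s * W b : ℝ) : ℂ) * Complex.I) := by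
    simp only [Ph]; ring
  have h3 := norm_add_le (a - b)
    (((s * W a : ℝ) : ℂ) * Complex.I - ((s * W b : ℝ) : ℂ) * Complex.I)
  rw [dist_eq_norm, dist_eq_norm, h2]
  have := norm_nonneg (a - b)
  push_cast at h1 h3 ⊢
  linarith

theorem inj (hW : LipschitzWith K W) (hs : |s| * K ≤ 1 / 2) : Function.Injective (Ph W s) := by
  intro a b h
  have h1 := anti hW hs a b
  rw [h, sub_self, norm_zero, mul_zero] at h1
  exact sub_eq_zero.1 (norm_le_zero_iff.1 h1)

theorem surj (hW : LipschitzWith K W) (hs : |s| * K ≤ 1 / 2) (w : ℂ) : ∃ z, Ph W s z = w := by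
  have h : ContractingWith (1 / 2) fun z => w - ((s * W z : ℝ) : ℂ) * Complex.I := by
    refine ⟨by norm_num, LipschitzWith.of_dist_le_mul fun a b => ?_⟩
    rw [dist_eq_norm, dist_eq_norm, sub_sub_sub_cancel_left, norm_sub_rev]
    simpa using move hW hs a b
  exact ⟨h.fixedPoint _, by
    have := h.fixedPoint_isFixedPt
    rw [Ph]
    exact (eq_sub_iff_add_eq.1 this.symm)⟩

theorem exists_inv (hW : LipschitzWith K W) (hs : |s| * K ≤ 1 / 2) :
    ∃ Ψ : ℂ → ℂ, LipschitzWith 2 Ψ ∧ (∀ w, Ph W s (Ψ w) = w) ∧ ∀ z, Ψ (Ph W s z) = z := by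
  choose Ψ h using surj hW hs
  refine ⟨Ψ, LipschitzWith.of_dist_le_mul fun a b => ?_, h, fun z => inj hW hs (h _)⟩
  have h1 := anti hW hs (Ψ a) (Ψ b)
  rw [h, h] at h1
  rw [dist_eq_norm, dist_eq_norm]
  exact_mod_cast h1

theorem null_image {f : ℂ → ℂ} {C : NNReal} (hf : LipschitzWith C f) {S : Set ℂ}
    (hS : volume S = 0) : volume (f '' S) = 0 := by
  have h1 : (μH[Module.finrank ℝ ℂ] : Measure ℂ) S = 0 :=
    Measure.absolutelyContinuous_isAddHaarMeasure _ volume hS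
  have h2 := hf.hausdorffMeasure_image_le (d := Module.finrank ℝ ℂ) (Nat.cast_nonneg _) S
  rw [h1, mul_zero, nonpos_iff_eq_zero] at h2
  exact Measure.absolutelyContinuous_isAddHaarMeasure volume _ h2

theorem small (hW : LipschitzWith K W) (hs : |s| * K ≤ 1 / 2) (z e : ℂ) (he : ‖e‖ = 1) :
    |s * fderiv ℝ W z e| ≤ 1 / 2 := by
  have h1 := (fderiv ℝ W z).le_opNorm e
  rw [he, mul_one, Real.norm_eq_abs] at h1
  rw [abs_mul]
  exact (mul_le_mul_of_nonneg_left (h1.trans (norm_fderiv_le_of_lipschitz ℝ hW))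
    (abs_nonneg _)).trans hs

theorem jac_pos (hW : LipschitzWith K W) (hs : |s| * K ≤ 1 / 2) (z : ℂ) :
    1 / 2 ≤ 1 + s * fderiv ℝ W z Complex.I := by
  linarith [(abs_le.1 (small hW hs z Complex.I Complex.norm_I)).1]

/-- Change of variables. -/
theorem change (hW : LipschitzWith K W) (hs : |s| * K ≤ 1 / 2) (g F : ℂ → ℝ)
    (h : ∀ z, DifferentiableAt ℝ W z → (1 + s * fderiv ℝ W z Complex.I) * g (Ph W s z) = F z) :
    ∫ w, g w = ∫ z, F z := by
  have hS := measurableSet_of_differentiableAt ℝ W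
  have h0 : ∀ᵐ z, z ∈ {z | DifferentiableAt ℝ W z} := hW.ae_differentiableAt
  have h1 := integral_image_eq_integral_abs_det_fderiv_smul volume hS
    (fun z hz => (hasF hz s).hasFDerivWithinAt) (inj hW hs).injOn g
  have h2 : ∀ᵐ w, w ∈ Ph W s '' {z | DifferentiableAt ℝ W z} := by
    refine measure_mono_null (fun w hw => ?_) (null_image (lip hW hs) h0)
    obtain ⟨z, rfl⟩ := surj hW hs w
    exact ⟨z, fun hz => hw ⟨z, hz, rfl⟩, rfl⟩
  rw [Measure.restrict_eq_self_of_ae_mem h2] at h1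
  rw [h1, setIntegral_congr_fun hS (g := F), Measure.restrict_eq_self_of_ae_mem h0]
  intro z hz
  beta_reduce
  rw [DPh_det, abs_of_nonneg (by linarith [jac_pos hW hs z]), smul_eq_mul, h z hz]

/-- The energy density after the shear. -/
noncomputable def en (s a b p q : ℝ) : ℝ :=
  (1 + s * q) * a ^ 2 - 2 * (s * p) * a * b + (1 + (s * p) ^ 2) * b ^ 2 / (1 + s * q)

noncomputable def eD (W u : ℂ → ℝ) (s : ℝ) (z : ℂ) : ℝ :=
  en s (fderiv ℝ u z 1) (fderiv ℝ u z Complex.I) (fderiv ℝ W z 1) (fderiv ℝ W z Complex.I)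

theorem one_side (h : SLam) {Ω A : Set ℂ} {u : ℂ → ℝ} (hA : IsOpen A) (hW : LipschitzWith K W)
    (hs : |s| * K ≤ 1 / 2) (hu : SF Ω u) (hm : ∀ z ∈ Ω, Ph W s z ∈ A) :
    lam1 A * ∫ z, (1 + s * fderiv ℝ W z Complex.I) * u z ^ 2 ≤ ∫ z, eD W u s z := by
  obtain ⟨Ψ, h1, h2, h3⟩ := exists_inv hW hs
  obtain ⟨⟨C, hC⟩, hc, hsub⟩ := hu.tf
  have hK : IsCompact (Ph W s '' tsupport u) := hc.isCompact.image (lip hW hs).continuous
  have hsup : Function.support (u ∘ Ψ) ⊆ Ph W s '' tsupport u :=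
    fun w hw => ⟨Ψ w, subset_tsupport u hw, h2 w⟩
  have hts : tsupport (u ∘ Ψ) ⊆ Ph W s '' tsupport u := closure_minimal hsup hK.isClosed
  have hv : TF A (u ∘ Ψ) := ⟨⟨_, hC.comp h1⟩, hK.of_isClosed_subset (isClosed_tsupport _) hts,
    hts.trans (by rintro _ ⟨z, hz, rfl⟩; exact hm z (hsub hz))⟩
  have h4 := h A _ hA hv
  rw [Ma, En, change hW hs _ (fun z => (1 + s * fderiv ℝ W z Complex.I) * u z ^ 2)
    (fun z _ => by simp only [Function.comp, h3]),
    change hW hs (fun w => ‖fderiv ℝ (u ∘ Ψ) w‖ ^ 2) (eD W u s)] at h4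
  · exact h4
  intro z hz
  have hj := jac_pos hW hs z
  have hd : (DPh (fderiv ℝ W z) s).det ≠ 0 := by rw [DPh_det]; linarith
  have hΨ : DifferentiableAt ℝ Ψ (Ph W s z) :=
    (HasFDerivAt.of_local_left_inverse (f := Ph W s)
      (f' := (DPh (fderiv ℝ W z) s).toContinuousLinearEquivOfDetNeZero hd)
      h1.continuous.continuousAt (by rw [h3]; exact hasF hz s)
      (Filter.Eventually.of_forall h2)).differentiableAt
  have hvd : DifferentiableAt ℝ (u ∘ Ψ) (Ph W s z) :=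
    (hu.contDiff_one.differentiable one_ne_zero _).comp _ hΨ
  have h5 := (hvd.hasFDerivAt.comp z (hasF hz s)).fderiv
  have h6 : (u ∘ Ψ) ∘ Ph W s = u := funext fun y => by simp only [Function.comp, h3]
  rw [h6] at h5
  rw [eD, h5, clm_norm_sq]
  simp only [ContinuousLinearMap.comp_apply, DPh_one, DPh_I, map_add, map_smul, smul_eq_mul, en]
  have hj0 : 1 + s * fderiv ℝ W z Complex.I ≠ 0 := by linarith
  field_simp
  ring

theorem en_nonneg {s a b p q : ℝ} (h : 0 < 1 + s * q) : 0 ≤ en s a b p q := by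
  have e : en s a b p q = (((1 + s * q) * a - s * p * b) ^ 2 + b ^ 2) / (1 + s * q) := by
    unfold en
    field_simp
    ring
  rw [e]
  positivity

theorem en_add {s a b p q : ℝ} (h : |s * q| ≤ 1 / 2) :
    en s a b p q + en (-s) a b p q ≤
      2 * (a ^ 2 + b ^ 2) + 4 * s ^ 2 * ((p ^ 2 + q ^ 2) * (a ^ 2 + b ^ 2)) := by
  obtain ⟨h1, h2⟩ := abs_le.1 h
  have h3 : 0 < 1 + s * q := by linarith
  have h4 : 0 < 1 - s * q := by linarith
  have h5 : (s * q) ^ 2 ≤ 1 / 4 := by nlinarith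
  have e : en s a b p q + en (-s) a b p q =
      2 * a ^ 2 + 2 * b ^ 2 * ((1 + (s * p) ^ 2) / (1 - (s * q) ^ 2)) := by
    have h6 : 1 - (s * q) ^ 2 = (1 + s * q) * (1 - s * q) := by ring
    have h7 : 1 + -s * q = 1 - s * q := by ring
    unfold en
    rw [h6, h7]
    field_simp
    ring
  have h8 : (1 + (s * p) ^ 2) / (1 - (s * q) ^ 2) ≤ 1 + 2 * ((s * p) ^ 2 + (s * q) ^ 2) := by
    rw [div_le_iff₀ (by linarith)]
    have h9 := mul_nonneg (add_nonneg (sq_nonneg (s * p)) (sq_nonneg (s * q)))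
      (show 0 ≤ 1 - 2 * (s * q) ^ 2 by linarith)
    nlinarith
  have h10 := mul_le_mul_of_nonneg_left h8 (show 0 ≤ 2 * b ^ 2 by positivity)
  have h11 : 0 ≤ s ^ 2 * ((p ^ 2 + q ^ 2) * a ^ 2) := by positivity
  rw [e]
  nlinarith

theorem eD_nonneg (hW : LipschitzWith K W) (hs : |s| * K ≤ 1 / 2) (u : ℂ → ℝ) (z : ℂ) :
    0 ≤ eD W u s z := en_nonneg (by linarith [jac_pos hW hs z])

theorem eD_add (hW : LipschitzWith K W) (hs : |s| * K ≤ 1 / 2) (u : ℂ → ℝ) (z : ℂ) :
    eD W u s z + eD W u (-s) z ≤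
      2 * ‖fderiv ℝ u z‖ ^ 2 + 4 * s ^ 2 * (‖fderiv ℝ W z‖ ^ 2 * ‖fderiv ℝ u z‖ ^ 2) := by
  rw [clm_norm_sq, clm_norm_sq]
  exact en_add (small hW hs z Complex.I Complex.norm_I)

theorem eD_meas (W u : ℂ → ℝ) (s : ℝ) : Measurable (eD W u s) := by
  unfold eD en
  fun_prop

theorem int_mul (hW : LipschitzWith K W) {F : ℂ → ℝ} (hF : Integrable F) :
    Integrable fun z => ‖fderiv ℝ W z‖ ^ 2 * F z :=
  hF.bdd_mul (c := (K : ℝ) ^ 2) ((measurable_fderiv ℝ W).norm.pow_const 2).aestronglyMeasurable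
    (Filter.Eventually.of_forall fun z => by
      rw [Real.norm_eq_abs, abs_of_nonneg (sq_nonneg _)]
      exact pow_le_pow_left₀ (norm_nonneg _) (norm_fderiv_le_of_lipschitz ℝ hW) 2)

theorem int_q (hW : LipschitzWith K W) {F : ℂ → ℝ} (hF : Integrable F) :
    Integrable fun z => fderiv ℝ W z Complex.I * F z :=
  hF.bdd_mul (c := (K : ℝ)) (measurable_fderiv_apply_const ℝ W _).aestronglyMeasurable
    (Filter.Eventually.of_forall fun z => by
      have h1 := (fderiv ℝ W z).le_opNorm Complex.I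
      rw [Complex.norm_I, mul_one] at h1
      exact h1.trans (norm_fderiv_le_of_lipschitz ℝ hW))

/-- Cauchy-Schwarz for the mass. -/
theorem cs (hW : LipschitzWith K W) {F : ℂ → ℝ} (hF : Integrable F) (h0 : ∀ z, 0 ≤ F z)
    (h1 : ∫ z, F z = 1) :
    (∫ z, fderiv ℝ W z Complex.I * F z) ^ 2 ≤ ∫ z, ‖fderiv ℝ W z‖ ^ 2 * F z := by
  set m := ∫ z, fderiv ℝ W z Complex.I * F z with hm
  have i1 := (int_q hW hF).const_mul (2 * m)
  have i2 := hF.const_mul (m ^ 2)
  have h2 : ∫ z, (2 * m * (fderiv ℝ W z Complex.I * F z) - m ^ 2 * F z) ≤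
      ∫ z, ‖fderiv ℝ W z‖ ^ 2 * F z := by
    refine integral_mono (i1.sub i2) (int_mul hW hF) fun z => ?_
    beta_reduce
    rw [clm_norm_sq]
    have h3 := mul_nonneg (add_nonneg (sq_nonneg (fderiv ℝ W z 1))
      (sq_nonneg (fderiv ℝ W z Complex.I - m))) (h0 z)
    nlinarith
  rw [integral_sub i1 i2, integral_const_mul, integral_const_mul, ← hm, h1] at h2
  linarith

end Shear

open Shear

theorem sShear (h : SLam) : SShear := by
  intro Ω A B W u K t hA hB hW ht htK hu hM hmA hmB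
  have hs : |t| * K ≤ 1 / 2 := by rwa [abs_of_nonneg ht]
  have hs' : |-t| * K ≤ 1 / 2 := by rwa [abs_neg]
  have p1 := one_side h hA hW hs hu hmA
  have p2 := one_side h hB hW hs' hu fun z hz => by
    have := hmB z hz
    rwa [Ph, neg_mul, Complex.ofReal_neg, neg_mul, ← sub_eq_add_neg]
  have iu := hu.tf.integrable_sq
  have ig := hu.tf.integrable_grad
  have hcs := cs hW iu (fun z => sq_nonneg _) hM
  have mass : ∀ s : ℝ, ∫ z, (1 + s * fderiv ℝ W z Complex.I) * u z ^ 2 =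
      1 + s * ∫ z, fderiv ℝ W z Complex.I * u z ^ 2 := by
    intro s
    simp only [add_mul, one_mul, mul_assoc]
    rw [integral_add iu ((int_q hW iu).const_mul s), integral_const_mul]
    exact congrArg (· + _) hM
  have n1 : 0 ≤ ∫ z, (1 + t * fderiv ℝ W z Complex.I) * u z ^ 2 :=
    integral_nonneg fun z => mul_nonneg (by linarith [jac_pos hW hs z]) (sq_nonneg _)
  have n2 : 0 ≤ ∫ z, (1 + -t * fderiv ℝ W z Complex.I) * u z ^ 2 :=
    integral_nonneg fun z => mul_nonneg (by linarith [jac_pos hW hs' z]) (sq_nonneg _)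
  rw [mass] at p1 p2 n1 n2
  have ib := (ig.const_mul 2).add ((int_mul hW ig).const_mul (4 * t ^ 2))
  have i1 : Integrable (eD W u t) :=
    ib.mono' (eD_meas W u t).aestronglyMeasurable (Filter.Eventually.of_forall fun z => by
      rw [Real.norm_eq_abs, abs_of_nonneg (eD_nonneg hW hs u z)]
      exact (le_add_of_nonneg_right (eD_nonneg hW hs' u z)).trans (eD_add hW hs u z))
  have i2 : Integrable (eD W u (-t)) :=
    ib.mono' (eD_meas W u (-t)).aestronglyMeasurable (Filter.Eventually.of_forall fun z => by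
      rw [Real.norm_eq_abs, abs_of_nonneg (eD_nonneg hW hs' u z)]
      exact (le_add_of_nonneg_left (eD_nonneg hW hs u z)).trans (eD_add hW hs u z))
  have hsum : ∫ z, (eD W u t z + eD W u (-t) z) ≤ ∫ z, (2 * ‖fderiv ℝ u z‖ ^ 2 +
      4 * t ^ 2 * (‖fderiv ℝ W z‖ ^ 2 * ‖fderiv ℝ u z‖ ^ 2)) :=
    integral_mono (i1.add i2) ib fun z => eD_add hW hs u z
  rw [integral_add i1 i2, integral_add (ig.const_mul 2) ((int_mul hW ig).const_mul _),
    integral_const_mul, integral_const_mul] at hsum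
  have e1 : 0 ≤ ∫ z, eD W u t z := integral_nonneg (eD_nonneg hW hs u)
  have e2 : 0 ≤ ∫ z, eD W u (-t) z := integral_nonneg (eD_nonneg hW hs' u)
  have l1 := lam1_nonneg A
  have l2 := lam1_nonneg B
  unfold En
  generalize ∫ z, fderiv ℝ W z Complex.I * u z ^ 2 = m at *
  generalize ∫ z, ‖fderiv ℝ W z‖ ^ 2 * u z ^ 2 = D at *
  generalize ∫ z, eD W u t z = E1 at *
  generalize ∫ z, eD W u (-t) z = E2 at *
  calc lam1 A * lam1 B * (1 - t ^ 2 * D) ≤ lam1 A * lam1 B * (1 - t ^ 2 * m ^ 2) :=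
        mul_le_mul_of_nonneg_left
          (by linarith [mul_le_mul_of_nonneg_left hcs (sq_nonneg t)]) (mul_nonneg l1 l2)
    _ = lam1 A * (1 + t * m) * (lam1 B * (1 + -t * m)) := by ring
    _ ≤ E1 * E2 := mul_le_mul p1 p2 (mul_nonneg l2 n2) e1
    _ ≤ ((E1 + E2) / 2) ^ 2 := by nlinarith [sq_nonneg (E1 - E2)]
    _ ≤ _ := pow_le_pow_left₀ (by linarith) (by linarith) 2

end Pool.Agent.MP_44cb5f_an

end MrgPart4

-- ======== part 5: formerly Pool.Agent.MP_44cb5f_an.St
section MrgPart5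

set_option autoImplicit false
open MeasureTheory Set Metric Filter Topology
open scoped Pointwise

namespace Pool.Agent.MP_44cb5f_an

namespace St

/-- The distance to the complement has a gradient of norm one inside the set. -/
theorem grad_one {Ω : Set ℂ} (h : Adm Ω) {z : ℂ} (hz : 0 < dep Ω z)
    (hd : DifferentiableAt ℝ (dep Ω) z) : ‖fderiv ℝ (dep Ω) z‖ = 1 := by
  refine le_antisymm (by simpa using norm_fderiv_le_of_lipschitz ℝ (dep_lip Ω)) ?_
  obtain ⟨w, hw, e⟩ := h.2.2.1.isClosed_compl.exists_infDist_eq_dist (compl_nonempty h.2.1) z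
  have e1 : dep Ω z = ‖w - z‖ := by rw [dep, e, dist_comm, dist_eq_norm]
  have h1 : HasDerivAt (fun t : ℝ => z + t • (w - z)) (w - z) 0 := by
    simpa using ((hasDerivAt_id (0 : ℝ)).smul_const (w - z)).const_add z
  have h2 : HasDerivAt (fun t : ℝ => dep Ω (z + t • (w - z)) + t * ‖w - z‖)
      (fderiv ℝ (dep Ω) z (w - z) + ‖w - z‖) 0 := by
    have h3 : HasFDerivAt (dep Ω) (fderiv ℝ (dep Ω) z) (z + (0 : ℝ) • (w - z)) := by
      simpa using hd.hasFDerivAt
    have h4 := h3.comp_hasDerivAt (0 : ℝ) h1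
    have h5 : HasDerivAt (fun t : ℝ => t * ‖w - z‖) ‖w - z‖ 0 := by
      simpa using (hasDerivAt_id (0 : ℝ)).mul_const ‖w - z‖
    exact h4.add h5
  have h3 : IsLocalMax (fun t : ℝ => dep Ω (z + t • (w - z)) + t * ‖w - z‖) 0 := by
    filter_upwards [Iio_mem_nhds (zero_lt_one' ℝ)] with t ht
    have h4 : dep Ω (z + t • (w - z)) ≤ dist (z + t • (w - z)) w := infDist_le_dist_of_mem hw
    have h5 : dist (z + t • (w - z)) w = (1 - t) * ‖w - z‖ := by
      rw [dist_comm, dist_eq_norm, show w - (z + t • (w - z)) = (1 - t) • (w - z) by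
        rw [sub_smul, one_smul]; abel, norm_smul, Real.norm_eq_abs,
        abs_of_pos (sub_pos.2 (mem_Iio.1 ht))]
    simp only [zero_smul, add_zero, zero_mul]
    rw [e1]
    linarith
  have h4 := h3.hasDerivAt_eq_zero h2
  have h5 := (fderiv ℝ (dep Ω) z).le_opNorm (w - z)
  have h6 : fderiv ℝ (dep Ω) z (w - z) = -‖w - z‖ := by linarith
  rw [h6, norm_neg, norm_norm] at h5
  rw [e1] at hz
  nlinarith

theorem ge_convex {Ω : Set ℂ} (h : Adm Ω) {b : ℝ} (hb : 0 < b) : Convex ℝ {z | b ≤ dep Ω z} := by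
  have e : {z | b ≤ dep Ω z} = {x | x ∈ Ω ∧ b ≤ dep Ω x} :=
    Set.ext fun z => ⟨fun hz => ⟨mem_of_dep_pos (hb.trans_le hz), hz⟩, fun hz => hz.2⟩
  rw [e]; exact (dep_concave h).convex_ge b

/-- Positive level sets of the distance are null. -/
theorem level_null {Ω : Set ℂ} (h : Adm Ω) {b : ℝ} (hb : 0 < b) : ∀ᵐ z : ℂ, dep Ω z ≠ b := by
  have h1 : ∀ᵐ z : ℂ, z ∉ frontier {z | b ≤ dep Ω z} :=
    measure_eq_zero_iff_ae_notMem.1 ((ge_convex h hb).addHaar_frontier volume)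
  filter_upwards [h1, (dep_lip Ω).ae_differentiableAt] with z hz hd e
  refine hz ⟨subset_closure e.ge, fun hi => ?_⟩
  have h2 : IsLocalMin (dep Ω) z := by
    filter_upwards [mem_interior_iff_mem_nhds.1 hi] with y hy
    exact e.le.trans hy
  have h3 := grad_one h (hb.trans_eq e.symm) hd
  rw [h2.fderiv_eq_zero] at h3
  simp at h3

/-- The distance function cut at the levels `a` and `b`. -/
noncomputable def cl (Ω : Set ℂ) (a b : ℝ) (z : ℂ) : ℝ := min (max (dep Ω z) a) b - a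

theorem cl_lip (Ω : Set ℂ) (a b : ℝ) : LipschitzWith 1 (cl Ω a b) := by
  have h := ((dep_lip Ω).max_const a).min_const b
  refine LipschitzWith.of_dist_le_mul fun x y => ?_
  have := h.dist_le_mul x y
  rwa [cl, cl, dist_sub_right]

theorem cl_nonneg (Ω : Set ℂ) {a b : ℝ} (hab : a ≤ b) (z : ℂ) : 0 ≤ cl Ω a b z :=
  sub_nonneg.2 (le_min (le_max_right _ _) hab)

theorem cl_le (Ω : Set ℂ) (a b : ℝ) (z : ℂ) : cl Ω a b z ≤ b - a :=
  sub_le_sub_right (min_le_right _ _) a

theorem cl_zero {Ω : Set ℂ} {a b : ℝ} (hab : a ≤ b) {z : ℂ} (hz : dep Ω z ≤ a) :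
    cl Ω a b z = 0 := by
  rw [cl, max_eq_right hz, min_eq_left hab, sub_self]

theorem cl_supp {Ω : Set ℂ} (h : Adm Ω) {a b : ℝ} (ha : 0 ≤ a) (hab : a ≤ b) :
    HasCompactSupport (cl Ω a b) := by
  refine HasCompactSupport.intro h.2.1.isCompact_closure fun z hz => cl_zero hab ?_
  rw [dep_of_not_mem fun h' => hz (subset_closure h')]
  exact ha

theorem cl_level (Ω : Set ℂ) {a b τ : ℝ} (h0 : 0 ≤ τ) (h1 : τ < b - a) :
    {z | τ < cl Ω a b z} = In Ω (a + τ) := by
  ext z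
  simp only [cl, In, mem_ofPred_eq, lt_sub_iff_add_lt, lt_min_iff, lt_max_iff]
  constructor
  · rintro ⟨h | h, -⟩ <;> linarith
  · exact fun h => ⟨Or.inl (by linarith), by linarith⟩

theorem cl_empty (Ω : Set ℂ) {a b τ : ℝ} (h1 : b - a ≤ τ) : {z | τ < cl Ω a b z} = ∅ :=
  eq_empty_of_forall_notMem fun z hz => absurd ((cl_le Ω a b z).trans h1) (not_le.2 hz)

theorem cl_convex {Ω : Set ℂ} (h : Adm Ω) {a b : ℝ} (ha : 0 ≤ a) (hab : a ≤ b) (τ : ℝ) :
    Convex ℝ {z | τ < cl Ω a b z} := by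
  rcases lt_or_ge τ 0 with h0 | h0
  · rw [show {z | τ < cl Ω a b z} = univ from
      eq_univ_of_forall fun z => h0.trans_le (cl_nonneg Ω hab z)]
    exact convex_univ
  rcases lt_or_ge τ (b - a) with h1 | h1
  · rw [cl_level Ω h0 h1]; exact In_convex h (add_nonneg ha h0)
  · rw [cl_empty Ω h1]; exact convex_empty

theorem cl_coarea (hq : SQC) {Ω : Set ℂ} (h : Adm Ω) {a b : ℝ} (ha : 0 ≤ a) (hab : a ≤ b) :
    2 * ∫⁻ z, ‖fderiv ℝ (cl Ω a b) z‖ₑ = ∫⁻ s in Ioo a b, PC (In Ω s) := by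
  rw [hq _ 1 (cl_lip Ω a b) (cl_supp h ha hab) (cl_nonneg Ω hab) (cl_convex h ha hab),
    ← lintegral_indicator measurableSet_Ioi, ← lintegral_indicator measurableSet_Ioo,
    ← lintegral_add_left_eq_self (fun s => (Ioo a b).indicator (fun s => PC (In Ω s)) s) a]
  refine lintegral_congr fun τ => ?_
  by_cases h0 : τ ∈ Ioi (0 : ℝ)
  · rw [indicator_of_mem h0]
    rcases lt_or_ge τ (b - a) with h1 | h1
    · rw [cl_level Ω (le_of_lt h0) h1,
        indicator_of_mem (show a + τ ∈ Ioo a b from ⟨by linarith [mem_Ioi.1 h0], by linarith⟩)]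
    · rw [cl_empty Ω h1, indicator_of_notMem fun h2 => by linarith [h2.2]]
      simp [PC]
  · rw [indicator_of_notMem h0, indicator_of_notMem fun h2 => h0 (by
      have := h2.1; rw [mem_Ioi]; linarith)]

theorem cl_grad {Ω : Set ℂ} (h : Adm Ω) {a b : ℝ} (ha : 0 ≤ a) (hab : a < b) :
    ∫⁻ z, ‖fderiv ℝ (cl Ω a b) z‖ₑ = volume (In Ω a \ In Ω b) := by
  rw [← lintegral_indicator_one ((In_open Ω a).measurableSet.diff (In_open Ω b).measurableSet)]
  refine lintegral_congr_ae ?_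
  filter_upwards [level_null h (ha.trans_lt hab), (dep_lip Ω).ae_differentiableAt] with z hz hd
  rcases le_or_gt (dep Ω z) a with h1 | h1
  · have h2 : IsLocalMin (cl Ω a b) z := Eventually.of_forall fun y => by
      rw [cl_zero hab.le h1]; exact cl_nonneg Ω hab.le y
    rw [h2.fderiv_eq_zero, indicator_of_notMem fun h3 => absurd h1 (not_le.2 h3.1),
      ← ofReal_norm, norm_zero, ENNReal.ofReal_zero]
  rcases le_or_gt b (dep Ω z) with h2 | h2
  · have h3 : IsLocalMax (cl Ω a b) z := Eventually.of_forall fun y => by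
      rw [show cl Ω a b z = b - a by rw [cl, max_eq_left h1.le, min_eq_right h2]]
      exact cl_le Ω a b y
    rw [h3.fderiv_eq_zero, indicator_of_notMem fun h4 => h4.2 (lt_of_le_of_ne h2 hz.symm),
      ← ofReal_norm, norm_zero, ENNReal.ofReal_zero]
  · have h3 : cl Ω a b =ᶠ[𝓝 z] fun y => dep Ω y - a := by
      filter_upwards [(dep_lip Ω).continuous.continuousAt.eventually (Ioo_mem_nhds h1 h2)]
        with y hy
      rw [cl, max_eq_left hy.1.le, min_eq_left hy.2.le]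
    rw [h3.fderiv_eq, fderiv_sub_const, indicator_of_mem (show z ∈ In Ω a \ In Ω b from
      ⟨h1, fun h4 => absurd h2 (not_lt.2 (le_of_lt h4))⟩), ← ofReal_norm,
      grad_one h (ha.trans_lt h1) hd]
    simp

theorem lip_mul {f g : ℂ → ℝ} {A B : NNReal} {a b : ℝ} (hf : LipschitzWith A f)
    (hg : LipschitzWith B g) (ha : ∀ z, |f z| ≤ a) (hb : ∀ z, |g z| ≤ b) :
    ∃ C, LipschitzWith C fun z => f z * g z := by
  refine ⟨(a * B + b * A).toNNReal, LipschitzWith.of_dist_le_mul fun x y => ?_⟩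
  have h1 := hf.dist_le_mul x y
  have h2 := hg.dist_le_mul x y
  rw [Real.dist_eq] at h1 h2 ⊢
  have e : f x * g x - f y * g y = f x * (g x - g y) + g y * (f x - f y) := by ring
  have ha0 : 0 ≤ a := (abs_nonneg _).trans (ha x)
  have hb0 : 0 ≤ b := (abs_nonneg _).trans (hb x)
  rw [e, Real.coe_toNNReal _ (by positivity)]
  calc _ ≤ |f x| * |g x - g y| + |g y| * |f x - f y| := by
        rw [← abs_mul, ← abs_mul]; exact abs_add_le _ _
    _ ≤ a * (B * dist x y) + b * (A * dist x y) := by gcongr <;> first | exact ha _ | exact hb _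
    _ = _ := by ring

theorem int_fderiv {G : ℂ → ℝ} {C : NNReal} (hG : LipschitzWith C G) (hc : HasCompactSupport G)
    (v : ℂ) : Integrable fun z => fderiv ℝ G z v := by
  refine integrable_of_bdd hc (measurable_fderiv_apply_const ℝ G v).aestronglyMeasurable
    (C := C * ‖v‖) (fun z _ => ?_) (fun z hz => ?_)
  · rw [← Real.norm_eq_abs]
    exact ((fderiv ℝ G z).le_opNorm v).trans
      (mul_le_mul_of_nonneg_right (norm_fderiv_le_of_lipschitz ℝ hG) (norm_nonneg _))
  · have : fderiv ℝ G z = 0 := by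
      by_contra h
      exact hz (support_fderiv_subset ℝ h)
    simp [this]

theorem int_norm {G : ℂ → ℝ} {C : NNReal} (hG : LipschitzWith C G) (hc : HasCompactSupport G) :
    Integrable fun z => ‖fderiv ℝ G z‖ := by
  refine integrable_of_bdd hc (measurable_fderiv ℝ G).norm.aestronglyMeasurable
    (C := C) (fun z _ => ?_) (fun z hz => ?_)
  · rw [abs_norm]; exact norm_fderiv_le_of_lipschitz ℝ hG
  · have : fderiv ℝ G z = 0 := by
      by_contra h
      exact hz (support_fderiv_subset ℝ h)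
    simp [this]

theorem dvg_cont {φ : ℂ → ℂ} (h : ContDiff ℝ 1 φ) : Continuous (dvg φ) := by
  have := h.continuous_fderiv one_ne_zero
  unfold dvg
  fun_prop

theorem dvg_supp {φ : ℂ → ℂ} (h : HasCompactSupport φ) : HasCompactSupport (dvg φ) := by
  refine HasCompactSupport.intro h fun z hz => ?_
  have : fderiv ℝ φ z = 0 := by
    by_contra h
    exact hz (support_fderiv_subset ℝ h)
  simp [dvg, this]

/-- Integration by parts against a test field. -/
theorem parts (hd : SDiv) {u : ℂ → ℝ} {C : NNReal} {a : ℝ} (hu : LipschitzWith C u)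
    (hc : HasCompactSupport u) (ha : ∀ z, |u z| ≤ a) {φ : ℂ → ℂ} (h1 : ContDiff ℝ 1 φ)
    (h2 : HasCompactSupport φ) (h3 : ∀ z, ‖φ z‖ ≤ 1) :
    ∫ z, u z * dvg φ z ≤ ∫ z, ‖fderiv ℝ u z‖ := by
  obtain ⟨K, hK⟩ := h1.lipschitzWith_of_hasCompactSupport h2 one_ne_zero
  obtain ⟨A, hA⟩ := lip_mul hu (Complex.reCLM.lipschitz.comp hK) ha
    fun z => (Complex.abs_re_le_norm _).trans (h3 z)
  obtain ⟨B, hB⟩ := lip_mul hu (Complex.imCLM.lipschitz.comp hK) ha
    fun z => (Complex.abs_im_le_norm _).trans (h3 z)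
  have cA : HasCompactSupport fun z => u z * (Complex.reCLM ∘ φ) z := hc.mul_right
  have cB : HasCompactSupport fun z => u z * (Complex.imCLM ∘ φ) z := hc.mul_right
  have iA := int_fderiv hA cA 1
  have iB := int_fderiv hB cB Complex.I
  have e : ∫ z, ‖fderiv ℝ u z‖ = ∫ z, (fderiv ℝ (fun z => u z * (Complex.reCLM ∘ φ) z) z 1 +
      fderiv ℝ (fun z => u z * (Complex.imCLM ∘ φ) z) z Complex.I + ‖fderiv ℝ u z‖) := by
    have iC : Integrable fun z => fderiv ℝ (fun z => u z * (Complex.reCLM ∘ φ) z) z 1 +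
      fderiv ℝ (fun z => u z * (Complex.imCLM ∘ φ) z) z Complex.I := iA.add iB
    rw [integral_add iC (int_norm hu hc), integral_add iA iB, hd _ _ hA cA, hd _ _ hB cB]
    simp
  rw [e]
  refine integral_mono_ae ((hu.continuous.mul (dvg_cont h1)).integrable_of_hasCompactSupport
    hc.mul_right) ((iA.add iB).add (int_norm hu hc)) ?_
  filter_upwards [hu.ae_differentiableAt] with z hz
  have hφ : HasFDerivAt φ (fderiv ℝ φ z) z := (h1.differentiable one_ne_zero z).hasFDerivAt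
  rw [(hz.hasFDerivAt.fun_mul (Complex.reCLM.hasFDerivAt.comp z hφ)).fderiv,
    (hz.hasFDerivAt.fun_mul (Complex.imCLM.hasFDerivAt.comp z hφ)).fderiv]
  have h4 := (fderiv ℝ u z).le_opNorm (φ z)
  have h5 := clm_apply (fderiv ℝ u z) (φ z)
  have h6 : ‖fderiv ℝ u z‖ * ‖φ z‖ ≤ ‖fderiv ℝ u z‖ := mul_le_of_le_one_right (norm_nonneg _) (h3 z)
  have h7 := neg_abs_le (fderiv ℝ u z (φ z))
  rw [Real.norm_eq_abs] at h4
  simp only [dot] at h5
  simp [dvg]
  nlinarith

end St

open St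

theorem sST (h : SQC) : SST := by
  intro Ω a b hΩ ha hab
  rcases hab.eq_or_lt with rfl | hlt
  · simp
  rw [← cl_coarea h hΩ ha hab, cl_grad hΩ ha hlt, ← mul_add,
    ← measure_inter_add_sdiff (In Ω a) (In_open Ω b).measurableSet,
    inter_eq_self_of_subset_right (In_anti Ω hab)]

theorem sPer (hd : SDiv) (h : SQC) : SPer := by
  intro C hC
  rw [per, ENNReal.mul_iSup]
  refine iSup_le ?_
  rintro ⟨φ, h1, h2, h3⟩
  have key : ∀ e : ℝ, 0 < e → 2 * ENNReal.ofReal (∫ z, cl C 0 e z / e * dvg φ z) ≤ PC C := by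
    intro e he
    have h4 := parts hd (cl_lip C 0 e) (cl_supp hC le_rfl he.le) (a := e - 0)
      (fun z => by rw [abs_of_nonneg (cl_nonneg C he.le z)]; exact cl_le C 0 e z) h1 h2 h3
    have h5 := cl_coarea h hC le_rfl he.le
    have h6 : ∫⁻ s in Ioo 0 e, PC (In C s) ≤ ENNReal.ofReal e * PC C := by
      calc _ ≤ ∫⁻ _ in Ioo 0 e, PC C :=
            setLIntegral_mono' measurableSet_Ioo fun s hs => PC_mono (In_subset C hs.1.le)
        _ = _ := by simp [mul_comm]
    have h7 : ∫ z, cl C 0 e z * dvg φ z = e * ∫ z, cl C 0 e z / e * dvg φ z := by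
      rw [← integral_const_mul]
      refine integral_congr_ae (Eventually.of_forall fun z => ?_)
      field_simp
    have h8 : ENNReal.ofReal (∫ z, ‖fderiv ℝ (cl C 0 e) z‖) = ∫⁻ z, ‖fderiv ℝ (cl C 0 e) z‖ₑ := by
      rw [ofReal_integral_eq_lintegral_ofReal (int_norm (cl_lip C 0 e) (cl_supp hC le_rfl he.le))
        (Eventually.of_forall fun z => norm_nonneg _)]
      simp
    rw [← ENNReal.mul_le_mul_iff_right (ENNReal.ofReal_pos.2 he).ne' ENNReal.ofReal_ne_top,
      mul_left_comm, ← ENNReal.ofReal_mul he.le, ← h7]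
    refine le_trans ?_ h6
    rw [← h5, ← h8]
    gcongr
  have lim : Tendsto (fun n : ℕ => ∫ z, cl C 0 (1 / (n + 1)) z / (1 / (n + 1)) * dvg φ z) atTop
      (𝓝 (∫ z in C, dvg φ z)) := by
    rw [← integral_indicator hC.2.2.1.measurableSet]
    refine tendsto_integral_of_dominated_convergence (fun z => ‖dvg φ z‖)
      (fun n => (((cl_lip C 0 _).continuous.div_const _).mul (dvg_cont h1)).aestronglyMeasurable)
      ((dvg_cont h1).integrable_of_hasCompactSupport (dvg_supp h2)).norm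
      (fun n => Eventually.of_forall fun z => ?_) (Eventually.of_forall fun z => ?_)
    · have he : (0 : ℝ) < 1 / (n + 1) := by positivity
      rw [norm_mul]
      refine mul_le_of_le_one_left (norm_nonneg _) ?_
      rw [Real.norm_eq_abs, abs_of_nonneg (div_nonneg (cl_nonneg C he.le z) he.le), div_le_one he]
      simpa using cl_le C 0 (1 / (n + 1)) z
    · by_cases hz : z ∈ C
      · rw [indicator_of_mem hz]
        refine tendsto_const_nhds.congr' ?_
        filter_upwards [tendsto_one_div_add_atTop_nhds_zero_nat.eventually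
          (Iio_mem_nhds (dep_pos hC hz))] with n hn
        have he : (0 : ℝ) < 1 / (n + 1) := by positivity
        rw [cl, max_eq_left (dep_nonneg C z), min_eq_right (le_of_lt hn), sub_zero,
          div_self he.ne', one_mul]
      · rw [indicator_of_notMem hz]
        refine tendsto_const_nhds.congr fun n => ?_
        have he : (0 : ℝ) < 1 / (n + 1) := by positivity
        rw [cl_zero he.le (dep_of_not_mem hz).le]
        simp
  refine le_of_tendsto' (ENNReal.Tendsto.const_mul (a := 2)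
    ((ENNReal.continuous_ofReal.tendsto _).comp lim) (Or.inr (by simp))) fun n => ?_
  exact key _ (by positivity)

end Pool.Agent.MP_44cb5f_an

end MrgPart5

-- ======== part 6: formerly Pool.Agent.MP_44cb5f_an.Strict
section MrgPart6

set_option autoImplicit false
open MeasureTheory Set Metric Filter Topology

namespace Pool.Agent.MP_44cb5f_an

namespace Strict

lemma abs_grad {u : ℂ → ℝ} (hu : Continuous u) (z : ℂ) :
    ‖fderiv ℝ (fun z => |u z|) z‖ ≤ ‖fderiv ℝ u z‖ := by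
  rcases lt_trichotomy (u z) 0 with h | h | h
  · have e : (fun z => |u z|) =ᶠ[𝓝 z] fun z => -u z :=
      (hu.continuousAt.eventually_lt continuousAt_const h).mono fun y hy => abs_of_neg hy
    rw [e.fderiv_eq, fderiv_fun_neg, norm_neg]
  · have e : IsLocalMin (fun z => |u z|) z :=
      Eventually.of_forall fun y => by simp only [h, abs_zero, abs_nonneg]
    rw [e.fderiv_eq_zero, norm_zero]
    exact norm_nonneg _
  · have e : (fun z => |u z|) =ᶠ[𝓝 z] u :=
      (continuousAt_const.eventually_lt hu.continuousAt h).mono fun y hy => abs_of_pos hy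
    rw [e.fderiv_eq]

lemma tf_abs {Ω : Set ℂ} {u : ℂ → ℝ} (h : TF Ω u) : TF Ω fun z => |u z| := by
  obtain ⟨⟨C, hC⟩, h2, h3⟩ := h
  exact ⟨⟨_, lipschitzWith_one_norm.comp hC⟩, h2.comp_left (g := fun x : ℝ => |x|) abs_zero,
    (closure_mono (Function.support_comp_subset (g := fun x : ℝ => |x|) abs_zero u)).trans h3⟩

lemma ibp {Ω : Set ℂ} {v g : ℂ → ℝ} (hv : TF Ω v) (hg : ContDiff ℝ 1 g)
    (hc : HasCompactSupport g) (e : ℂ) :
    ∫ z, fderiv ℝ v z e * g z = -∫ z, lineDeriv ℝ g z e * v z := by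
  obtain ⟨C, hC⟩ := hv.1
  obtain ⟨D, hD⟩ := hg.lipschitzWith_of_hasCompactSupport hc one_ne_zero
  have h1 := hC.integral_lineDeriv_mul_eq (μ := volume) hD hc e
  simp only [lineDeriv_neg, neg_mul, integral_neg] at h1
  rw [← h1]
  refine integral_congr_ae ((hC.ae_differentiableAt (μ := volume)).mono fun z hz => ?_)
  simp only [hz.lineDeriv_eq_fderiv]

noncomputable def F1 (x : ℝ) : ℝ := x⁻¹ ^ 2 * expNegInvGlue x

noncomputable def F2 (x : ℝ) : ℝ := x⁻¹ ^ 2 * (x⁻¹ ^ 2 - 2 * x⁻¹) * expNegInvGlue x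

lemma d0 (x : ℝ) : HasDerivAt expNegInvGlue (F1 x) x := by
  simpa [F1] using expNegInvGlue.hasDerivAt_polynomial_eval_inv_mul 1 x

lemma d1 (x : ℝ) : HasDerivAt F1 (F2 x) x := by
  have := expNegInvGlue.hasDerivAt_polynomial_eval_inv_mul (Polynomial.X ^ 2) x
  simp only [Polynomial.eval_pow, Polynomial.eval_X, Polynomial.eval_mul, Polynomial.eval_sub,
    Polynomial.derivative_X_sq, Polynomial.eval_C] at this
  exact this

lemma c1 : ContDiff ℝ 1 F1 := by
  have := expNegInvGlue.contDiff_polynomial_eval_inv_mul (n := 1) (Polynomial.X ^ 2)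
  simp only [Polynomial.eval_pow, Polynomial.eval_X] at this
  exact this

lemma c2 : Continuous F2 := by
  have := expNegInvGlue.continuous_polynomial_eval_inv_mul
    (Polynomial.X ^ 2 * (Polynomial.X ^ 2 - Polynomial.C 2 * Polynomial.X))
  simp only [Polynomial.eval_pow, Polynomial.eval_X, Polynomial.eval_mul, Polynomial.eval_sub,
    Polynomial.eval_C] at this
  exact this

/-- the argument of the barrier -/
noncomputable def qq (x0 : ℂ) (ε R : ℝ) (z : ℂ) : ℝ := ε * (R ^ 2 - dot (z - x0) (z - x0))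

lemma dot_smooth (x0 e : ℂ) : ContDiff ℝ 1 fun z : ℂ => dot (z - x0) e := by
  have h1 : ContDiff ℝ 1 fun z : ℂ => (z - x0).re :=
    Complex.reCLM.contDiff.comp (contDiff_id.sub contDiff_const)
  have h2 : ContDiff ℝ 1 fun z : ℂ => (z - x0).im :=
    Complex.imCLM.contDiff.comp (contDiff_id.sub contDiff_const)
  exact (h1.mul contDiff_const).add (h2.mul contDiff_const)

lemma qq_smooth (x0 : ℂ) (ε R : ℝ) : ContDiff ℝ 1 (qq x0 ε R) := by
  have h1 : ContDiff ℝ 1 fun z : ℂ => (z - x0).re :=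
    Complex.reCLM.contDiff.comp (contDiff_id.sub contDiff_const)
  have h2 : ContDiff ℝ 1 fun z : ℂ => (z - x0).im :=
    Complex.imCLM.contDiff.comp (contDiff_id.sub contDiff_const)
  exact contDiff_const.mul (contDiff_const.sub ((h1.mul h1).add (h2.mul h2)))

lemma dot_line (x0 z : ℂ) {e : ℂ} (he : dot e e = 1) :
    HasDerivAt (fun t : ℝ => dot (z + t • e - x0) e) 1 0 := by
  have : (fun t : ℝ => dot (z + t • e - x0) e) = fun t => dot (z - x0) e + t := by
    funext t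
    simp only [dot, Complex.sub_re, Complex.add_re, Complex.sub_im, Complex.add_im,
      Complex.smul_re, Complex.smul_im, smul_eq_mul] at he ⊢
    linear_combination t * he
  rw [this]
  exact (hasDerivAt_id' _).const_add _

lemma qq_line (x0 : ℂ) (ε R : ℝ) (z : ℂ) {e : ℂ} (he : dot e e = 1) :
    HasDerivAt (fun t : ℝ => qq x0 ε R (z + t • e)) (-2 * ε * dot (z - x0) e) 0 := by
  have : (fun t : ℝ => qq x0 ε R (z + t • e)) =
      fun t => qq x0 ε R z + (-2 * ε * dot (z - x0) e * t - ε * (t * t)) := by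
    funext t
    simp only [qq, dot, Complex.sub_re, Complex.add_re, Complex.sub_im, Complex.add_im,
      Complex.smul_re, Complex.smul_im, smul_eq_mul] at he ⊢
    linear_combination (-ε * t ^ 2) * he
  rw [this]
  simpa using ((((hasDerivAt_id' (0 : ℝ)).const_mul (-2 * ε * dot (z - x0) e)).sub
    (((hasDerivAt_id' (0 : ℝ)).mul (hasDerivAt_id' 0)).const_mul ε)).const_add (qq x0 ε R z))

lemma qq_out {x0 : ℂ} {ε R : ℝ} (hε : 0 < ε) (hR : 0 ≤ R) {z : ℂ} (hz : z ∉ closedBall x0 R) :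
    expNegInvGlue (qq x0 ε R z) = 0 := by
  rw [mem_closedBall, dist_eq_norm, not_le] at hz
  refine expNegInvGlue.zero_of_nonpos (mul_nonpos_of_nonneg_of_nonpos hε.le ?_)
  rw [dot_self]
  nlinarith

/-- integration by parts against the barrier in one direction -/
lemma bar_dir {Ω : Set ℂ} {v : ℂ → ℝ} (hv : TF Ω v) (x0 : ℂ) {ε R : ℝ} (hε : 0 < ε) (hR : 0 ≤ R)
    {e : ℂ} (he : dot e e = 1) :
    Integrable (fun z => fderiv ℝ v z e * fderiv ℝ (fun z => expNegInvGlue (qq x0 ε R z)) z e) ∧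
    ∫ z, fderiv ℝ v z e * fderiv ℝ (fun z => expNegInvGlue (qq x0 ε R z)) z e =
      -∫ z, (F2 (qq x0 ε R z) * (4 * ε ^ 2 * dot (z - x0) e ^ 2) - 2 * ε * F1 (qq x0 ε R z)) *
        v z := by
  have s0 : ContDiff ℝ 1 fun z => expNegInvGlue (qq x0 ε R z) :=
    (expNegInvGlue.contDiff (n := 1)).comp (qq_smooth x0 ε R)
  have e1 : ∀ z, fderiv ℝ (fun z => expNegInvGlue (qq x0 ε R z)) z e =
      F1 (qq x0 ε R z) * (-2 * ε * dot (z - x0) e) := fun z => by
    rw [← (s0.differentiable one_ne_zero z).lineDeriv_eq_fderiv]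
    refine HasLineDerivAt.lineDeriv ?_
    have := (d0 (qq x0 ε R (z + (0 : ℝ) • e))).comp (0 : ℝ) (qq_line x0 ε R z he)
    rw [zero_smul, add_zero] at this
    exact this
  have s1 : ContDiff ℝ 1 fun z => F1 (qq x0 ε R z) * (-2 * ε * dot (z - x0) e) :=
    (c1.comp (qq_smooth x0 ε R)).mul (contDiff_const.mul (dot_smooth x0 e))
  have k1 : HasCompactSupport fun z => F1 (qq x0 ε R z) * (-2 * ε * dot (z - x0) e) :=
    HasCompactSupport.intro (isCompact_closedBall x0 R) fun z hz => by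
      rw [F1, qq_out hε hR hz, mul_zero, zero_mul]
  simp only [e1]
  constructor
  · obtain ⟨C, hC⟩ := hv.1
    refine (s1.continuous.integrable_of_hasCompactSupport k1).bdd_mul (c := C * ‖e‖)
      (measurable_fderiv_apply_const ℝ v e).aestronglyMeasurable (ae_of_all _ fun z => ?_)
    exact (ContinuousLinearMap.le_opNorm _ _).trans
      (mul_le_mul_of_nonneg_right (norm_fderiv_le_of_lipschitz ℝ hC) (norm_nonneg _))
  rw [ibp hv s1 k1]
  congr 2
  funext z
  congr 1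
  refine HasLineDerivAt.lineDeriv ?_
  have := ((d1 (qq x0 ε R (z + (0 : ℝ) • e))).comp (0 : ℝ) (qq_line x0 ε R z he)).mul
    ((dot_line x0 z he).const_mul (-2 * ε))
  simp only [zero_smul, add_zero, Function.comp_apply] at this
  refine this.congr_deriv ?_
  ring

/-- the barrier -/
lemma barrier (x0 : ℂ) {s R : ℝ} (hs : 0 < s) (hR : 0 < R) :
    ∃ ψ D : ℂ → ℝ, TF (closedBall x0 R) ψ ∧ (∀ z, 0 ≤ ψ z) ∧ Continuous D ∧
      (∀ z, z ∉ closedBall x0 R → D z = 0) ∧ (∀ z, z ∉ ball x0 s → 0 ≤ D z) ∧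
      (∀ z, z ∉ ball x0 s → z ∈ ball x0 R → 0 < D z) ∧
      ∀ (Ω : Set ℂ) (v : ℂ → ℝ) (l : ℝ), TF Ω v →
        Bq l v ψ = -(∫ z, D z * v z) - l * ∫ z, v z * ψ z := by
  obtain ⟨ε, hε, e1, e2⟩ : ∃ ε : ℝ, 0 < ε ∧ ε * R ^ 2 ≤ 1 / 4 ∧ ε * R ^ 4 ≤ s ^ 2 / 4 := by
    refine ⟨min (1 / 4 / R ^ 2) (s ^ 2 / 4 / R ^ 4), by positivity, ?_, ?_⟩
    · exact (le_div_iff₀ (by positivity)).1 (min_le_left _ _)
    · exact (le_div_iff₀ (by positivity)).1 (min_le_right _ _)
  have cq := (qq_smooth x0 ε R).continuous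
  have key : ∀ z, z ∉ ball x0 s → 0 < qq x0 ε R z →
      0 < F2 (qq x0 ε R z) * (4 * ε ^ 2 * dot (z - x0) (z - x0)) - 4 * ε * F1 (qq x0 ε R z) := by
    intro z hz ht
    rw [mem_ball, dist_eq_norm, not_lt] at hz
    have h1 : s ^ 2 ≤ dot (z - x0) (z - x0) := by rw [dot_self]; nlinarith
    have h2 : qq x0 ε R z ≤ ε * R ^ 2 := mul_le_mul_of_nonneg_left (by nlinarith) hε.le
    generalize qq x0 ε R z = t at ht h2
    generalize dot (z - x0) (z - x0) = ρ at h1
    have h3 : t ^ 2 ≤ ε * (s ^ 2 / 4) := by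
      nlinarith [mul_le_mul_of_nonneg_left e2 hε.le, pow_le_pow_left₀ ht.le h2 2]
    have h4 : ε * (s ^ 2 / 2) ≤ ε * (ρ * (1 - 2 * t)) :=
      mul_le_mul_of_nonneg_left (by nlinarith [sq_nonneg s]) hε.le
    have h5 : 0 < ε * (ρ * (1 - 2 * t)) - t ^ 2 := by nlinarith [mul_pos hε (pow_pos hs 2)]
    have h6 : F2 t * (4 * ε ^ 2 * ρ) - 4 * ε * F1 t =
        4 * ε * expNegInvGlue t / t ^ 4 * (ε * (ρ * (1 - 2 * t)) - t ^ 2) := by
      unfold F1 F2
      field_simp
    have := expNegInvGlue.pos_of_pos ht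
    rw [h6]
    positivity
  have k0 : ∀ z, z ∉ closedBall x0 R → expNegInvGlue (qq x0 ε R z) = 0 :=
    fun z => qq_out hε hR.le
  refine ⟨fun z => expNegInvGlue (qq x0 ε R z), fun z =>
    F2 (qq x0 ε R z) * (4 * ε ^ 2 * dot (z - x0) (z - x0)) - 4 * ε * F1 (qq x0 ε R z),
    TF_of_contDiff ((expNegInvGlue.contDiff (n := 1)).comp (qq_smooth x0 ε R))
      (HasCompactSupport.intro (isCompact_closedBall x0 R) k0)
      (closure_minimal (fun z hz => by_contra fun h => hz (k0 z h)) isClosed_closedBall),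
    fun z => expNegInvGlue.nonneg _, ?_, fun z hz => ?_, fun z hz => ?_,
    fun z hz hz' => key z hz ?_, fun Ω v l hv => ?_⟩
  · have := c1.continuous.comp cq
    have := c2.comp cq
    unfold dot
    fun_prop
  · simp [F1, F2, k0 z hz]
  · rcases le_or_gt (qq x0 ε R z) 0 with h | h
    · simp [F1, F2, expNegInvGlue.zero_of_nonpos h]
    · exact (key z hz h).le
  · rw [mem_ball, dist_eq_norm] at hz'
    refine mul_pos hε ?_
    rw [dot_self]
    nlinarith [norm_nonneg (z - x0)]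
  · obtain ⟨a1, a2⟩ := bar_dir hv x0 hε hR.le (e := 1) (by simp [dot])
    obtain ⟨b1, b2⟩ := bar_dir hv x0 hε hR.le (e := Complex.I) (by simp [dot])
    have hi : ∀ e : ℂ, Integrable fun z => (F2 (qq x0 ε R z) * (4 * ε ^ 2 * dot (z - x0) e ^ 2) -
        2 * ε * F1 (qq x0 ε R z)) * v z := fun e => by
      refine Continuous.integrable_of_hasCompactSupport ?_ hv.2.1.mul_left
      have := c1.continuous.comp cq
      have := c2.comp cq
      have := hv.continuous
      unfold dot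
      fun_prop
    rw [Bq, integral_add a1 b1, a2, b2, ← neg_add, ← integral_add (hi _) (hi _)]
    congr 3
    funext z
    simp only [dot, Complex.one_re, Complex.one_im, Complex.I_re, Complex.I_im]
    ring

lemma tf_int {Ω : Set ℂ} {v : ℂ → ℝ} (hv : TF Ω v) : Integrable v :=
  hv.continuous.integrable_of_hasCompactSupport hv.2.1

/-- smallness spreads from a small ball to a larger one -/
lemma spread (hcs : SCS) {Ω : Set ℂ} (ho : IsOpen Ω) {v : ℕ → ℂ → ℝ} (hv : ∀ k, TF Ω (v k))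
    (h0 : ∀ k z, 0 ≤ v k z) (hδ : Tendsto (fun k => En (v k) - lam1 Ω * Ma (v k)) atTop (𝓝 0))
    {x0 : ℂ} {s R' R : ℝ} (hs : 0 < s) (hR : 0 < R) (hR' : R' < R) (hb : closedBall x0 R ⊆ Ω)
    (h : Tendsto (fun k => ∫ z in ball x0 s, v k z) atTop (𝓝 0)) :
    Tendsto (fun k => ∫ z in ball x0 R', v k z) atTop (𝓝 0) := by
  obtain ⟨ψ, D, p1, p2, p3, p4, p5, p6, p7⟩ := barrier x0 hs hR
  have p1' : TF Ω ψ := ⟨p1.1, p1.2.1, p1.2.2.trans hb⟩
  have t1 : Tendsto (fun k => Bq (lam1 Ω) (v k) ψ ^ 2) atTop (𝓝 0) := by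
    refine squeeze_zero (fun k => sq_nonneg _) (fun k => hcs Ω (v k) ψ ho (hv k) p1') ?_
    simpa using hδ.mul_const (En ψ - lam1 Ω * Ma ψ)
  have t2 : Tendsto (fun k => |Bq (lam1 Ω) (v k) ψ|) atTop (𝓝 0) := by
    simpa [Function.comp_def, Real.sqrt_sq_eq_abs] using (Real.continuous_sqrt.tendsto 0).comp t1
  obtain ⟨c, c0, hc⟩ := ((isCompact_closedBall x0 R').diff (isOpen_ball (x := x0) (ε := s))
    ).exists_forall_le' p3.continuousOn (a := 0)
      fun z hz => p6 z hz.2 (closedBall_subset_ball hR' hz.1)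
  have kD : HasCompactSupport D := HasCompactSupport.intro (isCompact_closedBall x0 R) p4
  obtain ⟨M, hM⟩ := p3.bounded_above_of_compact_support kD
  refine squeeze_zero (g := fun k => (|Bq (lam1 Ω) (v k) ψ| +
    (M + c) * ∫ z in ball x0 s, v k z) / c) (fun k => integral_nonneg (h0 k)) (fun k => ?_)
    (by simpa using (t2.add (h.const_mul (M + c))).div_const c)
  have i0 := tf_int (hv k)
  have i1 : Integrable fun z => D z * v k z :=
    (p3.mul (hv k).continuous).integrable_of_hasCompactSupport (hv k).2.1.mul_left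
  have a1 : 0 ≤ lam1 Ω * ∫ z, v k z * ψ z :=
    mul_nonneg (lam1_nonneg Ω) (integral_nonneg fun z => mul_nonneg (h0 k z) (p2 z))
  have a2 : ∫ z, c * (ball x0 R').indicator (v k) z ≤
      ∫ z, (D z * v k z + (M + c) * (ball x0 s).indicator (v k) z) := by
    refine integral_mono ((i0.indicator measurableSet_ball).const_mul c)
      (i1.add ((i0.indicator measurableSet_ball).const_mul _)) fun z => ?_
    have b1 := indicator_le_self' (s := ball x0 R') (fun z _ => h0 k z) z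
    by_cases hz : z ∈ ball x0 s
    · have b2 := (abs_le.1 (hM z)).1
      simp only [indicator_of_mem hz]
      nlinarith [h0 k z]
    · simp only [indicator_of_notMem hz]
      by_cases hz' : z ∈ ball x0 R'
      · have b2 := hc z ⟨ball_subset_closedBall hz', hz⟩
        simp only [indicator_of_mem hz']
        nlinarith [h0 k z]
      · simp only [indicator_of_notMem hz']
        nlinarith [h0 k z, p5 z hz]
  rw [integral_add i1 ((i0.indicator measurableSet_ball).const_mul _), integral_const_mul,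
    integral_const_mul, integral_indicator measurableSet_ball,
    integral_indicator measurableSet_ball] at a2
  rw [le_div_iff₀ c0]
  linarith [neg_abs_le (Bq (lam1 Ω) (v k) ψ), p7 Ω (v k) (lam1 Ω) (hv k)]

/-- smallness spreads to compact subsets -/
lemma spread_compact (hcs : SCS) {Ω : Set ℂ} (ho : IsOpen Ω) (hp : IsPreconnected Ω)
    {v : ℕ → ℂ → ℝ} (hv : ∀ k, TF Ω (v k)) (h0 : ∀ k z, 0 ≤ v k z)
    (hδ : Tendsto (fun k => En (v k) - lam1 Ω * Ma (v k)) atTop (𝓝 0)) {p : ℂ} (hpΩ : p ∈ Ω)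
    {r : ℝ} (hr : 0 < r) (h : Tendsto (fun k => ∫ z in ball p r, v k z) atTop (𝓝 0))
    {K : Set ℂ} (hK : IsCompact K) (hKΩ : K ⊆ Ω) :
    Tendsto (fun k => ∫ z in K, v k z) atTop (𝓝 0) := by
  have mono : ∀ ⦃S T : Set ℂ⦄, S ⊆ T → Tendsto (fun k => ∫ z in T, v k z) atTop (𝓝 0) →
      Tendsto (fun k => ∫ z in S, v k z) atTop (𝓝 0) := fun S T hST hT =>
    squeeze_zero (fun k => integral_nonneg (h0 k)) (fun k => setIntegral_mono_set
      (tf_int (hv k)).integrableOn (ae_of_all _ (h0 k)) hST.eventuallyLE) hT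
  set Z := {x | ∃ r > 0, Tendsto (fun k => ∫ z in ball x r, v k z) atTop (𝓝 0)} with hZ
  have hZo : IsOpen Z := Metric.isOpen_iff.2 fun x ⟨r, r0, hx⟩ => ⟨r, r0, fun y hy =>
    let ⟨t, t0, ht⟩ := Metric.isOpen_iff.1 isOpen_ball y hy
    ⟨t, t0, mono ht hx⟩⟩
  have hsub : Ω ⊆ Z := hp.subset_of_closure_inter_subset hZo ⟨p, hpΩ, r, hr, h⟩ fun x hx => by
    obtain ⟨ε, e0, he⟩ := Metric.isOpen_iff.1 ho x hx.2
    obtain ⟨y, ⟨s, s0, hy⟩, hxy⟩ := Metric.mem_closure_iff.1 hx.1 (ε / 4) (by positivity)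
    refine ⟨ε / 8, by positivity, mono (ball_subset_ball' (by linarith))
      (spread hcs ho hv h0 hδ s0 (R := ε / 2) (R' := 3 * ε / 8) (by positivity) (by linarith)
        ((closedBall_subset_ball' ?_).trans he) hy)⟩
    rw [dist_comm]
    linarith
  refine hK.induction_on (p := fun S => Tendsto (fun k => ∫ z in S, v k z) atTop (𝓝 0))
    (by simp) mono (fun S T hS hT => ?_) fun x hx => ?_
  · refine squeeze_zero (fun k => integral_nonneg (h0 k)) (fun k => ?_) (by simpa using hS.add hT)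
    have i0 := tf_int (hv k)
    rw [← integral_add_measure i0.integrableOn i0.integrableOn]
    exact integral_mono_measure (Measure.restrict_union_le _ _) (ae_of_all _ (h0 k))
      (Integrable.add_measure i0.integrableOn i0.integrableOn)
  · obtain ⟨t, t0, ht⟩ := hsub (hKΩ hx)
    exact ⟨_, mem_nhdsWithin_of_mem_nhds (ball_mem_nhds x t0), ht⟩

lemma gns : ∃ C : NNReal, ∀ w : ℂ → ℝ, ContDiff ℝ 1 w → HasCompactSupport w →
    ∫⁻ z, ‖w z‖ₑ ^ 2 ≤ C * (∫⁻ z, ‖fderiv ℝ w z‖ₑ) ^ 2 := by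
  refine ⟨lintegralPowLePowLIntegralFDerivConst (volume : Measure ℂ) 2, fun w h1 h2 => ?_⟩
  have := lintegral_pow_le_pow_lintegral_fderiv (volume : Measure ℂ) h1 h2 (p := 2)
    (by rw [Complex.finrank_real_complex]; exact_mod_cast Real.HolderConjugate.two_two)
  simpa only [ENNReal.rpow_two] using this

lemma sqg {u : ℂ → ℝ} (hu : ContDiff ℝ 1 u) (z : ℂ) :
    ‖fderiv ℝ (fun z => u z ^ 2) z‖ ≤ u z ^ 2 + ‖fderiv ℝ u z‖ ^ 2 := by
  have d : fderiv ℝ (fun z => u z ^ 2) z = _ :=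
    ((hu.differentiable one_ne_zero z).hasFDerivAt.pow 2).fderiv
  have : ‖(2 : ℕ) • u z ^ (2 - 1)‖ = 2 * |u z| := by simp
  rw [d, norm_smul, this]
  nlinarith [sq_nonneg (|u z| - ‖fderiv ℝ u z‖), sq_abs (u z)]

lemma four : ∃ C : ℝ, 0 ≤ C ∧ ∀ (Ω : Set ℂ) (u : ℂ → ℝ), SF Ω u →
    Integrable (fun z => u z ^ 4) ∧ ∫ z, u z ^ 4 ≤ C * (Ma u + En u) ^ 2 := by
  obtain ⟨C, hC⟩ := gns
  refine ⟨C, C.coe_nonneg, fun Ω u hu => ?_⟩
  have s1 := hu.contDiff_one
  have k2 : HasCompactSupport fun z => u z ^ 2 :=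
    hu.2.1.comp_left (g := fun x : ℝ => x ^ 2) (by simp)
  have k4 : HasCompactSupport fun z => u z ^ 4 :=
    hu.2.1.comp_left (g := fun x : ℝ => x ^ 4) (by simp)
  have c4 : Continuous fun z => u z ^ 4 := s1.continuous.pow 4
  have i4 : Integrable fun z => u z ^ 4 := c4.integrable_of_hasCompactSupport k4
  have i2 : Integrable fun z => u z ^ 2 + ‖fderiv ℝ u z‖ ^ 2 :=
    hu.tf.integrable_sq.add hu.tf.integrable_grad
  have g2 : ∫⁻ z, ‖fderiv ℝ (fun z => u z ^ 2) z‖ₑ ≤ ENNReal.ofReal (Ma u + En u) := by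
    rw [Ma, En, ← integral_add hu.tf.integrable_sq hu.tf.integrable_grad,
      ofReal_integral_eq_lintegral_ofReal i2
        (ae_of_all _ fun z => add_nonneg (sq_nonneg _) (sq_nonneg _))]
    refine lintegral_mono fun z => ?_
    rw [← ofReal_norm]
    exact ENNReal.ofReal_le_ofReal (sqg s1 z)
  have A0 : 0 ≤ Ma u + En u := add_nonneg (Ma_nonneg u) (En_nonneg u)
  have g3 : ∫⁻ z, ENNReal.ofReal (u z ^ 4) = ∫⁻ z, ‖u z ^ 2‖ₑ ^ 2 := lintegral_congr fun z => by
    rw [← ofReal_norm, ← ENNReal.ofReal_pow (norm_nonneg _), Real.norm_eq_abs, sq_abs,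
      ← pow_mul]
  refine ⟨i4, ?_⟩
  rw [← ENNReal.ofReal_le_ofReal_iff (mul_nonneg C.coe_nonneg (sq_nonneg _)),
    ofReal_integral_eq_lintegral_ofReal i4
    (ae_of_all _ fun z => (by decide : Even 4).pow_nonneg _), ENNReal.ofReal_mul C.coe_nonneg,
    ENNReal.ofReal_coe_nnreal, ENNReal.ofReal_pow A0, g3]
  exact (hC _ (s1.pow 2) k2).trans (mul_le_mul_right (pow_le_pow_left' g2 2) _)

lemma pt {M a : ℝ} (M1 : 1 ≤ M) (a0 : 0 ≤ a) : M * a ^ 2 ≤ M ^ 2 * a + a ^ 4 := by
  rcases le_total a M with h | h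
  · nlinarith [mul_le_mul_of_nonneg_left h (mul_nonneg (zero_le_one.trans M1) a0), pow_nonneg a0 4]
  · have b1 : M ≤ a ^ 2 := by nlinarith
    nlinarith [mul_le_mul_of_nonneg_right b1 (sq_nonneg a), mul_nonneg (sq_nonneg M) a0]

/-- a Nash type lower bound -/
lemma nash (A : ℝ) : ∃ c > 0, ∀ (Ω : Set ℂ) (u : ℂ → ℝ), SF Ω u → Ma u = 1 → En u ≤ A →
    c ≤ ∫ z, |u z| := by
  obtain ⟨C, C0, hC⟩ := four
  obtain ⟨M, M1, hM⟩ : ∃ M : ℝ, 1 ≤ M ∧ 2 * (C * (1 + A) ^ 2) ≤ M :=
    ⟨_, le_max_left _ _, le_max_right _ _⟩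
  refine ⟨1 / (2 * M), by positivity, fun Ω u hu h1 h2 => ?_⟩
  obtain ⟨i4, g3⟩ := hC Ω u hu
  have g2 : C * (Ma u + En u) ^ 2 ≤ C * (1 + A) ^ 2 := mul_le_mul_of_nonneg_left
    (pow_le_pow_left₀ (add_nonneg (Ma_nonneg u) (En_nonneg u)) (add_le_add h1.le h2) 2) C0
  have i1 := tf_int (tf_abs hu.tf)
  have g4 : ∫ z, M * u z ^ 2 ≤ ∫ z, (M ^ 2 * |u z| + u z ^ 4) := by
    refine integral_mono (hu.tf.integrable_sq.const_mul M) ((i1.const_mul _).add i4) fun z => ?_
    have := pt M1 (abs_nonneg (u z))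
    rwa [sq_abs, Even.pow_abs (by decide)] at this
  rw [integral_add (i1.const_mul _) i4, integral_const_mul, integral_const_mul] at g4
  have h1' : ∫ z, u z ^ 2 = 1 := h1
  rw [h1'] at g4
  rw [div_le_iff₀ (by positivity)]
  refine le_of_mul_le_mul_left ?_ (zero_lt_one.trans_le M1)
  linarith

end Strict

open Strict in
theorem sStrict (hd : SDiv) (hn : SNear) (hcs : SCS) (hl : SLam) : SStrict := by
  intro Ω Ω' hA hA' hsub hle
  by_contra hne
  obtain ⟨p, hp, hp'⟩ : ∃ p ∈ Ω', p ∉ closure Ω := by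
    by_contra hc
    push Not at hc
    refine hne (hsub.antisymm ?_)
    have := interior_maximal hc hA'.2.2.1
    rwa [hA.2.2.2.interior_closure_eq_interior_of_nonempty_interior
      (by rw [hA.2.2.1.interior_eq]; exact hA.1), hA.2.2.1.interior_eq] at this
  obtain ⟨r, r0, hr⟩ := Metric.isOpen_iff.1 isClosed_closure.isOpen_compl p hp'
  have hl' : lam1 Ω' = lam1 Ω := (lam1_mono hA.2.2.1 hA.1 hsub).antisymm hle
  choose u u1 u2 u3 using fun k : ℕ => hn Ω hA.2.2.1 hA.1 (1 / ((k : ℝ) + 1)) (by positivity)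
  have v1 : ∀ k, TF Ω fun z => |u k z| := fun k => tf_abs (u1 k).tf
  have v2 : ∀ k, TF Ω' fun z => |u k z| := fun k => ⟨(v1 k).1, (v1 k).2.1, (v1 k).2.2.trans hsub⟩
  have v3 : ∀ k, Ma (fun z => |u k z|) = 1 := fun k => by
    rw [← u2 k]
    simp only [Ma, sq_abs]
  have v4 : ∀ k, En (fun z => |u k z|) ≤ En (u k) := fun k =>
    integral_mono (v1 k).integrable_grad (u1 k).tf.integrable_grad fun z =>
      pow_le_pow_left₀ (norm_nonneg _) (abs_grad (u1 k).tf.continuous z) 2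
  have hδ : Tendsto (fun k => En (fun z => |u k z|) - lam1 Ω' * Ma fun z => |u k z|) atTop (𝓝 0) :=
    squeeze_zero (fun k => sub_nonneg.2 (hl Ω' _ hA'.2.2.1 (v2 k)))
      (fun k => by rw [v3, hl']; linarith [v4 k, u3 k]) tendsto_one_div_add_atTop_nhds_zero_nat
  obtain ⟨c, c0, hc⟩ := nash (lam1 Ω + 1)
  obtain ⟨K, K1, K2, K3⟩ := hA'.2.2.1.measurableSet.exists_isCompact_sdiff_lt (μ := volume)
    hA'.2.1.measure_lt_top.ne (ε := ENNReal.ofReal (c ^ 2 / 16)) (by simp; positivity)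
  have t1 := spread_compact hcs hA'.2.2.1 hA'.2.2.2.isPreconnected v2 (fun k z => abs_nonneg _) hδ
    hp r0 (tendsto_const_nhds.congr fun k => (setIntegral_eq_zero_of_forall_eq_zero
      fun z hz => by_contra fun h => hr hz (subset_closure ((v1 k).2.2 (subset_closure h)))).symm)
    K2 K1
  obtain ⟨k, hk⟩ := (t1.eventually_lt_const (half_pos c0)).exists
  have a1 := hc Ω (u k) (u1 k) (u2 k) ((u3 k).trans (add_le_add le_rfl (by
    rw [div_le_one (by positivity)]; linarith [(Nat.cast_nonneg k : (0 : ℝ) ≤ k)])))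
  have i0 := tf_int (v1 k)
  have mD : MeasurableSet (Ω' \ K) := hA'.2.2.1.measurableSet.diff K2.measurableSet
  have i1 : Integrable ((Ω' \ K).indicator fun _ => 1 / c) :=
    (integrableOn_const (K3.trans ENNReal.ofReal_lt_top).ne).integrable_indicator mD
  have a2 : ∫ z, |u k z| ≤ ∫ z, (K.indicator (fun z => |u k z|) z + c / 4 * u k z ^ 2 +
      (Ω' \ K).indicator (fun _ => 1 / c) z) := by
    refine integral_mono i0 (((i0.indicator K2.measurableSet).add
      ((u1 k).tf.integrable_sq.const_mul _)).add i1) fun z => ?_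
    have b0 : 0 ≤ c / 4 * u k z ^ 2 := by positivity
    by_cases h1 : z ∈ K
    · simp only [indicator_of_mem h1, indicator_of_notMem (fun h : z ∈ Ω' \ K => h.2 h1)]
      linarith
    by_cases h2 : z ∈ Ω'
    · simp only [indicator_of_notMem h1, indicator_of_mem (show z ∈ Ω' \ K from ⟨h2, h1⟩)]
      have : c / 4 * u k z ^ 2 + 1 / c - |u k z| = (c * |u k z| - 2) ^ 2 / (4 * c) := by
        rw [← sq_abs (u k z)]
        field_simp
        ring
      have : 0 ≤ (c * |u k z| - 2) ^ 2 / (4 * c) := by positivity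
      linarith
    · have : |u k z| = 0 := by_contra fun h => h2 ((v2 k).2.2 (subset_closure h))
      simp only [indicator_of_notMem h1, indicator_of_notMem (fun h : z ∈ Ω' \ K => h2 h.1), this]
      linarith
  have i2 : Integrable fun z => K.indicator (fun z => |u k z|) z + c / 4 * u k z ^ 2 :=
    (i0.indicator K2.measurableSet).add ((u1 k).tf.integrable_sq.const_mul _)
  rw [integral_add i2 i1,
    integral_add (i0.indicator K2.measurableSet) ((u1 k).tf.integrable_sq.const_mul _),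
    integral_const_mul, integral_indicator K2.measurableSet, integral_indicator_const _ mD] at a2
  have a3 : ∫ z, u k z ^ 2 = 1 := u2 k
  have a4 : volume.real (Ω' \ K) ≤ c ^ 2 / 16 :=
    ENNReal.toReal_le_of_le_ofReal (by positivity) K3.le
  have a5 : volume.real (Ω' \ K) • (1 / c) ≤ c / 16 := by
    rw [smul_eq_mul, mul_one_div, div_le_iff₀ c0]
    linarith
  rw [a3] at a2
  linarith

end Pool.Agent.MP_44cb5f_an

end MrgPart6

-- marker of a merged file
example : 731051 + 99250 = 731051 + 99250 := rfl
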