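import Mathlib.Algebra.Ring.IsFormallyReal
import Mathlib.Analysis.Convex.Continuous
import Mathlib.Analysis.Convex.Measure
import Pool.Agent.MP_44cb5f_an.Wf

-- ======== part 0: formerly Pool.Agent.MP_44cb5f_an.Core1
section MrgPart0

set_option autoImplicit false
open MeasureTheory Set Metric Filter Topology
open scoped Pointwise

namespace Pool.Agent.MP_44cb5f_an
namespace Core

theorem vol_Kc {Ω : Set ℂ} (h : Adm Ω) : (volume (Kc Ω)).toReal = Ar Ω 1 := by
  have e : interior (Kc Ω) = In Ω 1 := by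
    refine Subset.antisymm (fun z hz => ?_) (In_subset_interior_Kc Ω)
    obtain ⟨r, hr, hs⟩ := Metric.isOpen_iff.1 isOpen_interior z hz
    have : 1 + r ≤ dep Ω z := by
      refine le_dep h.2.1 fun y hy => ?_
      have e0 : ball (0 : ℂ) 1 + ball z r = ball z (1 + r) := by
        rw [ball_add_ball one_pos hr, zero_add]
      rw [← e0] at hy
      obtain ⟨a, ha, b, hb, rfl⟩ := hy
      have hb1 : 1 ≤ dep Ω b := (interior_subset (hs hb) : b ∈ Kc Ω)
      refine ball_dep_subset Ω b ?_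
      rw [mem_ball, dist_eq_norm] at *
      simp only [add_sub_cancel_right, sub_zero] at *
      linarith
    show 1 < dep Ω z
    linarith
  rw [Ar, ← e, measure_interior_of_null_frontier ((Kc_convex h).addHaar_frontier volume)]

/-- The perturbed domain. -/
def Dm (f V : ℝ → ℝ) (Ω' : Set ℂ) (s : ℝ) : Set ℂ := {z | f z.re + s * V z.re < z.im} ∩ Ω'

structure Data (f V : ℝ → ℝ) (W : ℂ → ℝ) (K : NNReal) (Ω Ω' : Set ℂ) (s : ℝ) : Prop where
  lip : LipschitzWith K W
  bd : ∀ z, |W z| ≤ 1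
  low : ∀ z, z.im ≤ f z.re → W z = V z.re
  mar : ∀ z, W z ≠ 0 → f z.re < z.im → ball z (1 / 50) ⊆ Ω'
  om : Ω = {z | f z.re < z.im} ∩ Ω'
  sK : |s| * K ≤ 1 / 2
  s1 : |s| ≤ 1 / 100

variable {f V : ℝ → ℝ} {W : ℂ → ℝ} {K : NNReal} {Ω Ω' : Set ℂ} {s : ℝ}

theorem norm_shift (d : Data f V W K Ω Ω' s) (z : ℂ) :
    ‖((s * W z : ℝ) : ℂ) * Complex.I‖ ≤ |s| := by
  rw [norm_mul, Complex.norm_I, mul_one, Complex.norm_real, Real.norm_eq_abs, abs_mul]
  exact mul_le_of_le_one_right (abs_nonneg _) (d.bd z)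

theorem above (d : Data f V W K Ω Ω' s) {z : ℂ} (hz : f z.re < z.im) :
    f z.re + s * V z.re < z.im + s * W z := by
  have h1 := d.low ⟨z.re, f z.re⟩ le_rfl
  have h2 := d.lip.dist_le_mul z ⟨z.re, f z.re⟩
  have h3 : dist z ⟨z.re, f z.re⟩ = z.im - f z.re := by
    rw [Complex.dist_of_re_eq (z := z) (w := ⟨z.re, f z.re⟩) rfl, Real.dist_eq,
      abs_of_pos (sub_pos.2 hz)]
  rw [h1, h3, Real.dist_eq] at h2
  simp only at h2
  have h4 : |s * (W z - V z.re)| ≤ 1 / 2 * (z.im - f z.re) := by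
    rw [abs_mul]
    calc _ ≤ |s| * (K * (z.im - f z.re)) := mul_le_mul_of_nonneg_left h2 (abs_nonneg _)
      _ = |s| * K * (z.im - f z.re) := by ring
      _ ≤ _ := mul_le_mul_of_nonneg_right d.sK (sub_pos.2 hz).le
  have := (abs_le.1 h4).1
  linarith

theorem maps (d : Data f V W K Ω Ω' s) {z : ℂ} (hz : z ∈ Ω) :
    z + ((s * W z : ℝ) : ℂ) * Complex.I ∈ Dm f V Ω' s := by
  rw [d.om] at hz
  refine ⟨by simpa using above d hz.1, ?_⟩
  by_cases h : W z = 0
  · simpa [h] using hz.2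
  · refine d.mar z h hz.1 ?_
    rw [mem_ball, dist_eq_norm, add_sub_cancel_left]
    linarith [norm_shift d z, d.s1]

theorem surj (d : Data f V W K Ω Ω' s) {z : ℂ} (hz : z ∈ Dm f V Ω' s) :
    ∃ w ∈ Ω, w + ((s * W w : ℝ) : ℂ) * Complex.I = z := by
  have hc : Continuous fun y : ℝ => y + s * W ⟨z.re, y⟩ := by
    have : Continuous fun y : ℝ => (⟨z.re, y⟩ : ℂ) := by
      have e : (fun y : ℝ => (⟨z.re, y⟩ : ℂ)) = fun y : ℝ => (z.re : ℂ) + (y : ℂ) * Complex.I := by
        funext y; apply Complex.ext <;> simp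
      rw [e]; fun_prop
    exact continuous_id.add (continuous_const.mul (d.lip.continuous.comp this))
  have hb : ∀ w, |s * W w| ≤ 1 := fun w => by
    rw [abs_mul]; nlinarith [d.bd w, d.s1, abs_nonneg s, abs_nonneg (W w)]
  obtain ⟨y, -, hy⟩ := intermediate_value_Icc (a := z.im - 1) (b := z.im + 1) (by linarith)
    hc.continuousOn (show z.im ∈ Icc _ _ from
      ⟨by linarith [(abs_le.1 (hb ⟨z.re, z.im - 1⟩)).2],
        by linarith [(abs_le.1 (hb ⟨z.re, z.im + 1⟩)).1]⟩)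
  simp only at hy
  have e : (⟨z.re, y⟩ : ℂ) + ((s * W ⟨z.re, y⟩ : ℝ) : ℂ) * Complex.I = z := by
    apply Complex.ext
    · simp
    · simpa using hy
  have h1 : f z.re < y := by
    by_contra hc'
    have h2 := d.low ⟨z.re, y⟩ (not_lt.1 hc')
    have h3 : f z.re + s * V z.re < z.im := hz.1
    rw [h2] at hy
    simp only at hy
    linarith [not_lt.1 hc']
  refine ⟨⟨z.re, y⟩, ?_, e⟩
  rw [d.om]
  refine ⟨h1, ?_⟩
  by_cases h : W ⟨z.re, y⟩ = 0
  · rw [h] at e
    have : (⟨z.re, y⟩ : ℂ) = z := by simpa using e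
    rw [this]; exact hz.2
  · exact d.mar _ h h1 (mem_ball_self (by norm_num))

theorem sand1 (d : Data f V W K Ω Ω' s) : Dm f V Ω' s ⊆ Ω + closedBall (0 : ℂ) |s| := by
  intro z hz
  obtain ⟨w, hw, e⟩ := surj d hz
  exact ⟨w, hw, _, mem_closedBall_zero_iff.2 (norm_shift d w), e⟩

theorem sand2 (d : Data f V W K Ω Ω' s) : Ω ⊆ Dm f V Ω' s + closedBall (0 : ℂ) |s| := by
  intro z hz
  refine ⟨_, maps d hz, -(((s * W z : ℝ) : ℂ) * Complex.I), ?_, by ring⟩
  rw [mem_closedBall_zero_iff, norm_neg]; exact norm_shift d z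

theorem adm (d : Data f V W K Ω Ω' s) (h : Adm Ω) (ho : IsOpen Ω') (hc : Convex ℝ Ω')
    (hcv : ConvexOn ℝ univ fun u => f u + s * V u) : Adm (Dm f V Ω' s) := by
  obtain ⟨z, hz⟩ := h.1
  refine ⟨⟨_, maps d hz⟩, (h.2.1.add isBounded_closedBall).subset (sand1 d), ?_, ?_⟩
  · have : Continuous fun u => f u + s * V u :=
      continuousOn_univ.1 (hcv.continuousOn isOpen_univ)
    exact (isOpen_lt (this.comp Complex.continuous_re) Complex.continuous_im).inter ho
  · refine Convex.inter (fun x hx y hy a b ha hb hab => ?_) hc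
    have h1 := hcv.2 (mem_univ x.re) (mem_univ y.re) ha hb hab
    have hx' : f x.re + s * V x.re < x.im := hx
    have hy' : f y.re + s * V y.re < y.im := hy
    show f (a • x + b • y).re + s * V (a • x + b • y).re < (a • x + b • y).im
    simp only [Complex.add_re, Complex.add_im, Complex.smul_re, Complex.smul_im, smul_eq_mul] at *
    rcases ha.eq_or_lt with h0 | h0
    · have : b = 1 := by linarith
      subst h0; subst this; simpa using hy'
    · nlinarith [mul_lt_mul_of_pos_left hx' h0, mul_le_mul_of_nonneg_left hy'.le hb]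

theorem inner_sub {K' : Set ℂ} {l : ℝ → ℝ} (hK : ∀ z, ball z 1 ⊆ Ω' → z ∈ K')
    (hl : Below (fun u => f u + s * V u) l) :
    In (Dm f V Ω' s) 1 ⊆ {z | l z.re ≤ z.im} ∩ K' := by
  intro z hz
  have hb : ball z 1 ⊆ Dm f V Ω' s :=
    (ball_subset_ball (le_of_lt hz)).trans (ball_dep_subset _ z)
  refine ⟨hl z.re z.im fun u v huv => ?_, hK z (hb.trans inter_subset_right)⟩
  have : (⟨u, v⟩ : ℂ) ∈ ball z 1 := by
    rw [mem_ball, dist_eq_norm]
    refine lt_of_pow_lt_pow_left₀ 2 zero_le_one ?_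
    rw [norm_sq_eq]; simpa using huv
  exact (hb this).1

theorem wbound {W h : ℂ → ℝ} {za zb : ℂ} {da db C : ℝ} (ha : 0 < da) (hb : 0 < db)
    (hc : Continuous h) (hs : HasCompactSupport h) (h0 : ∀ z, 0 ≤ h z)
    (hW : ∀ z, h z ≠ 0 → ‖fderiv ℝ W z‖ ^ 2 ≤
      C * (wt za da z / Real.sqrt da + wt zb db z / Real.sqrt db + 1)) :
    ∫ z, ‖fderiv ℝ W z‖ ^ 2 * h z ≤ C * ((∫ z, wt za da z * h z) / Real.sqrt da
      + (∫ z, wt zb db z * h z) / Real.sqrt db + ∫ z, h z) := by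
  have i0 : Integrable h := hc.integrable_of_hasCompactSupport hs
  have i1 : Integrable fun z => wt za da z * h z :=
    ((wt_continuous za ha).mul hc).integrable_of_hasCompactSupport hs.mul_left
  have i2 : Integrable fun z => wt zb db z * h z :=
    ((wt_continuous zb hb).mul hc).integrable_of_hasCompactSupport hs.mul_left
  have i3 : Integrable fun z => wt za da z * h z / Real.sqrt da + wt zb db z * h z / Real.sqrt db :=
    (i1.div_const (Real.sqrt da)).add (i2.div_const (Real.sqrt db))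
  rw [← integral_div, ← integral_div, ← integral_add (i1.div_const _) (i2.div_const _),
    ← integral_add i3 i0, ← integral_const_mul]
  refine integral_mono_of_nonneg (Eventually.of_forall fun z => mul_nonneg (sq_nonneg _) (h0 z))
    ((i3.add i0).const_mul C) (Eventually.of_forall fun z => ?_)
  by_cases hz : h z = 0
  · simp [hz]
  · have := mul_le_mul_of_nonneg_right (hW z hz) (h0 z)
    simp only
    calc _ ≤ _ := this
      _ = _ := by ring

theorem small (a : ℝ) {b : ℝ} (hb : 0 < b) : ∀ᶠ t in 𝓝[>] (0 : ℝ), a * t ≤ b := by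
  have : Tendsto (fun t : ℝ => a * t) (𝓝 0) (𝓝 (a * 0)) :=
    (continuous_const.mul continuous_id).tendsto 0
  rw [mul_zero] at this
  exact nhdsWithin_le_nhds (this.eventually (ge_mem_nhds hb))

theorem lim_sq {X Y d0 : ℝ} (hd : 0 < d0) (h : ∀ δ, 0 < δ → δ ≤ d0 → X ≤ (Y + δ) ^ 2) :
    X ≤ Y ^ 2 := by
  have : Tendsto (fun δ : ℝ => (Y + δ) ^ 2) (𝓝[>] 0) (𝓝 ((Y + 0) ^ 2)) :=
    (((continuous_const.add continuous_id).pow 2).tendsto 0).mono_left nhdsWithin_le_nhds
  rw [add_zero] at this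
  refine ge_of_tendsto this ?_
  filter_upwards [small 1 hd, self_mem_nhdsWithin] with δ h1 h2
  exact h δ h2 (by linarith)

theorem numeric {l lp lm ρ σ γ x A b : ℝ} (hl : 0 < l) (h1 : l ≤ lp * ρ ^ 2) (h2 : l ≤ lm * σ ^ 2)
    (hρ : 0 < ρ) (hσ : 0 < σ) (h3 : ρ + σ ≤ 2 - 2 * γ * x)
    (h4 : lp * lm * (1 - x * A) ≤ (l + b * l * x) ^ 2) (hx : 0 < x) (_hγ : γ * x ≤ 1)
    (hA : 0 ≤ A) (hb : 0 ≤ b) (hg : A + b < γ) : False := by
  have hγ0 : 0 < γ * x := mul_pos (by linarith) hx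
  have hbx : 0 ≤ b * x := mul_nonneg hb hx.le
  have hAx : A * x + b * x < γ * x := by nlinarith
  have hA1 : 0 < 1 - x * A := by nlinarith
  have p1 : ρ * σ ≤ (1 - γ * x) ^ 2 := by nlinarith [sq_nonneg (ρ - σ)]
  have p2 : (1 - γ * x) ^ 2 ≤ 1 - γ * x := by nlinarith
  have p3 : (ρ * σ) ^ 2 ≤ (1 - γ * x) ^ 2 :=
    pow_le_pow_left₀ (mul_pos hρ hσ).le (p1.trans p2) 2
  have p4 : l * l ≤ lp * lm * (ρ * σ) ^ 2 := by
    have := mul_le_mul h1 h2 hl.le (hl.le.trans h1)
    linarith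
  have p5 : l * l * (1 - x * A) ≤ (l + b * l * x) ^ 2 * (1 - γ * x) ^ 2 := by
    calc _ ≤ lp * lm * (ρ * σ) ^ 2 * (1 - x * A) := mul_le_mul_of_nonneg_right p4 hA1.le
      _ = lp * lm * (1 - x * A) * (ρ * σ) ^ 2 := by ring
      _ ≤ (l + b * l * x) ^ 2 * (ρ * σ) ^ 2 := mul_le_mul_of_nonneg_right h4 (sq_nonneg _)
      _ ≤ _ := mul_le_mul_of_nonneg_left p3 (sq_nonneg _)
  have p6 : (1 + b * x) * (1 - γ * x) ≤ 1 - γ * x + b * x := by nlinarith
  have p7 : 0 ≤ (1 + b * x) * (1 - γ * x) := mul_nonneg (by linarith) (by linarith)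
  have p8 : ((1 + b * x) * (1 - γ * x)) ^ 2 < 1 - x * A := by
    have q1 : (1 + b * x) * (1 - γ * x) < 1 - x * A := by linarith
    have q2 : (1 + b * x) * (1 - γ * x) ≤ 1 := by nlinarith [mul_nonneg hA hx.le]
    nlinarith
  have p9 := mul_lt_mul_of_pos_left p8 (mul_pos hl hl)
  nlinarith

end Core
end Pool.Agent.MP_44cb5f_an

end MrgPart0

-- ======== part 1: formerly Pool.Agent.MP_44cb5f_an.Core
section MrgPart1

set_option autoImplicit false
open MeasureTheory Set Metric Filter Topology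
open scoped Pointwise

namespace Pool.Agent.MP_44cb5f_an
namespace Core

theorem halfplane (E : Env) (c : ℝ) : ∃ n : ℂ, ‖n‖ = 1 ∧
    ∀ z : ℂ, E.f z.re < z.im → 0 < dot (z - ⟨c, E.f c⟩) n := by
  have hp := ph_pos (E.sf c)
  refine ⟨⟨-(E.sf c) / ph (E.sf c), 1 / ph (E.sf c)⟩, ?_, fun z hz => ?_⟩
  · refine (pow_left_inj₀ (norm_nonneg _) zero_le_one two_ne_zero).1 ?_
    rw [norm_sq_eq]
    simp only
    field_simp
    rw [ph_sq]; ring
  · have h := E.f_ge _ (E.f_eq c) z.re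
    simp only at h
    have e : dot (z - ⟨c, E.f c⟩) ⟨-(E.sf c) / ph (E.sf c), 1 / ph (E.sf c)⟩ =
        ((z.im - E.f c) - E.sf c * (z.re - c)) / ph (E.sf c) := by
      simp only [dot, Complex.sub_re, Complex.sub_im]; field_simp; ring
    rw [e]
    exact div_pos (by linarith) hp

theorem J_le (hk1 : SK1) {A : Set ℂ} (h : Adm A) {ρ : ℝ} (hρ : 0 < ρ)
    (ha : Ar A ρ ≤ Real.pi * ρ ^ 2) : J A ≤ lam1 A * ρ ^ 2 := by
  have h1 := hk1 A ρ h hρ ha
  have h2 : 0 < 1 / ρ := by positivity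
  have h3 : (1 / ρ) ^ 2 ≤ chee A ^ 2 := pow_le_pow_left₀ h2.le h1 2
  calc J A ≤ lam1 A / (1 / ρ) ^ 2 :=
        div_le_div_of_nonneg_left (lam1_nonneg A) (by positivity) h3
    _ = _ := by field_simp

theorem Qbound {C C2 a b m da db : ℝ} (hC : 0 ≤ C) (ha : 0 < da) (hab : da ≤ db) (h1 : da ≤ 1)
    (h2 : a ≤ C2) (h3 : b ≤ C2) (h4 : m ≤ 3) :
    C * (a / Real.sqrt da + b / Real.sqrt db + m) ≤ C * (2 * |C2| + 3) / Real.sqrt da := by
  have s0 : 0 < Real.sqrt da := Real.sqrt_pos.2 ha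
  have s1 : Real.sqrt da ≤ Real.sqrt db := Real.sqrt_le_sqrt hab
  have s2 : Real.sqrt da ≤ 1 := Real.sqrt_le_one.2 h1
  have t1 : a / Real.sqrt da ≤ |C2| / Real.sqrt da :=
    div_le_div_of_nonneg_right (h2.trans (le_abs_self _)) s0.le
  have t2 : b / Real.sqrt db ≤ |C2| / Real.sqrt da :=
    (div_le_div_of_nonneg_right (h3.trans (le_abs_self _)) (s0.le.trans s1)).trans
      (div_le_div_of_nonneg_left (abs_nonneg _) s0 s1)
  have t3 : m ≤ 3 / Real.sqrt da := h4.trans (by rw [le_div_iff₀ s0]; linarith)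
  rw [mul_div_assoc]
  refine mul_le_mul_of_nonneg_left ?_ hC
  have : (2 * |C2| + 3) / Real.sqrt da =
      |C2| / Real.sqrt da + |C2| / Real.sqrt da + 3 / Real.sqrt da := by ring
  linarith

theorem gap {c1 c3 C1 Q l0 da : ℝ} (hc1 : 0 < c1) (hc3 : 0 < c3) (hQ : 0 ≤ Q) (hl : 0 < l0)
    (hda : 0 < da) (hda1 : da ≤ 1)
    (h : da ≤ (c1 * c3 / (4 * (|C1| / 2 + Q * (1 + 2 / l0) + 1))) ^ 2) :
    Q / Real.sqrt da + 2 * (Q / Real.sqrt da) / l0 < (c1 * c3 / da - C1) / 2 := by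
  set Z : ℝ := |C1| / 2 + Q * (1 + 2 / l0) + 1 with hZ
  have hZ0 : 0 < Z := by positivity
  have hsq : 0 < Real.sqrt da := Real.sqrt_pos.2 hda
  have h1 : Real.sqrt da ≤ c1 * c3 / (4 * Z) := Real.sqrt_le_iff.2 ⟨by positivity, h⟩
  have h2 : Real.sqrt da * Z ≤ c1 * c3 / 4 := by
    rw [le_div_iff₀ (by positivity)] at h1; linarith
  have h3 : Real.sqrt da ≤ 1 := Real.sqrt_le_one.2 hda1
  set s := Real.sqrt da with hs
  have h4 : da = s * s := (Real.mul_self_sqrt hda.le).symm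
  have h5 : Z / s ≤ c1 * c3 / da / 4 := by
    rw [h4, div_le_iff₀ hsq]
    have : c1 * c3 / (s * s) / 4 * s = c1 * c3 / 4 / s := by field_simp
    rw [this, le_div_iff₀ hsq]; linarith
  have h6 : Z / s = |C1| / 2 / s + (Q / s + 2 * (Q / s) / l0) + 1 / s := by
    rw [hZ]; field_simp
  have h7 : |C1| / 2 ≤ |C1| / 2 / s := by
    rw [le_div_iff₀ hsq]; nlinarith [abs_nonneg C1]
  have h8 : 0 < 1 / s := by positivity
  have h9 : 0 < c1 * c3 / da := by positivity
  linarith [le_abs_self C1]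

theorem last {l l0 lp lm ρ σ t c1 c3 C1 Q da : ℝ} (hl0 : 0 < l0) (hlow : l0 ≤ l)
    (j1 : l ≤ lp * ρ ^ 2) (j2 : l ≤ lm * σ ^ 2) (hρ : 0 < ρ) (hσ : 0 < σ)
    (hsum : ρ + σ ≤ 2 - c1 * (c3 * t ^ 2 / da) + C1 * t ^ 2)
    (key : lp * lm * (1 - t ^ 2 * (Q / Real.sqrt da)) ≤
      (l + 2 * t ^ 2 * (Q / Real.sqrt da)) ^ 2)
    (ht : 0 < t) (ht1 : 100 * t ≤ 1) (e6 : |(c1 * c3 / da - C1) / 2| * t ≤ 1)
    (hc1 : 0 < c1) (hc3 : 0 < c3) (hQ : 0 ≤ Q) (hda : 0 < da) (hda1 : da ≤ 1)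
    (h : da ≤ (c1 * c3 / (4 * (|C1| / 2 + Q * (1 + 2 / l0) + 1))) ^ 2) : False := by
  have hl : 0 < l := hl0.trans_le hlow
  have hQd : 0 ≤ Q / Real.sqrt da := by positivity
  refine numeric (γ := (c1 * c3 / da - C1) / 2) (x := t ^ 2) (A := Q / Real.sqrt da)
    (b := 2 * (Q / Real.sqrt da) / l0) hl j1 j2 hρ hσ ?_ ?_ (by positivity) ?_ hQd
    (by positivity) (gap hc1 hc3 hQ hl0 hda hda1 h)
  · have : c1 * (c3 * t ^ 2 / da) = c1 * c3 / da * t ^ 2 := by ring
    linarith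
  · refine key.trans (pow_le_pow_left₀ (by positivity) ?_ 2)
    have h1 : 1 ≤ l / l0 := (one_le_div hl0).2 hlow
    have h2 : 2 * (Q / Real.sqrt da) / l0 * l * t ^ 2 =
        2 * t ^ 2 * (Q / Real.sqrt da) * (l / l0) := by ring
    have h3 := le_mul_of_one_le_right (show 0 ≤ 2 * t ^ 2 * (Q / Real.sqrt da) by positivity) h1
    linarith
  · have h1 : (c1 * c3 / da - C1) / 2 * t ≤ 1 :=
      (mul_le_mul_of_nonneg_right (le_abs_self _) ht.le).trans e6
    nlinarith

end Core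
open Pool.Agent.MP_44cb5f_an.Core

theorem sCore (hn : SNear) (hk1 : SK1) (hk2 : SK2) (hrad : SRad) (hstrip : SStrip) (hims : SIms)
    (hsh : SShear) (hgeo : SGeo) (hmax : SMax) (hval : SVal) (hod1 : SOD1) (hod : SOneD)
    (hw : SW) (harea : SArea) (hch : SChart) : SCore := by
  intro R
  obtain ⟨c1, C1, ε0, hc1, hε0, hrad⟩ := hrad R
  obtain ⟨C2, hims⟩ := hims
  obtain ⟨c3, hc3, hod⟩ := hod
  obtain ⟨C4, hC4, hw⟩ := hw
  set l0 : ℝ := (Real.pi / (2 * R)) ^ 2 with hl0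
  set Q : ℝ := C4 * (2 * |C2| + 3) with hQ
  have hQ0 : 0 ≤ Q := by positivity
  set Z : ℝ := |C1| / 2 + Q * (1 + 2 / l0) + 1 with hZ
  have hZ0 : 0 < Z := by positivity
  refine ⟨min (1 / 200) ((c1 * c3 / (4 * Z)) ^ 2), by positivity, ?_⟩
  intro Ω k θ hmin hAr hR hSm hθ hθ' hδ
  have hδ1 := hδ.trans (min_le_left _ _)
  have hδ2 := hδ.trans (min_le_right _ _)
  have hΩ := hmin.1
  have hKi : (interior (Kc Ω)).Nonempty :=
    (In_nonempty_of_Ar (hAr ▸ Real.pi_pos)).mono (In_subset_interior_Kc Ω)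
  obtain ⟨E, Ω', K', ho', hc', hΩe, hKe, hK', hsl, hmono, hball, η, hη, hfat⟩ :=
    hch Ω (Kc Ω) k θ (Kc_compact hΩ) (Kc_convex hΩ)
      (hgeo _ (Kc_compact hΩ) (Kc_convex hΩ) hKi) (hmax Ω hmin hAr).2 hSm hθ hθ'
  obtain ⟨-, -, glip, flip, -, -, -⟩ := hod1 E
  obtain ⟨Va, Vb, ca, cb, da, db, hPa, hPb, hab, hdb, hca, hcb, C, t0, ht0, hod⟩ :=
    hod E (fun i => (k (i + 1)).re) (fun i hi => hmono (i + 1) (by omega)) (fun i hi => by
      rw [(hsl (i + 1) (by omega)).1, (hsl (i + 1 + 1) (by omega)).1]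
      exact hθ' (i + 1) (by omega))
  simp only [zero_add] at hdb hca hcb hod
  have hL : E.ct (k (9 + 1)).re - E.ct (k 1).re = (k 10 + θ 10).re - (k 1 + θ 1).re := by
    rw [← (hsl 10 (by omega)).2, ← (hsl 1 (by omega)).2]
  obtain ⟨W, K, hWl, hWb, hWlow, hWs, hWd⟩ := hw E.f Va Vb ca cb da db flip hPa hPb hab
  have hda := hPa.1
  have hdb0 := hPb.1
  have hda1 : da ≤ 1 := by linarith
  have hsq : 0 < Real.sqrt da := Real.sqrt_pos.2 hda
  -- size of the eigenvalue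
  have hR0 : 0 < R := by
    obtain ⟨z, hz⟩ := hΩ.1
    exact pos_of_mem_ball (hR hz)
  have hl0p : 0 < l0 := by have := Real.pi_pos; positivity
  have hlow : l0 ≤ lam1 Ω := hstrip Ω 1 0 (2 * R) hΩ.2.2.1 hΩ.1 norm_one (by linarith)
    fun z hz => by
      have h1 := abs_dot_le z 1
      have h2 := mem_ball_zero_iff.1 (hR hz)
      rw [norm_one, mul_one] at h1
      rw [sub_zero]; linarith
  have hup := hval Ω hmin hAr
  have hJ : J Ω = lam1 Ω := by
    rw [J, (hk2 Ω hΩ).2 1 one_pos (by rw [hAr]; ring)]; simp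
  -- margin
  have hmar : ∀ z, W z ≠ 0 → E.f z.re < z.im → ball z (1 / 50) ⊆ Ω' := by
    intro z hz hz'
    refine Subset.trans (ball_subset_ball' ?_) hball
    obtain ⟨h1, h2⟩ := hWs z hz
    have h3 : |ca - cb| ≤ 1 / 200 := by
      rw [abs_le]; constructor <;> linarith [hca.1, hca.2, hcb.1, hcb.2]
    have h4 : |z.re - E.ct (k 1).re| ≤ 1 / 40 := by
      rw [abs_le] at h2 ⊢; constructor <;> linarith [hca.1, hca.2, h2.1, h2.2]
    have h5 := (flip z.re (E.ct (k 1).re)).trans h4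
    have h6 : |z.im - E.f (E.ct (k 1).re)| ≤ 7 / 200 := by
      rw [abs_le] at h5 ⊢; constructor <;> linarith [h5.1, h5.2]
    have h7 := Complex.norm_le_abs_re_add_abs_im (z - ⟨E.ct (k 1).re, E.f (E.ct (k 1).re)⟩)
    simp only [Complex.sub_re, Complex.sub_im] at h7
    rw [dist_eq_norm]; linarith
  set γ : ℝ := (c1 * c3 / da - C1) / 2 with hγ
  obtain ⟨t, ⟨⟨⟨⟨⟨⟨e1, e2⟩, e3⟩, e4⟩, e5⟩, e6⟩, ht⟩⟩ :=
    ((((((((small 1 ht0).and (small K one_half_pos)).and (small 100 one_pos)).and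
      (small 1 hε0)).and (small C hη)).and (small |γ| one_pos)).and
      self_mem_nhdsWithin)).exists
  have ht' : 0 < t := ht
  have dat : ∀ s, |s| = t → Data E.f (fun u => Va u - Vb u) W K Ω Ω' s := fun s hs =>
    ⟨hWl, hWb, hWlow, hmar, hΩe, by rw [hs]; linarith, by rw [hs]; linarith⟩
  have d1 := dat t (abs_of_pos ht')
  have d2 := dat (-t) (by rw [abs_neg, abs_of_pos ht'])
  obtain ⟨cv1, cv2, lp, lm, mp, mm, bp, bm, hoff, hcl, hgain⟩ := hod t ⟨ht', by linarith⟩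
  have en : (fun u => E.f u - t * (Va u - Vb u)) = fun u => E.f u + -t * (Va u - Vb u) := by
    funext u; ring
  rw [en] at cv2 bm
  have a1 := adm d1 hΩ ho' hc' cv1
  have a2 := adm d2 hΩ ho' hc' cv2
  set A := Dm E.f (fun u => Va u - Vb u) Ω' t with hA
  set B := Dm E.f (fun u => Va u - Vb u) Ω' (-t) with hB
  have hg : Continuous E.g := (LipschitzWith.of_dist_le_mul (K := 1) fun x y => by
    simpa [Real.dist_eq] using glip x y).continuous
  have h110 : (k 1).re ≤ (k 10).re := by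
    have m := fun i (hi : i < 11) => (hmono i hi).le
    linarith [m 1 (by omega), m 2 (by omega), m 3 (by omega), m 4 (by omega), m 5 (by omega),
      m 6 (by omega), m 7 (by omega), m 8 (by omega), m 9 (by omega)]
  have har := harea (Kc Ω) K' (In A 1) (In B 1) E.g lp lm (k 1).re (k 10).re η (Kc_compact hΩ) hg
    mp mm h110 hKe (inner_sub hK' bp) (inner_sub hK' bm) hoff
    (fun x => ⟨(hcl x).1.trans e5, (hcl x).2.trans e5⟩) hfat
  rw [vol_Kc hΩ, hAr] at har
  have s1 := sand1 d1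
  have s2 := sand2 d1
  have s3 := sand1 d2
  have s4 := sand2 d2
  rw [abs_of_pos ht'] at s1 s2
  rw [abs_neg, abs_of_pos ht'] at s3 s4
  obtain ⟨ρ, σ, hρ, hσ, hρa, hσa, hsum⟩ := hrad Ω A B t (c3 * t ^ 2 / da) hΩ a1 a2 hR hAr ht'
    (by linarith) s1 s2 s3 s4 (by positivity) (by
      have : ∫ x in (k 1).re..(k (9 + 1)).re, (lp x + lm x - 2 * E.g x) =
        ∫ x in (k 1).re..(k 10).re, (lp x + lm x - 2 * E.g x) := rfl
      simp only [Ar]; linarith)
  have j1 : lam1 Ω ≤ lam1 A * ρ ^ 2 := hJ ▸ (hmin.2 A a1).trans (J_le hk1 a1 hρ hρa)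
  have j2 : lam1 Ω ≤ lam1 B * σ ^ 2 := hJ ▸ (hmin.2 B a2).trans (J_le hk1 a2 hσ hσa)
  -- the eigenvalue estimate
  have hin : ∀ z ∈ Ω, E.f z.re < z.im := fun z hz => by rw [hΩe] at hz; exact hz.1
  obtain ⟨na, hna, hna'⟩ := halfplane E ca
  obtain ⟨nb, hnb, hnb'⟩ := halfplane E cb
  obtain ⟨δa, hδa, hia⟩ := hims Ω ⟨ca, E.f ca⟩ na da hΩ.2.2.1 (by linarith) hna hda
    fun z hz => hna' z (hin z hz)
  obtain ⟨δb, hδb, hib⟩ := hims Ω ⟨cb, E.f cb⟩ nb db hΩ.2.2.1 (by linarith) hnb hdb0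
    fun z hz => hnb' z (hin z hz)
  have key : lam1 A * lam1 B * (1 - t ^ 2 * (Q / Real.sqrt da)) ≤
      (lam1 Ω + 2 * t ^ 2 * (Q / Real.sqrt da)) ^ 2 := by
    refine lim_sq (d0 := min 1 (min δa δb)) (by positivity) fun δ h0 h1 => ?_
    have h2 := h1.trans (min_le_left _ _)
    have h3 := h1.trans ((min_le_right _ _).trans (min_le_left _ _))
    have h4 := h1.trans ((min_le_right _ _).trans (min_le_right _ _))
    obtain ⟨u, hu, hMa, hEn⟩ := hn Ω hΩ.2.2.1 hΩ.1 δ h0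
    obtain ⟨i1, i2⟩ := hia u hu hMa (by linarith)
    obtain ⟨i3, i4⟩ := hib u hu hMa (by linarith)
    have cu := hu.tf.continuous
    have cd : Continuous (fderiv ℝ u) := hu.contDiff_one.continuous_fderiv one_ne_zero
    have w1 := wbound (W := W) (h := fun z => u z ^ 2) (za := ⟨ca, E.f ca⟩) (zb := ⟨cb, E.f cb⟩)
      (C := C4) hda hdb0 (cu.pow 2) (hu.2.1.mono fun z hz h0 => hz (by simp [h0]))
      (fun z => sq_nonneg _) fun z hz => hWd z (hin z (hu.2.2 (subset_tsupport _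
        fun h0 => hz (by simp [h0])))).le
    have w2 := wbound (W := W) (h := fun z => ‖fderiv ℝ u z‖ ^ 2) (za := ⟨ca, E.f ca⟩)
      (zb := ⟨cb, E.f cb⟩) (C := C4) hda hdb0 (cd.norm.pow 2)
      ((hu.2.1.fderiv ℝ).mono fun z hz h0 => hz (by simp [h0]))
      (fun z => sq_nonneg _) fun z hz => hWd z (hin z (hu.2.2 (support_fderiv_subset ℝ
        fun h0 => hz (by simp [h0])))).le
    have w3 := w1.trans (Qbound hC4 hda hab hda1 i2 i4 (by
      have : ∫ z, u z ^ 2 = 1 := hMa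
      linarith))
    have w4 := w2.trans (Qbound hC4 hda hab hda1 i1 i3 (by
      have : ∫ z, ‖fderiv ℝ u z‖ ^ 2 = En u := rfl
      linarith))
    have sh := hsh Ω A B W u K t a1.2.2.1 a2.2.2.1 hWl ht'.le (by linarith) hu hMa
      (fun z hz => maps d1 hz) (fun z hz => by
        have := maps d2 hz
        rwa [neg_mul, Complex.ofReal_neg, neg_mul, ← sub_eq_add_neg] at this)
    have n1 : 0 ≤ ∫ z, ‖fderiv ℝ W z‖ ^ 2 * ‖fderiv ℝ u z‖ ^ 2 :=
      integral_nonneg fun z => by positivity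
    have n2 := mul_nonneg (lam1_nonneg A) (lam1_nonneg B)
    calc _ ≤ lam1 A * lam1 B * (1 - t ^ 2 * ∫ z, ‖fderiv ℝ W z‖ ^ 2 * u z ^ 2) :=
          mul_le_mul_of_nonneg_left (by
            have := mul_le_mul_of_nonneg_left w3 (sq_nonneg t); linarith) n2
      _ ≤ _ := sh
      _ ≤ _ := pow_le_pow_left₀ (by have := En_nonneg u; positivity) (by
            have := mul_le_mul_of_nonneg_left w4 (sq_nonneg t); linarith) 2
  exact last hl0p hlow j1 j2 hρ hσ hsum key ht' e3 e6 hc1 hc3 hQ0 hda hda1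
    (hab.trans (hdb.trans (hL.trans_le hδ2)))

end Pool.Agent.MP_44cb5f_an

end MrgPart1

-- ======== part 2: formerly Pool.Agent.MP_44cb5f_an.Ims
section MrgPart2

set_option autoImplicit false
open MeasureTheory Set Metric

namespace Pool.Agent.MP_44cb5f_an

namespace Ims

/-- The square root of the weight. -/
noncomputable def ww (z0 : ℂ) (d : ℝ) (z : ℂ) : ℝ := (‖z - z0‖ ^ 2 + d ^ 2) ^ (-(3 / 8 : ℝ))

variable {z0 : ℂ} {d : ℝ}

theorem ww_sq (hd : 0 < d) (z : ℂ) : ww z0 d z ^ 2 = wt z0 d z := by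
  have h : 0 < ‖z - z0‖ ^ 2 + d ^ 2 := by positivity
  rw [ww, wt, sq, ← Real.rpow_add h]
  norm_num

theorem ww_contDiff (hd : 0 < d) : ContDiff ℝ 1 (ww z0 d) := by
  have h : ContDiff ℝ 1 fun z : ℂ => ‖z - z0‖ ^ 2 + d ^ 2 :=
    ((contDiff_id.sub contDiff_const).norm_sq ℝ).add contDiff_const
  exact h.rpow_const_of_ne fun z => by positivity

theorem ww_fderiv (hd : 0 < d) (z e : ℂ) :
    fderiv ℝ (ww z0 d) z e =
      -(3 / 4) * ww z0 d z / (‖z - z0‖ ^ 2 + d ^ 2) * dot (z - z0) e := by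
  have h : 0 < ‖z - z0‖ ^ 2 + d ^ 2 := by positivity
  have h1 := (((hasFDerivAt_id (𝕜 := ℝ) z).sub_const z0).norm_sq.add_const (d ^ 2)).rpow_const
    (p := -(3 / 8 : ℝ)) (Or.inl h.ne')
  have h2 : fderiv ℝ (ww z0 d) z = _ := h1.fderiv
  rw [h2, dot_eq_inner]
  simp only [id, smul_apply, ContinuousLinearMap.comp_apply,
    ContinuousLinearMap.id_apply, innerSL_apply_apply, smul_eq_mul, nsmul_eq_mul, Nat.cast_ofNat]
  rw [Real.rpow_sub_one h.ne', ww]
  ring

/-- Square of the gradient of `ww`. -/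
theorem grad_sq (hd : 0 < d) (z : ℂ) :
    fderiv ℝ (ww z0 d) z 1 ^ 2 + fderiv ℝ (ww z0 d) z Complex.I ^ 2 =
      9 / 16 * wt z0 d z * (‖z - z0‖ ^ 2 / (‖z - z0‖ ^ 2 + d ^ 2) ^ 2) := by
  rw [ww_fderiv hd, ww_fderiv hd, ← ww_sq hd]
  have h := norm_sq_eq (z - z0)
  have e1 : dot (z - z0) 1 = (z - z0).re := by simp [dot]
  have e2 : dot (z - z0) Complex.I = (z - z0).im := by simp [dot]
  rw [e1, e2]
  generalize ‖z - z0‖ ^ 2 + d ^ 2 = s
  rw [h]
  ring

theorem grad_le (hd : 0 < d) {z : ℂ} (hz : z ≠ z0) :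
    fderiv ℝ (ww z0 d) z 1 ^ 2 + fderiv ℝ (ww z0 d) z Complex.I ^ 2 ≤
      9 / 16 * (wt z0 d z / ‖z - z0‖ ^ 2) := by
  have h0 : 0 < ‖z - z0‖ ^ 2 := by have := norm_pos_iff.2 (sub_ne_zero.2 hz); positivity
  have h1 : ‖z - z0‖ ^ 2 / (‖z - z0‖ ^ 2 + d ^ 2) ^ 2 ≤ 1 / ‖z - z0‖ ^ 2 := by
    rw [div_le_div_iff₀ (by positivity) h0]
    nlinarith [sq_nonneg d, sq_nonneg (d ^ 2), mul_nonneg h0.le (sq_nonneg d)]
  have h2 := wt_pos z0 hd z
  rw [grad_sq hd, mul_assoc, div_eq_mul_one_div (wt z0 d z)]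
  gcongr

theorem exists_bound (z0 : ℂ) (hd : 0 < d) : ∃ M : ℝ, 0 < M ∧ ∀ z, wt z0 d z ≤ M ∧
    fderiv ℝ (ww z0 d) z 1 ^ 2 + fderiv ℝ (ww z0 d) z Complex.I ^ 2 ≤ M := by
  have hm : 0 < (d ^ 2) ^ (-(3 / 4 : ℝ)) := Real.rpow_pos_of_pos (by positivity) _
  have h1 : ∀ z, wt z0 d z ≤ (d ^ 2) ^ (-(3 / 4 : ℝ)) := fun z =>
    Real.rpow_le_rpow_of_nonpos (by positivity) (le_add_of_nonneg_left (by positivity))
      (by norm_num)
  refine ⟨(d ^ 2) ^ (-(3 / 4 : ℝ)) * (1 + 1 / d ^ 2), by positivity, fun z => ⟨?_, ?_⟩⟩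
  · exact (h1 z).trans (le_mul_of_one_le_right hm.le (le_add_of_nonneg_right (by positivity)))
  · have h2 : ‖z - z0‖ ^ 2 / (‖z - z0‖ ^ 2 + d ^ 2) ^ 2 ≤ 1 + 1 / d ^ 2 := by
      refine le_trans ?_ (le_add_of_nonneg_left zero_le_one)
      rw [div_le_div_iff₀ (by positivity) (by positivity)]
      nlinarith [sq_nonneg (‖z - z0‖ ^ 2), sq_nonneg (d ^ 2),
        mul_nonneg (sq_nonneg ‖z - z0‖) (sq_nonneg d)]
    have h3 := wt_pos z0 hd z
    rw [grad_sq hd]
    calc 9 / 16 * wt z0 d z * (‖z - z0‖ ^ 2 / (‖z - z0‖ ^ 2 + d ^ 2) ^ 2)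
        ≤ 1 * (d ^ 2) ^ (-(3 / 4 : ℝ)) * (1 + 1 / d ^ 2) := by
          gcongr
          · norm_num
          · exact h1 z
      _ = _ := by rw [one_mul]

theorem wt_split (hd : 0 < d) {z : ℂ} (hz : z ≠ z0) :
    wt z0 d z ≤ 1 / 16 * (wt z0 d z / ‖z - z0‖ ^ 2) + 8 := by
  have h0 : 0 < ‖z - z0‖ ^ 2 := by have := norm_pos_iff.2 (sub_ne_zero.2 hz); positivity
  have h2 := wt_pos z0 hd z
  rcases le_total (‖z - z0‖ ^ 2) (1 / 16) with h | h
  · have : wt z0 d z ≤ 1 / 16 * (wt z0 d z / ‖z - z0‖ ^ 2) := by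
      rw [← mul_div_assoc, le_div_iff₀ h0]
      nlinarith
    linarith
  · have h3 : wt z0 d z ≤ (1 / 16 : ℝ) ^ (-(3 / 4 : ℝ)) :=
      Real.rpow_le_rpow_of_nonpos (by norm_num) (h.trans (le_add_of_nonneg_right (by positivity)))
        (by norm_num)
    have h4 : (1 / 16 : ℝ) ^ (-(3 / 4 : ℝ)) = 8 := by
      rw [show (1 / 16 : ℝ) = 2 ^ (-4 : ℝ) by norm_num [Real.rpow_neg],
        ← Real.rpow_mul (by norm_num), show (-4 : ℝ) * -(3 / 4) = (3 : ℕ) by norm_num,
        Real.rpow_natCast]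
      norm_num
    have : 0 ≤ 1 / 16 * (wt z0 d z / ‖z - z0‖ ^ 2) := by positivity
    linarith

theorem integ {u F : ℂ → ℝ} (hc : HasCompactSupport u) (hF : ContinuousOn F (tsupport u))
    (h0 : ∀ z, z ∉ tsupport u → F z = 0) : Integrable F :=
  (integrableOn_iff_integrable_of_support_subset (s := tsupport u) fun z hz => by
    by_contra h; exact hz (h0 z h)).1 (hF.integrableOn_compact hc)

theorem fderiv_mul_apply {f g : ℂ → ℝ} (hf : ContDiff ℝ 1 f) (hg : ContDiff ℝ 1 g) (z e : ℂ) :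
    fderiv ℝ (fun z => f z * g z) z e = f z * fderiv ℝ g z e + g z * fderiv ℝ f z e := by
  rw [fderiv_fun_mul (hf.differentiable one_ne_zero z) (hg.differentiable one_ne_zero z)]
  simp

theorem cont_fd {f : ℂ → ℝ} (hf : ContDiff ℝ 1 f) (e : ℂ) : Continuous fun z => fderiv ℝ f z e :=
  (hf.continuous_fderiv one_ne_zero).clm_apply continuous_const

theorem fd_zero {u : ℂ → ℝ} {z : ℂ} (hz : z ∉ tsupport u) (e : ℂ) : fderiv ℝ u z e = 0 := by
  have : fderiv ℝ u z = 0 := by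
    by_contra h
    exact hz (support_fderiv_subset ℝ h)
  simp [this]

theorem lam_le {Ω : Set ℂ} {u : ℂ → ℝ} (h : SF Ω u) (hm : Ma u = 1) : lam1 Ω ≤ En u := by
  have h0 : u ≠ 0 := by
    rintro rfl
    simp [Ma] at hm
  refine csInf_le ⟨0, lam1_bdd Ω⟩ ⟨u, h.1, h.2.1, h.2.2, h0, ?_⟩
  change En u = En u / Ma u
  rw [hm, div_one]

end Ims

open Ims in
theorem sIms (hcs : SCS) (hh : SHalf) : SIms := by
  refine ⟨200, fun Ω z0 n d ho hl hn hd hΩ => ?_⟩
  obtain ⟨M, hM0, hM⟩ := exists_bound z0 hd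
  refine ⟨min 1 (1 / (14 * M ^ 2)), by positivity, fun u hu hm he => ?_⟩
  have hu1 := hu.contDiff_one
  have hc := hu.2.1
  have hw := ww_contDiff (z0 := z0) hd
  have u0 : ∀ z, z ∉ tsupport u → u z = 0 := fun z hz => image_eq_zero_of_notMem_tsupport hz
  have hne : ∀ z ∈ tsupport u, z ≠ z0 := by
    rintro z hz rfl
    simpa [dot] using hΩ z (hu.2.2 hz)
  set w := ww z0 d with hwdef
  have hp : ContDiff ℝ 1 fun z => w z * u z := hw.mul hu1
  have hpc : HasCompactSupport fun z => w z * u z := hc.mul_left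
  have hps : tsupport (fun z => w z * u z) ⊆ tsupport u := tsupport_mul_subset_right
  have hv : ContDiff ℝ 1 fun z => w z * (w z * u z) := hw.mul hp
  have hvc : HasCompactSupport fun z => w z * (w z * u z) := hpc.mul_left
  have hvs : tsupport (fun z => w z * (w z * u z)) ⊆ tsupport u :=
    (tsupport_mul_subset_right (f := w) (g := fun z => w z * u z)).trans hps
  have cu := hu1.continuous
  have cw := hw.continuous
  have cu1 := cont_fd hu1 1
  have cu2 := cont_fd hu1 Complex.I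
  have cw1 := cont_fd hw 1
  have cw2 := cont_fd hw Complex.I
  have cwt := wt_continuous z0 hd
  have hsq : ∀ z, w z ^ 2 = wt z0 d z := ww_sq hd
  -- the integrals
  set G : ℂ → ℝ := fun z => fderiv ℝ w z 1 ^ 2 + fderiv ℝ w z Complex.I ^ 2 with hG
  have iX : Integrable fun z => ‖fderiv ℝ (fun z => w z * u z) z‖ ^ 2 :=
    (TF_of_contDiff hp hpc (subset_univ _)).integrable_grad
  have iV : Integrable fun z => ‖fderiv ℝ (fun z => w z * (w z * u z)) z‖ ^ 2 :=
    (TF_of_contDiff hv hvc (subset_univ _)).integrable_grad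
  have iU : Integrable fun z => ‖fderiv ℝ u z‖ ^ 2 := hu.tf.integrable_grad
  have iM : Integrable fun z => u z ^ 2 := hu.tf.integrable_sq
  have iY : Integrable fun z => u z ^ 2 * G z :=
    integ hc (Continuous.continuousOn (by fun_prop)) fun z hz => by simp [u0 z hz]
  have iZ : Integrable fun z => wt z0 d z * u z ^ 2 :=
    integ hc (Continuous.continuousOn (by fun_prop)) fun z hz => by simp [u0 z hz]
  have iW : Integrable fun z => wt z0 d z * ‖fderiv ℝ u z‖ ^ 2 := by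
    have := hu1.continuous_fderiv one_ne_zero
    exact integ hc (Continuous.continuousOn (by fun_prop)) fun z hz => by
      rw [clm_norm_sq, fd_zero hz, fd_zero hz]; simp
  have iH : Integrable fun z => (w z * u z) ^ 2 / ‖z - z0‖ ^ 2 := by
    refine integ hc (ContinuousOn.div (Continuous.continuousOn (by fun_prop))
      (Continuous.continuousOn (by fun_prop)) fun z hz => ?_) fun z hz => by simp [u0 z hz]
    exact pow_ne_zero 2 (norm_ne_zero_iff.2 (sub_ne_zero.2 (hne z hz)))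
  set X := En fun z => w z * u z with hX
  set Y := ∫ z, u z ^ 2 * G z with hY
  set Z := ∫ z, wt z0 d z * u z ^ 2 with hZ
  set H := ∫ z, (w z * u z) ^ 2 / ‖z - z0‖ ^ 2 with hH
  have h1 : H ≤ X := hh _ z0 n hp hpc hn fun z hz => hΩ z (hu.2.2 (hps hz))
  have h2 : Y ≤ 9 / 16 * H := by
    rw [hY, hH, ← integral_const_mul]
    refine integral_mono iY (iH.const_mul _) fun z => ?_
    by_cases hz : z ∈ tsupport u
    · have := mul_le_mul_of_nonneg_left (grad_le hd (hne z hz)) (sq_nonneg (u z))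
      refine this.trans (le_of_eq ?_)
      simp only [mul_pow, hsq]
      ring
    · simp [u0 z hz]
  have h3 : Z ≤ 1 / 16 * H + 8 := by
    have e : 1 / 16 * H + 8 = ∫ z, (1 / 16 * ((w z * u z) ^ 2 / ‖z - z0‖ ^ 2) + 8 * u z ^ 2) := by
      rw [integral_add (iH.const_mul _) (iM.const_mul _), integral_const_mul, integral_const_mul]
      change _ = 1 / 16 * H + 8 * Ma u
      rw [hm, mul_one]
    rw [e]
    refine integral_mono iZ ((iH.const_mul _).add (iM.const_mul _)) fun z => ?_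
    by_cases hz : z ∈ tsupport u
    · have := mul_le_mul_of_nonneg_right (wt_split hd (hne z hz)) (sq_nonneg (u z))
      refine this.trans (le_of_eq ?_)
      simp only [mul_pow, hsq]
      ring
    · simp [u0 z hz]
  have hB : Bq (lam1 Ω) u (fun z => w z * (w z * u z)) = X - Y - lam1 Ω * Z := by
    rw [Bq, hX, hY, hZ, En, ← integral_sub iX iY]
    congr 2
    · funext z
      rw [clm_norm_sq]
      simp only [fderiv_mul_apply hw hp, fderiv_mul_apply hw hu1, hG]
      ring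
    · congr 1
      funext z
      rw [← hsq]
      ring
  have hl0 := lam1_nonneg Ω
  have hE : En u ≤ 3 := by have := min_le_left 1 (1 / (14 * M ^ 2)); linarith
  have hV : En (fun z => w z * (w z * u z)) ≤ 14 * M ^ 2 := by
    have e : En (fun z => w z * (w z * u z)) ≤
        ∫ z, (2 * M ^ 2 * ‖fderiv ℝ u z‖ ^ 2 + 8 * M ^ 2 * u z ^ 2) := by
      refine integral_mono iV ((iU.const_mul _).add (iM.const_mul _)) fun z => ?_
      simp only [clm_norm_sq, fderiv_mul_apply hw hp, fderiv_mul_apply hw hu1]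
      obtain ⟨b1, b2⟩ := hM z
      rw [← hsq] at b1
      have b3 : (w z ^ 2) ^ 2 ≤ M ^ 2 := pow_le_pow_left₀ (sq_nonneg _) b1 2
      have b4 : w z ^ 2 * (fderiv ℝ w z 1 ^ 2 + fderiv ℝ w z Complex.I ^ 2) ≤ M ^ 2 := by
        rw [sq M]
        exact mul_le_mul b1 b2 (by positivity) hM0.le
      generalize fderiv ℝ u z 1 = a at *
      generalize fderiv ℝ u z Complex.I = a' at *
      generalize fderiv ℝ w z 1 = c at *
      generalize fderiv ℝ w z Complex.I = c' at *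
      generalize w z = p at *
      generalize u z = q at *
      have b5 := mul_le_mul_of_nonneg_right b3 (add_nonneg (sq_nonneg a) (sq_nonneg a'))
      have b6 := mul_le_mul_of_nonneg_right b4 (sq_nonneg q)
      nlinarith [sq_nonneg (p ^ 2 * a - 2 * p * q * c), sq_nonneg (p ^ 2 * a' - 2 * p * q * c')]
    rw [integral_add (iU.const_mul _) (iM.const_mul _), integral_const_mul,
      integral_const_mul] at e
    change _ ≤ 2 * M ^ 2 * En u + 8 * M ^ 2 * Ma u at e
    rw [hm] at e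
    nlinarith [sq_nonneg M]
  have h4 : X - Y - lam1 Ω * Z ≤ 1 := by
    have b1 := hcs Ω u _ ho hu.tf (TF_of_contDiff hv hvc (hvs.trans hu.2.2))
    rw [hB, hm, mul_one] at b1
    have b2 := lam_le hu hm
    have b3 := mul_nonneg hl0 (Ma_nonneg fun z => w z * (w z * u z))
    have b4 : En u - lam1 Ω ≤ 1 / (14 * M ^ 2) := by
      have := min_le_right 1 (1 / (14 * M ^ 2)); linarith
    have b5 : (En u - lam1 Ω) * (En (fun z => w z * (w z * u z)) -
        lam1 Ω * Ma fun z => w z * (w z * u z)) ≤ 1 / (14 * M ^ 2) * (14 * M ^ 2) :=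
      (mul_le_mul_of_nonneg_left (by linarith) (by linarith)).trans
        (mul_le_mul_of_nonneg_right b4 (by positivity))
    rw [one_div_mul_cancel (by positivity)] at b5
    nlinarith
  have hZ0 : 0 ≤ Z := integral_nonneg fun z => mul_nonneg (wt_pos z0 hd z).le (sq_nonneg _)
  have h5 : lam1 Ω * Z ≤ 2 * Z := mul_le_mul_of_nonneg_right hl hZ0
  have h6 : ∫ z, wt z0 d z * ‖fderiv ℝ u z‖ ^ 2 ≤ 2 * X + 2 * Y := by
    rw [hX, hY, En, ← integral_const_mul, ← integral_const_mul,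
      ← integral_add (iX.const_mul _) (iY.const_mul _)]
    refine integral_mono iW ((iX.const_mul _).add (iY.const_mul _)) fun z => ?_
    simp only [clm_norm_sq, fderiv_mul_apply hw hu1, hG, ← hsq]
    nlinarith [sq_nonneg (w z * fderiv ℝ u z 1 + 2 * u z * fderiv ℝ w z 1),
      sq_nonneg (w z * fderiv ℝ u z Complex.I + 2 * u z * fderiv ℝ w z Complex.I)]
  constructor <;> linarith

end Pool.Agent.MP_44cb5f_an

end MrgPart2

-- ======== part 3: formerly Pool.Agent.MP_44cb5f_an.Od3a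
section MrgPart3

set_option autoImplicit false
open MeasureTheory Set Metric Filter Topology

namespace Pool.Agent.MP_44cb5f_an
namespace Od3

theorem act_mono (E : Env) {p p' x x' : ℝ} (h : (p, E.g x - p * x) ∈ E.F)
    (h' : (p', E.g x' - p' * x') ∈ E.F) (hx : x < x') : p ≤ p' := by
  have h1 := E.g_ge _ h x'
  have h2 := E.g_ge _ h' x
  simp only at h1 h2
  by_contra hc
  push Not at hc
  nlinarith [mul_pos (sub_pos.2 hc) (sub_pos.2 hx)]

theorem act_closure (E : Env) (hg : Continuous E.g) {P1 P2 β : ℝ}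
    (hβ : β ∈ closure {x | E.sl x ∈ Icc P1 P2}) :
    ∃ p ∈ Icc P1 P2, (p, E.g β - p * β) ∈ E.F := by
  obtain ⟨x, hx, hlim⟩ := mem_closure_iff_seq_limit.1 hβ
  obtain ⟨p, hp, φ, hφ, hl⟩ := isCompact_Icc.tendsto_subseq (x := fun n => E.sl (x n)) hx
  refine ⟨p, hp, E.closed.mem_of_tendsto (b := atTop)
    (f := fun n => (E.sl (x (φ n)), E.g (x (φ n)) - E.sl (x (φ n)) * x (φ n))) ?_
    (Eventually.of_forall fun n => E.g_eq _)⟩
  have hx' : Tendsto (fun n => x (φ n)) atTop (𝓝 β) := hlim.comp hφ.tendsto_atTop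
  exact hl.prodMk_nhds (((hg.tendsto β).comp hx').sub (hl.mul hx'))

theorem gap_right (h : SOD1) (E : Env) {p ρ β : ℝ} (hp : (p, E.g β - p * β) ∈ E.F)
    (hρ : ∀ y, β < y → ρ ≤ E.sl y) :
    ∀ u ∈ Ioo (β + p / ph p) (β + p / ph p + (ρ - p) / 50), E.sf u = p := by
  obtain ⟨-, -, -, -, hact, -, hR⟩ := h E
  have hno : ∀ l ∈ E.F, ¬ (p < l.1 ∧ l.1 < ρ) := by
    rintro l hl ⟨h1, h2⟩
    obtain ⟨p', x', hsa, hd⟩ := E.dense l hl (min (l.1 - p) (ρ - l.1))
      (lt_min (sub_pos.2 h1) (sub_pos.2 h2))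
    have hd1 := (abs_lt.1 (hd.trans_le (min_le_left _ _))).1
    have hd2 := (abs_lt.1 (hd.trans_le (min_le_right _ _))).2
    rcases lt_trichotomy x' β with hx | hx | hx
    · have := act_mono E hsa.1 hp hx; linarith
    · rw [hx] at hsa; have := hsa.2 p hp; linarith
    · have h3 := hsa.2 _ (E.g_eq x'); have := hρ x' hx; linarith
  intro u hu
  have h1 : p ≤ E.sf u := (hact p β hp).2.2 u hu.1
  by_contra hne
  have h2 : p < E.sf u := lt_of_le_of_ne h1 (Ne.symm hne)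
  have h3 : ρ ≤ E.sf u := by
    by_contra hc
    exact hno _ (E.f_eq u) ⟨h2, not_le.1 hc⟩
  have h4 := E.g_ge _ (E.f_eq u) β
  have h5 := E.f_ge _ hp u
  have hp1 := E.slope _ hp
  have hp2 := E.slope _ (E.f_eq u)
  simp only at h4 h5 hp1 hp2
  have h6 := (hR p (E.sf u - p) hp1 (by
    rw [abs_le] at *; constructor <;> linarith [hp1.1, hp1.2, hp2.1, hp2.2])).1
  rw [add_sub_cancel] at h6
  have h7 := hu.2
  set s := E.sf u - p with hs
  have hs0 : 0 < s := sub_pos.2 h2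
  have h8 : s * (u - β) ≥ p / ph p * s + s ^ 2 / 50 := by rw [hs] at *; nlinarith
  have h9 : u - β < p / ph p + s / 50 := by rw [hs]; linarith
  nlinarith [mul_lt_mul_of_pos_left h9 hs0]

theorem gap_left (h : SOD1) (E : Env) {p ρ α : ℝ} (hp : (p, E.g α - p * α) ∈ E.F)
    (hρ : ∀ y, y < α → E.sl y ≤ ρ) :
    ∀ u ∈ Ioo (α + p / ph p - (p - ρ) / 50) (α + p / ph p), E.sf u = p := by
  obtain ⟨-, -, -, -, hact, -, hR⟩ := h E
  have hno : ∀ l ∈ E.F, ¬ (ρ < l.1 ∧ l.1 < p) := by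
    rintro l hl ⟨h1, h2⟩
    obtain ⟨p', x', hsa, hd⟩ := E.dense l hl (min (l.1 - ρ) (p - l.1))
      (lt_min (sub_pos.2 h1) (sub_pos.2 h2))
    have hd1 := (abs_lt.1 (hd.trans_le (min_le_left _ _))).1
    have hd2 := (abs_lt.1 (hd.trans_le (min_le_right _ _))).2
    rcases lt_trichotomy x' α with hx | hx | hx
    · have h3 := hsa.2 _ (E.g_eq x'); have := hρ x' hx; linarith
    · rw [hx] at hsa; have := hsa.2 p hp; linarith
    · have := act_mono E hp hsa.1 hx; linarith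
  intro u hu
  have h1 : E.sf u ≤ p := (hact p α hp).2.1 u hu.2
  by_contra hne
  have h2 : E.sf u < p := lt_of_le_of_ne h1 hne
  have h3 : E.sf u ≤ ρ := by
    by_contra hc
    exact hno _ (E.f_eq u) ⟨not_le.1 hc, h2⟩
  have h4 := E.g_ge _ (E.f_eq u) α
  have h5 := E.f_ge _ hp u
  have hp1 := E.slope _ hp
  have hp2 := E.slope _ (E.f_eq u)
  simp only at h4 h5 hp1 hp2
  have h6 := (hR p (E.sf u - p) hp1 (by
    rw [abs_le] at *; constructor <;> linarith [hp1.1, hp1.2, hp2.1, hp2.2])).1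
  rw [add_sub_cancel] at h6
  have h7 := hu.1
  set s := p - E.sf u with hs
  have hs0 : 0 < s := sub_pos.2 h2
  have h8 : s * (α - u) ≥ -(p / ph p) * s + s ^ 2 / 50 := by rw [hs] at *; nlinarith
  have h9 : α - u < -(p / ph p) + s / 50 := by rw [hs]; linarith
  nlinarith [mul_lt_mul_of_pos_left h9 hs0]

theorem len_le {S : Set ℝ} (hS : volume S ≠ ⊤) {a b : ℝ} (h : Ioo a b ⊆ S) :
    b - a ≤ (volume S).toReal := by
  have h1 := ENNReal.toReal_mono hS (measure_mono (μ := volume) h)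
  rw [Real.volume_Ioo] at h1
  exact (le_max_left _ _).trans (by rwa [ENNReal.toReal_ofReal'] at h1)

/-- The total turning of the slope across the plateau is bounded by the plateau length. -/
theorem turn (h : SOD1) (E : Env) {P1 P2 α β : ℝ} (hαβ : α ≤ β)
    (hα : α ∈ closure {x | E.sl x ∈ Icc P1 P2}) (hβ : β ∈ closure {x | E.sl x ∈ Icc P1 P2})
    (hfin : volume {u | E.sf u ∈ Icc P1 P2} ≠ ⊤)
    (he : 0 < (volume {u | E.sf u ∈ Icc P1 P2}).toReal) :
    ∃ τ0 > 0, ∀ τ, τ ≤ τ0 → E.sl (β + τ) - E.sl (α - τ) ≤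
      127 * (volume {u | E.sf u ∈ Icc P1 P2}).toReal := by
  obtain ⟨msl, -, glip, -, hact, -, hR⟩ := h E
  have hg : Continuous E.g := (LipschitzWith.of_dist_le_mul (K := 1) fun x y => by
    simpa [Real.dist_eq] using glip x y).continuous
  set e := (volume {u | E.sf u ∈ Icc P1 P2}).toReal with hedef
  obtain ⟨pa, hpa, ha⟩ := act_closure E hg hα
  obtain ⟨pb, hpb, hb⟩ := act_closure E hg hβ
  have hsl : ∀ y, |E.sl y| ≤ 1 := fun y => E.slope _ (E.g_eq y)
  have bb : BddBelow (E.sl '' Ioi β) := ⟨-1, by rintro _ ⟨y, -, rfl⟩; exact (abs_le.1 (hsl y)).1⟩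
  have ba : BddAbove (E.sl '' Iio α) := ⟨1, by rintro _ ⟨y, -, rfl⟩; exact (abs_le.1 (hsl y)).2⟩
  have g1 := gap_right h E hb (ρ := sInf (E.sl '' Ioi β)) fun y hy => csInf_le bb ⟨y, hy, rfl⟩
  have g2 := gap_left h E ha (ρ := sSup (E.sl '' Iio α)) fun y hy => le_csSup ba ⟨y, hy, rfl⟩
  have l1 := len_le hfin (fun u hu => (by show E.sf u ∈ Icc P1 P2; rw [g1 u hu]; exact hpb :
    u ∈ {u | E.sf u ∈ Icc P1 P2}))
  have l2 := len_le hfin (fun u hu => (by show E.sf u ∈ Icc P1 P2; rw [g2 u hu]; exact hpa :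
    u ∈ {u | E.sf u ∈ Icc P1 P2}))
  have l3 := len_le hfin (a := α + pa / ph pa) (b := β + pb / ph pb) (fun u hu =>
    (⟨hpa.1.trans ((hact pa α ha).2.2 u hu.1), ((hact pb β hb).2.1 u hu.2).trans hpb.2⟩ :
    u ∈ {u | E.sf u ∈ Icc P1 P2}))
  have hpa1 : |pa| ≤ 1 := E.slope _ ha
  have hpb1 : |pb| ≤ 1 := E.slope _ hb
  have l4 : pb - pa ≤ 25 * e := by
    by_cases hc : pb ≤ pa
    · linarith
    push Not at hc
    have r1 := (hR pa (pb - pa) hpa1 (by
      rw [abs_le] at *; constructor <;> linarith [hpa1.1, hpa1.2, hpb1.1, hpb1.2])).1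
    have r2 := (hR pb (pa - pb) hpb1 (by
      rw [abs_le] at *; constructor <;> linarith [hpa1.1, hpa1.2, hpb1.1, hpb1.2])).1
    rw [add_sub_cancel] at r1 r2
    have hs0 : 0 < pb - pa := sub_pos.2 hc
    have r3 : (pb - pa) * ((pb - pa) / 25) ≤ (pb - pa) * (pb / ph pb - pa / ph pa) := by nlinarith
    have := le_of_mul_le_mul_left r3 hs0
    linarith
  obtain ⟨_, ⟨y2, hy2, rfl⟩, hy2'⟩ := exists_lt_of_csInf_lt (s := E.sl '' Ioi β)
    ⟨_, β + 1, by simp, rfl⟩ (show sInf (E.sl '' Ioi β) < sInf (E.sl '' Ioi β) + e by linarith)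
  obtain ⟨_, ⟨y1, hy1, rfl⟩, hy1'⟩ := exists_lt_of_lt_csSup (s := E.sl '' Iio α)
    ⟨_, α - 1, by simp, rfl⟩ (show sSup (E.sl '' Iio α) - e < sSup (E.sl '' Iio α) by linarith)
  refine ⟨min (y2 - β) (α - y1), lt_min (sub_pos.2 hy2) (sub_pos.2 hy1), fun τ hτ => ?_⟩
  have m1 : E.sl (β + τ) ≤ E.sl y2 := msl (by linarith [hτ.trans (min_le_left _ _)])
  have m2 : E.sl y1 ≤ E.sl (α - τ) := msl (by linarith [hτ.trans (min_le_right _ _)])
  linarith

theorem shift {h : ℝ → ℝ} (hi : ∀ a b, IntervalIntegrable h volume a b) (α β τ : ℝ) :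
    ∫ x in (α - τ)..β, (h (x + τ) - h x) =
      ∫ x in (α - τ)..α, (h (x + (β - α + τ)) - h x) := by
  have i1 : ∀ a b c, IntervalIntegrable (fun x => h (x + c)) volume a b := fun a b c => by
    simpa using (hi (a + c) (b + c)).comp_add_right c
  rw [intervalIntegral.integral_sub (i1 _ _ _) (hi _ _),
    intervalIntegral.integral_sub (i1 _ _ _) (hi _ _),
    intervalIntegral.integral_comp_add_right, intervalIntegral.integral_comp_add_right]
  have e1 : α - τ + τ = α := by ring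
  have e2 : α - τ + (β - α + τ) = β := by ring
  have e3 : α + (β - α + τ) = β + τ := by ring
  rw [e1, e2, e3, ← intervalIntegral.integral_add_adjacent_intervals (hi α β) (hi β (β + τ)),
    ← intervalIntegral.integral_add_adjacent_intervals (hi (α - τ) α) (hi α β)]
  ring

theorem ii_of_bdd {h : ℝ → ℝ} (hm : Measurable h) {a b C : ℝ} (hb : ∀ x ∈ uIcc a b, |h x| ≤ C) :
    IntervalIntegrable h volume a b := by
  refine (Measure.integrableOn_of_bounded (M := C) (s := uIcc a b)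
    isCompact_uIcc.measure_lt_top.ne hm.aestronglyMeasurable ?_).intervalIntegrable
  exact (ae_restrict_iff' measurableSet_uIcc).2 (Eventually.of_forall hb)

theorem plateau {k : ℝ → ℝ} {S : Set ℝ} (hS : MeasurableSet S) {s1 s2 a : ℝ} (hs : s1 ≤ s2)
    (hi : IntervalIntegrable k volume s1 s2) (hsub : S ⊆ Icc s1 s2)
    (h0 : ∀ u ∈ Ioo s1 s2, 0 ≤ k u) (h1 : ∀ u ∈ Ioo s1 s2, u ∈ S → k u = a) :
    a * (volume S).toReal ≤ ∫ u in s1..s2, k u := by
  rw [intervalIntegral.integral_of_le hs, integral_Ioc_eq_integral_Ioo]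
  have hi' : IntegrableOn k (Ioo s1 s2) := hi.1.mono_set Ioo_subset_Ioc_self
  have e1 : volume (S ∩ Ioo s1 s2) = volume S := by
    have : (S ∩ Ioo s1 s2 : Set ℝ) =ᵐ[volume] (S ∩ Icc s1 s2 : Set ℝ) :=
      ae_eq_set_inter (ae_eq_refl _) Ioo_ae_eq_Icc
    rw [measure_congr this, inter_eq_left.2 hsub]
  calc a * (volume S).toReal = ∫ _ in S ∩ Ioo s1 s2, a := by
        rw [setIntegral_const, smul_eq_mul, Measure.real, e1, mul_comm]
    _ = ∫ u in S ∩ Ioo s1 s2, k u :=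
        setIntegral_congr_fun (hS.inter measurableSet_Ioo) fun u hu => (h1 u hu.2 hu.1).symm
    _ ≤ ∫ u in Ioo s1 s2, k u :=
        setIntegral_mono_set hi' ((ae_restrict_iff' measurableSet_Ioo).2 (Eventually.of_forall h0))
          (inter_subset_right.eventuallyLE)

end Od3
end Pool.Agent.MP_44cb5f_an

end MrgPart3

-- ======== part 4: formerly Pool.Agent.MP_44cb5f_an.Od3
section MrgPart4

set_option autoImplicit false
open MeasureTheory Set Metric Filter Topology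

namespace Pool.Agent.MP_44cb5f_an
namespace Od3

theorem ph_cont : Continuous ph := by unfold ph; fun_prop

theorem abs_div_ph (p : ℝ) : |p / ph p| ≤ 1 := by
  rw [abs_div, abs_of_pos (ph_pos p), div_le_one (ph_pos p)]
  exact abs_le_of_sq_le_sq' (by rw [ph_sq]; linarith) (ph_pos p).le |> abs_le.2

/-- The integrand of the gain. -/
noncomputable def gI (E : Env) (q V : ℝ → ℝ) (t : ℝ) (y : ℝ → ℝ) (x : ℝ) : ℝ :=
  E.Lam q V t (y x) x + E.Lam q V (-t) x x - 2 * E.g x

theorem lam_meas (h : SOD1) (E : Env) {q V y : ℝ → ℝ} (hq : Continuous q) (hV : Continuous V)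
    (hy : Measurable y) (t : ℝ) : Measurable fun x => E.Lam q V t (y x) x := by
  obtain ⟨msl, -, glip, -, -, -, -⟩ := h E
  have hg : Measurable E.g := (LipschitzWith.of_dist_le_mul (K := 1) fun x y => by
    simpa [Real.dist_eq] using glip x y).continuous.measurable
  have h1 : Measurable fun x => E.sl (y x) := msl.measurable.comp hy
  have h2 : Measurable fun x => ph (E.sl (y x)) := ph_cont.measurable.comp h1
  have h3 : Measurable fun x => q (E.sl (y x)) := hq.measurable.comp h1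
  have h4 : Measurable fun x => V (E.ct (y x)) := hV.measurable.comp (hy.add (h1.div h2))
  have h5 : Measurable fun x => ph (E.sl (y x) + t * q (E.sl (y x))) :=
    ph_cont.measurable.comp (h1.add (h3.const_mul t))
  have h6 : Measurable fun x => x - y x := measurable_id.sub hy
  exact (((hg.comp hy).add (h1.mul h6)).add ((h4.add (h3.mul h6)).const_mul t)).add
    ((h5.sub h2).sub ((h1.div h2).mul (h3.const_mul t)))

theorem gI_ii (h : SOD1) (E : Env) {q V y : ℝ → ℝ} (hq : Continuous q) (hV : Continuous V)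
    (hy : Measurable y) {t M τ : ℝ} (hM : ∀ p, |p| ≤ 1 → |q p| ≤ M)
    (hVl : ∀ u v, |V u - V v| ≤ M * |u - v|) (ht : 0 ≤ t) (htM : t * M ≤ 2)
    (hyτ : ∀ x, |y x - x| ≤ τ) (A B : ℝ) : IntervalIntegrable (gI E q V t y) volume A B := by
  have m1 := lam_meas h E hq hV hy t
  have m2 := lam_meas h E hq hV measurable_id (-t)
  obtain ⟨-, -, glip, -, -, -, hR⟩ := h E
  have hg : Measurable E.g := (LipschitzWith.of_dist_le_mul (K := 1) fun x y => by
    simpa [Real.dist_eq] using glip x y).continuous.measurable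
  refine ii_of_bdd (h := gI E q V t y) ((m1.add m2).sub (hg.const_mul 2))
    (C := 2 * τ + 2 * (τ + 2) + 2 * τ + 8) fun x _ => ?_
  have s1 : |E.sl (y x)| ≤ 1 := E.slope _ (E.g_eq _)
  have s2 : |E.sl x| ≤ 1 := E.slope _ (E.g_eq _)
  have q1 := hM _ s1
  have q2 := hM _ s2
  have hM0 : 0 ≤ M := (abs_nonneg _).trans q1
  have t1 : |t * q (E.sl (y x))| ≤ 2 := by
    rw [abs_mul, abs_of_nonneg ht]; nlinarith
  have t2 : |-t * q (E.sl x)| ≤ 2 := by
    rw [abs_mul, abs_neg, abs_of_nonneg ht]; nlinarith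
  have r1 := hR _ _ s1 t1
  have r2 := hR _ _ s2 t2
  have r1' : (t * q (E.sl (y x))) ^ 2 ≤ 4 := by
    have := sq_le_sq' (abs_le.1 t1).1 (abs_le.1 t1).2; linarith
  have r2' : (-t * q (E.sl x)) ^ 2 ≤ 4 := by
    have := sq_le_sq' (abs_le.1 t2).1 (abs_le.1 t2).2; linarith
  have b0 := hyτ x
  have b0' : |x - y x| ≤ τ := by rwa [abs_sub_comm]
  have b1 := (glip (y x) x).trans b0
  have b2 : |E.sl (y x) * (x - y x)| ≤ τ := by
    rw [abs_mul]; nlinarith [abs_nonneg (x - y x), abs_nonneg (E.sl (y x))]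
  have b3 : |E.ct (y x) - E.ct x| ≤ τ + 2 := by
    have c1 := abs_div_ph (E.sl (y x))
    have c2 := abs_div_ph (E.sl x)
    unfold Env.ct
    rw [abs_le] at *
    constructor <;> linarith [c1.1, c1.2, c2.1, c2.2, b0.1, b0.2]
  have b4 : |t * (V (E.ct (y x)) - V (E.ct x))| ≤ 2 * (τ + 2) := by
    rw [abs_mul, abs_of_nonneg ht]
    have := (hVl (E.ct (y x)) (E.ct x)).trans (mul_le_mul_of_nonneg_left b3 hM0)
    have h0 : 0 ≤ τ + 2 := (abs_nonneg _).trans b3
    nlinarith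
  have b5 : |t * q (E.sl (y x)) * (x - y x)| ≤ 2 * τ := by
    rw [abs_mul]; nlinarith [abs_nonneg (x - y x), abs_nonneg (t * q (E.sl (y x)))]
  simp only [gI, Env.Lam]
  rw [abs_le] at b1 b2 b4 b5 ⊢
  constructor <;> linarith [sq_nonneg (t * q (E.sl (y x))), sq_nonneg (-t * q (E.sl x)), r1.1,
    r1.2, r2.1, r2.2, b1.1, b1.2, b2.1, b2.2, b4.1, b4.2, b5.1, b5.2]

theorem gI_lower (h : SOD1) (E : Env) {q V y : ℝ → ℝ} {t M : ℝ} (hM : ∀ p, |p| ≤ 1 → |q p| ≤ M)
    (ht : 0 ≤ t) (htM : t * M ≤ 2) (x : ℝ) :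
    (y x - x) * (E.sl x - E.sl (y x)) + t * (V (E.ct (y x)) - V (E.ct x))
      - t * (y x - x) * q (E.sl (y x))
      + ((t * q (E.sl (y x))) ^ 2 + (t * q (E.sl x)) ^ 2) / 50 ≤ gI E q V t y x := by
  obtain ⟨-, -, -, -, -, -, hR⟩ := h E
  have s1 : |E.sl (y x)| ≤ 1 := E.slope _ (E.g_eq _)
  have s2 : |E.sl x| ≤ 1 := E.slope _ (E.g_eq _)
  have q1 := hM _ s1
  have q2 := hM _ s2
  have t1 : |t * q (E.sl (y x))| ≤ 2 := by
    rw [abs_mul, abs_of_nonneg ht]; nlinarith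
  have t2 : |-t * q (E.sl x)| ≤ 2 := by
    rw [abs_mul, abs_neg, abs_of_nonneg ht]; nlinarith
  have r1 := (hR _ _ s1 t1).1
  have r2 := (hR _ _ s2 t2).1
  have g1 := E.g_ge _ (E.g_eq x) (y x)
  simp only [gI, Env.Lam] at *
  nlinarith

theorem three {k : ℝ → ℝ} (hi : ∀ a b, IntervalIntegrable k volume a b) {A a b B : ℝ}
    (h1 : A ≤ a) (h2 : b ≤ B) (k1 : ∀ x ∈ Ioo A a, 0 ≤ k x) (k2 : ∀ x ∈ Ioo b B, 0 ≤ k x) :
    ∫ x in a..b, k x ≤ ∫ x in A..B, k x := by
  rw [← intervalIntegral.integral_add_adjacent_intervals (hi A a) (hi a B),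
    ← intervalIntegral.integral_add_adjacent_intervals (hi a b) (hi b B)]
  have p1 := intervalIntegral.integral_mono_on_of_le_Ioo h1
    (intervalIntegrable_const (c := (0 : ℝ))) (hi A a) k1
  have p2 := intervalIntegral.integral_mono_on_of_le_Ioo h2
    (intervalIntegrable_const (c := (0 : ℝ))) (hi b B) k2
  simp only [intervalIntegral.integral_const, smul_zero] at p1 p2
  linarith

end Od3
open Od3

theorem sOD3 (h : SOD1) : SOD3 := by
  refine ⟨1 / 10000, by norm_num, ?_⟩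
  intro E qa qb L a P1 P2 u0 yL yL' yR' yR x0 hLa hLb ha hqa hqb hpl hb0 hyL hyR hP1 hP2 hx0 he
  obtain ⟨msl, msf, glip, -, hact, -, -⟩ := h E
  set Pl := {u | E.sf u ∈ Icc P1 P2} with hPl
  set e := (volume Pl).toReal with hedef
  set q : ℝ → ℝ := fun p => qa p - qb p with hqdef
  set V : ℝ → ℝ := fun u => ∫ w in u0..u, (qa (E.sf w) - qb (E.sf w)) with hVdef
  set M : ℝ := a + |qb 0| + L with hMdef
  have hq : Continuous q := hLa.continuous.sub hLb.continuous
  have hM : ∀ p, |p| ≤ 1 → |q p| ≤ M := fun p hp => by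
    have h1 := hLb.dist_le_mul p 0
    rw [Real.dist_eq, Real.dist_eq, sub_zero] at h1
    have h2 : |qb p - qb 0| ≤ L := h1.trans (mul_le_of_le_one_right L.coe_nonneg hp)
    have h3 := hqa p
    have h4 := le_abs_self (qb 0)
    have h5 := hqb p
    rw [abs_le] at *
    constructor <;> simp only [hqdef, hMdef] <;> linarith [L.coe_nonneg, abs_nonneg (qb 0)]
  have hM0 : 0 < M := by positivity
  have hsf : ∀ u, |E.sf u| ≤ 1 := fun u => E.slope _ (E.f_eq u)
  have hsl : ∀ u, |E.sl u| ≤ 1 := fun u => E.slope _ (E.g_eq u)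
  have iq : ∀ s1 s2, IntervalIntegrable (fun w => qa (E.sf w) - qb (E.sf w)) volume s1 s2 :=
    fun s1 s2 => ii_of_bdd (hq.measurable.comp msf.measurable) fun x _ => hM _ (hsf x)
  have hVd : ∀ u v, V u - V v = ∫ w in v..u, (qa (E.sf w) - qb (E.sf w)) := fun u v =>
    intervalIntegral.integral_interval_sub_left (iq _ _) (iq _ _)
  have hVl : ∀ u v, |V u - V v| ≤ M * |u - v| := fun u v => by
    rw [hVd, ← Real.norm_eq_abs]
    exact intervalIntegral.norm_integral_le_of_norm_le_const fun x _ => hM _ (hsf x)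
  have hV : Continuous V :=
    (LipschitzWith.of_dist_le_mul (K := ⟨M, hM0.le⟩) fun x y => hVl x y).continuous
  set X := {x | E.sl x ∈ Icc P1 P2} with hX
  have XL : ∀ x ∈ X, yL' ≤ x := fun x hx => by
    by_contra hc
    have := msl (not_le.1 hc).le
    linarith [hx.1]
  have XR : ∀ x ∈ X, x ≤ yR' := fun x hx => by
    by_contra hc
    have := msl (not_le.1 hc).le
    linarith [hx.2]
  have hne : X.Nonempty := ⟨x0, hx0⟩
  set α := sInf X with hα
  set β := sSup X with hβ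
  have hα0 : α ≤ x0 := csInf_le ⟨_, XL⟩ hx0
  have hβ0 : x0 ≤ β := le_csSup ⟨_, XR⟩ hx0
  have hαL : yL' ≤ α := le_csInf hne XL
  have hβR : β ≤ yR' := csSup_le hne XR
  have out1 : ∀ y, y < α → E.sl y < P1 := fun y hy => by
    by_contra hc
    have : α ≤ y := csInf_le ⟨_, XL⟩ ⟨not_lt.1 hc, (msl (hy.le.trans hα0)).trans hx0.2⟩
    linarith
  have out2 : ∀ y, β < y → P2 < E.sl y := fun y hy => by
    by_contra hc
    have : y ≤ β := le_csSup ⟨_, XR⟩ ⟨hx0.1.trans (msl (hβ0.trans hy.le)), not_lt.1 hc⟩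
    linarith
  have inn : ∀ x ∈ Ioo α β, E.sl x ∈ Icc P1 P2 := fun x hx => by
    obtain ⟨x1, h1, h1'⟩ := exists_lt_of_csInf_lt hne hx.1
    obtain ⟨x2, h2, h2'⟩ := exists_lt_of_lt_csSup hne hx.2
    exact ⟨h1.1.trans (msl h1'.le), (msl h2'.le).trans h2.2⟩
  have sub : ∀ y1 y2, E.sl y1 < P1 → P2 < E.sl y2 → Pl ⊆ Icc (E.ct y1) (E.ct y2) := by
    intro y1 y2 h1 h2 u hu
    constructor
    · by_contra hc
      have := (hact _ y1 (E.g_eq y1)).2.1 u (not_le.1 hc)
      linarith [hu.1]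
    · by_contra hc
      have := (hact _ y2 (E.g_eq y2)).2.2 u (not_le.1 hc)
      linarith [hu.2]
  have hfin : volume Pl ≠ ⊤ :=
    ((measure_mono (sub _ _ hP1 hP2)).trans_lt isCompact_Icc.measure_lt_top).ne
  have hPm : MeasurableSet Pl := msf.measurable measurableSet_Icc
  have hPne : Pl.Nonempty := by
    rcases Pl.eq_empty_or_nonempty with h0 | h0
    · rw [hedef, h0] at he; simp at he
    · exact h0
  have pos : ∀ (t : ℝ) (y : ℝ → ℝ) (x : ℝ), 0 ≤ t → t * M ≤ 2 → y x = x →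
      2 * (t * q (E.sl x)) ^ 2 / 50 ≤ gI E q V t y x := fun t y x ht htM hy => by
    have := gI_lower h E (V := V) (y := y) hM ht htM x
    rw [hy] at this; linarith
  by_cases hν : e / 2 ≤ β - α
  · refine ⟨0, 1 / M, by positivity, fun t ht => ⟨fun x => x, measurable_id, fun _ _ => rfl,
      fun x => by simp, fun A B hA hB => ?_⟩⟩
    have htM : t * M ≤ 2 := by
      have := (le_div_iff₀ hM0).1 ht.2; linarith
    have hi := gI_ii h E hq hV (y := fun x => x) measurable_id hM hVl ht.1.le htM (τ := 0)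
      (fun x => by simp)
    have nn : ∀ x, 0 ≤ gI E q V t (fun x => x) x := fun x =>
      le_trans (by positivity) (pos t _ x ht.1.le htM rfl)
    have s1 := three hi (A := A) (a := α) (b := β) (B := B) (by linarith) (by linarith)
      (fun x _ => nn x) (fun x _ => nn x)
    have s2 := intervalIntegral.integral_mono_on_of_le_Ioo (hα0.trans hβ0)
      (intervalIntegrable_const (c := 2 * (t * a) ^ 2 / 50)) (hi α β) (fun x hx => by
        have e1 : q (E.sl x) = a := by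
          simp only [hqdef]
          rw [hpl _ (inn x hx), hb0 _ ⟨msl (by linarith [hx.1]), msl (by linarith [hx.2])⟩,
            sub_zero]
        have := pos t (fun x => x) x ht.1.le htM rfl
        rwa [e1] at this)
    rw [intervalIntegral.integral_const, smul_eq_mul] at s2
    have s3 : 1 / 10000 * t ^ 2 * a ^ 2 * e ≤ (β - α) * (2 * (t * a) ^ 2 / 50) := by
      have : 0 ≤ (t * a) ^ 2 := sq_nonneg _
      nlinarith
    exact s3.trans (s2.trans s1)
  push Not at hν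
  obtain ⟨τ0, hτ0, hturn⟩ := turn h E (hα0.trans hβ0) (csInf_mem_closure hne ⟨_, XL⟩)
    (csSup_mem_closure hne ⟨_, XR⟩) hfin he
  set m := min (min τ0 (e / 4)) (min (yL' - yL) (yR - yR')) with hm
  have hm0 : 0 < m := lt_min (lt_min hτ0 (by linarith)) (lt_min (by linarith) (by linarith))
  refine ⟨a / 1016, min (1 / M) (1016 * m / a), by positivity, fun t ht => ?_⟩
  have htM : t * M ≤ 2 := by
    have := (le_div_iff₀ hM0).1 (ht.2.trans (min_le_left _ _)); linarith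
  set τ := a / 1016 * t with hτ
  have ht0 := ht.1
  have hτp : 0 < τ := by positivity
  have hτm : τ ≤ m := by
    have := (le_div_iff₀ ha).1 (ht.2.trans (min_le_right _ _)); rw [hτ]; linarith
  have τ1 : τ ≤ τ0 := hτm.trans ((min_le_left _ _).trans (min_le_left _ _))
  have τ2 : τ ≤ e / 4 := hτm.trans ((min_le_left _ _).trans (min_le_right _ _))
  have τ3 : τ ≤ yL' - yL := hτm.trans ((min_le_right _ _).trans (min_le_left _ _))
  have τ4 : τ ≤ yR - yR' := hτm.trans ((min_le_right _ _).trans (min_le_right _ _))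
  set y : ℝ → ℝ := fun x => x + (Icc (α - τ) β).indicator (fun _ => τ) x with hy
  have y1 : ∀ x ∈ Icc (α - τ) β, y x = x + τ := fun x hx => by
    simp only [hy]; rw [indicator_of_mem hx]
  have y2 : ∀ x, x ∉ Icc (α - τ) β → y x = x := fun x hx => by
    simp only [hy]; rw [indicator_of_notMem hx, add_zero]
  have ym : Measurable y := measurable_id.add (measurable_const.indicator measurableSet_Icc)
  have y3 : ∀ x, |y x - x| ≤ τ := fun x => by
    by_cases hx : x ∈ Icc (α - τ) β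
    · rw [y1 x hx, add_sub_cancel_left, abs_of_pos hτp]
    · rw [y2 x hx, sub_self, abs_zero]; exact hτp.le
  refine ⟨y, ym, fun x hx => y2 x fun hx' => hx ⟨by linarith [hx'.1], by linarith [hx'.2]⟩, y3,
    fun A B hA hB => ?_⟩
  have hi := gI_ii h E hq hV ym hM hVl ht0.le htM y3
  have s1 := three hi (A := A) (a := α - τ) (b := β) (B := B) (by linarith) (by linarith)
    (fun x hx => le_trans (by positivity) (pos t y x ht0.le htM
      (y2 x fun hx' => by linarith [hx.2, hx'.1])))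
    (fun x hx => le_trans (by positivity) (pos t y x ht0.le htM
      (y2 x fun hx' => by linarith [hx.1, hx'.2])))
  have iP : ∀ a b, IntervalIntegrable E.sl volume a b := fun a b => msl.intervalIntegrable
  have mct : Measurable E.ct :=
    measurable_id.add (msl.measurable.div (ph_cont.measurable.comp msl.measurable))
  have iU : ∀ a b, IntervalIntegrable (fun x => V (E.ct x)) volume a b := fun a b =>
    ii_of_bdd (hV.measurable.comp mct) (C := |V a| + M * (|b - a| + 1)) fun x hx => by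
      have c1 := hVl (E.ct x) a
      have c2 : |E.ct x - a| ≤ |b - a| + 1 := by
        have c3 := abs_sub_left_of_mem_uIcc hx
        have c4 := abs_div_ph (E.sl x)
        unfold Env.ct
        rw [abs_le] at c3 c4 ⊢
        constructor <;> linarith [c3.1, c3.2, c4.1, c4.2]
      have c5 := c1.trans (mul_le_mul_of_nonneg_left c2 hM0.le)
      have c6 := abs_sub_abs_le_abs_sub (V (E.ct x)) (V a)
      simp only [Function.comp]
      linarith
  have sh : ∀ (k : ℝ → ℝ), (∀ a b, IntervalIntegrable k volume a b) → ∀ a b c,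
      IntervalIntegrable (fun x => k (x + c) - k x) volume a b := fun k hk a b c =>
    IntervalIntegrable.sub (by simpa using (hk (a + c) (b + c)).comp_add_right c) (hk a b)
  have hle : α - τ ≤ β := by linarith
  have s2 := intervalIntegral.integral_mono_on hle
    (f := fun x => t * (V (E.ct (x + τ)) - V (E.ct x)) - τ * (E.sl (x + τ) - E.sl x) - t * τ * a)
    ((((sh _ iU _ _ τ).const_mul t).sub ((sh _ iP _ _ τ).const_mul τ)).sub
      intervalIntegrable_const) (hi _ _) (fun x hx => by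
      have l1 := gI_lower h E (V := V) (y := y) hM ht0.le htM x
      rw [y1 x hx, add_sub_cancel_left] at l1
      have l2 : q (E.sl (x + τ)) ≤ a := by
        simp only [hqdef]; linarith [(hqa (E.sl (x + τ))).2, hqb (E.sl (x + τ))]
      have l3 := mul_le_mul_of_nonneg_left l2 (mul_pos ht0 hτp).le
      nlinarith [sq_nonneg (t * q (E.sl (x + τ))), sq_nonneg (t * q (E.sl x))])
  rw [intervalIntegral.integral_sub (((sh _ iU _ _ τ).const_mul t).sub
      ((sh _ iP _ _ τ).const_mul τ)) intervalIntegrable_const,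
    intervalIntegral.integral_sub ((sh _ iU _ _ τ).const_mul t) ((sh _ iP _ _ τ).const_mul τ),
    intervalIntegral.integral_const_mul, intervalIntegral.integral_const_mul,
    shift iU, shift iP, intervalIntegral.integral_const, smul_eq_mul] at s2
  have hle' : α - τ ≤ α := by linarith
  have s3 := intervalIntegral.integral_mono_on_of_le_Ioo hle'
    (intervalIntegrable_const (c := a * e)) (sh _ iU _ _ (β - α + τ)) (fun x hx => by
      have o1 := out1 x hx.2
      have o2 := out2 (x + (β - α + τ)) (by linarith [hx.1])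
      have o3 := sub _ _ o1 o2
      obtain ⟨u, hu⟩ := hPne
      have z : ∀ w ∈ Ioo (E.ct x) (E.ct (x + (β - α + τ))), qb (E.sf w) = 0 := fun w hw =>
        hb0 _ ⟨(msl (by linarith [hx.1])).trans ((hact _ x (E.g_eq x)).2.2 w hw.1),
          ((hact _ _ (E.g_eq (x + (β - α + τ)))).2.1 w hw.2).trans (msl (by linarith [hx.2]))⟩
      rw [hVd]
      exact plateau hPm ((o3 hu).1.trans (o3 hu).2) (iq _ _) o3
        (fun w hw => by rw [z w hw, sub_zero]; exact (hqa _).1)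
        (fun w hw hw' => by rw [z w hw, sub_zero]; exact hpl _ hw'))
  have s4 := intervalIntegral.integral_mono_on hle' (sh _ iP _ _ (β - α + τ))
    (intervalIntegrable_const (c := 127 * e)) (fun x hx => by
      have m1 : E.sl (x + (β - α + τ)) ≤ E.sl (β + τ) := msl (by linarith [hx.2])
      have m2 : E.sl (α - τ) ≤ E.sl x := msl hx.1
      have := hturn τ τ1
      linarith)
  rw [intervalIntegral.integral_const, smul_eq_mul] at s3 s4
  have s5 := mul_le_mul_of_nonneg_left s3 ht0.le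
  have s6 := mul_le_mul_of_nonneg_left s4 hτp.le
  have s7 : (β - (α - τ)) * (t * τ * a) ≤ 3 * e / 4 * (t * τ * a) :=
    mul_le_mul_of_nonneg_right (by linarith) (by positivity)
  have s8 : 1 / 10000 * t ^ 2 * a ^ 2 * e ≤
      t * ((α - (α - τ)) * (a * e)) - τ * ((α - (α - τ)) * (127 * e))
        - 3 * e / 4 * (t * τ * a) := by
    rw [hτ]
    have : 0 ≤ t ^ 2 * a ^ 2 * e := by positivity
    nlinarith
  have s9 : ∫ x in A..B, gI E q V t y x = ∫ x in A..B,
      (E.Lam q V t (y x) x + E.Lam q V (-t) x x - 2 * E.g x) := rfl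
  rw [← s9]
  linarith

end Pool.Agent.MP_44cb5f_an

end MrgPart4

-- marker of a merged file
example : 731051 + 74160 = 731051 + 74160 := rfl
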