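import Mathlib
import Pool.Agent.MP_44cb5f_an.Wf

-- ======== part 0: formerly Pool.Agent.MP_44cb5f_an.Disc
section MrgPart0

set_option autoImplicit false
open MeasureTheory Set Metric
open scoped Pointwise

namespace Pool.Agent.MP_44cb5f_an

namespace Disc

theorem adm : Adm (ball (0 : ℂ) 2) :=
  ⟨⟨0, mem_ball_self two_pos⟩, isBounded_ball, isOpen_ball, convex_ball _ _⟩

theorem in_ball : In (ball (0 : ℂ) 2) 1 = ball 0 1 := by
  ext z
  constructor
  · intro hz
    have hz' : 1 < dep (ball (0 : ℂ) 2) z := hz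
    by_contra hn
    rw [mem_ball_zero_iff, not_lt] at hn
    have h0 : 0 < ‖z‖ := by linarith
    have h1 : z + (1 / ‖z‖) • z ∈ ball z (dep (ball (0 : ℂ) 2) z) := by
      rw [mem_ball, dist_eq_norm, add_sub_cancel_left, norm_smul, Real.norm_of_nonneg (by positivity),
        one_div, inv_mul_cancel₀ h0.ne']
      exact hz'
    have h2 := ball_dep_subset _ z h1
    have e : z + (1 / ‖z‖) • z = (1 + 1 / ‖z‖) • z := by rw [add_smul, one_smul]
    rw [mem_ball_zero_iff, e, norm_smul, Real.norm_of_nonneg (by positivity), add_mul, one_div,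
      inv_mul_cancel₀ h0.ne'] at h2
    linarith
  · intro hz
    rw [mem_ball_zero_iff] at hz
    have h1 : 2 - ‖z‖ ≤ dep (ball (0 : ℂ) 2) z :=
      le_dep isBounded_ball (ball_subset_ball' (by rw [dist_zero_right]; linarith))
    show 1 < dep _ z
    linarith

theorem ar_ball : Ar (ball (0 : ℂ) 2) 1 = Real.pi := by
  rw [Ar, in_ball, Complex.volume_ball]; simp

/-- The test function. -/
noncomputable def u (R : ℝ) (z : ℂ) : ℝ := R ^ 2 - (min ‖z‖ R) ^ 2

theorem u_lip {R : ℝ} (hR : 0 ≤ R) : LipschitzWith ⟨2 * R, by positivity⟩ (u R) := by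
  refine LipschitzWith.of_dist_le_mul fun x y => ?_
  have h1 : |min ‖x‖ R - min ‖y‖ R| ≤ dist x y := by
    refine (abs_min_sub_min_le_max _ _ _ _).trans (max_le ?_ (by simp))
    rw [dist_eq_norm]; exact abs_norm_sub_norm_le x y
  have e : u R x - u R y = -((min ‖x‖ R + min ‖y‖ R) * (min ‖x‖ R - min ‖y‖ R)) := by
    simp only [u]; ring
  have h2 : 0 ≤ min ‖x‖ R := le_min (norm_nonneg _) hR
  have h3 : 0 ≤ min ‖y‖ R := le_min (norm_nonneg _) hR
  rw [Real.dist_eq, e, abs_neg, abs_mul, abs_of_nonneg (add_nonneg h2 h3)]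
  refine mul_le_mul ?_ h1 (abs_nonneg _) (by positivity)
  have := min_le_right ‖x‖ R
  have := min_le_right ‖y‖ R
  show _ ≤ 2 * R
  linarith

theorem u_zero {R : ℝ} {z : ℂ} (hz : R ≤ ‖z‖) : u R z = 0 := by
  rw [u, min_eq_right hz, sub_self]

theorem u_supp (R : ℝ) : tsupport (u R) ⊆ closedBall 0 R :=
  closure_minimal (fun z hz => by
    by_contra h
    rw [mem_closedBall_zero_iff, not_le] at h
    exact hz (u_zero h.le)) isClosed_closedBall

theorem u_tf {R : ℝ} (hR : 0 ≤ R) (h2 : R < 2) : TF (ball (0 : ℂ) 2) (u R) :=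
  ⟨⟨_, u_lip hR⟩, (isCompact_closedBall 0 R).of_isClosed_subset (isClosed_tsupport _) (u_supp R),
    (u_supp R).trans (closedBall_subset_ball h2)⟩

theorem u_grad {R : ℝ} (hR : 0 ≤ R) (z : ℂ) :
    ‖fderiv ℝ (u R) z‖ ^ 2 ≤ (Iic R).indicator (fun y => 4 * y ^ 2) ‖z‖ := by
  rcases lt_trichotomy ‖z‖ R with h | h | h
  · rw [indicator_of_mem (show ‖z‖ ∈ Iic R from h.le)]
    have e : u R =ᶠ[nhds z] fun x => R ^ 2 - ‖x‖ ^ 2 := by
      filter_upwards [isOpen_ball.mem_nhds (mem_ball_zero_iff.2 h)] with x hx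
      rw [u, min_eq_left (mem_ball_zero_iff.1 hx).le]
    rw [e.fderiv_eq, ((hasStrictFDerivAt_norm_sq z).hasFDerivAt.const_sub (R ^ 2)).fderiv,
      norm_neg, two_nsmul]
    have h1 := norm_add_le (innerSL ℝ z) (innerSL ℝ z)
    rw [innerSL_apply_norm] at h1
    have h2 := pow_le_pow_left₀ (norm_nonneg _) h1 2
    linarith
  · rw [indicator_of_mem (show ‖z‖ ∈ Iic R from h.le), h]
    have h1 : ‖fderiv ℝ (u R) z‖ ≤ 2 * R := norm_fderiv_le_of_lipschitz ℝ (u_lip hR)
    have h2 := pow_le_pow_left₀ (norm_nonneg _) h1 2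
    linarith
  · rw [indicator_of_notMem (show ‖z‖ ∉ Iic R from not_le.2 h)]
    have : fderiv ℝ (u R) z = 0 := by
      by_contra h0
      exact absurd (mem_closedBall_zero_iff.1 (u_supp R (support_fderiv_subset ℝ h0)))
        (not_le.2 h)
    simp [this]

theorem radial {R : ℝ} (hR : 0 ≤ R) (g : ℝ → ℝ) :
    ∫ z : ℂ, (Iic R).indicator g ‖z‖ = 2 * Real.pi * ∫ y in (0 : ℝ)..R, y * g y := by
  rw [integral_fun_norm_addHaar volume ((Iic R).indicator g), Complex.finrank_real_complex,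
    intervalIntegral.integral_of_le hR, ← Ioi_inter_Iic, ← setIntegral_indicator measurableSet_Iic]
  have e : (fun y : ℝ => y ^ (2 - 1) • (Iic R).indicator g y)
      = (Iic R).indicator fun y => y * g y := by
    ext y
    by_cases h : y ∈ Iic R <;> simp [h]
  rw [e, Measure.real, Complex.volume_ball]
  simp [mul_assoc]

theorem en_le {R : ℝ} (hR : 0 ≤ R) : En (u R) ≤ 2 * Real.pi * R ^ 4 := by
  have h1 : Integrable (fun z : ℂ => (Iic R).indicator (fun y => 4 * y ^ 2) ‖z‖) := by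
    refine integrable_of_bdd (isCompact_closedBall 0 R) ?_ (C := 4 * R ^ 2) (fun z hz => ?_)
      (fun z hz => ?_)
    · exact (((measurable_id.pow_const 2).const_mul 4).indicator measurableSet_Iic).comp
        measurable_norm |>.aestronglyMeasurable
    · have h := mem_closedBall_zero_iff.1 hz
      rw [indicator_of_mem (show ‖z‖ ∈ Iic R from h), abs_of_nonneg (by positivity)]
      have := pow_le_pow_left₀ (norm_nonneg _) h 2
      linarith
    · exact indicator_of_notMem (show ‖z‖ ∉ Iic R from fun h => hz (mem_closedBall_zero_iff.2 h)) _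
  refine (integral_mono_of_nonneg (Filter.Eventually.of_forall fun z => sq_nonneg _) h1
    (Filter.Eventually.of_forall (u_grad hR))).trans (le_of_eq ?_)
  rw [radial hR]
  have e : (fun y : ℝ => y * (4 * y ^ 2)) = fun y => 4 * y ^ 3 := by ext y; ring
  rw [e, intervalIntegral.integral_const_mul, integral_pow]
  ring

theorem ma_eq {R : ℝ} (hR : 0 ≤ R) : Ma (u R) = 2 * Real.pi * (R ^ 6 / 6) := by
  have e : (fun z : ℂ => u R z ^ 2)
      = fun z => (Iic R).indicator (fun y => (R ^ 2 - y ^ 2) ^ 2) ‖z‖ := by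
    ext z
    by_cases h : ‖z‖ ≤ R
    · rw [indicator_of_mem (show ‖z‖ ∈ Iic R from h), u, min_eq_left h]
    · rw [indicator_of_notMem (show ‖z‖ ∉ Iic R from h), u_zero (not_le.1 h).le]; norm_num
  rw [Ma, e, radial hR]
  congr 1
  have hd : ∀ y ∈ uIcc 0 R, HasDerivAt (fun y : ℝ => -((R ^ 2 - y ^ 2) ^ 3 / 6))
      (y * (R ^ 2 - y ^ 2) ^ 2) y := fun y _ => by
    have := ((((hasDerivAt_pow 2 y).const_sub (R ^ 2)).pow 3).div_const 6).neg
    refine this.congr_deriv ?_
    norm_num; ring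
  rw [intervalIntegral.integral_eq_sub_of_hasDerivAt hd
    (Continuous.intervalIntegrable (by fun_prop) _ _)]
  ring

theorem lam_ball (hl : SLam) : lam1 (ball (0 : ℂ) 2) ≤ 154 / 100 := by
  have hR : (0 : ℝ) ≤ 199 / 100 := by norm_num
  have h1 := (hl _ _ isOpen_ball (u_tf hR (by norm_num))).trans (en_le hR)
  rw [ma_eq hR] at h1
  have := Real.pi_pos
  by_contra h
  rw [not_le] at h
  nlinarith [mul_pos this (sub_pos.2 h)]

end Disc

theorem sVal (hl : SLam) (h2 : SK2) : SVal := by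
  intro Ω hΩ hA
  have c1 := (h2 Ω hΩ.1).2 1 one_pos (by rw [hA]; ring)
  have c2 := (h2 _ Disc.adm).2 1 one_pos (by rw [Disc.ar_ball]; ring)
  have h := hΩ.2 _ Disc.adm
  simp only [J, c1, c2, div_one, one_pow] at h
  exact h.trans (Disc.lam_ball hl)

end Pool.Agent.MP_44cb5f_an

end MrgPart0

-- ======== part 1: formerly Pool.Agent.MP_44cb5f_an.Geo
section MrgPart1

/-! Smooth boundary points determine a convex body; bounded polyhedral sets are polygons. -/

set_option autoImplicit false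
open Set Metric Filter Topology

namespace Pool.Agent.MP_44cb5f_an
namespace Geo

def cr (a b : ℂ) : ℝ := a.re * b.im - a.im * b.re

def Corner (K : Set ℂ) : Set ℂ := {k | ∃ θ θ', Nrm K k θ ∧ Nrm K k θ' ∧ cr θ θ' ≠ 0}

lemma ev_line {U : Set ℂ} {x : ℂ} (h : U ∈ 𝓝 x) (v : ℂ) : ∀ᶠ e : ℝ in 𝓝 0, x + e • v ∈ U := by
  have : ContinuousAt (fun e : ℝ => x + e • v) 0 := by fun_prop
  exact this.eventually (by simpa using h)

lemma ex_line {U : Set ℂ} {x : ℂ} (h : U ∈ 𝓝 x) (v : ℂ) : ∃ e : ℝ, 0 < e ∧ x + e • v ∈ U :=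
  (((ev_line h v).filter_mono nhdsWithin_le_nhds).and (self_mem_nhdsWithin (s := Ioi 0))).exists.imp
    fun _ h => ⟨h.2, h.1⟩

lemma corner_countable (K : Set ℂ) : (Corner K).Countable := by
  refine Set.PairwiseDisjoint.countable_of_isOpen
    (s := fun k => interior {q | ∀ z ∈ K, dot (z - k) q ≤ 0}) ?_ (fun _ _ => isOpen_interior) ?_
  · rintro k ⟨_, _, ⟨hk, -⟩, -⟩ k' ⟨_, _, ⟨hk', -⟩, -⟩ hne
    refine Set.disjoint_left.2 fun q hq hq' => hne ?_
    obtain ⟨e, he, h⟩ := ex_line (mem_interior_iff_mem_nhds.1 hq) (k' - k)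
    have h1 := h k' hk'
    have h2 := interior_subset hq' k hk
    have h3 : dot (k' - k) (q + e • (k' - k)) + dot (k - k') q = e * ‖k' - k‖ ^ 2 := by
      rw [← dot_self]; simp [dot]; ring
    have h4 : ‖k' - k‖ ^ 2 ≤ 0 := by
      by_contra h5
      linarith [mul_pos he (not_le.1 h5)]
    exact (sub_eq_zero.1 (norm_eq_zero.1 (pow_eq_zero_iff two_ne_zero |>.1
      (h4.antisymm (sq_nonneg _))))).symm
  · rintro k ⟨θ, θ', ⟨-, -, h⟩, ⟨-, -, h'⟩, hc⟩
    have ho : IsOpen {q : ℂ | 0 < cr q θ' / cr θ θ' ∧ 0 < cr θ q / cr θ θ'} :=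
      IsOpen.and (isOpen_lt continuous_const (by unfold cr; fun_prop))
        (isOpen_lt continuous_const (by unfold cr; fun_prop))
    refine ⟨θ + θ', interior_maximal (fun q hq z hz => ?_) ho ⟨?_, ?_⟩⟩
    · have : dot (z - k) q = cr q θ' / cr θ θ' * dot (z - k) θ +
          cr θ q / cr θ θ' * dot (z - k) θ' := by
        field_simp
        simp only [dot, cr]
        ring
      rw [this]
      nlinarith [mul_nonneg hq.1.le (neg_nonneg.2 (h z hz)),
        mul_nonneg hq.2.le (neg_nonneg.2 (h' z hz))]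
    · rw [show cr (θ + θ') θ' = cr θ θ' by simp [cr]; ring, div_self hc]
      exact one_pos
    · rw [show cr θ (θ + θ') = cr θ θ' by simp [cr]; ring, div_self hc]
      exact one_pos

lemma neg_of_int {K : Set ℂ} {k θ x : ℂ} (h : Nrm K k θ) (hx : x ∈ interior K) :
    dot (x - k) θ < 0 := by
  obtain ⟨e, he, h1⟩ := ex_line (mem_interior_iff_mem_nhds.1 hx) θ
  have h2 := h.2.2 _ h1
  have h3 : dot (x + e • θ - k) θ = dot (x - k) θ + e * ‖θ‖ ^ 2 := by
    rw [← dot_self]; simp [dot]; ring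
  rw [h3, h.2.1] at h2
  linarith

lemma sm_of {K : Set ℂ} (hi : (interior K).Nonempty) {k θ : ℂ} (h : Nrm K k θ)
    (hk : k ∉ Corner K) : Sm K k θ := by
  refine ⟨h, fun θ' h' => ?_⟩
  obtain ⟨x, hx⟩ := hi
  have hc : cr θ θ' = 0 := by
    by_contra hc
    exact hk ⟨θ, θ', h, h', hc⟩
  have n := norm_sq_eq θ
  have n' := norm_sq_eq θ'
  rw [h.2.1] at n
  rw [h'.2.1] at n'
  have a := neg_of_int h hx
  have a' := neg_of_int h' hx
  unfold cr at hc
  have e1 : θ'.re = dot θ θ' * θ.re := by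
    unfold dot; linear_combination θ'.re * n - θ.im * hc
  have e2 : θ'.im = dot θ θ' * θ.im := by
    unfold dot; linear_combination θ'.im * n + θ.re * hc
  have e3 : dot (x - k) θ' = dot θ θ' * dot (x - k) θ := by
    generalize dot θ θ' = c at *
    unfold dot; rw [e1, e2]; ring
  have e4 : (dot θ θ' - 1) * (dot θ θ' + 1) = 0 := by
    generalize dot θ θ' = c at *
    rw [e1, e2] at n'
    linear_combination c ^ 2 * n - n'
  have e5 : 0 < dot θ θ' := by
    by_contra h5
    nlinarith [mul_nonneg (neg_nonneg.2 (not_lt.1 h5)) (neg_nonneg.2 a.le)]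
  have e6 : dot θ θ' = 1 := by
    rcases mul_eq_zero.1 e4 with h | h <;> linarith
  rw [e6, one_mul] at e1 e2
  exact Complex.ext e1 e2

lemma ex_nrm {K : Set ℂ} (hc : Convex ℝ K) (hi : (interior K).Nonempty) {k : ℂ} (hk : k ∈ K)
    (hk' : k ∉ interior K) : ∃ θ, Nrm K k θ := by
  obtain ⟨θ, h1, h2⟩ := exists_unit_sep hc.interior isOpen_interior hi hk'
  refine ⟨θ, hk, h1, fun z hz => ?_⟩
  have : closure (interior K) ⊆ {z | dot (z - k) θ ≤ 0} :=
    closure_minimal (fun x hx => (h2 x hx).le)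
      (isClosed_le (by unfold dot; fun_prop) continuous_const)
  exact this (by
    rw [hc.closure_interior_eq_closure_of_nonempty_interior hi]; exact subset_closure hz)

end Geo
open Geo

theorem sGeo : SGeo := by
  intro K hK hc hi z hz
  by_contra hzK
  obtain ⟨k0, hk0⟩ := id hi
  set w := k0 - z with hw
  have hw0 : w ≠ 0 := fun h => hzK (by rw [← sub_eq_zero.1 h]; exact interior_subset hk0)
  have hT : {s : ℝ | ∃ ρ : ℝ, 0 < ρ ∧ z + ρ • (w + s • (Complex.I * w)) ∈ Corner K}.Countable := by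
    refine ((corner_countable K).image fun k => ((k - z) / w).im / ((k - z) / w).re).mono ?_
    rintro s ⟨ρ, hρ, h⟩
    refine ⟨_, h, ?_⟩
    have : (z + ρ • (w + s • (Complex.I * w)) - z) / w = ⟨ρ, ρ * s⟩ := by
      rw [div_eq_iff hw0]
      apply Complex.ext <;> simp <;> ring
    simp only [this]
    field_simp
  obtain ⟨U, hU, hUo, hU0⟩ :=
    _root_.mem_nhds_iff.1 (ev_line (isOpen_interior.mem_nhds hk0) (Complex.I * w))
  obtain ⟨s, hs, hsT⟩ := (hT.dense_compl ℝ).inter_open_nonempty U hUo ⟨0, hU0⟩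
  set y := w + s • (Complex.I * w) with hy
  have h1 : z + y ∈ interior K := by
    have : z + y = k0 + s • (Complex.I * w) := by rw [hy, hw]; ring
    rw [this]; exact hU hs
  have hcl : IsCompact (Icc (0 : ℝ) 1 ∩ {ρ | z + ρ • y ∈ K}) :=
    isCompact_Icc.inter_right (hK.isClosed.preimage (by fun_prop))
  obtain ⟨ρ, ⟨⟨r0, r1⟩, rK⟩, hmin⟩ := hcl.exists_isLeast
    ⟨1, ⟨zero_le_one, le_rfl⟩, by simpa using interior_subset h1⟩
  have r0' : 0 < ρ := r0.lt_of_ne fun h => hzK (by simpa [← h] using rK)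
  have hni : z + ρ • y ∉ interior K := fun h => by
    obtain ⟨e, ⟨h2, h3⟩, h4⟩ := ((((ev_line (mem_interior_iff_mem_nhds.1 h) (-y)).and
      (Iio_mem_nhds r0')).filter_mono nhdsWithin_le_nhds).and
      (self_mem_nhdsWithin (s := Ioi (0 : ℝ)))).exists
    have h3' : e < ρ := h3
    have h4' : 0 < e := h4
    have := hmin (a := ρ - e) ⟨⟨by linarith, by linarith⟩, by
      change z + (ρ - e) • y ∈ K
      rwa [sub_smul, sub_eq_add_neg, ← smul_neg, ← add_assoc]⟩
    linarith
  obtain ⟨θ, hθ⟩ := ex_nrm hc hi rK hni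
  have a := hz _ _ (sm_of hi hθ fun h => hsT ⟨ρ, r0', h⟩)
  have b := neg_of_int hθ h1
  have ea : dot (z - (z + ρ • y)) θ = -ρ * dot y θ := by simp [dot]; ring
  have eb : dot (z + y - (z + ρ • y)) θ = (1 - ρ) * dot y θ := by simp [dot]; ring
  rw [ea] at a
  rw [eb] at b
  have : dot y θ < 0 := by
    by_contra h
    nlinarith [mul_nonneg (sub_nonneg.2 r1) (not_lt.1 h)]
  nlinarith [mul_pos r0' (neg_pos.2 this)]

theorem sVert : SVert := by
  classical
  intro T h hb
  set P := {z | ∀ θ ∈ T, dot z θ ≤ h θ} with hP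
  have hcl : IsClosed P := by
    have : P = ⋂ θ ∈ T, {z | dot z θ ≤ h θ} := by ext; simp [hP]
    rw [this]
    exact isClosed_biInter fun θ _ => isClosed_le (by unfold dot; fun_prop) continuous_const
  have hcv : Convex ℝ P := fun x hx y hy a b ha hb hab θ hθ => by
    have : dot (a • x + b • y) θ = a * dot x θ + b * dot y θ := by simp [dot]; ring
    rw [this]
    nlinarith [mul_le_mul_of_nonneg_left (hx θ hθ) ha, mul_le_mul_of_nonneg_left (hy θ hθ) hb,
      congrArg (· * h θ) hab]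
  let F : ℂ × ℂ → ℂ := fun p => ⟨(h p.1 * p.2.im - h p.2 * p.1.im) / cr p.1 p.2,
    (p.1.re * h p.2 - p.2.re * h p.1) / cr p.1 p.2⟩
  have key : ∀ x ∈ P.extremePoints ℝ, x ∈ (T ×ˢ T).image F := fun x hx => by
    by_contra hn
    have h0 : ∀ θ ∈ T, ∀ θ' ∈ T, dot x θ = h θ → dot x θ' = h θ' → cr θ θ' = 0 := by
      intro θ hθ θ' hθ' e e'
      by_contra hc
      refine hn (Finset.mem_image.2 ⟨(θ, θ'), Finset.mem_product.2 ⟨hθ, hθ'⟩, ?_⟩)
      apply Complex.ext <;> simp only [F] <;> rw [div_eq_iff hc, ← e, ← e'] <;>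
        simp only [dot, cr] <;> ring
    obtain ⟨v, hv, hv'⟩ : ∃ v : ℂ, v ≠ 0 ∧ ∀ θ ∈ T, dot x θ = h θ → dot v θ = 0 := by
      by_cases h1 : ∃ θ ∈ T, dot x θ = h θ ∧ θ ≠ 0
      · obtain ⟨θ0, a, b, c⟩ := h1
        refine ⟨Complex.I * θ0, mul_ne_zero Complex.I_ne_zero c, fun θ hθ e => ?_⟩
        rw [← h0 θ0 a θ hθ b e]
        simp [dot, cr]
        ring
      · refine ⟨1, one_ne_zero, fun θ hθ e => ?_⟩
        have : θ = 0 := by
          by_contra h2
          exact h1 ⟨θ, hθ, e, h2⟩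
        simp [this, dot]
    have ev : ∀ u : ℂ, (∀ θ ∈ T, dot x θ = h θ → dot u θ = 0) →
        ∀ᶠ e : ℝ in 𝓝 0, x + e • u ∈ P := fun u hu =>
      (eventually_all_finset T).2 fun θ hθ => by
        rcases (hx.1 θ hθ).eq_or_lt with e | e
        · refine Eventually.of_forall fun r => ?_
          have : dot (x + r • u) θ = dot x θ + r * dot u θ := by simp [dot]; ring
          rw [this, hu θ hθ e, e, mul_zero, add_zero]
        · exact (ev_line ((isOpen_lt (f := fun z => dot z θ) (by unfold dot; fun_prop)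
            continuous_const).mem_nhds e) u).mono fun r hr => le_of_lt hr
    obtain ⟨e, ⟨h2, h3⟩, h4⟩ := ((((ev v hv').and (ev (-v) fun θ hθ e => by
      rw [← neg_zero, ← hv' θ hθ e]; simp [dot]; ring)).filter_mono nhdsWithin_le_nhds).and
      (self_mem_nhdsWithin (s := Ioi (0 : ℝ)))).exists
    have := hx.2 h2 h3 ⟨1 / 2, 1 / 2, by norm_num, by norm_num, by norm_num, by
      rw [smul_neg]; module⟩
    exact smul_ne_zero (ne_of_gt h4) hv (by simpa using this)
  refine ⟨((T ×ˢ T).image F).filter (· ∈ P.extremePoints ℝ), ?_, ?_⟩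
  · exact (Finset.card_filter_le _ _).trans (Finset.card_image_le.trans (by
      rw [Finset.card_product, sq]))
  · have e : ((((T ×ˢ T).image F).filter (· ∈ P.extremePoints ℝ) : Finset ℂ) : Set ℂ) =
        P.extremePoints ℝ := by
      ext x
      rw [Finset.coe_filter]
      exact ⟨fun h => h.2, fun h => ⟨key x h, h⟩⟩
    have := closure_convexHull_extremePoints (isCompact_of_isClosed_isBounded hcl hb) hcv
    rw [← e, ((Finset.finite_toSet _).isClosed_convexHull ℝ).closure_eq] at this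
    exact this.symm

end Pool.Agent.MP_44cb5f_an

end MrgPart1

-- ======== part 2: formerly Pool.Agent.MP_44cb5f_an.Hardy
section MrgPart2

set_option autoImplicit false
open MeasureTheory Set Metric
open scoped Pointwise Topology

namespace Pool.Agent.MP_44cb5f_an

namespace Hardy

/-- A directional derivative read off along the line. -/
theorem fderiv_of_line {F : ℂ → ℝ} {z v : ℂ} {a : ℝ} (hF : DifferentiableAt ℝ F z)
    (h : HasDerivAt (fun t : ℝ => F (z + t • v)) a 0) : fderiv ℝ F z v = a := by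
  rw [← hF.lineDeriv_eq_fderiv]
  exact HasLineDerivAt.lineDeriv h

theorem prod_contDiff {U : Set ℂ} (hU : IsOpen U) {u F : ℂ → ℝ} (hu : ContDiff ℝ 1 u)
    (hs : tsupport u ⊆ U) (hF : ContDiffOn ℝ 1 F U) :
    ContDiff ℝ 1 (fun z => u z ^ 2 * F z) := by
  rw [contDiff_iff_contDiffAt]
  intro z
  by_cases hz : z ∈ tsupport u
  · exact (hu.contDiffAt.pow 2).mul (hF.contDiffAt (hU.mem_nhds (hs hz)))
  · have h0 : u =ᶠ[𝓝 z] 0 := notMem_tsupport_iff_eventuallyEq.1 hz
    have h1 : (fun z => u z ^ 2 * F z) =ᶠ[𝓝 z] fun _ => (0 : ℝ) := by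
      filter_upwards [h0] with y hy
      simp [hy]
    exact contDiffAt_const.congr_of_eventuallyEq h1

theorem prod_compact {u F : ℂ → ℝ} (hc : HasCompactSupport u) :
    HasCompactSupport (fun z => u z ^ 2 * F z) :=
  hc.mono fun z hz h0 => hz (by simp [h0])

theorem prod_fderiv {u F : ℂ → ℝ} {z : ℂ} (hu : DifferentiableAt ℝ u z)
    (hF : DifferentiableAt ℝ F z) (v : ℂ) :
    fderiv ℝ (fun z => u z ^ 2 * F z) z v =
      2 * u z * fderiv ℝ u z v * F z + u z ^ 2 * fderiv ℝ F z v := by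
  have h := ((hu.hasFDerivAt.pow 2).mul hF.hasFDerivAt).fderiv
  have e : (fun z => u z ^ 2 * F z) = (fun x => u x ^ 2) * F := by
    funext y; simp
  rw [e, h]
  simp
  ring

theorem prod_fderiv_zero {u F : ℂ → ℝ} {z : ℂ} (hz : z ∉ tsupport u) :
    fderiv ℝ (fun z => u z ^ 2 * F z) z = 0 := by
  have h0 : u =ᶠ[𝓝 z] 0 := notMem_tsupport_iff_eventuallyEq.1 hz
  have h1 : (fun z => u z ^ 2 * F z) =ᶠ[𝓝 z] fun _ => (0 : ℝ) := by
    filter_upwards [h0] with y hy
    simp [hy]
  rw [h1.fderiv_eq]; simp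

theorem dir_integrable {G : ℂ → ℝ} (hG : ContDiff ℝ 1 G) (hc : HasCompactSupport G) (v : ℂ) :
    Integrable (fun z => fderiv ℝ G z v) := by
  have h1 : Continuous (fun z => fderiv ℝ G z v) :=
    (hG.continuous_fderiv one_ne_zero).clm_apply continuous_const
  exact h1.integrable_of_hasCompactSupport (hc.fderiv_apply ℝ v)

/-- The general vector field inequality. -/
theorem field (hd : SDiv) {U : Set ℂ} (hU : IsOpen U) {u F1 F2 w : ℂ → ℝ} (hu : ContDiff ℝ 1 u)
    (hc : HasCompactSupport u) (hs : tsupport u ⊆ U) (h1 : ContDiffOn ℝ 1 F1 U)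
    (h2 : ContDiffOn ℝ 1 F2 U) (hw : ∀ z, 0 ≤ w z)
    (hle : ∀ z ∈ U, w z ≤ fderiv ℝ F1 z 1 + fderiv ℝ F2 z Complex.I - F1 z ^ 2 - F2 z ^ 2) :
    ∫ z, u z ^ 2 * w z ≤ En u := by
  have c1 := prod_contDiff hU hu hs h1
  have c2 := prod_contDiff hU hu hs h2
  have s1 : HasCompactSupport (fun z => u z ^ 2 * F1 z) := prod_compact hc
  have s2 : HasCompactSupport (fun z => u z ^ 2 * F2 z) := prod_compact hc
  obtain ⟨C1, l1⟩ := c1.lipschitzWith_of_hasCompactSupport s1 one_ne_zero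
  obtain ⟨C2, l2⟩ := c2.lipschitzWith_of_hasCompactSupport s2 one_ne_zero
  have z1 := hd _ C1 l1 s1 1
  have z2 := hd _ C2 l2 s2 Complex.I
  have i1 := dir_integrable c1 s1 1
  have i2 := dir_integrable c2 s2 Complex.I
  have i12 : Integrable (fun z => fderiv ℝ (fun z => u z ^ 2 * F1 z) z 1 +
      fderiv ℝ (fun z => u z ^ 2 * F2 z) z Complex.I) := i1.add i2
  have i3 : Integrable (fun z => ‖fderiv ℝ u z‖ ^ 2) := (TF_of_contDiff hu hc hs).integrable_grad
  have key : ∫ z, u z ^ 2 * w z ≤ ∫ z, (fderiv ℝ (fun z => u z ^ 2 * F1 z) z 1 +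
      fderiv ℝ (fun z => u z ^ 2 * F2 z) z Complex.I + ‖fderiv ℝ u z‖ ^ 2) := by
    refine integral_mono_of_nonneg (Filter.Eventually.of_forall fun z => ?_) (i12.add i3)
      (Filter.Eventually.of_forall fun z => ?_)
    · exact mul_nonneg (sq_nonneg _) (hw z)
    · by_cases hz : z ∈ tsupport u
      · have hzU := hs hz
        have du : DifferentiableAt ℝ u z := hu.differentiable one_ne_zero z
        have d1 : DifferentiableAt ℝ F1 z :=
          (h1.contDiffAt (hU.mem_nhds hzU)).differentiableAt one_ne_zero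
        have d2 : DifferentiableAt ℝ F2 z :=
          (h2.contDiffAt (hU.mem_nhds hzU)).differentiableAt one_ne_zero
        beta_reduce
        rw [prod_fderiv du d1, prod_fderiv du d2, clm_norm_sq]
        have := mul_le_mul_of_nonneg_left (hle z hzU) (sq_nonneg (u z))
        nlinarith [sq_nonneg (fderiv ℝ u z 1 + u z * F1 z),
          sq_nonneg (fderiv ℝ u z Complex.I + u z * F2 z)]
      · beta_reduce
        rw [prod_fderiv_zero hz, prod_fderiv_zero hz, image_eq_zero_of_notMem_tsupport hz]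
        simp
  rw [integral_add i12 i3, integral_add i1 i2, z1, z2] at key
  simpa [En] using key

/-- One variable derivative of the half plane field. -/
theorem half_deriv (l n a b : ℝ) (hl : l ≠ 0) (hr : a ^ 2 + b ^ 2 ≠ 0) :
    HasDerivAt (fun t : ℝ => -n / (l + t * n) + (a + t) / ((a + t) ^ 2 + b ^ 2))
      (n ^ 2 / l ^ 2 + 1 / (a ^ 2 + b ^ 2) - 2 * a ^ 2 / (a ^ 2 + b ^ 2) ^ 2) 0 := by
  have h1 : HasDerivAt (fun t : ℝ => l + t * n) n 0 := by
    simpa using ((hasDerivAt_id (0 : ℝ)).mul_const n).const_add l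
  have h2 : HasDerivAt (fun t : ℝ => a + t) 1 0 := (hasDerivAt_id (0 : ℝ)).const_add a
  have h3 : HasDerivAt (fun t : ℝ => (a + t) ^ 2 + b ^ 2) (2 * a) 0 := by
    simpa using (h2.pow 2).add_const (b ^ 2)
  have h4 := ((hasDerivAt_const (0 : ℝ) (-n)).div h1 (by simpa using hl)).add
    (h2.div h3 (by simpa using hr))
  refine HasDerivAt.congr_deriv h4 ?_
  simp only [zero_mul, add_zero]
  field_simp
  ring

/-- One variable derivative of the strip field. -/
theorem strip_deriv (c s n : ℝ) (hs : Real.cos (c * s) ≠ 0) :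
    HasDerivAt (fun t : ℝ => c * Real.tan (c * (s + t * n)) * n)
      (c ^ 2 * n ^ 2 / Real.cos (c * s) ^ 2) 0 := by
  have h1 : HasDerivAt (fun t : ℝ => c * (s + t * n)) (c * n) 0 := by
    simpa using (((hasDerivAt_id (0 : ℝ)).mul_const n).const_add s).const_mul c
  have h2 : HasDerivAt Real.tan (1 / Real.cos (c * s) ^ 2) (c * (s + 0 * n)) := by
    simpa using Real.hasDerivAt_tan hs
  have h3 := ((h2.comp (0 : ℝ) h1).const_mul c).mul_const n
  refine HasDerivAt.congr_deriv h3 ?_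
  ring

theorem dot_contDiff (a n : ℂ) : ContDiff ℝ 1 (fun z : ℂ => dot (z - a) n) := by
  have h1 : ContDiff ℝ 1 (fun z : ℂ => z.re) := Complex.reCLM.contDiff
  have h2 : ContDiff ℝ 1 (fun z : ℂ => z.im) := Complex.imCLM.contDiff
  simp only [dot, Complex.sub_re, Complex.sub_im]
  exact ((h1.sub contDiff_const).mul contDiff_const).add
    ((h2.sub contDiff_const).mul contDiff_const)

theorem Ma_pos {u : ℂ → ℝ} (hu : Continuous u) (hc : HasCompactSupport u) (h0 : u ≠ 0) :
    0 < Ma u := by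
  have hi : HasCompactSupport (fun z => u z ^ 2) := hc.mono fun z hz h => hz (by simp [h])
  refine (hu.pow 2).integral_pos_of_hasCompactSupport_nonneg_nonzero
    (x := (Function.ne_iff.1 h0).choose) hi (fun z => sq_nonneg _) ?_
  exact pow_ne_zero 2 (Function.ne_iff.1 h0).choose_spec

end Hardy

open Hardy

theorem sHalf (hd : SDiv) : SHalf := by
  intro u z0 n hu hc hn hs
  have hre : ContDiff ℝ 1 (fun z : ℂ => z.re - z0.re) := Complex.reCLM.contDiff.sub contDiff_const
  have him : ContDiff ℝ 1 (fun z : ℂ => z.im - z0.im) := Complex.imCLM.contDiff.sub contDiff_const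
  have hl := dot_contDiff z0 n
  have hU : IsOpen {z : ℂ | 0 < dot (z - z0) n} := isOpen_lt continuous_const hl.continuous
  have hr : ∀ z : ℂ, 0 < dot (z - z0) n → (z.re - z0.re) ^ 2 + (z.im - z0.im) ^ 2 ≠ 0 := by
    intro z hz h
    have h1 : z.re - z0.re = 0 := by nlinarith [sq_nonneg (z.re - z0.re), sq_nonneg (z.im - z0.im)]
    have h2 : z.im - z0.im = 0 := by nlinarith [sq_nonneg (z.re - z0.re), sq_nonneg (z.im - z0.im)]
    simp [dot, h1, h2] at hz
  have hn2 : n.re ^ 2 + n.im ^ 2 = 1 := by rw [← norm_sq_eq, hn]; norm_num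
  have c1 : ContDiffOn ℝ 1 (fun z : ℂ => -n.re / dot (z - z0) n +
      (z.re - z0.re) / ((z.re - z0.re) ^ 2 + (z.im - z0.im) ^ 2)) {z : ℂ | 0 < dot (z - z0) n} :=
    (contDiffOn_const.div hl.contDiffOn fun z hz => ne_of_gt hz).add
      (hre.contDiffOn.div ((hre.pow 2).add (him.pow 2)).contDiffOn fun z hz => hr z hz)
  have c2 : ContDiffOn ℝ 1 (fun z : ℂ => -n.im / dot (z - z0) n +
      (z.im - z0.im) / ((z.im - z0.im) ^ 2 + (z.re - z0.re) ^ 2)) {z : ℂ | 0 < dot (z - z0) n} :=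
    (contDiffOn_const.div hl.contDiffOn fun z hz => ne_of_gt hz).add
      (him.contDiffOn.div ((him.pow 2).add (hre.pow 2)).contDiffOn fun z hz => by
        rw [add_comm]; exact hr z hz)
  have key := field hd hU (w := fun z => 1 / ‖z - z0‖ ^ 2) hu hc hs c1 c2
    (fun z => by positivity) (fun z hz => ?_)
  · simpa only [mul_one_div] using key
  have hz' : 0 < dot (z - z0) n := hz
  have d1 := (c1.contDiffAt (hU.mem_nhds hz)).differentiableAt one_ne_zero
  have d2 := (c2.contDiffAt (hU.mem_nhds hz)).differentiableAt one_ne_zero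
  have r1 := hr z hz'
  have r2 : (z.im - z0.im) ^ 2 + (z.re - z0.re) ^ 2 ≠ 0 := by rw [add_comm]; exact r1
  have e1 := fderiv_of_line (v := 1) d1 (by
    convert half_deriv (dot (z - z0) n) n.re (z.re - z0.re) (z.im - z0.im) hz'.ne' r1 using 1
    funext t
    simp only [dot, Complex.sub_re, Complex.sub_im, Complex.add_re, Complex.add_im,
      Complex.smul_re, Complex.smul_im, Complex.one_re, Complex.one_im, smul_eq_mul]
    congr 2 <;> ring)
  have e2 := fderiv_of_line (v := Complex.I) d2 (by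
    convert half_deriv (dot (z - z0) n) n.im (z.im - z0.im) (z.re - z0.re) hz'.ne' r2 using 1
    funext t
    simp only [dot, Complex.sub_re, Complex.sub_im, Complex.add_re, Complex.add_im,
      Complex.smul_re, Complex.smul_im, Complex.I_re, Complex.I_im, smul_eq_mul]
    congr 2 <;> ring)
  rw [e1, e2, norm_sq_eq]
  simp only [Complex.sub_re, Complex.sub_im]
  have hdot : dot (z - z0) n = (z.re - z0.re) * n.re + (z.im - z0.im) * n.im := by simp [dot]
  generalize dot (z - z0) n = l at hz' hdot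
  generalize z.re - z0.re = a at hdot r1 r2
  generalize z.im - z0.im = b at hdot r1 r2
  rw [add_comm (b ^ 2) (a ^ 2)]
  generalize hR : a ^ 2 + b ^ 2 = R at r1
  apply le_of_eq
  have hl0 := hz'.ne'
  field_simp
  linear_combination (3 * l ^ 2) * hR + (2 * R * l) * hdot

theorem sStrip (hd : SDiv) : SStrip := by
  intro Ω n m w ho hne hn hw hs
  set c := Real.pi / w with hc
  have hc0 : 0 < c := div_pos Real.pi_pos hw
  have hl : ContDiff ℝ 1 (fun z : ℂ => dot z n - m) := by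
    simpa using (dot_contDiff 0 n).sub (contDiff_const (c := m))
  have hcos : ∀ z ∈ Ω, Real.cos (c * (dot z n - m)) ≠ 0 := by
    intro z hz
    have h1 := abs_lt.1 (hs z hz)
    have e : c * (w / 2) = Real.pi / 2 := by rw [hc]; field_simp
    refine (Real.cos_pos_of_mem_Ioo ⟨?_, ?_⟩).ne'
    · nlinarith [mul_lt_mul_of_pos_left h1.1 hc0]
    · nlinarith [mul_lt_mul_of_pos_left h1.2 hc0]
  have hn2 : n.re ^ 2 + n.im ^ 2 = 1 := by rw [← norm_sq_eq, hn]; norm_num
  have ct : ∀ k : ℝ, ContDiffOn ℝ 1 (fun z : ℂ => c * Real.tan (c * (dot z n - m)) * k) Ω := by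
    intro k z hz
    refine ContDiffAt.contDiffWithinAt ?_
    have h1 : ContDiffAt ℝ 1 (fun z : ℂ => Real.tan (c * (dot z n - m))) z :=
      ContDiffAt.comp (g := Real.tan) (f := fun z : ℂ => c * (dot z n - m)) z
        (Real.contDiffAt_tan.2 (hcos z hz)) (contDiff_const.mul hl).contDiffAt
    exact (contDiffAt_const.mul h1).mul contDiffAt_const
  have main : ∀ u, SF Ω u → c ^ 2 * Ma u ≤ En u := by
    intro u hu
    have key := field hd ho (w := fun _ => c ^ 2) hu.contDiff_one hu.2.1 hu.2.2 (ct n.re) (ct n.im)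
      (fun z => by positivity) (fun z hz => ?_)
    · rw [integral_mul_const] at key
      rw [mul_comm]; exact key
    have d1 := ((ct n.re).contDiffAt (ho.mem_nhds hz)).differentiableAt one_ne_zero
    have d2 := ((ct n.im).contDiffAt (ho.mem_nhds hz)).differentiableAt one_ne_zero
    have e1 := fderiv_of_line (v := 1) d1 (by
      convert strip_deriv c (dot z n - m) n.re (hcos z hz) using 1
      funext t
      simp only [dot, Complex.add_re, Complex.add_im,
        Complex.smul_re, Complex.smul_im, Complex.one_re, Complex.one_im, smul_eq_mul]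
      congr 4; ring)
    have e2 := fderiv_of_line (v := Complex.I) d2 (by
      convert strip_deriv c (dot z n - m) n.im (hcos z hz) using 1
      funext t
      simp only [dot, Complex.add_re, Complex.add_im,
        Complex.smul_re, Complex.smul_im, Complex.I_re, Complex.I_im, smul_eq_mul]
      congr 4; ring)
    rw [e1, e2, Real.tan_eq_sin_div_cos]
    have h0 := hcos z hz
    have h1 := Real.sin_sq_add_cos_sq (c * (dot z n - m))
    generalize Real.cos (c * (dot z n - m)) = C at h0 h1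
    generalize Real.sin (c * (dot z n - m)) = S at h1
    apply le_of_eq
    field_simp
    linear_combination h1 - (1 - S ^ 2) * hn2
  obtain ⟨u0, ⟨a1, a2, a3⟩, a4⟩ := exists_SF ho hne
  refine le_csInf ⟨_, u0, a1, a2, a3, a4, rfl⟩ ?_
  rintro q ⟨u, b1, b2, b3, b4, rfl⟩
  have hp := Ma_pos b1.continuous b2 b4
  exact (le_div_iff₀ hp).2 (main u ⟨b1, b2, b3⟩)

end Pool.Agent.MP_44cb5f_an

end MrgPart2

-- ======== part 3: formerly Pool.Agent.MP_44cb5f_an.Klb
section MrgPart3

set_option autoImplicit false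
open MeasureTheory Set Metric
open scoped Pointwise

namespace Pool.Agent.MP_44cb5f_an
namespace Klb

theorem PC_le (hpc : SPC) {Ω : Set ℂ} (h : Adm Ω) :
    ∃ R, 0 < R ∧ ∀ F ⊆ Ω, PC F ≤ ENNReal.ofReal (4 * Real.pi * R) := by
  obtain ⟨R, hR, hs⟩ := h.2.1.subset_ball_lt 0 0
  exact ⟨R, hR, fun F hF => hpc.2.2.2 F 0 R (hF.trans hs)⟩

theorem vol_pos {Ω : Set ℂ} (h : Adm Ω) : 0 < volume Ω := h.2.2.1.measure_pos _ h.1

theorem inf_ne_top (hp : SPer) (hpc : SPC) {Ω : Set ℂ} (h : Adm Ω) :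
    (⨅ E : {E : Set ℂ // MeasurableSet E ∧ E ⊆ Ω ∧ 0 < volume E}, per E.1 / volume E.1) ≠ ⊤ := by
  obtain ⟨R, -, hR⟩ := PC_le hpc h
  refine ne_top_of_le_ne_top (ENNReal.div_ne_top (x := per Ω) ?_ (vol_pos h).ne')
    (iInf_le_of_le ⟨Ω, h.2.2.1.measurableSet, subset_rfl, vol_pos h⟩ le_rfl)
  refine ne_top_of_le_ne_top ENNReal.ofReal_ne_top
    (le_trans ?_ ((hp Ω h).trans (hR Ω subset_rfl)))
  rw [two_mul]; exact le_self_add

theorem Ar_lip (hpc : SPC) (hst : SST) {Ω : Set ℂ} (h : Adm Ω) :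
    ∃ M, 0 ≤ M ∧ ∀ a b, 0 ≤ a → a ≤ b → Ar Ω b ≤ Ar Ω a ∧ Ar Ω a ≤ Ar Ω b + M * (b - a) := by
  obtain ⟨R, hR, hs⟩ := PC_le hpc h
  have hπ := Real.pi_pos
  refine ⟨2 * Real.pi * R, by positivity, fun a b ha hab => ?_⟩
  have fa := (In_vol_lt_top h.2.1 ha).ne
  have fb := (In_vol_lt_top h.2.1 (ha.trans hab)).ne
  refine ⟨ENNReal.toReal_mono fa (measure_mono (In_anti Ω hab)), ?_⟩
  have h1 : ∫⁻ s in Ioo a b, PC (In Ω s) ≤ ENNReal.ofReal (4 * Real.pi * R * (b - a)) := by
    refine (setLIntegral_mono' measurableSet_Ioo fun s hs' =>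
      hs _ (In_subset Ω (ha.trans hs'.1.le))).trans ?_
    rw [setLIntegral_const, Real.volume_Ioo, ← ENNReal.ofReal_mul (by positivity)]
  have h2 := (hst Ω a b h ha hab).le.trans (add_le_add_right h1 _)
  have h3 := ENNReal.toReal_mono (ENNReal.add_ne_top.2
    ⟨ENNReal.mul_ne_top (by simp) fb, ENNReal.ofReal_ne_top⟩) h2
  rw [ENNReal.toReal_add (ENNReal.mul_ne_top (by simp) fb) ENNReal.ofReal_ne_top,
    ENNReal.toReal_ofReal (mul_nonneg (by positivity) (sub_nonneg.2 hab)), ENNReal.toReal_mul,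
    ENNReal.toReal_mul, ENNReal.toReal_ofNat] at h3
  unfold Ar; linarith

theorem exists_r (hpc : SPC) (hst : SST) {Ω : Set ℂ} (h : Adm Ω) :
    ∃ r, 0 < r ∧ Ar Ω r = Real.pi * r ^ 2 := by
  obtain ⟨M, hM, hl⟩ := Ar_lip hpc hst h
  have h0 : 0 < Ar Ω 0 := by
    rw [Ar, In_zero h]; exact ENNReal.toReal_pos (vol_pos h).ne' h.2.1.measure_lt_top.ne
  have hc : ContinuousOn (Ar Ω) (Icc 0 (Ar Ω 0 + 1)) := by
    refine (LipschitzOnWith.of_dist_le_mul (K := NNReal.mk M hM) fun a ha b hb => ?_).continuousOn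
    rw [Real.dist_eq, Real.dist_eq, NNReal.coe_mk]
    rcases le_total a b with e | e
    · have := hl a b ha.1 e
      rw [abs_of_nonneg (by linarith), abs_of_nonpos (by linarith)]; linarith
    · have := hl b a hb.1 e
      rw [abs_of_nonpos (by linarith), abs_of_nonneg (by linarith)]; linarith
  have h1 := (hl 0 (Ar Ω 0 + 1) le_rfl (by linarith)).1
  obtain ⟨r, hr, e⟩ := intermediate_value_Icc' (f := fun r => Ar Ω r - Real.pi * r ^ 2)
    (by linarith : 0 ≤ Ar Ω 0 + 1) (hc.sub (by fun_prop))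
    (show (0 : ℝ) ∈ _ from ⟨by nlinarith [Real.pi_gt_three, sq_nonneg (Ar Ω 0 + 1)], by simpa using h0.le⟩)
  refine ⟨r, hr.1.lt_of_ne ?_, by simpa [sub_eq_zero] using e⟩
  rintro rfl
  simp at e; linarith

theorem upper (hp : SPer) (hpc : SPC) (hst : SST) {Ω : Set ℂ} (h : Adm Ω) {r : ℝ} (hr : 0 < r)
    (hA : Ar Ω r = Real.pi * r ^ 2) : chee Ω ≤ 1 / r := by
  have hπ := Real.pi_pos
  have hK : Adm (In Ω r) := In_adm h hr.le (In_nonempty_of_Ar (by rw [hA]; positivity))
  have vK : volume (In Ω r) = ENNReal.ofReal (Real.pi * r ^ 2) := by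
    rw [← hA, Ar, ENNReal.ofReal_toReal hK.2.1.measure_lt_top.ne]
  have sub : In Ω r + ball (0 : ℂ) r ⊆ Ω := by
    rintro _ ⟨k, hk, w, hw, rfl⟩
    refine ball_dep_subset Ω k ?_
    rw [mem_ball_zero_iff] at hw
    simpa using hw.trans hk
  set K := In Ω r
  set C := K + ball (0 : ℂ) r
  have hC : Adm C := ⟨hK.1.add (nonempty_ball.2 hr), h.2.1.subset sub, isOpen_ball.add_left,
    hK.2.2.2.add (convex_ball _ _)⟩
  have s1 : K ⊆ In C r := fun z hz => by
    obtain ⟨ε, hε, hs⟩ := Metric.isOpen_iff.1 hK.2.2.1 z hz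
    refine lt_of_lt_of_le (by linarith : r < ε + r) (le_dep hC.2.1 ?_)
    rw [← add_zero z, ← ball_add_ball hε hr]
    exact add_subset_add_right hs
  have s2 : ∀ s, K + ball (0 : ℂ) (r - s) ⊆ In C s := by
    rintro s _ ⟨k, hk, w, hw, rfl⟩
    rw [mem_ball_zero_iff] at hw
    refine lt_of_lt_of_le (by linarith : s < r - ‖w‖) (le_dep hC.2.1 fun y hy => ?_)
    refine ⟨k, hk, y - k, ?_, by simp⟩
    rw [mem_ball, dist_eq_norm] at hy
    rw [mem_ball_zero_iff, show y - k = y - (k + w) + w by ring]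
    linarith [norm_add_le (y - (k + w)) w]
  have i1 : ∫⁻ s in Ioo 0 r, ENNReal.ofReal (4 * Real.pi * (r - s)) =
      ENNReal.ofReal (2 * Real.pi * r ^ 2) := by
    rw [← ofReal_integral_eq_lintegral_ofReal
      ((Continuous.integrableOn_Icc (by fun_prop)).mono_set Ioo_subset_Icc_self)
      ((ae_restrict_iff' measurableSet_Ioo).2 (Filter.Eventually.of_forall fun s hs =>
        mul_nonneg (by positivity) (sub_nonneg.2 hs.2.le))),
      ← integral_Ioc_eq_integral_Ioo, ← intervalIntegral.integral_of_le hr.le,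
      intervalIntegral.integral_const_mul,
      intervalIntegral.integral_sub (by simp) (Continuous.intervalIntegrable (by fun_prop) _ _)]
    congr 1; simp; ring
  have i2 : PC K * ENNReal.ofReal r + ENNReal.ofReal (2 * Real.pi * r ^ 2) ≤
      ∫⁻ s in Ioo 0 r, PC (In C s) := by
    refine le_trans (le_of_eq ?_) (setLIntegral_mono' (f := fun s => PC K +
      ENNReal.ofReal (4 * Real.pi * (r - s))) measurableSet_Ioo fun s hs => ?_)
    · rw [lintegral_add_left measurable_const, setLIntegral_const, Real.volume_Ioo, sub_zero, i1]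
    · rw [← hpc.1 K (r - s) hK.2.2.2 hK.1 hK.2.1 (sub_pos.2 hs.2)]; exact PC_mono (s2 s)
  have key : 2 * (per C * ENNReal.ofReal r) ≤ 2 * volume C := by
    have e := hst C 0 r hC le_rfl hr.le
    rw [In_zero hC] at e
    have e2 : ENNReal.ofReal (4 * Real.pi * r) * ENNReal.ofReal r =
        2 * volume K + ENNReal.ofReal (2 * Real.pi * r ^ 2) := by
      rw [vK, two_mul, ← ENNReal.ofReal_mul (by positivity), ← ENNReal.ofReal_add (by positivity)
        (by positivity), ← ENNReal.ofReal_add (by positivity) (by positivity)]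
      congr 1; ring
    calc 2 * (per C * ENNReal.ofReal r) ≤ PC C * ENNReal.ofReal r := by
          rw [← mul_assoc]; exact mul_le_mul_left (hp C hC) _
      _ = 2 * volume K + (PC K * ENNReal.ofReal r + ENNReal.ofReal (2 * Real.pi * r ^ 2)) := by
          rw [hpc.1 K r hK.2.2.2 hK.1 hK.2.1 hr, add_mul, e2]; ring
      _ ≤ _ := by rw [e]; exact add_le_add (mul_le_mul_right (measure_mono s1) _) i2
  rw [ENNReal.mul_le_mul_iff_right (by simp) (by simp)] at key
  refine ENNReal.toReal_le_of_le_ofReal (by positivity)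
    ((iInf_le _ ⟨C, hC.2.2.1.measurableSet, sub, vol_pos hC⟩).trans ?_)
  refine ENNReal.div_le_of_le_mul' ?_
  rw [one_div, ENNReal.ofReal_inv_of_pos hr, ← div_eq_mul_inv,
    ENNReal.le_div_iff_mul_le (Or.inl (by simpa using hr)) (Or.inl ENNReal.ofReal_ne_top)]
  exact key

end Klb
open Klb

theorem sK1 (h : SKL1) (hp : SPer) (hpc : SPC) : SK1 := by
  intro Ω ρ hΩ hρ hA
  refine (ENNReal.ofReal_le_iff_le_toReal (inf_ne_top hp hpc hΩ)).1 (le_iInf fun E => ?_)
  obtain ⟨E, hm, hs, h0⟩ := E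
  have h1 := h Ω ρ hΩ hρ ((ENNReal.le_ofReal_iff_toReal_le (In_vol_lt_top hΩ.2.1 hρ.le).ne
    (by have := Real.pi_pos; positivity)).2 hA) E hm hs
  rw [ENNReal.le_div_iff_mul_le (Or.inl h0.ne') (Or.inl (hΩ.2.1.subset hs).measure_lt_top.ne)]
  refine (mul_le_mul_right h1 _).trans_eq ?_
  rw [← mul_assoc, ← ENNReal.ofReal_mul (by positivity), one_div_mul_cancel hρ.ne',
    ENNReal.ofReal_one, one_mul]

theorem sK2 (h : SKL1) (hp : SPer) (hpc : SPC) (hst : SST) : SK2 := fun Ω hΩ =>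
  ⟨exists_r hpc hst hΩ, fun r hr hA =>
    le_antisymm (upper hp hpc hst hΩ hr hA) (sK1 h hp hpc Ω r hΩ hr hA.le)⟩

end Pool.Agent.MP_44cb5f_an

end MrgPart3

-- ======== part 4: formerly Pool.Agent.MP_44cb5f_an.Lam
section MrgPart4

set_option autoImplicit false
open MeasureTheory Set Metric Filter Topology ContinuousLinearMap
open scoped Convolution

namespace Pool.Agent.MP_44cb5f_an

theorem sDiv : SDiv := fun G C hG hc v => by
  have h := (LipschitzWith.const (1 : ℝ)).integral_lineDeriv_mul_eq (μ := volume) hG hc (-v)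
  simp only [lineDeriv, deriv_const, zero_mul, integral_zero, neg_neg, mul_one] at h
  rw [h]
  refine integral_congr_ae ?_
  filter_upwards [hG.ae_differentiableAt (μ := volume)] with z hz
  exact hz.lineDeriv_eq_fderiv.symm

namespace Lam

/-- Bump functions with radii tending to zero. -/
noncomputable def bp {δ : ℝ} (hδ : 0 < δ) (n : ℕ) : ContDiffBump (0 : ℂ) :=
  ⟨δ / (n + 1) / 2, δ / (n + 1), by positivity, half_lt_self (by positivity)⟩

noncomputable abbrev mo {δ : ℝ} (hδ : 0 < δ) (n : ℕ) (g : ℂ → ℝ) : ℂ → ℝ :=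
  (bp hδ n).normed volume ⋆[lsmul ℝ ℝ, volume] g

variable {δ : ℝ} (hδ : 0 < δ) {K : Set ℂ} {g : ℂ → ℝ}

theorem mo_smooth (n : ℕ) (hg : Integrable g) :
    ContDiff ℝ ((⊤ : ℕ∞) : WithTop ℕ∞) (mo hδ n g) :=
  (bp hδ n).hasCompactSupport_normed.contDiff_convolution_left _ (bp hδ n).contDiff_normed
    hg.locallyIntegrable

theorem mo_zero (n : ℕ) (h0 : ∀ z, z ∉ K → g z = 0) {z : ℂ} (hz : z ∉ cthickening δ K) :
    mo hδ n g z = 0 := by
  by_contra h
  obtain ⟨a, ha, b, hb, rfl⟩ := support_convolution_subset (lsmul ℝ ℝ) h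
  rw [(bp hδ n).support_normed_eq, mem_ball_zero_iff] at ha
  refine hz (mem_cthickening_of_dist_le _ b δ K (not_not.1 fun hb' => hb (h0 b hb')) ?_)
  rw [dist_eq_norm, add_sub_cancel_right]
  exact ha.le.trans (div_le_self hδ.le (by linarith [(Nat.cast_nonneg n : (0 : ℝ) ≤ n)]))

theorem mo_bd (n : ℕ) {C : ℝ} (hb : ∀ z, |g z| ≤ C) (z : ℂ) : |mo hδ n g z| ≤ C := by
  have h := norm_integral_le_of_norm_le (μ := volume)
    (f := fun t => (bp hδ n).normed volume t * g (z - t))
    ((bp hδ n).integrable_normed.mul_const C) (Eventually.of_forall fun t => by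
      rw [norm_mul, Real.norm_of_nonneg ((bp hδ n).nonneg_normed t)]
      exact mul_le_mul_of_nonneg_left (hb _) ((bp hδ n).nonneg_normed t))
  rwa [integral_mul_const, (bp hδ n).integral_normed, one_mul] at h

theorem mo_lim (hK : IsCompact K) (hm : AEStronglyMeasurable g volume) {C : ℝ} (hb : ∀ z, |g z| ≤ C)
    (h0 : ∀ z, z ∉ K → g z = 0) :
    Tendsto (fun n => ∫ z, mo hδ n g z ^ 2) atTop (𝓝 (∫ z, g z ^ 2)) := by
  have hg := integrable_of_bdd hK hm (fun z _ => hb z) h0
  refine tendsto_integral_of_dominated_convergence ((cthickening δ K).indicator fun _ => C ^ 2)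
    (fun n => ((mo_smooth hδ n hg).continuous.pow 2).aestronglyMeasurable)
    ((integrable_indicator_iff isClosed_cthickening.measurableSet).2
      (integrableOn_const hK.cthickening.measure_lt_top.ne)) (fun n => Eventually.of_forall fun z => ?_) ?_
  · by_cases hz : z ∈ cthickening δ K
    · rw [indicator_of_mem hz, norm_pow]
      exact pow_le_pow_left₀ (norm_nonneg _) (mo_bd hδ n hb z) 2
    · rw [indicator_of_notMem hz, mo_zero hδ n h0 hz]; simp
  · filter_upwards [ContDiffBump.ae_convolution_tendsto_right_of_locallyIntegrable (μ := volume)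
      (φ := bp hδ) (l := atTop) (K := 2) (tendsto_const_div_atTop_nhds_zero_nat δ |>.comp
        (tendsto_add_atTop_nat 1) |>.congr fun n => by simp [bp])
      (Eventually.of_forall fun n => by simp only [bp]; linarith) hg.locallyIntegrable] with z hz
    exact hz.pow 2

theorem mo_fderiv (n : ℕ) {u : ℂ → ℝ} {C : NNReal} (hu : LipschitzWith C u)
    (hc : HasCompactSupport u) (x v : ℂ) :
    fderiv ℝ (mo hδ n u) x v = mo hδ n (fun z => fderiv ℝ u z v) x := by
  have s1 : ContDiff ℝ 1 ((bp hδ n).normed volume) := (bp hδ n).contDiff_normed (n := 1)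
  have c1 := (bp hδ n).hasCompactSupport_normed (μ := volume)
  have hl := hu.continuous.locallyIntegrable (μ := volume)
  obtain ⟨D, hD⟩ := s1.lipschitzWith_of_hasCompactSupport c1 one_ne_zero
  rw [(c1.hasFDerivAt_convolution_left (lsmul ℝ ℝ) s1 hl x).fderiv, convolution_def,
    ContinuousLinearMap.integral_apply ((c1.fderiv ℝ).convolutionExists_left _
      (s1.continuous_fderiv one_ne_zero) hl x).integrable]
  have h := hD.integral_lineDeriv_mul_eq (μ := volume) (g := fun t => u (x - t))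
    (hu.comp (IsometryEquiv.subLeft x).isometry.lipschitz)
    (hc.comp_homeomorph (Homeomorph.subLeft x)) v
  simp only [(s1.differentiable one_ne_zero _).lineDeriv_eq_fderiv] at h
  refine h.trans (integral_congr_ae ?_)
  filter_upwards [(Measure.measurePreserving_sub_left volume x).quasiMeasurePreserving.ae
    (hu.ae_differentiableAt (μ := volume))] with t ht
  rw [mul_comm, lsmul_apply, smul_eq_mul, ← ht.lineDeriv_eq_fderiv]
  simp only [lineDeriv, smul_neg]
  congr 2
  funext s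
  congr 1
  ring

variable {Ω : Set ℂ} {u v : ℂ → ℝ}

theorem d_zero {z : ℂ} (hz : z ∉ tsupport u) (w : ℂ) : fderiv ℝ u z w = 0 := by
  rw [show fderiv ℝ u z = 0 from not_not.1 fun h => hz (support_fderiv_subset ℝ h)]; rfl

theorem d_meas (u : ℂ → ℝ) (w : ℂ) : AEStronglyMeasurable (fun z => fderiv ℝ u z w) volume :=
  (measurable_fderiv_apply_const ℝ u w).aestronglyMeasurable

theorem d_bd {C : NNReal} (hu : LipschitzWith C u) (w z : ℂ) : |fderiv ℝ u z w| ≤ C * ‖w‖ :=
  ((fderiv ℝ u z).le_opNorm w).trans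
    (mul_le_mul_of_nonneg_right (norm_fderiv_le_of_lipschitz ℝ hu) (norm_nonneg _))

theorem d_int (hu : TF Ω u) (hv : TF Ω v) (w : ℂ) :
    Integrable fun z => fderiv ℝ u z w * fderiv ℝ v z w := by
  obtain ⟨⟨C, hC⟩, hc, -⟩ := hu
  obtain ⟨⟨D, hD⟩, -, -⟩ := hv
  refine integrable_of_bdd hc ((d_meas u w).mul (d_meas v w)) (C := C * ‖w‖ * (D * ‖w‖))
    (fun z _ => ?_) fun z hz => by rw [d_zero hz, zero_mul]
  rw [abs_mul]
  exact mul_le_mul (d_bd hC w z) (d_bd hD w z) (abs_nonneg _) (by positivity)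

theorem En_eq (hu : TF Ω u) :
    En u = (∫ z, fderiv ℝ u z 1 ^ 2) + ∫ z, fderiv ℝ u z Complex.I ^ 2 := by
  simp only [En, clm_norm_sq]
  simp only [sq]
  exact integral_add (d_int hu hu 1) (d_int hu hu _)

theorem Ma_pos (hu : TF Ω u) (h : u ≠ 0) : 0 < Ma u := by
  refine (Ma_nonneg u).lt_of_ne' fun h0 => h ?_
  have := (hu.continuous.pow 2).ae_eq_iff_eq volume continuous_zero |>.1
    ((integral_eq_zero_iff_of_nonneg (fun _ => sq_nonneg _) hu.integrable_sq).1 h0)
  exact funext fun z => pow_eq_zero_iff two_ne_zero |>.1 (congrFun this z)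

theorem lam_SF (hu : SF Ω u) : lam1 Ω * Ma u ≤ En u := by
  by_cases h : u = 0
  · simpa [h, Ma] using En_nonneg 0
  · exact (le_div_iff₀ (Ma_pos hu.tf h)).1
      (csInf_le ⟨0, lam1_bdd Ω⟩ ⟨u, hu.1, hu.2.1, hu.2.2, h, rfl⟩)

theorem TF_add (hu : TF Ω u) (hv : TF Ω v) (s : ℝ) : TF Ω fun z => u z + s * v z := by
  obtain ⟨⟨C, hC⟩, hc, hs⟩ := hu
  obtain ⟨⟨D, hD⟩, hd, ht⟩ := hv
  refine ⟨⟨_, hC.add ((lipschitzWith_smul s).comp hD)⟩, hc.add hd.mul_left,
    (tsupport_add _ _).trans (union_subset hs (tsupport_mul_subset_right.trans ht))⟩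

theorem int3 {f g h : ℂ → ℝ} (hf : Integrable f) (hg : Integrable g) (hh : Integrable h)
    (a b : ℝ) : ∫ z, (f z + a * g z + b * h z) = (∫ z, f z) + a * (∫ z, g z) + b * ∫ z, h z := by
  have i : Integrable fun z => f z + a * g z := hf.add (hg.const_mul a)
  rw [integral_add i (hh.const_mul b), integral_add hf (hg.const_mul a), integral_const_mul,
    integral_const_mul]

end Lam

open Lam

theorem sLam : SLam := fun Ω u ho hu => by
  obtain ⟨δ, hδ, hs⟩ := hu.2.1.isCompact.exists_cthickening_subset_open ho hu.2.2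
  obtain ⟨C, hC⟩ := hu.1
  obtain ⟨B, hB⟩ := hu.continuous.bounded_above_of_compact_support hu.2.1
  have h0 : ∀ z, z ∉ tsupport u → u z = 0 := fun z => image_eq_zero_of_notMem_tsupport
  have sf : ∀ n, SF Ω (mo hδ n u) := fun n => by
    have : tsupport (mo hδ n u) ⊆ cthickening δ (tsupport u) :=
      closure_minimal (fun z hz => not_not.1 fun h => hz (mo_zero hδ n h0 h)) isClosed_cthickening
    exact ⟨mo_smooth hδ n (hu.continuous.integrable_of_hasCompactSupport hu.2.1),
      hu.2.1.isCompact.cthickening.of_isClosed_subset (isClosed_tsupport _) this, this.trans hs⟩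
  have l := fun w => mo_lim hδ hu.2.1.isCompact (d_meas u w) (d_bd hC w) fun z hz => d_zero hz w
  rw [En_eq hu]
  refine le_of_tendsto_of_tendsto' ((mo_lim hδ hu.2.1.isCompact hu.continuous.aestronglyMeasurable
    hB h0).const_mul (lam1 Ω)) ((l 1).add (l Complex.I)) fun n => ?_
  have := lam_SF (sf n)
  rw [En_eq (sf n).tf] at this
  simpa only [mo_fderiv hδ n hC hu.2.1, Ma] using this

theorem sNear : SNear := fun Ω ho hne δ hδ => by
  obtain ⟨u0, ⟨h1, h2, h3⟩, h4⟩ := exists_SF ho hne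
  obtain ⟨_, ⟨u, a, b, c, d, rfl⟩, h⟩ := exists_lt_of_csInf_lt (s := {q : ℝ | ∃ u : ℂ → ℝ,
    ContDiff ℝ ((⊤ : ℕ∞) : WithTop ℕ∞) u ∧ HasCompactSupport u ∧ tsupport u ⊆ Ω ∧ u ≠ 0 ∧
      q = (∫ z, ‖fderiv ℝ u z‖ ^ 2) / ∫ z, u z ^ 2}) ⟨_, u0, h1, h2, h3, h4, rfl⟩
    (lt_add_of_pos_right _ hδ)
  have hp := Ma_pos (SF.tf ⟨a, b, c⟩) d
  have hq : (Real.sqrt (Ma u))⁻¹ ^ 2 = (Ma u)⁻¹ := by rw [inv_pow, Real.sq_sqrt hp.le]
  refine ⟨fun z => (Real.sqrt (Ma u))⁻¹ * u z, ⟨contDiff_const.mul a, b.mul_left,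
    tsupport_mul_subset_right.trans c⟩, ?_, ?_⟩
  · simp only [Ma, mul_pow] at hq ⊢
    rw [integral_const_mul, hq]
    exact inv_mul_cancel₀ hp.ne'
  · simp only [En, fderiv_const_mul (a.differentiable (by simp) _), norm_smul, mul_pow,
      Real.norm_eq_abs, sq_abs]
    rw [integral_const_mul, hq, ← div_eq_inv_mul]
    exact h.le

theorem sCS : SCS := fun Ω u v ho hu hv => by
  have iuv : Integrable fun z => u z * v z :=
    (hu.continuous.mul hv.continuous).integrable_of_hasCompactSupport hu.2.1.mul_right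
  have id : Integrable fun z => fderiv ℝ u z 1 * fderiv ℝ v z 1 +
      fderiv ℝ u z Complex.I * fderiv ℝ v z Complex.I := (d_int hu hv 1).add (d_int hu hv Complex.I)
  have h := discrim_le_zero (a := En v - lam1 Ω * Ma v) (b := 2 * Bq (lam1 Ω) u v)
    (c := En u - lam1 Ω * Ma u) fun s => by
      have h1 := sLam Ω _ ho (TF_add hu hv s)
      have e1 : Ma (fun z => u z + s * v z) = Ma u + 2 * s * (∫ z, u z * v z) + s ^ 2 * Ma v := by
        simp only [Ma]
        rw [← int3 hu.integrable_sq iuv hv.integrable_sq]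
        exact integral_congr_ae (Eventually.of_forall fun z => by ring)
      have e2 : En (fun z => u z + s * v z) = En u + 2 * s * (∫ z, (fderiv ℝ u z 1 * fderiv ℝ v z 1 +
          fderiv ℝ u z Complex.I * fderiv ℝ v z Complex.I)) + s ^ 2 * En v := by
        simp only [En]
        rw [← int3 hu.integrable_grad id hv.integrable_grad]
        obtain ⟨C, hC⟩ := hu.1
        obtain ⟨D, hD⟩ := hv.1
        refine integral_congr_ae ?_
        filter_upwards [hC.ae_differentiableAt (μ := volume), hD.ae_differentiableAt (μ := volume)]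
          with z a b
        rw [(a.hasFDerivAt.fun_add (b.hasFDerivAt.const_mul s)).fderiv]
        simp only [clm_norm_sq, add_apply, smul_apply, smul_eq_mul]
        ring
      rw [e1, e2] at h1
      simp only [Bq]
      linarith
  rw [discrim] at h
  linarith

end Pool.Agent.MP_44cb5f_an

end MrgPart4

-- ======== part 5: formerly Pool.Agent.MP_44cb5f_an.Max
section MrgPart5

set_option autoImplicit false
open MeasureTheory Set Metric

namespace Pool.Agent.MP_44cb5f_an

namespace Max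

theorem dot_add (a b c : ℂ) : dot (a + b) c = dot a c + dot b c := by
  simp [dot]; ring

theorem dot_smul (t : ℝ) (a c : ℂ) : dot (t • a) c = t * dot a c := by
  simp [dot]; ring

/-- A half plane that contains a ball keeps its centre at distance at least the radius. -/
theorem dot_le_of_ball {y w θ : ℂ} {r c : ℝ} (hθ : ‖θ‖ = 1) (hr : 0 < r)
    (h : ∀ x ∈ ball y r, dot (x - w) θ ≤ c) : dot (y - w) θ + r ≤ c := by
  refine le_of_forall_lt fun s hs => ?_
  by_contra hc
  have hc' : c ≤ s := not_lt.1 hc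
  set t := max 0 ((s - dot (y - w) θ + r) / 2) with ht
  have t0 : 0 ≤ t := le_max_left _ _
  have t1 : t < r := max_lt hr (by linarith)
  have t2 : (s - dot (y - w) θ + r) / 2 ≤ t := le_max_right _ _
  have hm : y + t • θ ∈ ball y r := by
    rw [mem_ball, dist_eq_norm, add_sub_cancel_left, norm_smul, hθ, Real.norm_eq_abs,
      abs_of_nonneg t0]
    linarith
  have h1 := h _ hm
  rw [show y + t • θ - w = (y - w) + t • θ by abel, dot_add, dot_smul, dot_self, hθ] at h1
  linarith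

theorem exists_near {Ω : Set ℂ} (h : Adm Ω) (z : ℂ) : ∃ w, w ∉ Ω ∧ dep Ω z = dist z w :=
  h.2.2.1.isClosed_compl.exists_infDist_eq_dist (compl_nonempty h.2.1) z

theorem interior_Kc {Ω : Set ℂ} (h : Adm Ω) : interior (Kc Ω) ⊆ In Ω 1 := by
  intro z hz
  obtain ⟨e, he, hb⟩ := Metric.isOpen_iff.1 isOpen_interior z hz
  have hz1 : 1 ≤ dep Ω z := interior_subset (s := Kc Ω) hz
  by_contra hn
  have hz2 : dep Ω z = 1 := le_antisymm (not_lt.1 hn) hz1
  obtain ⟨w, hw, hd⟩ := exists_near h z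
  have hd1 : ‖w - z‖ = 1 := by rw [← dist_eq_norm, dist_comm, ← hd, hz2]
  set t := min (e / 2) 1 with ht
  have t0 : 0 < t := lt_min (by linarith) one_pos
  have t1 : t ≤ 1 := min_le_right _ _
  have t2 : t ≤ e / 2 := min_le_left _ _
  have hm : z + t • (w - z) ∈ ball z e := by
    rw [mem_ball, dist_eq_norm, add_sub_cancel_left, norm_smul, hd1, Real.norm_eq_abs,
      abs_of_pos t0]
    linarith
  have h1 : 1 ≤ dep Ω (z + t • (w - z)) := interior_subset (s := Kc Ω) (hb hm)
  have h2 : dep Ω (z + t • (w - z)) ≤ dist (z + t • (w - z)) w :=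
    infDist_le_dist_of_mem (show w ∈ Ωᶜ from hw)
  have h3 : dist (z + t • (w - z)) w = 1 - t := by
    rw [dist_comm, dist_eq_norm, show w - (z + t • (w - z)) = (1 - t) • (w - z) by
      rw [sub_smul, one_smul]; abel, norm_smul, hd1, Real.norm_eq_abs,
      abs_of_nonneg (by linarith), mul_one]
  linarith

theorem subset_H {Ω : Set ℂ} (h : Adm Ω) {z k θ : ℂ} (hz : z ∈ Ω) (hs : Sm (Kc Ω) k θ) :
    dot (z - k) θ ≤ 1 := by
  obtain ⟨⟨hk, hθ, hn⟩, hu⟩ := hs
  have hk1 : dep Ω k = 1 := by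
    refine le_antisymm (not_lt.1 fun hlt => ?_) hk
    obtain ⟨e, he, hb⟩ := Metric.isOpen_iff.1 isOpen_interior k (In_subset_interior_Kc Ω hlt)
    have := dot_le_of_ball (w := k) hθ he fun x hx => hn x (interior_subset (hb hx))
    rw [sub_self] at this
    simp [dot] at this
    linarith
  obtain ⟨w, hw, hd⟩ := exists_near h k
  obtain ⟨η, hη, hsep⟩ := exists_unit_sep h.2.2.2 h.2.2.1 h.1 hw
  have h1 : ∀ y ∈ Kc Ω, dot (y - w) η + 1 ≤ 0 := fun y hy =>
    dot_le_of_ball hη one_pos fun x hx =>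
      (hsep x (ball_dep_subset Ω y (ball_subset_ball hy hx))).le
  have h2 : -1 ≤ dot (k - w) η := by
    have := abs_dot_le (k - w) η
    rw [hη, ← dist_eq_norm, ← hd, hk1, mul_one] at this
    exact (abs_le.1 this).1
  have h3 : η = θ := by
    refine hu η ⟨hk, hη, fun y hy => ?_⟩
    have e : dot (y - w) η = dot (y - k) η + dot (k - w) η := by
      rw [← dot_add, sub_add_sub_cancel]
    linarith [h1 y hy]
  subst h3
  have e : dot (z - w) η = dot (z - k) η + dot (k - w) η := by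
    rw [← dot_add, sub_add_sub_cancel]
  linarith [hsep z hz]

theorem convex_H (K : Set ℂ) : Convex ℝ {z | ∀ k θ, Sm K k θ → dot (z - k) θ ≤ 1} := by
  intro x hx y hy a b ha hb hab k θ hs
  have e : a • x + b • y - k = a • (x - k) + b • (y - k) := by
    rw [smul_sub, smul_sub, sub_add_sub_comm, ← add_smul, hab, one_smul]
  rw [e, dot_add, dot_smul, dot_smul]
  nlinarith [mul_le_mul_of_nonneg_left (hx k θ hs) ha, mul_le_mul_of_nonneg_left (hy k θ hs) hb]

theorem bounded_H (hg : SGeo) {K : Set ℂ} (hc : IsCompact K) (hv : Convex ℝ K)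
    (hi : (interior K).Nonempty) :
    Bornology.IsBounded {z | ∀ k θ, Sm K k θ → dot (z - k) θ ≤ 1} := by
  obtain ⟨k0, hk0⟩ := hi
  obtain ⟨d, hd, hb⟩ := Metric.isOpen_iff.1 isOpen_interior k0 hk0
  obtain ⟨R, hR⟩ := (Metric.isBounded_iff_subset_closedBall k0).1 hc.isBounded
  refine (Metric.isBounded_iff_subset_closedBall k0).2 ⟨R * (1 + d) / d, fun z hz => ?_⟩
  have d1 : 0 < 1 + d := by linarith
  have hy : k0 + (d / (1 + d)) • (z - k0) ∈ K := by
    refine hg K hc hv ⟨k0, hk0⟩ _ fun k θ hs => ?_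
    have h1 := dot_le_of_ball (w := k) hs.1.2.1 hd fun x hx =>
      hs.1.2.2 x (interior_subset (hb hx))
    have h2 := hz k θ hs
    have e : k0 + (d / (1 + d)) • (z - k0) - k
        = (1 / (1 + d)) • (k0 - k) + (d / (1 + d)) • (z - k) := by
      have : 1 / (1 + d) = 1 - d / (1 + d) := by field_simp; ring
      rw [this, sub_smul, one_smul, smul_sub, smul_sub, smul_sub]; abel
    rw [e, dot_add, dot_smul, dot_smul, div_mul_eq_mul_div, div_mul_eq_mul_div, ← add_div]
    exact div_nonpos_of_nonpos_of_nonneg (by nlinarith) d1.le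
  have h3 := hR hy
  rw [mem_closedBall, dist_eq_norm, add_sub_cancel_left, norm_smul, Real.norm_eq_abs,
    abs_of_pos (div_pos hd d1), div_mul_eq_mul_div, div_le_iff₀ d1] at h3
  rw [mem_closedBall, dist_eq_norm, le_div_iff₀ hd]
  linarith

theorem In_H (hg : SGeo) {K : Set ℂ} (hc : IsCompact K) (hv : Convex ℝ K)
    (hi : (interior K).Nonempty) :
    In (interior {z | ∀ k θ, Sm K k θ → dot (z - k) θ ≤ 1}) 1 ⊆ interior K := by
  intro z hz
  set H := {z | ∀ k θ, Sm K k θ → dot (z - k) θ ≤ 1} with hH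
  have h1 : 1 < dep (interior H) z := hz
  refine mem_interior.2 ⟨ball z (dep (interior H) z - 1), fun y hy => ?_, isOpen_ball,
    mem_ball_self (by linarith)⟩
  refine hg K hc hv hi y fun k θ hs => ?_
  have h2 := dot_le_of_ball (y := y) (w := k) (c := 1) hs.1.2.1 one_pos fun x hx => by
    have hx' : x ∈ ball z (dep (interior H) z) := by
      rw [mem_ball] at hx hy ⊢
      linarith [dist_triangle x y z]
    exact interior_subset (ball_dep_subset _ z hx') k θ hs
  linarith

end Max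

theorem sMax (hg : SGeo) (h1 : SK1) (h2 : SK2) (hs : SStrict) : SMax := by
  intro Ω hm hA
  have ha := hm.1
  have hne : (In Ω 1).Nonempty := In_nonempty_of_Ar (by rw [hA]; exact Real.pi_pos)
  have hi : (interior (Kc Ω)).Nonempty := hne.mono (In_subset_interior_Kc Ω)
  have hb := Max.bounded_H hg (Kc_compact ha) (Kc_convex ha) hi
  refine ⟨hb, ?_⟩
  have hin := (Max.In_H hg (Kc_compact ha) (Kc_convex ha) hi).trans (Max.interior_Kc ha)
  have hcv := (Max.convex_H (Kc Ω)).interior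
  set H := {z | ∀ k θ, Sm (Kc Ω) k θ → dot (z - k) θ ≤ 1} with hH
  have hsub : Ω ⊆ interior H :=
    interior_maximal (fun z hz k θ hk => Max.subset_H ha hz hk) ha.2.2.1
  have ha' : Adm (interior H) :=
    ⟨ha.1.mono hsub, hb.subset interior_subset, isOpen_interior, hcv⟩
  have hAr : Ar (interior H) 1 ≤ Real.pi * 1 ^ 2 := by
    rw [one_pow, mul_one, ← hA]
    exact ENNReal.toReal_mono (In_vol_lt_top ha.2.1 zero_le_one).ne (measure_mono hin)
  have c1 := h1 _ 1 ha' one_pos hAr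
  have c2 := (h2 Ω ha).2 1 one_pos (by rw [hA]; ring)
  rw [div_one] at c1 c2
  refine hs Ω _ ha ha' hsub ?_
  have hJ := hm.2 _ ha'
  rw [J, J, c2, one_pow, div_one] at hJ
  exact hJ.trans (div_le_self (lam1_nonneg _) (one_le_pow₀ c1))

end Pool.Agent.MP_44cb5f_an

end MrgPart5

-- ======== part 6: formerly Pool.Agent.MP_44cb5f_an.Od2
section MrgPart6

set_option autoImplicit false
open MeasureTheory Set Metric Filter Topology

namespace Pool.Agent.MP_44cb5f_an

namespace Od2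

/-- Clamp to the unit interval. -/
noncomputable def cl (x : ℝ) : ℝ := max 0 (min x 1)

theorem cl_nonneg (x : ℝ) : 0 ≤ cl x := le_max_left _ _

theorem cl_le_one (x : ℝ) : cl x ≤ 1 := max_le zero_le_one (min_le_right _ _)

theorem cl_of_nonpos {x : ℝ} (h : x ≤ 0) : cl x = 0 :=
  max_eq_left ((min_le_left _ _).trans h)

theorem cl_of_one_le {x : ℝ} (h : 1 ≤ x) : cl x = 1 := by
  rw [cl, min_eq_right h, max_eq_right zero_le_one]

theorem cl_lip : LipschitzWith 1 cl := (LipschitzWith.id.min_const 1).const_max 0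

/-- The trapezoid that vanishes outside `(c0, c1 + h)` and is one on `[c0 + h, c1]`. -/
noncomputable def psi (c0 c1 h p : ℝ) : ℝ := min (cl ((p - c0) / h)) (cl ((c1 + h - p) / h))

theorem psi_nonneg (c0 c1 h p : ℝ) : 0 ≤ psi c0 c1 h p := le_min (cl_nonneg _) (cl_nonneg _)

theorem psi_le_one (c0 c1 h p : ℝ) : psi c0 c1 h p ≤ 1 := (min_le_left _ _).trans (cl_le_one _)

theorem psi_left {c0 c1 h p : ℝ} (hh : 0 < h) (hp : p ≤ c0) : psi c0 c1 h p = 0 := by
  rw [psi, cl_of_nonpos (div_nonpos_of_nonpos_of_nonneg (by linarith) hh.le)]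
  exact min_eq_left (cl_nonneg _)

theorem psi_right {c0 c1 h p : ℝ} (hh : 0 < h) (hp : c1 + h ≤ p) : psi c0 c1 h p = 0 := by
  rw [psi, cl_of_nonpos (x := (c1 + h - p) / h)
    (div_nonpos_of_nonpos_of_nonneg (by linarith) hh.le)]
  exact min_eq_right (cl_nonneg _)

theorem psi_mid {c0 c1 h p : ℝ} (hh : 0 < h) (hp : p ∈ Icc (c0 + h) c1) :
    psi c0 c1 h p = 1 := by
  rw [psi, cl_of_one_le ((one_le_div hh).2 (by linarith [hp.1])),
    cl_of_one_le ((one_le_div hh).2 (by linarith [hp.2])), min_self]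

theorem psi_lip (c0 c1 : ℝ) {h : ℝ} (hh : 0 < h) (a : ℝ) :
    ∃ L : NNReal, LipschitzWith L (fun p => a * psi c0 c1 h p) := by
  have h1 : LipschitzWith (Real.toNNReal (1 / h)) (fun p : ℝ => (p - c0) / h) :=
    LipschitzWith.of_dist_le' fun x y => by
      rw [Real.dist_eq, Real.dist_eq, ← sub_div, abs_div, abs_of_pos hh,
        show x - c0 - (y - c0) = x - y by ring]
      exact le_of_eq (by ring)
  have h2 : LipschitzWith (Real.toNNReal (1 / h)) (fun p : ℝ => (c1 + h - p) / h) :=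
    LipschitzWith.of_dist_le' fun x y => by
      rw [Real.dist_eq, Real.dist_eq, ← sub_div, abs_div, abs_of_pos hh,
        show c1 + h - x - (c1 + h - y) = -(x - y) by ring, abs_neg]
      exact le_of_eq (by ring)
  have h3 := (cl_lip.comp h1).min (cl_lip.comp h2)
  exact ⟨_, (lipschitzWith_smul a).comp h3⟩

theorem exists_h (m : ℝ → ℝ) (hm : Measurable m) {c0 c1 c2 u1 u4 : ℝ} (h01 : c0 < c1)
    (h12 : c1 < c2) (hb : ∀ u, c0 < m u → m u < c2 → u ∈ Icc u1 u4)
    (hpos : 0 < volume.real {u | c0 < m u ∧ m u ≤ c1}) :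
    ∃ h, 0 < h ∧ c0 + h ≤ c1 ∧ c1 + h ≤ c2 ∧
      volume.real {u | c0 < m u ∧ m u < c1 + h} ≤
        2 * volume.real {u | m u ∈ Icc (c0 + h) c1} := by
  set h0 := min (c1 - c0) (c2 - c1) with hh0
  have h0p : 0 < h0 := lt_min (by linarith) (by linarith)
  have h0a : h0 ≤ c1 - c0 := min_le_left _ _
  have h0b : h0 ≤ c2 - c1 := min_le_right _ _
  set e : ℕ → ℝ := fun n => h0 / ((n : ℝ) + 1) with he
  have ep : ∀ n, 0 < e n := fun n => div_pos h0p (by positivity)
  have ele : ∀ n, e n ≤ h0 := fun n => div_le_self h0p.le (by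
    have : (0 : ℝ) ≤ n := n.cast_nonneg
    linarith)
  have ea : Antitone e := fun i j hij => div_le_div_of_nonneg_left h0p.le (by positivity) (by
    have : (i : ℝ) ≤ j := by exact_mod_cast hij
    linarith)
  have et : ∀ δ : ℝ, 0 < δ → ∃ n, e n < δ := fun δ hδ => by
    obtain ⟨n, hn⟩ := exists_nat_gt (h0 / δ)
    refine ⟨n, ?_⟩
    rw [he, div_lt_iff₀ (by positivity)]
    rw [div_lt_iff₀ hδ] at hn
    nlinarith
  set B := {u | c0 < m u ∧ m u ≤ c1} with hB
  have fin : ∀ S : Set ℝ, S ⊆ Icc u1 u4 → volume S ≠ ⊤ := fun S hS =>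
    ((measure_mono hS).trans_lt measure_Icc_lt_top).ne
  have hBf : volume B ≠ ⊤ := fin _ fun u hu => hb u hu.1 (hu.2.trans_lt h12)
  have t1 : Tendsto (fun n => volume {u | c0 < m u ∧ m u < c1 + e n}) atTop (𝓝 (volume B)) := by
    have hI : B = ⋂ n, {u | c0 < m u ∧ m u < c1 + e n} := by
      ext u
      simp only [hB, mem_iInter, mem_ofPred_eq]
      constructor
      · intro hu n
        exact ⟨hu.1, by linarith [hu.2, ep n]⟩
      · intro hu
        refine ⟨(hu 0).1, le_of_not_gt fun hlt => ?_⟩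
        obtain ⟨n, hn⟩ := et (m u - c1) (by linarith)
        linarith [(hu n).2]
    rw [hI]
    refine tendsto_measure_iInter_atTop (fun n => ?_) (fun i j hij u hu => ?_) ⟨0, ?_⟩
    · exact ((measurableSet_lt measurable_const hm).inter
        (measurableSet_lt hm measurable_const)).nullMeasurableSet
    · exact ⟨hu.1, by linarith [hu.2, ea hij]⟩
    · exact fin _ fun u hu => hb u hu.1 (by linarith [hu.2, ele 0])
  have t2 : Tendsto (fun n => volume {u | m u ∈ Icc (c0 + e n) c1}) atTop (𝓝 (volume B)) := by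
    have hI : B = ⋃ n, {u | m u ∈ Icc (c0 + e n) c1} := by
      ext u
      simp only [hB, mem_iUnion, mem_ofPred_eq, mem_Icc]
      constructor
      · intro hu
        obtain ⟨n, hn⟩ := et (m u - c0) (by linarith [hu.1])
        exact ⟨n, by linarith, hu.2⟩
      · rintro ⟨n, hn⟩
        exact ⟨by linarith [hn.1, ep n], hn.2⟩
    rw [hI]
    refine tendsto_measure_iUnion_atTop (fun i j hij u hu => ?_)
    exact ⟨by linarith [hu.1, ea hij], hu.2⟩
  have r1 := (ENNReal.tendsto_toReal hBf).comp t1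
  have r2 := (ENNReal.tendsto_toReal hBf).comp t2
  have hp : 0 < (volume B).toReal := hpos
  have e1 := r1.eventually (gt_mem_nhds (show (volume B).toReal < 3 / 2 * (volume B).toReal by
    linarith))
  have e2 := r2.eventually (lt_mem_nhds (show 3 / 4 * (volume B).toReal < (volume B).toReal by
    linarith))
  obtain ⟨n, hn1, hn2⟩ := (e1.and e2).exists
  refine ⟨e n, ep n, by linarith [ele n], by linarith [ele n], ?_⟩
  simp only [Function.comp] at hn1 hn2
  simp only [Measure.real]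
  linarith

end Od2

open Od2 in
theorem sOD2 : SOD2 := by
  intro m c0 c1 c2 u1 u2 u3 u4 hm h01 h12 h23 hl hmid hr
  have hmm : Measurable m := hm.measurable
  have fin : ∀ S : Set ℝ, S ⊆ Icc u1 u4 → volume S ≠ ⊤ := fun S hS =>
    ((measure_mono hS).trans_lt measure_Icc_lt_top).ne
  have hb : ∀ u, c0 < m u → m u < c2 → u ∈ Icc u1 u4 := fun u a b => ⟨hl u a, hr u b⟩
  have hpos : 0 < volume.real {u | c0 < m u ∧ m u ≤ c1} := by
    have h1 : volume.real (Ioo u2 u3) ≤ volume.real {u | c0 < m u ∧ m u ≤ c1} :=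
      measureReal_mono (fun u hu => hmid u hu)
        (fin _ fun u hu => hb u hu.1 (hu.2.trans_lt h12))
    rw [Real.volume_real_Ioo_of_le h23.le] at h1
    linarith
  obtain ⟨h, hh, ha, hc, hvol⟩ := exists_h m hmm h01 h12 hb hpos
  set E := {u | c0 < m u ∧ m u < c1 + h} with hE
  set Pl := {u | m u ∈ Icc (c0 + h) c1} with hPl
  have hEs : E ⊆ Icc u1 u4 := fun u hu => hb u hu.1 (by linarith [hu.2])
  have hEf : volume E ≠ ⊤ := fin _ hEs
  have hEm : MeasurableSet E :=
    (measurableSet_lt measurable_const hmm).inter (measurableSet_lt hmm measurable_const)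
  have hPm : MeasurableSet Pl := hmm measurableSet_Icc
  have hPE : Pl ⊆ E := fun u hu => ⟨by linarith [hu.1], by linarith [hu.2]⟩
  have hPf : volume Pl ≠ ⊤ := fin _ (hPE.trans hEs)
  set d := volume.real E with hd
  have hmidE : Ioo u2 u3 ⊆ E := fun u hu => ⟨(hmid u hu).1, by linarith [(hmid u hu).2]⟩
  have hdpos : 0 < d := by
    have h1 : volume.real (Ioo u2 u3) ≤ d := measureReal_mono hmidE hEf
    rw [Real.volume_real_Ioo_of_le h23.le] at h1
    linarith
  have hzero : ∀ v, v ∉ E → psi c0 c1 h (m v) = 0 := fun v hv => by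
    by_cases h0 : c0 < m v
    · exact psi_right hh (le_of_not_gt fun h1 => hv ⟨h0, h1⟩)
    · exact psi_left hh (le_of_not_gt h0)
  obtain ⟨L1, hL1⟩ := psi_lip c0 c1 hh 1
  have hpc : Continuous (psi c0 c1 h) := by simpa using hL1.continuous
  have hfm : Measurable fun v => psi c0 c1 h (m v) := hpc.measurable.comp hmm
  have hEi : Integrable (E.indicator fun _ => (1 : ℝ)) :=
    (integrable_indicator_iff hEm).2 (integrableOn_const hEf)
  have hPi : Integrable (Pl.indicator fun _ => (1 : ℝ)) :=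
    (integrable_indicator_iff hPm).2 (integrableOn_const hPf)
  have hle : ∀ v, psi c0 c1 h (m v) ≤ E.indicator (fun _ => (1 : ℝ)) v := fun v => by
    by_cases hv : v ∈ E
    · rw [indicator_of_mem hv]; exact psi_le_one _ _ _ _
    · rw [indicator_of_notMem hv, hzero v hv]
  have hge : ∀ v, Pl.indicator (fun _ => (1 : ℝ)) v ≤ psi c0 c1 h (m v) := fun v => by
    by_cases hv : v ∈ Pl
    · rw [indicator_of_mem hv, psi_mid hh hv]
    · rw [indicator_of_notMem hv]; exact psi_nonneg _ _ _ _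
  have hfi : Integrable fun v => psi c0 c1 h (m v) :=
    hEi.mono' hfm.aestronglyMeasurable (Eventually.of_forall fun v => by
      rw [Real.norm_eq_abs, abs_of_nonneg (psi_nonneg _ _ _ _)]; exact hle v)
  set I := ∫ v, psi c0 c1 h (m v) with hI
  have hI1 : I ≤ d := by
    have := integral_mono hfi hEi hle
    rwa [integral_indicator_const _ hEm, smul_eq_mul, mul_one] at this
  have hI2 : volume.real Pl ≤ I := by
    have := integral_mono hPi hfi hge
    rwa [integral_indicator_const _ hPm, smul_eq_mul, mul_one] at this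
  have hIpos : 0 < I := by linarith
  have ha0 : 0 < 1 / I := by positivity
  obtain ⟨L, hL⟩ := psi_lip c0 c1 hh (1 / I)
  refine ⟨fun p => 1 / I * psi c0 c1 h p, L, 1 / I, d, c0 + h, hL, by linarith, ha,
    fun p => ⟨mul_nonneg ha0.le (psi_nonneg _ _ _ _), ?_⟩, fun p hp => ?_, fun p hp => ?_,
    fun p hp => ?_, one_div_le_one_div_of_le hIpos hI1, ?_, ?_, fun u0 hu0 => ?_⟩
  · exact mul_le_of_le_one_right ha0.le (psi_le_one _ _ _ _)
  · simp only [psi_left hh hp, mul_zero]
  · simp only [psi_right hh (hc.trans hp), mul_zero]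
  · simp only [psi_mid hh hp, mul_one]
  · have h1 : d ≤ volume.real (Icc u1 u4) := measureReal_mono hEs measure_Icc_lt_top.ne
    have h2 : u1 ≤ u4 := by
      have := hEs (hmidE (show (u2 + u3) / 2 ∈ Ioo u2 u3 from ⟨by linarith, by linarith⟩))
      exact this.1.trans this.2
    rwa [Real.volume_real_Icc_of_le h2] at h1
  · change d / 2 ≤ volume.real Pl
    linarith
  · have hgi : Integrable fun v => 1 / I * psi c0 c1 h (m v) := hfi.const_mul _
    have hg0 : ∀ v, 0 ≤ 1 / I * psi c0 c1 h (m v) := fun v =>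
      mul_nonneg ha0.le (psi_nonneg _ _ _ _)
    have htot : ∫ v, 1 / I * psi c0 c1 h (m v) = 1 := by
      rw [integral_const_mul, ← hI]; field_simp
    have hz : ∀ w, (∀ v, v < w → v ∉ E) → ∫ v in Iic w, 1 / I * psi c0 c1 h (m v) = 0 :=
      fun w hw => by
        rw [integral_Iic_eq_integral_Iio]
        exact setIntegral_eq_zero_of_forall_eq_zero fun v hv => by rw [hzero v (hw v hv), mul_zero]
    have hV : ∀ u, ∫ v in u0..u, 1 / I * psi c0 c1 h (m v) =
        ∫ v in Iic u, 1 / I * psi c0 c1 h (m v) := fun u => by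
      rw [← intervalIntegral.integral_Iic_sub_Iic hgi.integrableOn hgi.integrableOn,
        hz u0 fun v hv hvE => absurd (hEs hvE).1 (not_le.2 (hv.trans_le hu0)), sub_zero]
    refine ⟨hdpos, fun u v => ?_, fun u => ?_, fun u hu => ?_, fun u hu => ?_⟩
    · have e : (∫ w in u0..u, 1 / I * psi c0 c1 h (m w)) - ∫ w in u0..v, 1 / I * psi c0 c1 h (m w)
          = ∫ w in v..u, 1 / I * psi c0 c1 h (m w) :=
        intervalIntegral.integral_interval_sub_left hgi.intervalIntegrable hgi.intervalIntegrable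
      change |(∫ w in u0..u, 1 / I * psi c0 c1 h (m w)) -
        ∫ w in u0..v, 1 / I * psi c0 c1 h (m w)| ≤ _
      rw [e, ← Real.norm_eq_abs]
      refine intervalIntegral.norm_integral_le_of_norm_le_const fun w _ => ?_
      rw [Real.norm_eq_abs, abs_of_nonneg (hg0 w)]
      have h1 : 1 / I ≤ 2 / d := by
        rw [div_le_div_iff₀ hIpos hdpos]; linarith
      exact (mul_le_of_le_one_right ha0.le (psi_le_one _ _ _ _)).trans h1
    · change 0 ≤ ∫ w in u0..u, 1 / I * psi c0 c1 h (m w) ∧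
        ∫ w in u0..u, 1 / I * psi c0 c1 h (m w) ≤ 1
      rw [hV]
      exact ⟨integral_nonneg hg0,
        (setIntegral_le_integral hgi (Eventually.of_forall hg0)).trans_eq htot⟩
    · change ∫ w in u0..u, 1 / I * psi c0 c1 h (m w) = 0
      rw [hV]
      refine hz u fun v hv hvE => ?_
      have h1 : Ioo v u3 ⊆ E := fun w hw => by
        refine ⟨hvE.1.trans_le (hm hw.1.le), ?_⟩
        have h2 : (max w u2 + u3) / 2 ∈ Ioo u2 u3 :=
          ⟨by linarith [le_max_right w u2], by linarith [max_lt hw.2 h23]⟩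
        have h3 : w ≤ (max w u2 + u3) / 2 := by linarith [le_max_left w u2, hw.2]
        exact (hm h3).trans_lt (hmidE h2).2
      have h4 : volume.real (Ioo v u3) ≤ d := measureReal_mono h1 hEf
      rw [Real.volume_real_Ioo_of_le (by linarith)] at h4
      linarith
    · change ∫ w in u0..u, 1 / I * psi c0 c1 h (m w) = 1
      rw [hV]
      refine (setIntegral_eq_integral_of_forall_compl_eq_zero fun v hv => ?_).trans htot
      have hv' : u < v := not_le.1 hv
      rw [hzero v fun hvE => ?_, mul_zero]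
      have h1 : Ioo u2 v ⊆ E := fun w hw => by
        refine ⟨?_, (hm hw.2.le).trans_lt hvE.2⟩
        have h2 : (u2 + min w u3) / 2 ∈ Ioo u2 u3 :=
          ⟨by linarith [lt_min hw.1 h23], by linarith [min_le_right w u3]⟩
        have h3 : (u2 + min w u3) / 2 ≤ w := by linarith [min_le_left w u3, hw.1]
        exact (hmidE h2).1.trans_le (hm h3)
      have h4 : volume.real (Ioo u2 v) ≤ d := measureReal_mono h1 hEf
      rw [Real.volume_real_Ioo_of_le (by linarith)] at h4
      linarith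

end Pool.Agent.MP_44cb5f_an

end MrgPart6

-- ======== part 7: formerly Pool.Agent.MP_44cb5f_an.Pc
section MrgPart7

set_option autoImplicit false
open MeasureTheory Set Metric
open scoped Pointwise

namespace Pool.Agent.MP_44cb5f_an

namespace Pc

/-- The offset as a linear map. -/
noncomputable def pl (α : ℝ) : ℂ →ₗ[ℝ] ℝ where
  toFun := prj α
  map_add' a b := by simp only [prj, Complex.add_im, Complex.add_re]; ring
  map_smul' r a := by simp [prj]; ring

theorem pl_coe (α : ℝ) : (pl α : ℂ → ℝ) = prj α := rfl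

theorem prj_cont (α : ℝ) : Continuous (prj α) := (pl α).continuous_of_finiteDimensional

theorem abs_prj_le (α : ℝ) (z : ℂ) : |prj α z| ≤ ‖z‖ := by
  apply abs_le_of_sq_le_sq' _ (norm_nonneg z) |> abs_le.2
  rw [norm_sq_eq, prj]
  nlinarith [Real.sin_sq_add_cos_sq α, sq_nonneg (z.re * Real.cos α + z.im * Real.sin α)]

theorem prj_ball (α s : ℝ) : prj α '' ball (0 : ℂ) s = Ioo (-s) s := by
  ext b
  constructor
  · rintro ⟨z, hz, rfl⟩
    rw [mem_ball_zero_iff] at hz
    exact abs_lt.1 ((abs_prj_le α z).trans_lt hz)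
  · intro hb
    refine ⟨ln α b 0, ?_, prj_ln α b 0⟩
    rw [mem_ball_zero_iff]
    have h1 : ‖ln α b 0‖ ^ 2 = |b| ^ 2 := by
      rw [norm_sq_eq, sq_abs]
      simp only [ln]
      linear_combination b ^ 2 * Real.sin_sq_add_cos_sq α
    rw [(pow_left_inj₀ (norm_nonneg _) (abs_nonneg b) two_ne_zero).1 h1]
    exact abs_lt.2 hb

theorem vol_conv {I : Set ℝ} (hc : Convex ℝ I) (hne : I.Nonempty) (hb : Bornology.IsBounded I) :
    volume I = ENNReal.ofReal (sSup I - sInf I) := by
  apply le_antisymm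
  · rw [← Real.volume_Icc]
    exact measure_mono (subset_Icc_csInf_csSup hb.bddBelow hb.bddAbove)
  · rw [← Real.volume_Ioo]
    exact measure_mono ((hc.isConnected hne).Ioo_csInf_csSup_subset hb.bddBelow hb.bddAbove)

theorem add_Ioo {I : Set ℝ} (hc : Convex ℝ I) (hne : I.Nonempty) (hb : Bornology.IsBounded I)
    {s : ℝ} (hs : 0 < s) : I + Ioo (-s) s = Ioo (sInf I - s) (sSup I + s) := by
  ext t
  constructor
  · rintro ⟨x, hx, e, he, rfl⟩
    have h1 := csInf_le hb.bddBelow hx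
    have h2 := le_csSup hb.bddAbove hx
    exact ⟨by linarith [he.1], by linarith [he.2]⟩
  · intro ht
    obtain ⟨x, hx, h1⟩ := exists_lt_of_csInf_lt hne (show sInf I < t + s by linarith [ht.1])
    obtain ⟨y, hy, h2⟩ := exists_lt_of_lt_csSup hne (show t - s < sSup I by linarith [ht.2])
    by_cases h3 : t - s < x
    · exact ⟨x, hx, t - x, ⟨by linarith, by linarith⟩, by ring⟩
    by_cases h4 : y < t + s
    · exact ⟨y, hy, t - y, ⟨by linarith, by linarith⟩, by ring⟩
    · have : t ∈ I := hc.ordConnected.out hx hy ⟨by linarith, by linarith⟩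
      exact ⟨t, this, 0, ⟨by linarith, hs⟩, by ring⟩

theorem lint_const (s : ℝ) :
    ∫⁻ _ in Ioo (0 : ℝ) (2 * Real.pi), ENNReal.ofReal (2 * s) =
      ENNReal.ofReal (4 * Real.pi * s) := by
  rw [setLIntegral_const, Real.volume_Ioo, ← ENNReal.ofReal_mul' (by linarith [Real.pi_pos])]
  congr 1
  ring

end Pc

theorem sPC : SPC := by
  refine ⟨fun F s hc hne hb hs => ?_, fun G hG => ?_, fun F c w hc => ?_, fun F w R h => ?_⟩
  · have key : ∀ α, volume (prj α '' (F + ball (0 : ℂ) s)) =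
        volume (prj α '' F) + ENNReal.ofReal (2 * s) := fun α => by
      have e : prj α '' (F + ball (0 : ℂ) s) = prj α '' F + prj α '' ball (0 : ℂ) s :=
        image_add (Pc.pl α)
      have c1 : Convex ℝ (prj α '' F) := hc.linear_image (Pc.pl α)
      have n1 : (prj α '' F).Nonempty := hne.image _
      have b1 : Bornology.IsBounded (prj α '' F) :=
        (LinearMap.toContinuousLinearMap (Pc.pl α)).lipschitz.isBounded_image hb
      have le : sInf (prj α '' F) ≤ sSup (prj α '' F) := csInf_le_csSup n1 b1.bddBelow b1.bddAbove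
      rw [e, Pc.prj_ball, Pc.add_Ioo c1 n1 b1 hs, Real.volume_Ioo, Pc.vol_conv c1 n1 b1,
        ← ENNReal.ofReal_add (by linarith) (by linarith)]
      congr 1
      ring
    simp only [PC, key]
    rw [lintegral_add_right _ measurable_const, Pc.lint_const]
  · have key : ∀ α, prj α '' convexHull ℝ G = prj α '' G := fun α => by
      have c1 : Convex ℝ (prj α '' G) :=
        (hG.image _ (Pc.prj_cont α).continuousOn).ordConnected.convex
      rw [← Pc.pl_coe, LinearMap.image_convexHull]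
      exact c1.convexHull_eq
    simp only [PC, key]
  · have key : ∀ α, volume (prj α '' ((fun z => (c : ℂ) * z + w) '' F)) =
        ENNReal.ofReal c * volume (prj α '' F) := fun α => by
      have e : prj α '' ((fun z => (c : ℂ) * z + w) '' F) =
          (fun t => t + prj α w) '' (c • (prj α '' F)) := by
        rw [← image_smul, image_image, image_image, image_image]
        refine image_congr fun z _ => ?_
        simp [prj]
        ring
      rw [e, image_add_right, measure_preimage_add_right, Measure.addHaar_smul_of_nonneg _ hc]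
      simp
    simp only [PC, key]
    rw [lintegral_const_mul' _ _ ENNReal.ofReal_ne_top]
  · rw [← Pc.lint_const]
    refine lintegral_mono fun α => ?_
    have e : ENNReal.ofReal (2 * R) = volume (Ioo (prj α w - R) (prj α w + R)) := by
      rw [Real.volume_Ioo]
      congr 1
      ring
    change volume (prj α '' F) ≤ ENNReal.ofReal (2 * R)
    rw [e]
    refine measure_mono ?_
    rintro _ ⟨z, hz, rfl⟩
    have h1 : ‖z - w‖ < R := mem_ball_iff_norm.1 (h hz)
    have h2 := abs_lt.1 ((Pc.abs_prj_le α (z - w)).trans_lt h1)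
    have h3 : prj α (z - w) = prj α z - prj α w := map_sub (Pc.pl α) z w
    exact ⟨by linarith [h2.1], by linarith [h2.2]⟩

theorem sSand : SSand := by
  intro A B ε hB hε hA z
  obtain ⟨w, hw, e⟩ := hB.2.2.1.isClosed_compl.exists_infDist_eq_dist (compl_nonempty hB.2.1) z
  obtain ⟨θ, h1, h2⟩ := exists_unit_sep hB.2.2.2 hB.2.2.1 hB.1 hw
  have hp : w + ε • θ ∈ Aᶜ := by
    intro hp
    obtain ⟨x, hx, d, hd, e'⟩ := hA hp
    have h3 := h2 x hx
    have h4 : x - w = ε • θ - d := by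
      have : x + d = w + ε • θ := e'
      linear_combination this
    have h5 : dot (ε • θ - d) θ = ε * dot θ θ - dot d θ := by
      simp [dot]
      ring
    have h6 := abs_dot_le d θ
    rw [mem_closedBall_zero_iff] at hd
    rw [h4, h5, dot_self, h1] at h3
    rw [h1] at h6
    linarith [le_abs_self (dot d θ)]
  have h7 : dep A z ≤ dist z (w + ε • θ) := infDist_le_dist_of_mem hp
  have h8 : dist w (w + ε • θ) = ε := by
    rw [dist_self_add_right, norm_smul, h1, Real.norm_eq_abs, abs_of_nonneg hε, mul_one]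
  have h9 := dist_triangle z w (w + ε • θ)
  have : dep B z = dist z w := e
  linarith

end Pool.Agent.MP_44cb5f_an

end MrgPart7

-- ======== part 8: formerly Pool.Agent.MP_44cb5f_an.Qc
section MrgPart8

set_option autoImplicit false
open MeasureTheory Set Metric
open scoped Pointwise

namespace Pool.Agent.MP_44cb5f_an

namespace Qc

/-- Total variation of a monotone Lipschitz function on an interval. -/
theorem mono_tv {f : ℝ → ℝ} {C : NNReal} (hf : LipschitzWith C f) {a b : ℝ} (hab : a ≤ b)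
    (hm : MonotoneOn f (Icc a b)) :
    ∫⁻ s in Ioc a b, ‖deriv f s‖ₑ = ENNReal.ofReal (f b - f a) := by
  have hac : AbsolutelyContinuousOnInterval f a b :=
    hf.lipschitzOnWith.absolutelyContinuousOnInterval
  have hi : IntegrableOn (deriv f) (Ioc a b) := hac.intervalIntegrable_deriv.1
  have h0 : ∀ s ∈ Ioo a b, 0 ≤ deriv f s := fun s hs => by
    rw [← derivWithin_of_mem_nhds (Icc_mem_nhds hs.1 hs.2)]
    exact hm.derivWithin_nonneg
  have h1 : 0 ≤ᵐ[volume.restrict (Ioc a b)] deriv f := by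
    rw [← restrict_Ioo_eq_restrict_Ioc]
    exact (ae_restrict_iff' measurableSet_Ioo).2 (Filter.Eventually.of_forall h0)
  rw [← hac.integral_deriv_eq_sub, intervalIntegral.integral_of_le hab,
    ofReal_integral_eq_lintegral_ofReal hi h1]
  refine lintegral_congr_ae (h1.mono fun s hs => ?_)
  exact Real.enorm_eq_ofReal hs

/-- Total variation of a quasi-concave function of one variable. -/
theorem oneD {v : ℝ → ℝ} {C : NNReal} (hv : LipschitzWith C v) (hc : HasCompactSupport v)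
    (_h0 : ∀ s, 0 ≤ v s) (hq : ∀ τ : ℝ, Convex ℝ {s | τ < v s}) :
    ∫⁻ s, ‖deriv v s‖ₑ = 2 * volume ({τ | ∃ s, τ < v s} ∩ Ioi 0) := by
  obtain ⟨m, hm⟩ := hv.continuous.exists_forall_ge_of_hasCompactSupport hc
  obtain ⟨R, hR⟩ := (hc.isCompact.isBounded.union Bornology.isBounded_singleton).subset_ball
    (0 : ℝ) (s := tsupport v ∪ {m})
  rw [Real.ball_eq_Ioo, zero_sub, zero_add] at hR
  have hmR := hR (Or.inr rfl)
  have hz : ∀ s, s ∉ Ioo (-R) R → v s = 0 := fun s hs =>
    image_eq_zero_of_notMem_tsupport fun h => hs (hR (Or.inl h))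
  have key : ∀ a b c, a ≤ b → b ≤ c → min (v a) (v c) ≤ v b := fun a b c hab hbc => by
    by_contra hn
    have hn' := lt_min_iff.1 (not_le.1 hn)
    exact lt_irrefl (v b) ((hq (v b)).ordConnected.out hn'.1 hn'.2 ⟨hab, hbc⟩)
  have e1 := mono_tv hv hmR.1.le fun a _ b hb hab => by
    have := key a b m hab hb.2
    rwa [min_eq_left (hm a)] at this
  have e2 := mono_tv hv.neg hmR.2.le fun a ha b _ hab => by
    have := key m a b ha.1 hab
    rw [min_eq_right (hm b)] at this
    exact neg_le_neg this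
  have e3 : ∀ s, ‖deriv (-v) s‖ₑ = ‖deriv v s‖ₑ := fun s => by
    rw [deriv.neg, enorm_neg]
  simp only [e3, Pi.neg_apply] at e2
  rw [hz (-R) fun h => lt_irrefl _ h.1, sub_zero] at e1
  rw [hz R fun h => lt_irrefl _ h.2, neg_zero, zero_sub, neg_neg] at e2
  have e4 : {τ | ∃ s, τ < v s} ∩ Ioi 0 = Ioo 0 (v m) := Set.ext fun τ =>
    ⟨fun ⟨⟨s, hs⟩, h⟩ => ⟨h, hs.trans_le (hm s)⟩, fun h => ⟨⟨m, h.2⟩, h.1⟩⟩
  have e5 : Function.support (fun s => ‖deriv v s‖ₑ) ⊆ Ioc (-R) R := fun s hs => by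
    refine Ioo_subset_Ioc_self (hR (Or.inl (support_deriv_subset (𝕜 := ℝ) fun h => hs ?_)))
    simp [h]
  rw [← setLIntegral_eq_of_support_subset e5, ← Ioc_union_Ioc_eq_Ioc hmR.1.le hmR.2.le,
    lintegral_union measurableSet_Ioc (Ioc_disjoint_Ioc_of_le le_rfl), e1, e2, e4,
    Real.volume_Ioo, sub_zero, two_mul]

theorem ln_iso (α b : ℝ) : Isometry (ln α b) := by
  refine Isometry.of_dist_eq fun s s' => ?_
  rw [dist_eq_norm, Real.dist_eq, ← sq_eq_sq₀ (norm_nonneg _) (abs_nonneg _), norm_sq_eq, sq_abs]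
  simp only [ln, Complex.sub_re, Complex.sub_im]
  linear_combination (s - s') ^ 2 * Real.sin_sq_add_cos_sq α

theorem ln_aff (α b x y p q : ℝ) (h : p + q = 1) :
    ln α b (p • x + q • y) = p • ln α b x + q • ln α b y := by
  apply Complex.ext <;> simp [ln]
  · linear_combination (b * Real.sin α) * h
  · linear_combination (-(b * Real.cos α)) * h

theorem ln_cont (s : ℝ) : Continuous fun p : (ℝ × ℝ) × ℝ => ln p.1.1 p.2 s := by
  have e : (fun p : (ℝ × ℝ) × ℝ => ln p.1.1 p.2 s) = fun p =>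
      ((s * Real.cos p.1.1 - p.2 * Real.sin p.1.1 : ℝ) : ℂ) +
        ((s * Real.sin p.1.1 + p.2 * Real.cos p.1.1 : ℝ) : ℂ) * Complex.I := by
    funext p
    exact (Complex.re_add_im _).symm
  rw [e]
  fun_prop

end Qc

theorem sQC (h : SSL) : SQC := by
  intro u C hu hc h0 hq
  set U : Set ((ℝ × ℝ) × ℝ) := {p | ∃ s, p.1.2 < u (ln p.1.1 p.2 s)} with hU
  have hUo : IsOpen U := by
    rw [hU, ofPred_exists]
    exact isOpen_iUnion fun s =>
      isOpen_lt (by fun_prop) (hu.continuous.comp (Qc.ln_cont s))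
  have hUm := hUo.measurableSet
  have hG : Measurable fun x : ℝ × ℝ => volume (Prod.mk x ⁻¹' U) :=
    measurable_measure_prodMk_left hUm
  have e1 : ∀ α b, ∫⁻ s, ‖deriv (fun s => u (ln α b s)) s‖ₑ =
      2 * ∫⁻ τ in Ioi (0 : ℝ), U.indicator 1 ((α, τ), b) := fun α b => by
    have hm : MeasurableSet {τ : ℝ | ∃ s, τ < u (ln α b s)} :=
      hUm.preimage (f := fun τ : ℝ => ((α, τ), b)) (by fun_prop)
    rw [Qc.oneD (v := fun s => u (ln α b s)) (hu.comp (Qc.ln_iso α b).lipschitz)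
      (hc.comp_isClosedEmbedding (Qc.ln_iso α b).isClosedEmbedding) (fun s => h0 _)
      (fun τ x hx y hy p q hp hq' hpq => by
        have := hq τ hx hy hp hq' hpq
        rwa [← Qc.ln_aff α b x y p q hpq] at this),
      ← Measure.restrict_apply hm, ← lintegral_indicator_one hm]
    rfl
  have e2 : ∀ α, ∫⁻ b, ∫⁻ s, ‖deriv (fun s => u (ln α b s)) s‖ₑ =
      2 * ∫⁻ τ in Ioi (0 : ℝ), volume (Prod.mk (α, τ) ⁻¹' U) := fun α => by
    simp only [e1]
    rw [lintegral_const_mul' _ _ (by simp), lintegral_lintegral_swap]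
    · congr 1
      refine lintegral_congr fun τ => ?_
      rw [← lintegral_indicator_one (hUm.preimage measurable_prodMk_left)]
      rfl
    · exact ((measurable_one.indicator hUm).comp
        (f := fun p : ℝ × ℝ => ((α, p.2), p.1)) (by fun_prop)).aemeasurable
  have e3 := h u C hu
  simp only [e2] at e3
  rw [lintegral_const_mul' _ _ (by simp), lintegral_lintegral_swap hG.aemeasurable,
    show (4 : ENNReal) = 2 * 2 by norm_num, mul_assoc,
    ENNReal.mul_right_inj (by simp) (by simp)] at e3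
  rw [e3]
  refine lintegral_congr fun τ => lintegral_congr fun α => ?_
  congr 1
  exact Set.ext fun b => (mem_prj_iff α b {z | τ < u z}).symm

end Pool.Agent.MP_44cb5f_an

end MrgPart8

-- ======== part 9: formerly Pool.Agent.MP_44cb5f_an.Sim
section MrgPart9

set_option autoImplicit false
open MeasureTheory Set Metric
open scoped Pointwise

namespace Pool.Agent.MP_44cb5f_an

/-! Invariance under similarities. -/

namespace Sim

/-- The similarity as a homeomorphism. -/
noncomputable def hm (c w : ℂ) (hc : c ≠ 0) : ℂ ≃ₜ ℂ :=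
  (Homeomorph.mulLeft₀ c hc).trans (Homeomorph.addRight w)

theorem hm_apply (c w : ℂ) (hc : c ≠ 0) (z : ℂ) : hm c w hc z = c * z + w := rfl

theorem hm_coe (c w : ℂ) (hc : c ≠ 0) : (fun z => c * z + w) = hm c w hc := rfl

theorem hm_symm (c w : ℂ) (hc : c ≠ 0) (y : ℂ) : (hm c w hc).symm y = c⁻¹ * (y - w) := by
  rw [Homeomorph.symm_apply_eq, hm_apply]
  field_simp
  ring

theorem image_eq (c w : ℂ) (A : Set ℂ) :
    (fun z => c * z + w) '' A = (fun y => y + w) '' (c • A) := by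
  rw [← Set.image_smul, Set.image_image]
  rfl

theorem dep_sim (Ω : Set ℂ) (c w : ℂ) (hc : c ≠ 0) (z : ℂ) :
    dep ((fun z => c * z + w) '' Ω) (c * z + w) = ‖c‖ * dep Ω z := by
  have e : ((fun z => c * z + w) '' Ω)ᶜ = (fun z => c * z + w) '' Ωᶜ := by
    rw [hm_coe c w hc]
    exact (Set.image_compl_eq (hm c w hc).bijective).symm
  rw [dep, e, image_eq]
  have h1 := Metric.infDist_image (x := c • z) (t := c • Ωᶜ) (isometry_add_right w)
  have h2 := infDist_smul₀ hc Ωᶜ z
  exact h1.trans h2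

theorem det_mul (c : ℂ) : LinearMap.det (LinearMap.mul ℝ ℂ c) = ‖c‖ ^ 2 := by
  rw [← Complex.normSq_eq_norm_sq, ← Algebra.norm_complex_apply, Algebra.norm_apply]
  rfl

theorem vol_sim (A : Set ℂ) (c w : ℂ) :
    volume ((fun z => c * z + w) '' A) = ENNReal.ofReal (‖c‖ ^ 2) * volume A := by
  rw [image_eq, Set.image_add_right, measure_preimage_add_right]
  have h := Measure.addHaar_image_linearMap (volume : Measure ℂ) (LinearMap.mul ℝ ℂ c) A
  rw [det_mul, abs_of_nonneg (sq_nonneg _)] at h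
  rw [← h, ← Set.image_smul]
  rfl

theorem In_sim (Ω : Set ℂ) (c w : ℂ) (hc : c ≠ 0) (σ : ℝ) :
    In ((fun z => c * z + w) '' Ω) (‖c‖ * σ) = (fun z => c * z + w) '' In Ω σ := by
  have hp : 0 < ‖c‖ := norm_pos_iff.2 hc
  ext y
  obtain ⟨z, rfl⟩ := (hm c w hc).surjective y
  rw [hm_apply]
  constructor
  · intro h
    have h' : ‖c‖ * σ < dep ((fun z => c * z + w) '' Ω) (c * z + w) := h
    rw [dep_sim Ω c w hc] at h'
    exact ⟨z, lt_of_mul_lt_mul_left h' hp.le, rfl⟩
  · rintro ⟨z', hz', e⟩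
    show ‖c‖ * σ < dep ((fun z => c * z + w) '' Ω) (c * z + w)
    have e' : c * z' + w = c * z + w := e
    rw [← e', dep_sim Ω c w hc]
    exact mul_lt_mul_of_pos_left hz' hp

theorem Ar_sim (Ω : Set ℂ) (c w : ℂ) (hc : c ≠ 0) (σ : ℝ) :
    Ar ((fun z => c * z + w) '' Ω) (‖c‖ * σ) = ‖c‖ ^ 2 * Ar Ω σ := by
  rw [Ar, In_sim Ω c w hc, vol_sim, ENNReal.toReal_mul, ENNReal.toReal_ofReal (sq_nonneg _), Ar]

theorem adm_sim {Ω : Set ℂ} (h : Adm Ω) (c w : ℂ) (hc : c ≠ 0) :
    Adm ((fun z => c * z + w) '' Ω) := by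
  refine ⟨h.1.image _, ?_, ?_, ?_⟩
  · obtain ⟨R, hR⟩ := h.2.1.exists_norm_le
    refine isBounded_iff_forall_norm_le.2 ⟨‖c‖ * R + ‖w‖, ?_⟩
    rintro _ ⟨z, hz, rfl⟩
    refine (norm_add_le _ _).trans ?_
    rw [norm_mul]
    have := mul_le_mul_of_nonneg_left (hR z hz) (norm_nonneg c)
    linarith
  · rw [hm_coe c w hc]
    exact (hm c w hc).isOpenMap _ h.2.2.1
  · rintro _ ⟨x, hx, rfl⟩ _ ⟨y, hy, rfl⟩ a b ha hb hab
    refine ⟨a • x + b • y, h.2.2.2 hx hy ha hb hab, ?_⟩
    have e : (a : ℂ) + b = 1 := by exact_mod_cast hab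
    simp only [Complex.real_smul]
    linear_combination (-w) * e

/-- Change of variables in an integral. -/
theorem integral_sim (F : ℂ → ℝ) (a w : ℂ) (ha : a ≠ 0) :
    ∫ y, F (a * (y - w)) = (‖a‖ ^ 2)⁻¹ * ∫ z, F z := by
  rw [integral_sub_right_eq_self (fun y => F (a * y)) w]
  have hd : LinearMap.det (LinearMap.mul ℝ ℂ a) ≠ 0 := by
    rw [det_mul]
    exact pow_ne_zero 2 (norm_ne_zero_iff.2 ha)
  have h := Measure.map_linearMap_addHaar_eq_smul_addHaar (volume : Measure ℂ) hd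
  have e := (Homeomorph.mulLeft₀ a ha).measurableEmbedding.integral_map (μ := volume) F
  have e2 : Measure.map (Homeomorph.mulLeft₀ a ha) (volume : Measure ℂ) =
      Measure.map (LinearMap.mul ℝ ℂ a) volume := rfl
  rw [e2, h, integral_smul_measure, det_mul,
    abs_of_nonneg (inv_nonneg.2 (sq_nonneg _)),
    ENNReal.toReal_ofReal (inv_nonneg.2 (sq_nonneg _)), smul_eq_mul] at e
  exact e.symm

theorem grad_sim {u : ℂ → ℝ} (hu : Differentiable ℝ u) (a w y : ℂ) :
    ‖fderiv ℝ (fun y => u (a * (y - w))) y‖ ^ 2 = ‖a‖ ^ 2 * ‖fderiv ℝ u (a * (y - w))‖ ^ 2 := by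
  have h1 : HasFDerivAt (fun y : ℂ => a * (y - w)) (ContinuousLinearMap.mul ℝ ℂ a) y := by
    have := ((ContinuousLinearMap.mul ℝ ℂ a).hasFDerivAt (x := y)).sub_const (a * w)
    have e : (fun y : ℂ => a * (y - w)) = fun x => ContinuousLinearMap.mul ℝ ℂ a x - a * w := by
      ext z
      simp [mul_sub]
    rw [e]
    exact this
  have h2 := ((hu (a * (y - w))).hasFDerivAt.comp y h1).fderiv
  have e : fderiv ℝ (fun y => u (a * (y - w))) y =
      (fderiv ℝ u (a * (y - w))).comp (ContinuousLinearMap.mul ℝ ℂ a) := h2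
  rw [e, clm_norm_sq, clm_norm_sq, norm_sq_eq]
  generalize fderiv ℝ u (a * (y - w)) = L
  simp only [ContinuousLinearMap.comp_apply, ContinuousLinearMap.mul_apply', mul_one]
  rw [clm_apply L a, clm_apply L (a * Complex.I)]
  simp only [dot, Complex.mul_re, Complex.mul_im, Complex.I_re, Complex.I_im]
  ring

theorem lam1_sim {Ω : Set ℂ} (h : Adm Ω) (c w : ℂ) (hc : c ≠ 0) :
    lam1 ((fun z => c * z + w) '' Ω) * ‖c‖ ^ 2 ≤ lam1 Ω := by
  obtain ⟨u0, ⟨a1, a2, a3⟩, a4⟩ := exists_SF h.2.2.1 h.1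
  refine le_csInf ⟨_, u0, a1, a2, a3, a4, rfl⟩ ?_
  rintro q ⟨u, h1, h2, h3, h4, rfl⟩
  have ha : c⁻¹ ≠ 0 := inv_ne_zero hc
  have hp : 0 < ‖c‖ ^ 2 := pow_pos (norm_pos_iff.2 hc) 2
  have ev : (fun y => u (c⁻¹ * (y - w))) = u ∘ (hm c w hc).symm := by
    ext y
    simp only [Function.comp_apply, hm_symm]
  have key : lam1 ((fun z => c * z + w) '' Ω) ≤
      (∫ y, ‖fderiv ℝ (fun y => u (c⁻¹ * (y - w))) y‖ ^ 2) / ∫ y, u (c⁻¹ * (y - w)) ^ 2 := by
    refine csInf_le ⟨0, lam1_bdd _⟩ ⟨fun y => u (c⁻¹ * (y - w)), ?_, ?_, ?_, ?_, rfl⟩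
    · exact h1.comp (contDiff_const.mul (contDiff_id.sub contDiff_const))
    · rw [ev]
      exact h2.comp_homeomorph _
    · rw [ev, tsupport_comp_eq_preimage, hm_coe c w hc, ← Homeomorph.image_symm,
        Homeomorph.symm_symm]
      exact image_mono h3
    · intro e
      apply h4
      ext z
      have := congrFun e (c * z + w)
      simpa [← mul_assoc, inv_mul_cancel₀ hc] using this
  have hd : Differentiable ℝ u := h1.differentiable (by simp)
  simp only [grad_sim hd] at key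
  rw [integral_const_mul, integral_sim (fun z => ‖fderiv ℝ u z‖ ^ 2) _ w ha,
    integral_sim (fun z => u z ^ 2) _ w ha, norm_inv, inv_pow, inv_inv, ← mul_assoc,
    mul_comm (‖c‖ ^ 2)⁻¹, mul_assoc, mul_div_mul_left _ _ hp.ne', mul_div_assoc] at key
  rw [← le_div_iff₀ hp, div_eq_inv_mul]
  exact key

end Sim

theorem sSim (h : SK2) : SSim := by
  intro Ω c w hc
  refine ⟨Sim.dep_sim Ω c w hc, Sim.Ar_sim Ω c w hc, fun hm => ?_⟩
  have hA := Sim.adm_sim hm.1 c w hc
  refine ⟨hA, fun Ω' h' => le_trans ?_ (hm.2 Ω' h')⟩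
  obtain ⟨⟨r, hr, er⟩, k⟩ := h Ω hm.1
  have hp : 0 < ‖c‖ := norm_pos_iff.2 hc
  have e1 := k r hr er
  have e2 := (h _ hA).2 (‖c‖ * r) (mul_pos hp hr) (by rw [Sim.Ar_sim Ω c w hc, er]; ring)
  have l := mul_le_mul_of_nonneg_right (Sim.lam1_sim hm.1 c w hc) (sq_nonneg r)
  rw [J, J, e1, e2, one_div, one_div, inv_pow, inv_pow, div_inv_eq_mul, div_inv_eq_mul, mul_pow,
    ← mul_assoc]
  exact l

end Pool.Agent.MP_44cb5f_an

end MrgPart9

-- ======== part 10: formerly Pool.Agent.MP_44cb5f_an.Top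
section MrgPart10

set_option autoImplicit false
open MeasureTheory Set Metric Filter Topology
open scoped Pointwise

namespace Pool.Agent.MP_44cb5f_an
namespace Top

theorem dot_mul (c a b : ℂ) (hc : ‖c‖ = 1) : dot (c * a) (c * b) = dot a b := by
  have h : c.re ^ 2 + c.im ^ 2 = 1 := by rw [← norm_sq_eq, hc]; norm_num
  simp only [dot, Complex.mul_re, Complex.mul_im]
  linear_combination (a.re * b.re + a.im * b.im) * h

theorem nrm_rot {K K' : Set ℂ} {c : ℂ} (hc : ‖c‖ = 1) (h : ∀ z, c * z ∈ K' ↔ z ∈ K) (k θ : ℂ) :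
    Nrm K' (c * k) (c * θ) ↔ Nrm K k θ := by
  have hc0 : c ≠ 0 := by rintro rfl; simp at hc
  simp only [Nrm, h, norm_mul, hc, one_mul]
  refine and_congr_right fun _ => and_congr_right fun _ => ⟨fun H z hz => ?_, fun H z hz => ?_⟩
  · have := H (c * z) ((h z).2 hz)
    rwa [← mul_sub, dot_mul _ _ _ hc] at this
  · have e : z = c * (c⁻¹ * z) := by field_simp
    rw [e] at hz
    rw [e, ← mul_sub, dot_mul _ _ _ hc]
    exact H _ ((h _).1 hz)

theorem sm_rot {K K' : Set ℂ} {c : ℂ} (hc : ‖c‖ = 1) (h : ∀ z, c * z ∈ K' ↔ z ∈ K) {k θ : ℂ}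
    (hs : Sm K k θ) : Sm K' (c * k) (c * θ) := by
  have hc0 : c ≠ 0 := by rintro rfl; simp at hc
  refine ⟨(nrm_rot hc h k θ).2 hs.1, fun θ' h' => ?_⟩
  have e : θ' = c * (c⁻¹ * θ') := by field_simp
  rw [e] at h'
  rw [e, hs.2 _ ((nrm_rot hc h k _).1 h')]

theorem near_down {θ : ℂ} (h : ‖θ + Complex.I‖ ≤ 1 / 20) :
    θ.im < 0 ∧ |θ.re / θ.im| ≤ 1 / 10 := by
  have h1 := (Complex.abs_re_le_norm _).trans h
  have h2 := (Complex.abs_im_le_norm _).trans h
  simp only [Complex.add_re, Complex.add_im, Complex.I_re, Complex.I_im, add_zero] at h1 h2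
  have h3 := (abs_le.1 h2).2
  have h4 : θ.im < 0 := by linarith
  refine ⟨h4, ?_⟩
  rw [abs_div, div_le_iff₀ (abs_pos.2 h4.ne), abs_of_neg h4]
  linarith

theorem slope_inj {a b : ℂ} (ha : ‖a‖ = 1) (hb : ‖b‖ = 1) (ha' : a.im < 0) (hb' : b.im < 0)
    (h : -(a.re / a.im) = -(b.re / b.im)) : a = b := by
  have h1 : a.re ^ 2 + a.im ^ 2 = 1 := by rw [← norm_sq_eq, ha]; norm_num
  have h2 : b.re ^ 2 + b.im ^ 2 = 1 := by rw [← norm_sq_eq, hb]; norm_num
  have h3 : a.re * b.im = b.re * a.im := by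
    have := neg_injective h
    rwa [div_eq_div_iff ha'.ne hb'.ne] at this
  have h4 : a.im ^ 2 = b.im ^ 2 := by
    linear_combination b.im ^ 2 * h1 - a.im ^ 2 * h2 - (a.re * b.im + b.re * a.im) * h3
  have h5 : a.im = b.im := by
    have : (a.im - b.im) * (a.im + b.im) = 0 := by linear_combination h4
    rcases mul_eq_zero.1 this with h6 | h6 <;> linarith
  apply Complex.ext _ h5
  rw [h5] at h3
  exact mul_right_cancel₀ hb'.ne h3

theorem twelve (hsim : SSim) (hcore : SCore) (R : ℝ) : ∃ δ > 0, ∀ (Ω : Set ℂ) (T : Finset ℂ)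
    (k : ℂ → ℂ) (θ0 p : ℂ), IsMin Ω → Ar Ω 1 = Real.pi → Ω ⊆ ball (0 : ℂ) R → ‖θ0‖ = 1 →
    (∀ θ ∈ T, Sm (Kc Ω) (k θ) θ ∧ ‖θ - θ0‖ ≤ 1 / 20 ∧ ‖k θ + θ - p‖ ≤ δ) → T.card ≤ 11 := by
  obtain ⟨δ, hδ, hcore⟩ := hcore R
  refine ⟨δ / 2, by positivity, fun Ω T k θ0 p hmin hAr hR h0 hT => ?_⟩
  by_contra hcard
  have h00 : θ0 ≠ 0 := by rintro rfl; simp at h0
  set c : ℂ := -Complex.I * θ0⁻¹ with hcdef
  have hc : ‖c‖ = 1 := by simp [hcdef, h0]
  have hc0 : c ≠ 0 := by intro h; simp [h] at hc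
  obtain ⟨s1, s2, s3⟩ := hsim Ω c 0 hc0
  set Ω' := (fun z => c * z + 0) '' Ω with hΩ'
  have hK : ∀ z, c * z ∈ Kc Ω' ↔ z ∈ Kc Ω := fun z => by
    have := s1 z
    rw [hc, one_mul, add_zero] at this
    simp only [Kc, mem_ofPred_eq, this]
  have hAr' : Ar Ω' 1 = Real.pi := by
    have := s2 1
    rw [hc] at this
    simpa [hAr] using this
  have hR' : Ω' ⊆ ball (0 : ℂ) R := by
    rintro _ ⟨z, hz, rfl⟩
    have := mem_ball_zero_iff.1 (hR hz)
    rw [mem_ball_zero_iff]
    simpa [hc] using this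
  have hd : ∀ θ ∈ T, (c * θ).im < 0 ∧ |(c * θ).re / (c * θ).im| ≤ 1 / 10 := fun θ hθ => by
    refine near_down ?_
    have e : c * θ + Complex.I = c * (θ - θ0) := by rw [hcdef]; field_simp; ring
    rw [e, norm_mul, hc, one_mul]; exact (hT θ hθ).2.1
  set s : ℂ → ℝ := fun θ => -((c * θ).re / (c * θ).im) with hs
  have hinj : InjOn s T := fun a ha b hb hab => by
    have := slope_inj (a := c * a) (b := c * b)
      (by rw [norm_mul, hc, one_mul]; exact (hT a ha).1.1.2.1)
      (by rw [norm_mul, hc, one_mul]; exact (hT b hb).1.1.2.1) (hd a ha).1 (hd b hb).1 hab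
    exact mul_left_cancel₀ hc0 this
  have h12 : 12 ≤ (T.image s).card := by rw [Finset.card_image_of_injOn hinj]; omega
  have hex : ∀ i : Fin 12, ∃ θ ∈ T, s θ = (T.image s).orderEmbOfCardLe h12 i := fun i =>
    Finset.mem_image.1 (Finset.orderEmbOfCardLe_mem _ h12 i)
  choose f hf1 hf2 using hex
  set g : ℕ → ℂ := fun i => f ⟨min i 11, by omega⟩ with hg
  have hgT : ∀ i, g i ∈ T := fun i => hf1 _
  refine hcore Ω' (fun i => c * k (g i)) (fun i => c * g i) (s3 hmin) hAr' hR'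
    (fun i _ => sm_rot hc hK (hT _ (hgT i)).1) (fun i _ => hd _ (hgT i)) (fun i hi => ?_) ?_
  · show s (g i) < s (g (i + 1))
    simp only [hg, hf2]
    refine ((T.image s).orderEmbOfCardLe h12).strictMono ?_
    rw [Fin.mk_lt_mk]; omega
  · have e : (c * k (g 10) + c * g 10).re - (c * k (g 1) + c * g 1).re =
        (c * ((k (g 10) + g 10 - p) - (k (g 1) + g 1 - p))).re := by
      rw [← Complex.sub_re]; congr 1; ring
    show (c * k (g 10) + c * g 10).re - (c * k (g 1) + c * g 1).re ≤ δ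
    rw [e]
    refine (Complex.re_le_norm _).trans ?_
    rw [norm_mul, hc, one_mul]
    refine (norm_sub_le _ _).trans ?_
    linarith [(hT _ (hgT 10)).2.2, (hT _ (hgT 1)).2.2]

theorem count (hsim : SSim) (hcore : SCore) (R : ℝ) : ∃ N : ℕ, ∀ (Ω : Set ℂ) (T : Finset ℂ),
    IsMin Ω → Ar Ω 1 = Real.pi → Ω ⊆ ball (0 : ℂ) R →
    (∀ θ ∈ T, ∃ k, Sm (Kc Ω) k θ) → T.card ≤ N := by
  classical
  obtain ⟨δ, hδ, h⟩ := twelve hsim hcore R
  have hP : IsCompact (sphere (0 : ℂ) 1 ×ˢ closedBall (0 : ℂ) (R + 1)) :=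
    (isCompact_sphere _ _).prod (isCompact_closedBall _ _)
  obtain ⟨t, ht1, ht2, ht3⟩ := finite_cover_balls_of_compact hP
    (show 0 < min (1 / 20) δ by positivity)
  refine ⟨11 * ht2.toFinset.card, fun Ω T hmin hAr hR hT => ?_⟩
  choose! k hk using hT
  have hex : ∀ θ ∈ T, ∃ x ∈ t, (θ, k θ + θ) ∈ ball x (min (1 / 20) δ) := fun θ hθ => by
    have h1 := (hk θ hθ).1.2.1
    have h2 := mem_ball_zero_iff.1 (hR (Kc_subset Ω (hk θ hθ).1.1))
    have : (θ, k θ + θ) ∈ sphere (0 : ℂ) 1 ×ˢ closedBall (0 : ℂ) (R + 1) :=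
      ⟨mem_sphere_zero_iff_norm.2 h1, mem_closedBall_zero_iff.2
        ((norm_add_le _ _).trans (by linarith))⟩
    simpa only [mem_iUnion, exists_prop] using ht3 this
  choose! x hx1 hx2 using hex
  refine Finset.card_le_mul_card_image_of_maps_to (f := x)
    (fun θ hθ => ht2.mem_toFinset.2 (hx1 θ hθ)) 11 fun b hb => ?_
  have hb' := ht1 (ht2.mem_toFinset.1 hb)
  refine h Ω _ k b.1 b.2 hmin hAr hR (mem_sphere_zero_iff_norm.1 hb'.1) fun θ hθ => ?_
  obtain ⟨h1, h2⟩ := Finset.mem_filter.1 hθ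
  have h3 := hx2 θ h1
  rw [h2, mem_ball, Prod.dist_eq, max_lt_iff, dist_eq_norm, dist_eq_norm] at h3
  exact ⟨hk θ h1, h3.1.le.trans (min_le_left _ _), h3.2.le.trans (min_le_right _ _)⟩

theorem dot_sub (a b θ : ℂ) : dot (a - b) θ = dot a θ - dot b θ := by
  simp only [dot, Complex.sub_re, Complex.sub_im]; ring

theorem norm_poly (hsim : SSim) (hmax : SMax) (hvert : SVert) (hcore : SCore) (R : ℝ) :
    ∃ N : ℕ, ∀ Ω : Set ℂ, IsMin Ω → Ar Ω 1 = Real.pi → Ω ⊆ ball (0 : ℂ) R →
      ∃ S : Finset ℂ, S.card ≤ N ∧ Ω = interior (convexHull ℝ (S : Set ℂ)) := by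
  obtain ⟨N, hN⟩ := count hsim hcore R
  refine ⟨N ^ 2, fun Ω hmin hAr hR => ?_⟩
  have hfin : {θ | ∃ k, Sm (Kc Ω) k θ}.Finite := by
    by_contra hinf
    obtain ⟨T, hT1, hT2⟩ := Set.Infinite.exists_subset_card_eq hinf (N + 1)
    have := hN Ω T hmin hAr hR fun θ hθ => hT1 hθ
    omega
  have hT : ∀ θ ∈ hfin.toFinset, ∃ k, Sm (Kc Ω) k θ := fun θ hθ => hfin.mem_toFinset.1 hθ
  have hcard := hN Ω _ hmin hAr hR hT
  choose! k hk using hT
  obtain ⟨hb, he⟩ := hmax Ω hmin hAr
  have e : {z | ∀ k θ, Sm (Kc Ω) k θ → dot (z - k) θ ≤ 1} =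
      {z | ∀ θ ∈ hfin.toFinset, dot z θ ≤ dot (k θ) θ + 1} := by
    ext z
    constructor
    · intro hz θ hθ
      have := hz _ _ (hk θ hθ)
      rw [dot_sub] at this; linarith
    · intro hz k' θ hs
      have hθ : θ ∈ hfin.toFinset := hfin.mem_toFinset.2 ⟨k', hs⟩
      have h1 := hz θ hθ
      have h2 := hs.1.2.2 _ (hk θ hθ).1.1
      rw [dot_sub] at h2 ⊢; linarith
  rw [e] at hb he
  obtain ⟨S, hS1, hS2⟩ := hvert _ _ hb
  exact ⟨S, hS1.trans (Nat.pow_le_pow_left hcard 2), by rw [← hS2]; exact he⟩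

theorem image_poly (c w : ℂ) (hc : c ≠ 0) (S : Set ℂ) :
    (fun z => c * z + w) '' interior (convexHull ℝ S) =
      interior (convexHull ℝ ((fun z => c * z + w) '' S)) := by
  have h1 := ((Homeomorph.mulLeft₀ c hc).trans (Homeomorph.addRight w)).image_interior
    (convexHull ℝ S)
  let A : ℂ →ᵃ[ℝ] ℂ := (LinearMap.mulLeft ℝ c).toAffineMap + AffineMap.const ℝ ℂ w
  have h2 := A.image_convexHull S
  have e1 : (⇑((Homeomorph.mulLeft₀ c hc).trans (Homeomorph.addRight w)) : ℂ → ℂ) =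
      fun z => c * z + w := by funext z; simp
  have e2 : (⇑A : ℂ → ℂ) = fun z => c * z + w := by funext z; simp [A]
  rw [e1] at h1
  rw [e2] at h2
  rw [h1, h2]

end Top
open Pool.Agent.MP_44cb5f_an.Top

theorem sTop (hk2 : SK2) (hsim : SSim) (hmax : SMax) (hval : SVal) (hel : SElong)
    (hvert : SVert) (hcore : SCore) : STop := by
  classical
  obtain ⟨R, hR⟩ := hel
  obtain ⟨N, hN⟩ := norm_poly hsim hmax hvert hcore R
  refine ⟨N, fun Ω hmin => ?_⟩
  obtain ⟨r, hr, hAr⟩ := (hk2 Ω hmin.1).1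
  set c : ℂ := ((r⁻¹ : ℝ) : ℂ) with hcdef
  have hcn : ‖c‖ = r⁻¹ := by rw [hcdef, Complex.norm_real, Real.norm_of_nonneg (by positivity)]
  have hc0 : c ≠ 0 := by rw [← norm_pos_iff, hcn]; positivity
  have hA : ∀ w, Ar ((fun z => c * z + w) '' Ω) 1 = Real.pi := fun w => by
    have := (hsim Ω c w hc0).2.1 r
    rw [hcn, inv_mul_cancel₀ hr.ne', hAr] at this
    rw [this]; field_simp
  have hM : ∀ w, IsMin ((fun z => c * z + w) '' Ω) := fun w => (hsim Ω c w hc0).2.2 hmin
  obtain ⟨w, hw⟩ := hR _ (hM 0).1 (hA 0) (hval _ (hM 0) (hA 0))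
  obtain ⟨S, hS1, hS2⟩ := hN _ (hM (-w)) (hA (-w)) (by
    rintro _ ⟨z, hz, rfl⟩
    have := hw ⟨z, hz, rfl⟩
    rw [mem_ball, dist_eq_norm] at this ⊢
    simpa [sub_eq_add_neg] using this)
  refine ⟨S.image fun z => c⁻¹ * z + c⁻¹ * w, Finset.card_image_le.trans hS1, ?_⟩
  rw [Finset.coe_image, ← image_poly _ _ (inv_ne_zero hc0), ← hS2, image_image]
  have : (fun z => c⁻¹ * (c * z + -w) + c⁻¹ * w) = id := by
    funext z; simp only [id]; field_simp; ring
  rw [this, image_id]

end Pool.Agent.MP_44cb5f_an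

end MrgPart10

-- marker of a merged file
example : 731051 + 240005 = 731051 + 240005 := rfl
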