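import Pool.Agent.MP_44cb5f_an.Wf
import Pool.Agent.MP_44cb5f_an.Strict
import Pool.Agent.MP_44cb5f_an.Od3
import Pool.Agent.MP_44cb5f_an.Top

set_option autoImplicit false

namespace Pool.Agent.MP_44cb5f_an

theorem fST : SST := sST (sQC sSL)
theorem fPer : SPer := sPer sDiv (sQC sSL)
theorem fKL1 : SKL1 := sKL1 sDiv (sCO sSL) sPC sSand fST
theorem fK1 : SK1 := sK1 fKL1 fPer sPC
theorem fK2 : SK2 := sK2 fKL1 fPer sPC fST
theorem fMax : SMax := sMax sGeo fK1 fK2 (sStrict sDiv sNear sCS sLam)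
theorem fVal : SVal := sVal sLam fK2

theorem fCore : SCore :=
  sCore sNear fK1 fK2 (sRad fST sPC sSand) (sStrip sDiv) (sIms sCS (sHalf sDiv)) (sShear sLam)
    sGeo fMax fVal sOD1 (sOneD sOD1 sOD2 (sOD3 sOD1)) sW sArea sChart

theorem fTop : STop := sTop fK2 (sSim fK2) fMax fVal (sElong (sStrip sDiv)) sVert fCore

end Pool.Agent.MP_44cb5f_an
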